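import Pool.Agent.helper15.SD.KickDefs

/-!
# M4: values of the kick function without wiggles
-/

open Set Filter Topology

namespace Pool.Agent.helper15.SD

section base
variable {L : ℝ} {β : ℕ}

theorem sg_nonneg (s : ℝ) : 0 ≤ sg s := Real.smoothTransition.nonneg _
theorem sg_le_one (s : ℝ) : sg s ≤ 1 := Real.smoothTransition.le_one _
theorem sg_zero {s : ℝ} (h : s ≤ 1 / 4) : sg s = 0 :=
  Real.smoothTransition.zero_of_nonpos (by linarith)
theorem sg_one {s : ℝ} (h : 1 / 2 ≤ s) : sg s = 1 :=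
  Real.smoothTransition.one_of_one_le (by linarith)

/-- `sg` is smooth, and each of its derivatives is bounded. -/
theorem sg_smooth (n : ℕ) : ContDiff ℝ n sg := by
  have h : ContDiff ℝ n Real.smoothTransition := Real.smoothTransition.contDiff
  have h2 : ContDiff ℝ n (fun s : ℝ => 4 * s - 1) := by fun_prop
  exact h.comp h2

theorem sg_lip : ∃ C : ℝ, 1 ≤ C ∧ ∀ s t, |sg s - sg t| ≤ C * |s - t| := by
  have h1 : ContDiff ℝ 1 sg := by exact_mod_cast sg_smooth 1
  have hc : Continuous (deriv sg) := h1.continuous_deriv le_rfl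
  obtain ⟨C, hC⟩ := (isCompact_Icc (a := (0:ℝ)) (b := 1)).exists_bound_of_continuousOn
    hc.continuousOn
  have hb : ∀ s, ‖deriv sg s‖ ≤ max C 1 := by
    intro s
    by_cases hs : s ∈ Icc (0:ℝ) 1
    · exact (hC s hs).trans (le_max_left _ _)
    · have h0 : deriv sg s = 0 := by
        rw [mem_Icc, not_and_or, not_le, not_le] at hs
        rcases hs with hs | hs
        · have : sg =ᶠ[𝓝 s] fun _ => (0:ℝ) := by
            filter_upwards [Iio_mem_nhds hs] with t ht
            exact sg_zero (by have : t < 0 := ht; linarith)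
          rw [this.deriv_eq, deriv_const]
        · have : sg =ᶠ[𝓝 s] fun _ => (1:ℝ) := by
            filter_upwards [Ioi_mem_nhds hs] with t ht
            exact sg_one (by have : 1 < t := ht; linarith)
          rw [this.deriv_eq, deriv_const]
      rw [h0, norm_zero]
      exact zero_le_one.trans (le_max_right _ _)
  refine ⟨max C 1, le_max_right _ _, fun s t => ?_⟩
  have h := Convex.norm_image_sub_le_of_norm_deriv_le (s := univ) (f := sg) (x := t) (y := s)
    (fun x _ => (h1.differentiable (by norm_num)).differentiableAt) (fun x _ => hb x) convex_univ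
    (mem_univ _) (mem_univ _)
  simpa [Real.norm_eq_abs] using h

theorem rr_pos (hL : 1000 ≤ L) (i : ℕ) : 0 < rr L i := by
  unfold rr; positivity

theorem rr_le (hL : 1000 ≤ L) (i : ℕ) : rr L i ≤ 1 / 25 := by
  unfold rr
  have h1 : (1:ℝ) ≤ L ^ (2 * i) := one_le_pow₀ (by linarith)
  rw [div_le_iff₀ (by positivity)]
  nlinarith

theorem xx_ge (hL : 1000 ≤ L) (i : ℕ) : 21 / 100 ≤ xx L i := by
  unfold xx; linarith [rr_le hL i]

theorem xx_le (hL : 1000 ≤ L) (i : ℕ) : xx L i ≤ 1 / 4 := by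
  unfold xx; linarith [rr_pos hL i]

theorem bb_zero : bb L β 0 = 1 / 2 := by simp [bb]

theorem bb_succ (i : ℕ) : bb L β (i + 1) = xx L (i + 1) / L ^ nn β (i + 1) := by
  simp [bb]

theorem bb_pos (hL : 1000 ≤ L) (i : ℕ) : 0 < bb L β i := by
  have hL0 : (0:ℝ) < L := by linarith
  rcases i with _ | i
  · rw [bb_zero]; norm_num
  · rw [bb_succ]
    have := xx_ge hL (i + 1)
    exact div_pos (by linarith) (pow_pos hL0 _)

theorem bb_le (hL : 1000 ≤ L) (i : ℕ) : bb L β i ≤ 1 / L ^ (4 * β * i) := by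
  have hL0 : (0:ℝ) < L := by linarith
  rcases i with _ | i
  · rw [bb_zero]; norm_num
  · rw [bb_succ, nn, pow_succ]
    have h1 := xx_le hL (i + 1)
    have h2 : 0 < L ^ (4 * β * (i + 1)) := pow_pos hL0 _
    rw [div_le_div_iff₀ (by positivity) h2]
    nlinarith

theorem bb_anti (hL : 1000 ≤ L) (hβ : 2 ≤ β) (i : ℕ) : bb L β (i + 1) ≤ bb L β i := by
  have hL0 : (0:ℝ) < L := by linarith
  rcases i with _ | i
  · rw [bb_zero]
    refine (bb_le hL 1).trans ?_
    have h1 : L ^ 1 ≤ L ^ (4 * β * 1) := pow_le_pow_right₀ (by linarith) (by omega)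
    rw [div_le_div_iff₀ (by positivity) (by norm_num)]
    linarith [pow_one L]
  · rw [bb_succ, bb_succ]
    have h1 := xx_le hL (i + 1 + 1)
    have h2 := xx_ge hL (i + 1)
    have h3 : L ^ nn β (i + 1) * L ^ 1 ≤ L ^ nn β (i + 1 + 1) := by
      rw [← pow_add]
      refine pow_le_pow_right₀ (by linarith) ?_
      unfold nn
      nlinarith
    have h4 : 0 < L ^ nn β (i + 1) := pow_pos hL0 _
    rw [div_le_div_iff₀ (pow_pos hL0 _) h4]
    have h5 : xx L (i + 1 + 1) * L ^ nn β (i + 1) ≤ 1 / 4 * L ^ nn β (i + 1) := by gcongr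
    have h6 : 21 / 100 * (L ^ nn β (i + 1) * L ^ 1) ≤ xx L (i + 1) * L ^ nn β (i + 1 + 1) := by
      gcongr
    rw [pow_one] at h6
    nlinarith

theorem tendsto_bb (hL : 1000 ≤ L) (hβ : 2 ≤ β) : Tendsto (fun i => bb L β i) atTop (𝓝 0) := by
  have hL0 : (0:ℝ) < L := by linarith
  have h1 : Tendsto (fun i : ℕ => (1 / L) ^ i) atTop (𝓝 0) :=
    tendsto_pow_atTop_nhds_zero_of_lt_one (by positivity) (by
      rw [div_lt_one hL0]; linarith)
  refine squeeze_zero (fun i => (bb_pos hL i).le) (fun i => ?_) h1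
  refine (bb_le hL i).trans ?_
  rw [div_pow, one_pow]
  apply one_div_le_one_div_of_le (pow_pos hL0 _)
  exact pow_le_pow_right₀ (by linarith) (by nlinarith)

theorem bb_hasSum (hL : 1000 ≤ L) (hβ : 2 ≤ β) (i : ℕ) :
    HasSum (fun j => bb L β (i + j) - bb L β (i + j + 1)) (bb L β i) := by
  rw [hasSum_iff_tendsto_nat_of_nonneg (fun j => sub_nonneg.2 (bb_anti hL hβ _))]
  have h : ∀ n, ∑ j ∈ Finset.range n, (bb L β (i + j) - bb L β (i + j + 1))
      = bb L β i - bb L β (i + n) := by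
    intro n
    have := Finset.sum_range_sub' (fun j => bb L β (i + j)) n
    simpa [add_assoc] using this
  simp only [h]
  have h2 : Tendsto (fun n => bb L β (i + n)) atTop (𝓝 0) := by
    have := (tendsto_add_atTop_iff_nat (f := fun n => bb L β n) i).2 (tendsto_bb hL hβ)
    simpa [add_comm] using this
  simpa using tendsto_const_nhds.sub h2

theorem bb_sub_nonneg (hL : 1000 ≤ L) (hβ : 2 ≤ β) (i : ℕ) : 0 ≤ bb L β i - bb L β (i + 1) :=
  sub_nonneg.2 (bb_anti hL hβ i)

theorem base_term_nonneg (hL : 1000 ≤ L) (hβ : 2 ≤ β) (u : ℝ) (i : ℕ) :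
    0 ≤ (bb L β i - bb L β (i + 1)) * sg ((1 / 4 - u) / rr L i) ^ β :=
  mul_nonneg (bb_sub_nonneg hL hβ i) (pow_nonneg (sg_nonneg _) _)

theorem base_term_le (hL : 1000 ≤ L) (hβ : 2 ≤ β) (u : ℝ) (i : ℕ) :
    (bb L β i - bb L β (i + 1)) * sg ((1 / 4 - u) / rr L i) ^ β ≤ bb L β i - bb L β (i + 1) :=
  mul_le_of_le_one_right (bb_sub_nonneg hL hβ i) (pow_le_one₀ (sg_nonneg _) (sg_le_one _))

theorem base_summable (hL : 1000 ≤ L) (hβ : 2 ≤ β) (u : ℝ) :
    Summable (fun i => (bb L β i - bb L β (i + 1)) * sg ((1 / 4 - u) / rr L i) ^ β) := by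
  refine Summable.of_nonneg_of_le (base_term_nonneg hL hβ u) (base_term_le hL hβ u) ?_
  have := (bb_hasSum hL hβ 0).summable
  simpa using this

theorem base_left (hL : 1000 ≤ L) (hβ : 2 ≤ β) {u : ℝ} (hu : u ≤ 23 / 100) :
    base L β u = 1 / 2 := by
  have hβ0 : β ≠ 0 := by omega
  unfold base
  have h1 : sg (25 * (u - 13 / 50)) = 0 := sg_zero (by linarith)
  have h2 : ∀ i : ℕ, sg ((1 / 4 - u) / rr L i) = 1 := by
    intro i
    apply sg_one
    rw [le_div_iff₀ (rr_pos hL i)]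
    linarith [rr_le hL i]
  simp only [h1, h2, one_pow, mul_one, zero_pow hβ0, mul_zero, add_zero]
  have := (bb_hasSum (β := β) hL hβ 0).tsum_eq
  rw [bb_zero] at this
  simpa using this

theorem base_right (hL : 1000 ≤ L) (hβ : 2 ≤ β) {u : ℝ} (hu : 28 / 100 ≤ u) :
    base L β u = 1 / 2 := by
  have hβ0 : β ≠ 0 := by omega
  unfold base
  have h1 : sg (25 * (u - 13 / 50)) = 1 := sg_one (by linarith)
  have h2 : ∀ i : ℕ, sg ((1 / 4 - u) / rr L i) = 0 := by
    intro i
    apply sg_zero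
    have : (1 / 4 - u) / rr L i ≤ 0 := div_nonpos_of_nonpos_of_nonneg (by linarith) (rr_pos hL i).le
    linarith
  simp only [h1, h2, zero_pow hβ0, mul_zero, tsum_zero, one_pow, mul_one, zero_add]

theorem base_flat (hL : 1000 ≤ L) (hβ : 2 ≤ β) {u : ℝ} (h1 : 1 / 4 ≤ u) (h2 : u ≤ 27 / 100) :
    base L β u = 0 := by
  have hβ0 : β ≠ 0 := by omega
  unfold base
  have h3 : sg (25 * (u - 13 / 50)) = 0 := sg_zero (by linarith)
  have h4 : ∀ i : ℕ, sg ((1 / 4 - u) / rr L i) = 0 := by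
    intro i
    apply sg_zero
    have : (1 / 4 - u) / rr L i ≤ 0 := div_nonpos_of_nonpos_of_nonneg (by linarith) (rr_pos hL i).le
    linarith
  simp only [h3, h4, zero_pow hβ0, mul_zero, tsum_zero, add_zero]

theorem rr_mono (hL : 1000 ≤ L) {i j : ℕ} (hij : i ≤ j) : rr L j ≤ rr L i := by
  unfold rr
  have h1 : L ^ (2 * i) ≤ L ^ (2 * j) := pow_le_pow_right₀ (by linarith) (by omega)
  gcongr

theorem rr_lt (hL : 1000 ≤ L) {i j : ℕ} (hij : i < j) : 1000 * rr L j ≤ rr L i := by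
  have hL0 : (0:ℝ) < L := by linarith
  unfold rr
  have h1 : L ^ (2 * i) * L ^ 1 ≤ L ^ (2 * j) := by
    rw [← pow_add]
    exact pow_le_pow_right₀ (by linarith) (by omega)
  have h2 : 0 < L ^ (2 * i) := pow_pos hL0 _
  have h3 : 1000 * L ^ (2 * i) ≤ L ^ (2 * j) := by rw [pow_one] at h1; nlinarith
  rw [← mul_div_assoc, div_le_div_iff₀ (pow_pos hL0 _) h2]
  nlinarith

theorem ll_eq (i : ℕ) : ll L i = rr L i / 4 := by
  unfold ll rr; ring

theorem base_window (hL : 1000 ≤ L) (hβ : 2 ≤ β) {i : ℕ} (hi : 1 ≤ i) {u : ℝ}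
    (hu : |u - xx L i| ≤ ll L i) : base L β u = xx L i / L ^ nn β i := by
  have hβ0 : β ≠ 0 := by omega
  have hr := rr_pos hL i
  rw [ll_eq, abs_le, xx] at hu
  unfold base
  have h1 : sg (25 * (u - 13 / 50)) = 0 := sg_zero (by linarith)
  have h2 : ∀ j : ℕ, i ≤ j → sg ((1 / 4 - u) / rr L j) = 1 := by
    intro j hj
    apply sg_one
    rw [le_div_iff₀ (rr_pos hL j)]
    linarith [rr_mono hL hj]
  have h3 : ∀ j : ℕ, j < i → sg ((1 / 4 - u) / rr L j) = 0 := by
    intro j hj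
    apply sg_zero
    rw [div_le_iff₀ (rr_pos hL j)]
    linarith [rr_lt hL hj]
  rw [h1, zero_pow hβ0, mul_zero, add_zero, ← (base_summable hL hβ u).sum_add_tsum_nat_add i]
  have h4 : ∑ j ∈ Finset.range i, (bb L β j - bb L β (j + 1)) * sg ((1 / 4 - u) / rr L j) ^ β = 0 := by
    apply Finset.sum_eq_zero
    intro j hj
    rw [h3 j (Finset.mem_range.1 hj), zero_pow hβ0, mul_zero]
  have h5 : ∀ j : ℕ, (bb L β (j + i) - bb L β (j + i + 1)) * sg ((1 / 4 - u) / rr L (j + i)) ^ β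
      = bb L β (i + j) - bb L β (i + j + 1) := by
    intro j
    rw [h2 (j + i) (by omega), one_pow, mul_one, add_comm j i]
  simp only [h4, h5, zero_add, (bb_hasSum hL hβ i).tsum_eq]
  obtain ⟨k, rfl⟩ : ∃ k, i = k + 1 := ⟨i - 1, by omega⟩
  exact bb_succ k

theorem base_nonneg (hL : 1000 ≤ L) (hβ : 2 ≤ β) (u : ℝ) : 0 ≤ base L β u := by
  unfold base
  have h1 : 0 ≤ ∑' i : ℕ, (bb L β i - bb L β (i + 1)) * sg ((1 / 4 - u) / rr L i) ^ β :=
    tsum_nonneg (base_term_nonneg hL hβ u)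
  have h2 := pow_nonneg (sg_nonneg (25 * (u - 13 / 50))) β
  linarith

theorem base_le_half (hL : 1000 ≤ L) (hβ : 2 ≤ β) (u : ℝ) : base L β u ≤ 1 / 2 := by
  rcases le_total u (27 / 100) with h | h
  · have hβ0 : β ≠ 0 := by omega
    unfold base
    have h3 : sg (25 * (u - 13 / 50)) = 0 := sg_zero (by linarith)
    rw [h3, zero_pow hβ0, mul_zero, add_zero]
    have h4 : Summable (fun i => bb L β i - bb L β (i + 1)) := by
      simpa using (bb_hasSum (β := β) hL hβ 0).summable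
    have h5 := (base_summable hL hβ u).tsum_le_tsum (base_term_le hL hβ u) h4
    have h6 : ∑' i, (bb L β i - bb L β (i + 1)) = 1 / 2 := by
      have := (bb_hasSum (β := β) hL hβ 0).tsum_eq
      rw [bb_zero] at this
      simpa using this
    linarith
  · have hβ0 : β ≠ 0 := by omega
    unfold base
    have h4 : ∀ i : ℕ, sg ((1 / 4 - u) / rr L i) = 0 := by
      intro i
      apply sg_zero
      have : (1 / 4 - u) / rr L i ≤ 0 :=
        div_nonpos_of_nonpos_of_nonneg (by linarith) (rr_pos hL i).le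
      linarith
    simp only [h4, zero_pow hβ0, mul_zero, tsum_zero, zero_add]
    have h5 : sg (25 * (u - 13 / 50)) ^ β ≤ 1 := pow_le_one₀ (sg_nonneg _) (sg_le_one _)
    linarith

end base

end Pool.Agent.helper15.SD
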