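import Pool.Agent.helper15.SD.Defs

/-!
# The explicit kick function: definitions
-/

open Set Filter Topology

namespace Pool.Agent.helper15.SD

/-- smooth step: `0` for `s ≤ 1/4`, `1` for `1/2 ≤ s` -/
noncomputable def sg (s : ℝ) : ℝ := Real.smoothTransition (4 * s - 1)

/-- the plateau values -/
noncomputable def bb (L : ℝ) (β i : ℕ) : ℝ := if i = 0 then 1 / 2 else xx L i / L ^ nn β i

/-- the kick function without wiggles -/
noncomputable def base (L : ℝ) (β : ℕ) (u : ℝ) : ℝ :=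
  (∑' i : ℕ, (bb L β i - bb L β (i + 1)) * sg ((1 / 4 - u) / rr L i) ^ β) +
    1 / 2 * sg (25 * (u - 13 / 50)) ^ β

/-- plateau function: `1` for `|s| ≤ 1/2`, `0` for `1 ≤ |s|` -/
noncomputable def chi (s : ℝ) : ℝ :=
  Real.smoothTransition (2 * (1 - s)) * Real.smoothTransition (2 * (1 + s))

/-- the wiggle of the `i`-th window -/
noncomputable def om (L : ℝ) (N : ℕ → ℕ) (i : ℕ) (u : ℝ) : ℝ :=
  chi ((u - xx L i) / ll L i) * Real.sin (N i * Real.pi * (u - xx L i) / ll L i)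

/-- the sum of all wiggles (windows `1, 2, …`) -/
noncomputable def wig (L : ℝ) (β : ℕ) (N : ℕ → ℕ) (u : ℝ) : ℝ :=
  ∑' i : ℕ, ll L (i + 1) / 2 / L ^ nn β (i + 1) * om L N (i + 1) u

end Pool.Agent.helper15.SD
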