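import Pool.Agent.helper15.SD.Hol1
import Pool.Agent.helper15.SD.KickDefs

/-! The plateau function is in the Hölder classes, and Lipschitz uniformly in `L`. -/

open Set Filter Topology

namespace Pool.Agent.helper15.SD

namespace BaseHolAux

/-- the smooth step `sg ^ β` -/
noncomputable def PP (β : ℕ) (s : ℝ) : ℝ := sg s ^ β

lemma sg_contDiff (n : ℕ) : ContDiff ℝ n sg := by
  have h : ContDiff ℝ (((n : ℕ∞)) : WithTop ℕ∞) Real.smoothTransition :=
    Real.smoothTransition.contDiff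
  have h2 : ContDiff ℝ (n : WithTop ℕ∞) Real.smoothTransition := by exact_mod_cast h
  exact h2.comp ((contDiff_const.mul contDiff_id).sub contDiff_const)

lemma sg_mem (s : ℝ) : 0 ≤ sg s ∧ sg s ≤ 1 :=
  ⟨Real.smoothTransition.nonneg _, Real.smoothTransition.le_one _⟩

lemma PP_contDiff (β n : ℕ) : ContDiff ℝ n (PP β) := (sg_contDiff n).pow β

lemma PP_left {β : ℕ} (hβ : 2 ≤ β) {s : ℝ} (h : s < 1 / 4) : PP β s = 0 := by
  unfold PP sg
  rw [Real.smoothTransition.zero_of_nonpos (by linarith), zero_pow (by omega)]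

lemma PP_right (β : ℕ) {s : ℝ} (h : 1 / 2 < s) : PP β s = 1 := by
  unfold PP sg
  rw [Real.smoothTransition.one_of_one_le (by linarith), one_pow]

lemma PP_bdd {β : ℕ} (hβ : 2 ≤ β) (j : ℕ) : ∃ C : ℝ, 1 ≤ C ∧ ∀ x, |iteratedDeriv j (PP β) x| ≤ C := by
  have hc : Continuous (iteratedDeriv j (PP β)) := (PP_contDiff β j).continuous_iteratedDeriv' j
  obtain ⟨C, hC⟩ := isCompact_Icc.exists_bound_of_continuousOn (s := Icc (0 : ℝ) 1)
    hc.continuousOn
  have hconst : ∀ c : ℝ, |c| ≤ 1 → ∀ x : ℝ, PP β =ᶠ[𝓝 x] (fun _ => c) →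
      |iteratedDeriv j (PP β) x| ≤ 1 := by
    intro c hc x hx
    rw [hx.iteratedDeriv_eq j, iteratedDeriv_const]
    split_ifs
    · exact hc
    · simp
  refine ⟨max C 1, le_max_right _ _, fun x => ?_⟩
  rcases lt_or_ge x 0 with h | h
  · refine (hconst 0 (by norm_num) x ?_).trans (le_max_right _ _)
    filter_upwards [Iio_mem_nhds (show x < 1 / 4 by linarith)] with y hy
    exact PP_left hβ hy
  rcases lt_or_ge 1 x with h' | h'
  · refine (hconst 1 (by norm_num) x ?_).trans (le_max_right _ _)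
    filter_upwards [Ioi_mem_nhds (show 1 / 2 < x by linarith)] with y hy
    exact PP_right β hy
  · rw [← Real.norm_eq_abs]
    exact (hC x ⟨h, h'⟩).trans (le_max_left _ _)

lemma exists_bdd {β : ℕ} (hβ : 2 ≤ β) (n : ℕ) : ∃ C : ℝ, 1 ≤ C ∧ ∀ j ≤ n, ∀ x,
    |iteratedDeriv j (PP β) x| ≤ C := by
  induction n with
  | zero =>
    obtain ⟨C, h1, h2⟩ := PP_bdd hβ 0
    exact ⟨C, h1, fun j hj x => by obtain rfl : j = 0 := by omega
                                   exact h2 x⟩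
  | succ n ih =>
    obtain ⟨C, h1, h2⟩ := ih
    obtain ⟨D, h3, h4⟩ := PP_bdd hβ (n + 1)
    refine ⟨max C D, h1.trans (le_max_left _ _), fun j hj x => ?_⟩
    rcases Nat.lt_or_ge j (n + 1) with h | h
    · exact (h2 j (by omega) x).trans (le_max_left _ _)
    · obtain rfl : j = n + 1 := by omega
      exact (h4 x).trans (le_max_right _ _)

/-- derivatives of an affine rescaling -/
lemma iteratedDeriv_affine (β : ℕ) (a b : ℝ) (j : ℕ) (x : ℝ) :
    iteratedDeriv j (fun u => PP β (a * u + b)) x = a ^ j * iteratedDeriv j (PP β) (a * x + b) := by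
  have h1 : ContDiff ℝ j (fun s => PP β (s + b)) := (PP_contDiff β j).comp
    (contDiff_id.add contDiff_const)
  have h2 := congrFun (iteratedDeriv_comp_const_mul h1 a) x
  refine h2.trans ?_
  congr 1
  exact congrFun (iteratedDeriv_comp_add_const j (PP β) b) (a * x)

lemma affine_contDiff (β n : ℕ) (a b : ℝ) : ContDiff ℝ n (fun u => PP β (a * u + b)) :=
  (PP_contDiff β n).comp ((contDiff_const.mul contDiff_id).add contDiff_const)

variable {L : ℝ} {β : ℕ}

lemma rr_pos (hL : 1000 ≤ L) (i : ℕ) : 0 < rr L i := by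
  unfold rr
  positivity

lemma rr_le (hL : 1000 ≤ L) (i : ℕ) : rr L i ≤ 1 / 25 := by
  unfold rr
  exact div_le_self (by norm_num) (one_le_pow₀ (by linarith))

lemma xx_mem (hL : 1000 ≤ L) (i : ℕ) : 1 / 5 ≤ xx L i ∧ xx L i ≤ 1 / 4 := by
  have h1 := rr_pos hL i
  have h2 := rr_le hL i
  unfold xx
  constructor <;> linarith

lemma bb_pos' (hL : 1000 ≤ L) (i : ℕ) : 0 < bb L β i := by
  unfold bb
  split_ifs with h
  · norm_num
  · have := (xx_mem hL i).1
    positivity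

lemma bb_le' (hL : 1000 ≤ L) (i : ℕ) : bb L β i ≤ 1 / L ^ (4 * β * i) := by
  unfold bb
  split_ifs with h
  · subst h; norm_num
  · have h1 := xx_mem hL i
    have hp : 0 < L ^ (4 * β * i) := by positivity
    unfold nn
    rw [pow_succ, div_le_div_iff₀ (by positivity) hp]
    have h3 : xx L i ≤ L := by linarith [h1.2]
    nlinarith [mul_le_mul_of_nonneg_right h3 hp.le]

lemma bb_anti' (hL : 1000 ≤ L) (hβ : 2 ≤ β) (i : ℕ) : bb L β (i + 1) ≤ bb L β i := by
  have hL1 : (1 : ℝ) ≤ L := by linarith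
  have h1 := xx_mem hL (i + 1)
  rcases Nat.eq_zero_or_pos i with rfl | hi
  · have h2 := bb_le' (β := β) hL (0 + 1)
    have h3 : (2 : ℝ) ≤ L ^ (4 * β * (0 + 1)) := by
      calc (2 : ℝ) ≤ L ^ 1 := by rw [pow_one]; linarith
        _ ≤ _ := pow_le_pow_right₀ hL1 (by omega)
    have h4 : 1 / L ^ (4 * β * (0 + 1)) ≤ 1 / 2 := one_div_le_one_div_of_le (by norm_num) h3
    have h5 : bb L β 0 = 1 / 2 := by simp [bb]
    rw [h5]
    exact h2.trans h4
  · have h2 := xx_mem hL i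
    unfold bb
    rw [if_neg (by omega), if_neg (by omega)]
    have hp : 0 < L ^ nn β i := by positivity
    have e : nn β (i + 1) = nn β i + 4 * β := by unfold nn; ring
    rw [e, pow_add, div_le_div_iff₀ (by positivity) hp]
    have h3 : (2 : ℝ) ≤ L ^ (4 * β) := by
      calc (2 : ℝ) ≤ L ^ 1 := by rw [pow_one]; linarith
        _ ≤ _ := pow_le_pow_right₀ hL1 (by omega)
    have h4 : xx L (i + 1) ≤ xx L i * L ^ (4 * β) := by nlinarith [h1.2, h2.1]
    calc xx L (i + 1) * L ^ nn β i ≤ (xx L i * L ^ (4 * β)) * L ^ nn β i := by gcongr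
      _ = _ := by ring

lemma c_nonneg (hL : 1000 ≤ L) (hβ : 2 ≤ β) (i : ℕ) : 0 ≤ bb L β i - bb L β (i + 1) := by
  linarith [bb_anti' hL hβ i]

lemma c_le (hL : 1000 ≤ L) (i : ℕ) : bb L β i - bb L β (i + 1) ≤ 1 / L ^ (4 * β * i) := by
  linarith [bb_le' (β := β) hL i, bb_pos' (β := β) hL (i + 1)]

/-- the main estimate: `c_i / rr_i ^ j ≤ 25 ^ j / 2 ^ i` -/
lemma c_mul_le (hL : 1000 ≤ L) (hβ : 2 ≤ β) {j : ℕ} (hj : j ≤ β) (i : ℕ) :
    (bb L β i - bb L β (i + 1)) * (1 / rr L i) ^ j ≤ 25 ^ j * (1 / 2) ^ i := by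
  have hL1 : (1 : ℝ) ≤ L := by linarith
  have h1 : 1 / rr L i = 25 * L ^ (2 * i) := by
    unfold rr
    field_simp
  rw [h1, mul_pow, ← pow_mul]
  have h2 : L ^ (2 * i * j) ≤ L ^ (2 * β * i) := by
    apply pow_le_pow_right₀ hL1
    calc 2 * i * j ≤ 2 * i * β := Nat.mul_le_mul_left _ hj
      _ = 2 * β * i := by ring
  have h3 : (2 : ℝ) ^ i ≤ L ^ (2 * β * i) := by
    rw [pow_mul]
    apply pow_le_pow_left₀ (by norm_num)
    calc (2 : ℝ) ≤ L ^ 1 := by rw [pow_one]; linarith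
      _ ≤ _ := pow_le_pow_right₀ hL1 (by omega)
  have hpos : 0 < L ^ (2 * β * i) := by positivity
  calc (bb L β i - bb L β (i + 1)) * (25 ^ j * L ^ (2 * i * j))
      ≤ 1 / L ^ (4 * β * i) * (25 ^ j * L ^ (2 * β * i)) := by
        gcongr
        · exact c_le hL i
    _ = 25 ^ j * (1 / L ^ (2 * β * i)) := by
        have : L ^ (4 * β * i) = L ^ (2 * β * i) * L ^ (2 * β * i) := by
          rw [← pow_add]; congr 1; ring
        rw [this]
        field_simp
    _ ≤ 25 ^ j * (1 / 2) ^ i := by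
        have : 1 / L ^ (2 * β * i) ≤ 1 / (2 : ℝ) ^ i := one_div_le_one_div_of_le (by positivity) h3
        rw [one_div_pow]
        gcongr

/-- the `i`-th term -/
noncomputable def tm (L : ℝ) (β i : ℕ) (u : ℝ) : ℝ :=
  (bb L β i - bb L β (i + 1)) * PP β ((-(1 / rr L i)) * u + 1 / 4 * (1 / rr L i))

lemma tm_eq (i : ℕ) (u : ℝ) :
    tm L β i u = (bb L β i - bb L β (i + 1)) * sg ((1 / 4 - u) / rr L i) ^ β := by
  unfold tm PP
  congr 3
  ring

lemma tm_contDiff (n i : ℕ) : ContDiff ℝ n (tm L β i) :=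
  contDiff_const.mul (affine_contDiff β n _ _)

lemma tm_bound (hL : 1000 ≤ L) (hβ : 2 ≤ β) {C : ℝ} (hC0 : 0 ≤ C) {j : ℕ} (hj : j ≤ β)
    (hC : ∀ x, |iteratedDeriv j (PP β) x| ≤ C) (i : ℕ) (x : ℝ) :
    |iteratedDeriv j (tm L β i) x| ≤ C * 25 ^ j * (1 / 2) ^ i := by
  unfold tm
  rw [iteratedDeriv_const_mul _ (affine_contDiff β j _ _).contDiffAt, iteratedDeriv_affine,
    abs_mul, abs_mul, abs_of_nonneg (c_nonneg hL hβ i), abs_pow, abs_neg,
    abs_of_pos (one_div_pos.2 (rr_pos hL i))]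
  have h1 := c_mul_le hL hβ hj i
  have h2 := hC (-(1 / rr L i) * x + 1 / 4 * (1 / rr L i))
  have h3 : 0 ≤ (bb L β i - bb L β (i + 1)) * (1 / rr L i) ^ j :=
    mul_nonneg (c_nonneg hL hβ i) (pow_nonneg (one_div_pos.2 (rr_pos hL i)).le _)
  calc (bb L β i - bb L β (i + 1)) * ((1 / rr L i) ^ j *
        |iteratedDeriv j (PP β) (-(1 / rr L i) * x + 1 / 4 * (1 / rr L i))|)
      = ((bb L β i - bb L β (i + 1)) * (1 / rr L i) ^ j) *
        |iteratedDeriv j (PP β) (-(1 / rr L i) * x + 1 / 4 * (1 / rr L i))| := by ring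
    _ ≤ (25 ^ j * (1 / 2) ^ i) * C := by gcongr
    _ = C * 25 ^ j * (1 / 2) ^ i := by ring

lemma base_eq (u : ℝ) : base L β u = (∑' i : ℕ, tm L β i u) +
    1 / 2 * PP β (25 * u + -(13 / 2)) := by
  unfold base
  congr 1
  · exact tsum_congr fun i => (tm_eq i u).symm
  · unfold PP
    congr 3
    ring

end BaseHolAux

open BaseHolAux

variable {L : ℝ} {β : ℕ}

theorem base_holB (hL : 1000 ≤ L) (hβ : 2 ≤ β) {α : ℝ} (h0 : 0 ≤ α) (h1 : α ≤ 1) {k : ℕ}
    (hk : k + 2 ≤ β) : HolB α k (base L β) := by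
  obtain ⟨C, hC1, hC⟩ := exists_bdd hβ (k + 1)
  have hC0 : 0 ≤ C := by linarith
  set v : ℕ → ℕ → ℝ := fun j i => C * 25 ^ j * (1 / 2) ^ i with hv
  have hvs : ∀ j, Summable (v j) := fun j =>
    (summable_geometric_of_lt_one (by norm_num) (by norm_num)).mul_left _
  have hb : ∀ j i : ℕ, ∀ x : ℝ, j ≤ k + 1 → ‖iteratedFDeriv ℝ j (tm L β i) x‖ ≤ v j i := by
    intro j i x hj
    rw [norm_iteratedFDeriv_eq_norm_iteratedDeriv, Real.norm_eq_abs]
    exact tm_bound hL hβ hC0 (by omega) (hC j hj) i x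
  have hcd : ContDiff ℝ ((k + 1 : ℕ) : ℕ∞) (fun u => ∑' i : ℕ, tm L β i u) := by
    refine contDiff_tsum (𝕜 := ℝ) (v := v) (fun i => ?_) (fun j _ => hvs j) ?_
    · exact_mod_cast tm_contDiff (k + 1) i
    · intro j i x hj
      exact hb j i x (by exact_mod_cast hj)
  have hcd' : ContDiff ℝ ((k + 1 : ℕ) : WithTop ℕ∞) (fun u => ∑' i : ℕ, tm L β i u) := by
    exact_mod_cast hcd
  have hA : HolB α k (fun u => ∑' i : ℕ, tm L β i u) := by
    refine holB_of_contDiff_succ h0 h1 hcd' (C * 25 ^ (k + 1) * 2) ?_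
    intro j hj x
    have h2 : iteratedFDeriv ℝ j (fun u => ∑' i : ℕ, tm L β i u) x =
        ∑' i : ℕ, iteratedFDeriv ℝ j (tm L β i) x := by
      have := iteratedFDeriv_tsum (𝕜 := ℝ) (f := tm L β) (v := v) (N := ((k + 1 : ℕ) : ℕ∞))
        (fun i => by exact_mod_cast tm_contDiff (k + 1) i) (fun j _ => hvs j)
        (fun j i x hj => hb j i x (by exact_mod_cast hj)) (k := j) (by exact_mod_cast hj)
      exact congrFun this x
    rw [← Real.norm_eq_abs, ← norm_iteratedFDeriv_eq_norm_iteratedDeriv, h2]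
    have h3 : Summable fun i => ‖iteratedFDeriv ℝ j (tm L β i) x‖ :=
      Summable.of_nonneg_of_le (fun _ => norm_nonneg _) (fun i => hb j i x hj) (hvs j)
    refine (norm_tsum_le_tsum_norm h3).trans ?_
    refine (h3.tsum_le_tsum (fun i => hb j i x hj) (hvs j)).trans ?_
    rw [hv]
    simp only []
    rw [tsum_mul_left, tsum_geometric_two]
    have : (25 : ℝ) ^ j ≤ 25 ^ (k + 1) := pow_le_pow_right₀ (by norm_num) hj
    gcongr
  have hB : HolB α k (fun u => 1 / 2 * PP β (25 * u + -(13 / 2))) := by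
    refine holB_of_contDiff_succ h0 h1 (contDiff_const.mul (affine_contDiff β (k + 1) _ _))
      (25 ^ (k + 1) * C) ?_
    intro j hj x
    rw [iteratedDeriv_const_mul _ (affine_contDiff β j _ _).contDiffAt, iteratedDeriv_affine,
      abs_mul, abs_mul, abs_of_nonneg (by norm_num : (0 : ℝ) ≤ 1 / 2), abs_pow,
      abs_of_pos (by norm_num : (0 : ℝ) < 25)]
    have h3 := hC j hj (25 * x + -(13 / 2))
    have h4 : (25 : ℝ) ^ j ≤ 25 ^ (k + 1) := pow_le_pow_right₀ (by norm_num) hj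
    have h5 : 25 ^ j * |iteratedDeriv j (PP β) (25 * x + -(13 / 2))| ≤ 25 ^ (k + 1) * C := by
      gcongr
    have h6 : 0 ≤ 25 ^ j * |iteratedDeriv j (PP β) (25 * x + -(13 / 2))| := by positivity
    linarith
  have he : base L β = fun u => (∑' i : ℕ, tm L β i u) + 1 / 2 * PP β (25 * u + -(13 / 2)) :=
    funext base_eq
  rw [he]
  exact hA.add hB

theorem base_lip (β : ℕ) (hβ : 2 ≤ β) : ∃ C : ℝ, 1 ≤ C ∧ ∀ L : ℝ, 1000 ≤ L → ∀ u v : ℝ,
    |base L β u - base L β v| ≤ C * |u - v| := by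
  obtain ⟨C, hC1, hC⟩ := exists_bdd hβ 1
  have hC0 : 0 ≤ C := by linarith
  have hlip : ∀ x y, |PP β x - PP β y| ≤ C * |x - y| := by
    intro x y
    rw [← Real.norm_eq_abs, ← Real.norm_eq_abs]
    refine Convex.norm_image_sub_le_of_norm_deriv_le (𝕜 := ℝ) (s := Set.univ) (f := PP β)
      (fun z _ => ((PP_contDiff β 1).differentiable (by norm_num)) z) (fun z _ => ?_)
      convex_univ (mem_univ _) (mem_univ _)
    have := hC 1 le_rfl z
    rwa [iteratedDeriv_one, ← Real.norm_eq_abs] at this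
  refine ⟨100 * C, by linarith, ?_⟩
  intro L hL u v
  have hterm : ∀ i, |tm L β i u - tm L β i v| ≤ 25 * C * |u - v| * (1 / 2) ^ i := by
    intro i
    unfold tm
    rw [← mul_sub, abs_mul, abs_of_nonneg (c_nonneg hL hβ i)]
    have h1 := hlip (-(1 / rr L i) * u + 1 / 4 * (1 / rr L i))
      (-(1 / rr L i) * v + 1 / 4 * (1 / rr L i))
    have h2 : |(-(1 / rr L i) * u + 1 / 4 * (1 / rr L i)) -
        (-(1 / rr L i) * v + 1 / 4 * (1 / rr L i))| = 1 / rr L i * |u - v| := by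
      have : (-(1 / rr L i) * u + 1 / 4 * (1 / rr L i)) -
        (-(1 / rr L i) * v + 1 / 4 * (1 / rr L i)) = -(1 / rr L i * (u - v)) := by ring
      rw [this, abs_neg, abs_mul, abs_of_pos (one_div_pos.2 (rr_pos hL i))]
    rw [h2] at h1
    have h3 := c_mul_le (j := 1) hL hβ (by omega) i
    rw [pow_one, pow_one] at h3
    calc (bb L β i - bb L β (i + 1)) * _ ≤
        (bb L β i - bb L β (i + 1)) * (C * (1 / rr L i * |u - v|)) :=
          mul_le_mul_of_nonneg_left h1 (c_nonneg hL hβ i)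
      _ = ((bb L β i - bb L β (i + 1)) * (1 / rr L i)) * (C * |u - v|) := by ring
      _ ≤ (25 * (1 / 2) ^ i) * (C * |u - v|) := by gcongr
      _ = _ := by ring
  have hgeo : Summable fun i : ℕ => ((1 : ℝ) / 2) ^ i :=
    summable_geometric_of_lt_one (by norm_num) (by norm_num)
  obtain ⟨C0, hC01, hC0'⟩ := exists_bdd hβ 0
  have hsum : ∀ w, Summable fun i => tm L β i w := by
    intro w
    refine Summable.of_norm_bounded (g := fun i => C0 * 25 ^ 0 * (1 / 2) ^ i) (hgeo.mul_left _) ?_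
    intro i
    have := tm_bound hL hβ (by linarith : 0 ≤ C0) (Nat.zero_le β) (hC0' 0 le_rfl) i w
    rwa [iteratedDeriv_zero] at this
  have h5 : |(∑' i : ℕ, tm L β i u) - ∑' i : ℕ, tm L β i v| ≤ 25 * C * |u - v| * 2 := by
    rw [← (hsum u).tsum_sub (hsum v)]
    have hs : Summable fun i => ‖tm L β i u - tm L β i v‖ :=
      Summable.of_nonneg_of_le (fun _ => norm_nonneg _) hterm (hgeo.mul_left _)
    have := norm_tsum_le_tsum_norm hs
    rw [Real.norm_eq_abs] at this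
    refine this.trans ((hs.tsum_le_tsum hterm (hgeo.mul_left _)).trans ?_)
    rw [tsum_mul_left, tsum_geometric_two]
  have h6 := hlip (25 * u + -(13 / 2)) (25 * v + -(13 / 2))
  have h7 : |25 * u + -(13 / 2) - (25 * v + -(13 / 2))| = 25 * |u - v| := by
    rw [show 25 * u + -(13 / 2) - (25 * v + -(13 / 2)) = 25 * (u - v) by ring, abs_mul]
    norm_num
  rw [h7] at h6
  rw [base_eq, base_eq, add_sub_add_comm, ← mul_sub]
  refine (abs_add_le _ _).trans ?_
  rw [abs_mul, abs_of_pos (by norm_num : (0 : ℝ) < 1 / 2)]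
  have h8 : 0 ≤ C * |u - v| := mul_nonneg hC0 (abs_nonneg _)
  nlinarith

end Pool.Agent.helper15.SD
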