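import Pool.Agent.helper15.SD.BaseBasic

/-! The `β`-th root of `base` is Lipschitz (Minkowski). -/

open Set Filter Topology

namespace Pool.Agent.helper15.SD

section base
variable {L : ℝ} {β : ℕ}

/-! ## M6 BaseRoot -/

/-- used in `EntK` as well -/
theorem abs_root_add_sub_le (β : ℕ) (hβ : 1 ≤ β) {a b a' b' : ℝ} (ha : 0 ≤ a) (hb : 0 ≤ b)
    (ha' : 0 ≤ a') (hb' : 0 ≤ b') :
    |(a + b) ^ (1 / (β : ℝ)) - (a' + b') ^ (1 / (β : ℝ))| ≤
      |a ^ (1 / (β : ℝ)) - a' ^ (1 / (β : ℝ))| + |b ^ (1 / (β : ℝ)) - b' ^ (1 / (β : ℝ))| := by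
  have hp : (1 : ℝ) ≤ (β : ℝ) := by exact_mod_cast hβ
  have hp0 : (β : ℝ) ≠ 0 := by positivity
  have key : ∀ {a b a' b' : ℝ}, 0 ≤ a → 0 ≤ b → 0 ≤ a' → 0 ≤ b' →
      (a + b) ^ (1 / (β : ℝ)) - (a' + b') ^ (1 / (β : ℝ)) ≤
      |a ^ (1 / (β : ℝ)) - a' ^ (1 / (β : ℝ))| + |b ^ (1 / (β : ℝ)) - b' ^ (1 / (β : ℝ))| := by
    intro a b a' b' ha hb ha' hb'
    set x := a ^ (1 / (β : ℝ)) with hx
    set y := b ^ (1 / (β : ℝ)) with hy
    set x' := a' ^ (1 / (β : ℝ)) with hx'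
    set y' := b' ^ (1 / (β : ℝ)) with hy'
    have hx0 : 0 ≤ x := Real.rpow_nonneg ha _
    have hy0 : 0 ≤ y := Real.rpow_nonneg hb _
    have hx0' : 0 ≤ x' := Real.rpow_nonneg ha' _
    have hy0' : 0 ≤ y' := Real.rpow_nonneg hb' _
    have ex : x ^ (β : ℝ) = a := by rw [hx, ← Real.rpow_mul ha, one_div_mul_cancel hp0, Real.rpow_one]
    have ey : y ^ (β : ℝ) = b := by rw [hy, ← Real.rpow_mul hb, one_div_mul_cancel hp0, Real.rpow_one]
    have ex' : x' ^ (β : ℝ) = a' := by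
      rw [hx', ← Real.rpow_mul ha', one_div_mul_cancel hp0, Real.rpow_one]
    have ey' : y' ^ (β : ℝ) = b' := by
      rw [hy', ← Real.rpow_mul hb', one_div_mul_cancel hp0, Real.rpow_one]
    have hM := Real.Lp_add_le (Finset.univ : Finset (Fin 2)) ![x', y'] ![x - x', y - y'] hp
    simp only [Fin.sum_univ_two, Matrix.cons_val_zero, Matrix.cons_val_one] at hM
    rw [add_sub_cancel, add_sub_cancel, abs_of_nonneg hx0, abs_of_nonneg hy0, abs_of_nonneg hx0',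
      abs_of_nonneg hy0', ex, ey, ex', ey'] at hM
    have h1 : (|x - x'| ^ (β : ℝ) + |y - y'| ^ (β : ℝ)) ^ (1 / (β : ℝ)) ≤ |x - x'| + |y - y'| := by
      have h2 := Real.rpow_add_rpow_le_add (abs_nonneg (x - x')) (abs_nonneg (y - y')) hp
      exact h2
    linarith
  rw [abs_le]
  constructor
  · have := key ha' hb' ha hb
    rw [abs_sub_comm (a' ^ _), abs_sub_comm (b' ^ _)] at this
    linarith
  · exact key ha hb ha' hb'

/-- the partial sums of `base` -/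
noncomputable def baseS (L : ℝ) (β n : ℕ) (u : ℝ) : ℝ :=
  (∑ i ∈ Finset.range n, (bb L β i - bb L β (i + 1)) * sg ((1 / 4 - u) / rr L i) ^ β) +
    1 / 2 * sg (25 * (u - 13 / 50)) ^ β

theorem rr_pos' (hL : 1000 ≤ L) (i : ℕ) : 0 < rr L i := by
  have : 0 < L := by linarith
  unfold rr; positivity

/-- the root of one term is Lipschitz -/
theorem root_term_le (hβ : 2 ≤ β) {K c : ℝ} (hc : 0 ≤ c) {s t : ℝ}
    (h : |sg s - sg t| ≤ K) :
    |(c * sg s ^ β) ^ (1 / (β : ℝ)) - (c * sg t ^ β) ^ (1 / (β : ℝ))| ≤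
      c ^ (1 / (β : ℝ)) * K := by
  have hβ0 : β ≠ 0 := by omega
  have e : ∀ s : ℝ, (c * sg s ^ β) ^ (1 / (β : ℝ)) = c ^ (1 / (β : ℝ)) * sg s := by
    intro s
    rw [Real.mul_rpow hc (pow_nonneg (sg_nonneg s) _), one_div,
      Real.pow_rpow_inv_natCast (sg_nonneg s) hβ0]
  rw [e, e, ← mul_sub, abs_mul, abs_of_nonneg (Real.rpow_nonneg hc _)]
  exact mul_le_mul_of_nonneg_left h (Real.rpow_nonneg hc _)

theorem coef_root_le (hL : 1000 ≤ L) (hβ : 2 ≤ β) (i : ℕ) :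
    (bb L β i - bb L β (i + 1)) ^ (1 / (β : ℝ)) / rr L i ≤ 25 * (1 / 2) ^ i := by
  have hL0 : 0 < L := by linarith
  have hβ0 : β ≠ 0 := by omega
  have h0 : 0 ≤ bb L β i - bb L β (i + 1) := sub_nonneg.2 (bb_anti hL hβ i)
  have h1 : bb L β i - bb L β (i + 1) ≤ (1 / L ^ (4 * i)) ^ β := by
    have h2 := bb_le (β := β) hL i
    have h3 := bb_pos (β := β) hL (i + 1)
    have e : (1 / L ^ (4 * i)) ^ β = 1 / L ^ (4 * β * i) := by
      rw [div_pow, one_pow, ← pow_mul]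
      congr 2; ring
    rw [e]; linarith
  have h4 : (bb L β i - bb L β (i + 1)) ^ (1 / (β : ℝ)) ≤ 1 / L ^ (4 * i) := by
    have h5 := Real.rpow_le_rpow h0 h1 (by positivity : (0 : ℝ) ≤ 1 / (β : ℝ))
    rwa [one_div (β : ℝ), Real.pow_rpow_inv_natCast (by positivity) hβ0, ← one_div (β : ℝ)] at h5
  rw [div_le_iff₀ (rr_pos' hL i)]
  refine h4.trans ?_
  unfold rr
  have h6 : (1 / L ^ (4 * i) : ℝ) = (1 / L ^ (2 * i)) * (1 / L ^ (2 * i)) := by
    rw [one_div_mul_one_div, ← pow_add]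
    congr 2; ring
  have h7 : (1 / L ^ (2 * i) : ℝ) ≤ (1 / 2) ^ i := by
    rw [pow_mul, one_div, ← inv_pow, one_div]
    apply pow_le_pow_left₀ (by positivity)
    apply inv_anti₀ (by norm_num)
    nlinarith
  have h8 : 0 < 1 / L ^ (2 * i) := by positivity
  calc (1 / L ^ (4 * i) : ℝ) = (1 / L ^ (2 * i)) * (1 / L ^ (2 * i)) := h6
    _ ≤ (1 / 2) ^ i * (1 / L ^ (2 * i)) := mul_le_mul_of_nonneg_right h7 h8.le
    _ = 25 * (1 / 2) ^ i * (1 / 25 / L ^ (2 * i)) := by ring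

theorem baseS_root_lip (hL : 1000 ≤ L) (hβ : 2 ≤ β) {C : ℝ} (hC : 1 ≤ C)
    (hsg : ∀ s t, |sg s - sg t| ≤ C * |s - t|) (n : ℕ) (u v : ℝ) :
    |baseS L β n u ^ (1 / (β : ℝ)) - baseS L β n v ^ (1 / (β : ℝ))| ≤
      C * (25 + ∑ i ∈ Finset.range n, 25 * (1 / 2) ^ i) * |u - v| := by
  have hc : ∀ i, 0 ≤ bb L β i - bb L β (i + 1) := fun i => sub_nonneg.2 (bb_anti hL hβ i)
  have hC0 : 0 ≤ C := by linarith
  have hpos : ∀ n u, 0 ≤ baseS L β n u := by
    intro n u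
    unfold baseS
    refine add_nonneg (Finset.sum_nonneg fun i _ => mul_nonneg (hc i) (pow_nonneg (sg_nonneg _) _))
      (mul_nonneg (by norm_num) (pow_nonneg (sg_nonneg _) _))
  induction n with
  | zero =>
    simp only [baseS, Finset.range_zero, Finset.sum_empty, zero_add, add_zero]
    have h1 : |sg (25 * (u - 13 / 50)) - sg (25 * (v - 13 / 50))| ≤ C * (25 * |u - v|) := by
      refine (hsg _ _).trans (le_of_eq ?_)
      rw [← mul_sub, sub_sub_sub_cancel_right, abs_mul, abs_of_pos (by norm_num : (0 : ℝ) < 25)]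
    refine (root_term_le hβ (by norm_num) h1).trans ?_
    have h2 : ((1 : ℝ) / 2) ^ (1 / (β : ℝ)) ≤ 1 :=
      Real.rpow_le_one (by norm_num) (by norm_num) (by positivity)
    have h3 : 0 ≤ C * (25 * |u - v|) := by positivity
    nlinarith
  | succ n ih =>
    have e : ∀ u, baseS L β (n + 1) u =
        (bb L β n - bb L β (n + 1)) * sg ((1 / 4 - u) / rr L n) ^ β + baseS L β n u := by
      intro u
      simp only [baseS, Finset.sum_range_succ]; ring
    rw [e, e]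
    refine (abs_root_add_sub_le β (by omega) (mul_nonneg (hc n) (pow_nonneg (sg_nonneg _) _))
      (hpos n u) (mul_nonneg (hc n) (pow_nonneg (sg_nonneg _) _)) (hpos n v)).trans ?_
    have hr := rr_pos' hL n
    have h1 : |sg ((1 / 4 - u) / rr L n) - sg ((1 / 4 - v) / rr L n)| ≤
        C * |u - v| / rr L n := by
      refine (hsg _ _).trans (le_of_eq ?_)
      rw [← sub_div, sub_sub_sub_cancel_left, abs_div, abs_of_pos hr, abs_sub_comm, mul_div_assoc]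
    have h2 := root_term_le hβ (hc n) h1
    have h3 : (bb L β n - bb L β (n + 1)) ^ (1 / (β : ℝ)) * (C * |u - v| / rr L n) ≤
        C * (25 * (1 / 2) ^ n) * |u - v| := by
      have h4 := mul_le_mul_of_nonneg_right (coef_root_le hL hβ n)
        (by positivity : 0 ≤ C * |u - v|)
      calc _ = (bb L β n - bb L β (n + 1)) ^ (1 / (β : ℝ)) / rr L n * (C * |u - v|) := by ring
        _ ≤ _ := h4
        _ = _ := by ring
    rw [Finset.sum_range_succ]
    calc _ ≤ C * (25 * (1 / 2) ^ n) * |u - v| +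
        C * (25 + ∑ i ∈ Finset.range n, 25 * (1 / 2) ^ i) * |u - v| :=
          add_le_add (h2.trans h3) ih
      _ = _ := by ring

theorem tendsto_baseS (hL : 1000 ≤ L) (hβ : 2 ≤ β) (u : ℝ) :
    Tendsto (fun n => baseS L β n u) atTop (𝓝 (base L β u)) := by
  unfold baseS base
  exact (base_summable hL hβ u).hasSum.tendsto_sum_nat.add_const _

theorem base_root_lip (β : ℕ) (hβ : 2 ≤ β) : ∃ C : ℝ, 1 ≤ C ∧ ∀ L : ℝ, 1000 ≤ L → ∀ u v : ℝ,
    |base L β u ^ (1 / (β : ℝ)) - base L β v ^ (1 / (β : ℝ))| ≤ C * |u - v| := by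
  obtain ⟨C, hC, hsg⟩ := sg_lip
  refine ⟨C * 75, by linarith, fun L hL u v => ?_⟩
  have hp : (0 : ℝ) ≤ 1 / (β : ℝ) := by positivity
  have h1 : Tendsto (fun n => |baseS L β n u ^ (1 / (β : ℝ)) - baseS L β n v ^ (1 / (β : ℝ))|)
      atTop (𝓝 |base L β u ^ (1 / (β : ℝ)) - base L β v ^ (1 / (β : ℝ))|) :=
    (((tendsto_baseS hL hβ u).rpow_const (Or.inr hp)).sub
      ((tendsto_baseS hL hβ v).rpow_const (Or.inr hp))).abs
  refine le_of_tendsto h1 (Eventually.of_forall fun n => ?_)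
  refine (baseS_root_lip hL hβ hC hsg n u v).trans ?_
  have h2 : ∑ i ∈ Finset.range n, (25 : ℝ) * (1 / 2) ^ i ≤ 50 := by
    rw [← Finset.mul_sum]
    have h3 := geom_sum_eq (by norm_num : ((1 : ℝ) / 2) ≠ 1) n
    rw [h3]
    have h4 : 0 < ((1 : ℝ) / 2) ^ n := by positivity
    have h5 : (((1 : ℝ) / 2) ^ n - 1) / (1 / 2 - 1) = 2 * (1 - (1 / 2) ^ n) := by
      rw [div_eq_iff (by norm_num)]; ring
    rw [h5]
    linarith
  have h5 : C * (25 + ∑ i ∈ Finset.range n, (25 : ℝ) * (1 / 2) ^ i) ≤ C * 75 :=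
    mul_le_mul_of_nonneg_left (by linarith) (by linarith)
  exact mul_le_mul_of_nonneg_right h5 (abs_nonneg _)

end base

end Pool.Agent.helper15.SD
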