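import Pool.Agent.helper15.SD.Step

/-!
# The core of the dynamics, kick states, the sets `Kset` and `Lam0`
-/

open Set Filter Topology

namespace Pool.Agent.helper15.SD

/-- stable set of `O` under a homeomorphism -/
def WsF (g : T2 ≃ₜ T2) (O : Set T2) : Set T2 :=
  {q | Tendsto (fun n : ℕ => Metric.infDist (g^[n] q) O) atTop (𝓝 0)}

/-- the sink -/
noncomputable def sink : T2 := proj (1 / 2, 1 / 2)

/-- the source -/
noncomputable def src : T2 := proj (0, 0)

/-- the first coordinate lies in the support strip of the shear -/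
def InSig (P : T2) : Prop := ∃ u ∈ Icc (1 / 5 : ℝ) (3 / 10), P.1 = (u : UnitAddCircle)

/-- `g` has the periodic orbit `O` -/
def IsPer (g : T2 ≃ₜ T2) (O : Set T2) : Prop :=
  ∃ P n, 0 < n ∧ g^[n] P = P ∧ O = {q | ∃ k : ℕ, q = g^[k] P}

namespace Sys

variable {r : ℝ} (S : Sys r)

/-- points which go to the sink -/
def Bad1 (P : T2) : Prop := ¬ InSig P ∧ 2 / (5 * S.L) ≤ ‖P.1‖ ∧ 2 / (5 * S.L) ≤ ‖P.2‖

/-- points which come from the source -/
def Bad2 (P : T2) : Prop := ‖P.1‖ < 2 / 5 ∧ ‖P.2‖ < 2 / 5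

/-- points whose full orbit avoids `Bad1` and `Bad2` -/
def core : Set T2 :=
  {P | ∀ n : ℕ, (¬ S.Bad1 (S.f^[n] P) ∧ ¬ Bad2 (S.f^[n] P)) ∧
    (¬ S.Bad1 (S.f.symm^[n] P) ∧ ¬ Bad2 (S.f.symm^[n] P))}

/-- kick states -/
def IsKick (P : T2) (u w : ℝ) : Prop :=
  P = St 0 u w ∧ u ∈ Icc (1 / 5 : ℝ) (3 / 10) ∧ |w| ≤ 3 / (10 * S.L ^ 2)

/-- kick states of the core lying in the `i`-th window -/
def Lam0 (i : ℕ) : Set T2 :=
  {P | P ∈ S.core ∧ ∃ u w, S.IsKick P u w ∧ |u - xx S.L i| ≤ 3 / 4 * ll S.L i}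

/-- points of the core without kicks in the windows -/
def Kset : Set T2 :=
  {P | P ∈ S.core ∧ ∀ n : ℕ, ∀ u w : ℝ, ∀ i : ℕ, 1 ≤ i →
    (S.IsKick (S.f^[n] P) u w ∨ S.IsKick (S.f.symm^[n] P) u w) → ll S.L i < |u - xx S.L i|}

theorem symm_iterate_iterate (n : ℕ) (P : T2) : S.f.symm^[n] (S.f^[n] P) = P :=
  Function.LeftInverse.iterate (f := S.f) (g := S.f.symm) S.f.symm_apply_apply n P

theorem iterate_symm_iterate (n : ℕ) (P : T2) : S.f^[n] (S.f.symm^[n] P) = P :=
  Function.LeftInverse.iterate (f := S.f.symm) (g := S.f) S.f.apply_symm_apply n P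

theorem core_f {P : T2} (h : P ∈ S.core) : S.f P ∈ S.core := by
  intro n
  refine ⟨?_, ?_⟩
  · have := (h (n + 1)).1
    rwa [Function.iterate_succ_apply] at this
  · rcases n with _ | n
    · have := (h 1).1
      rwa [Function.iterate_one] at this
    · have := (h n).2
      rwa [Function.iterate_succ_apply, Homeomorph.symm_apply_apply]

theorem core_symm {P : T2} (h : P ∈ S.core) : S.f.symm P ∈ S.core := by
  intro n
  refine ⟨?_, ?_⟩
  · rcases n with _ | n
    · have := (h 1).2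
      rwa [Function.iterate_one] at this
    · have := (h n).1
      rwa [Function.iterate_succ_apply, Homeomorph.apply_symm_apply]
  · have := (h (n + 1)).2
    rwa [Function.iterate_succ_apply] at this

theorem core_iterate {P : T2} (h : P ∈ S.core) (n : ℕ) : S.f^[n] P ∈ S.core := by
  induction n with
  | zero => exact h
  | succ n ih => rw [Function.iterate_succ_apply']; exact S.core_f ih

theorem core_symm_iterate {P : T2} (h : P ∈ S.core) (n : ℕ) : S.f.symm^[n] P ∈ S.core := by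
  induction n with
  | zero => exact h
  | succ n ih => rw [Function.iterate_succ_apply']; exact S.core_symm ih

theorem w_lt {w : ℝ} (h : |w| ≤ 3 / (10 * S.L ^ 2)) : |w| < 1 / 8 := by
  have hL := S.hL
  have h2 : (1000 : ℝ) ≤ S.L ^ 2 := by nlinarith
  refine h.trans_lt ?_
  rw [div_lt_iff₀ (by positivity)]
  nlinarith

/-- Uniqueness of the coordinates of a kick state. -/
theorem IsKick.unique {S : Sys r} {P : T2} {u w u' w' : ℝ} (h : S.IsKick P u w)
    (h' : S.IsKick P u' w') : u = u' ∧ w = w' := by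
  obtain ⟨h1, h2, h3⟩ := h
  obtain ⟨h1', h2', h3'⟩ := h'
  have hw := S.w_lt h3
  have hw' := S.w_lt h3'
  refine St_inj (e := 0) (Or.inl rfl) ?_ (by linarith) ?_ (by linarith) (h1.symm.trans h1')
  · rw [abs_lt]; constructor <;> linarith [h2.1, h2.2]
  · rw [abs_lt]; constructor <;> linarith [h2'.1, h2'.2]

end Sys

end Pool.Agent.helper15.SD
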