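import Pool.Agent.helper15.SD.Core

/-!
# The states of the points of the core
-/

open Set Filter Topology

namespace Pool.Agent.helper15.SD

theorem exists_circle_lift (x : UnitAddCircle) :
    ∃ y : ℝ, |y| ≤ 1 / 2 ∧ (y : UnitAddCircle) = x ∧ ‖x‖ = |y| := by
  obtain ⟨x0, rfl⟩ := QuotientAddGroup.mk_surjective x
  have h1 : |x0 - round x0| ≤ 1 / 2 := abs_sub_round x0
  have h2 : ((x0 - round x0 : ℝ) : UnitAddCircle) = (x0 : UnitAddCircle) := by
    have := proj_add_int (x0, 0) (-round x0) 0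
    unfold proj at this
    have := congrArg Prod.fst this
    simpa [sub_eq_add_neg] using this
  refine ⟨x0 - round x0, h1, h2, ?_⟩
  change ‖(x0 : UnitAddCircle)‖ = _
  rw [← h2, norm_coe_of_abs_le h1]

theorem coe_eq_iff (x y : ℝ) : (x : UnitAddCircle) = (y : UnitAddCircle) ↔ ∃ m : ℤ, y = x + m := by
  have := proj_eq_iff (x, 0) (y, 0)
  unfold proj at this
  rw [Prod.mk.injEq] at this
  constructor
  · intro h
    obtain ⟨m, n, h1, h2⟩ := this.1 ⟨h, rfl⟩
    exact ⟨m, h1⟩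
  · rintro ⟨m, hm⟩
    exact (this.2 ⟨m, 0, hm, by simp⟩).1

theorem coe_eq_of_abs_le {x y : ℝ} (hx : |x| ≤ 1 / 2) (hy : |y| < 1 / 2)
    (h : (x : UnitAddCircle) = (y : UnitAddCircle)) : x = y := by
  obtain ⟨m, hm⟩ := (coe_eq_iff x y).1 h
  rw [abs_le] at hx
  rw [abs_lt] at hy
  have h1 : (m : ℝ) < 1 := by linarith [hx.1, hy.2]
  have h2 : (-1 : ℝ) < m := by linarith [hx.2, hy.1]
  have h3 : m = 0 := by
    have : m < 1 := by exact_mod_cast h1
    have : -1 < m := by exact_mod_cast h2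
    omega
  subst h3
  simp at hm; exact hm.symm

/-- a point in the strip has first coordinate of norm at most `3/10` -/
theorem InSig.norm {P : T2} (h : InSig P) : 1 / 5 ≤ ‖P.1‖ ∧ ‖P.1‖ ≤ 3 / 10 := by
  obtain ⟨u, ⟨h1, h2⟩, h3⟩ := h
  rw [h3, norm_coe_of_abs_le (by rw [abs_of_nonneg (by linarith)]; linarith),
    abs_of_nonneg (by linarith)]
  exact ⟨h1, h2⟩

namespace Sys

variable {r : ℝ} (S : Sys r)

theorem G_zero : S.GD.G 0 = 0 := by
  have := S.GD.odd 0
  simp only [neg_zero] at this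
  linarith

theorem G_half_eq : S.GD.G (1 / 2) = 1 / 2 := by
  have := S.G_half (b := 0) (by norm_num)
  simpa using this

theorem abs_G {x : ℝ} : |S.GD.G x| = S.GD.G |x| := by
  rcases le_total 0 x with h | h
  · rw [abs_of_nonneg h, abs_of_nonneg]
    rw [← S.G_zero]; exact S.GD.mono.monotone h
  · rw [abs_of_nonpos h, S.GD.odd, abs_of_nonpos]
    rw [← S.G_zero]; exact S.GD.mono.monotone h

theorem abs_G_le {x : ℝ} (h : |x| ≤ 1 / 2) : |S.GD.G x| ≤ 1 / 2 := by
  rw [S.abs_G, ← S.G_half_eq]; exact S.GD.mono.monotone h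

theorem a0_pos : 0 < 2 / (5 * S.L) := by
  have := S.L_pos
  positivity

theorem G_a0 : S.GD.G (2 / (5 * S.L)) = 2 / 5 := by
  have := S.L_pos
  rw [S.GD.lin0 _ (by rw [abs_of_pos S.a0_pos])]
  field_simp

/-- the second coordinate of the image -/
theorem norm_f_snd (x z : ℝ) (hx : |x| ≤ 1 / 2) : ‖(S.f (proj (x, z))).2‖ = S.GD.G |x| := by
  rw [S.f_proj]
  unfold FF proj
  simp only
  rw [norm_coe_of_abs_le (by rw [abs_neg]; exact S.abs_G_le hx), abs_neg, S.abs_G]

theorem core_not1 {P : T2} (h : P ∈ S.core) (h1 : 2 / (5 * S.L) ≤ ‖P.1‖)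
    (h2 : 2 / (5 * S.L) ≤ ‖P.2‖) : InSig P := by
  by_contra h3
  exact (h 0).1.1 ⟨h3, h1, h2⟩

theorem core_not2 {P : T2} (h : P ∈ S.core) (h1 : ‖P.1‖ < 2 / 5) : 2 / 5 ≤ ‖P.2‖ := by
  by_contra h3
  exact (h 0).1.2 ⟨h1, not_le.1 h3⟩

/-- if the second coordinate is not small, the point is in slot `0` -/
theorem core_state_zero {P : T2} (h : P ∈ S.core) (h2 : 2 / 5 ≤ ‖P.2‖) :
    ∃ u w, P = St 0 u w ∧ |w| ≤ 3 / (10 * S.L ^ 2) ∧
      (u ∈ Icc (1 / 5 : ℝ) (3 / 10) ∨ |u| < 2 / (5 * S.L)) := by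
  have hL := S.hL
  have hLp := S.L_pos
  have ha := S.a0_le
  have hap := S.a0_pos
  -- the preimage
  set Q := S.f.symm P with hQ
  have hQc : Q ∈ S.core := S.core_symm h
  have hfQ : S.f Q = P := S.f.apply_symm_apply P
  obtain ⟨x, hx, hx1, hx2⟩ := exists_circle_lift Q.1
  obtain ⟨z, hz, hz1, hz2⟩ := exists_circle_lift Q.2
  have hQp : Q = proj (x, z) := by
    unfold proj; rw [hx1, hz1]
  have hP2 : ‖P.2‖ = S.GD.G |x| := by
    rw [← hfQ, hQp]; exact S.norm_f_snd x z hx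
  have hxa : 2 / (5 * S.L) ≤ |x| := by
    by_contra hlt
    rw [not_le] at hlt
    have := S.GD.mono hlt
    rw [S.G_a0] at this
    linarith
  have hx5 : 1 / 5 ≤ |x| := by
    by_cases hs : InSig Q
    · rw [← hx2]; exact hs.norm.1
    · by_contra hlt
      rw [not_le] at hlt
      apply hs
      have h3 := S.core_not2 hQc (by rw [hx2]; linarith)
      exact S.core_not1 hQc (by rw [hx2]; exact hxa) (by linarith)
  -- the coordinate `w`
  obtain ⟨w, hw, hwP⟩ : ∃ w : ℝ, |w| ≤ 3 / (10 * S.L ^ 2) ∧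
      P.2 = ((1 / 2 + w : ℝ) : UnitAddCircle) := by
    have hP2' : P.2 = ((-S.GD.G x : ℝ) : UnitAddCircle) := by
      rw [← hfQ, hQp, S.f_proj]
      rfl
    have hle : (1 / 2 - |x|) / S.L ^ 2 ≤ 3 / (10 * S.L ^ 2) := by
      rw [div_le_div_iff₀ (by positivity) (by positivity)]
      nlinarith [sq_nonneg S.L, hx5, pow_pos hLp 2]
    have hnn : 0 ≤ (1 / 2 - |x|) / S.L ^ 2 := div_nonneg (by linarith) (by positivity)
    rcases le_total 0 x with h0 | h0
    · rw [abs_of_nonneg h0] at hx hx5 hle hnn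
      refine ⟨(1 / 2 - x) / S.L ^ 2, by rw [abs_of_nonneg hnn]; exact hle, ?_⟩
      rw [hP2', S.GD.lin1 x hx5 (by linarith), coe_eq_iff]
      exact ⟨1, by push_cast; ring⟩
    · rw [abs_of_nonpos h0] at hx hx5 hle hnn
      refine ⟨-((1 / 2 - -x) / S.L ^ 2), by rw [abs_neg, abs_of_nonneg hnn]; exact hle, ?_⟩
      have := S.GD.lin1 (-x) hx5 (by linarith)
      rw [S.GD.odd] at this
      rw [hP2', this, coe_eq_iff]
      exact ⟨0, by push_cast; ring⟩
  -- the coordinate `u`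
  rcases lt_or_ge ‖P.1‖ (2 / (5 * S.L)) with h1 | h1
  · obtain ⟨u, hu, hu1, hu2⟩ := exists_circle_lift P.1
    refine ⟨u, w, ?_, hw, Or.inr (by rw [← hu2]; exact h1)⟩
    rw [St_zero]; unfold proj
    rw [hu1, ← hwP]
  · obtain ⟨u, hu, hu1⟩ := S.core_not1 h h1 (by linarith)
    refine ⟨u, w, ?_, hw, Or.inl hu⟩
    rw [St_zero]; unfold proj
    rw [← hu1, ← hwP]

theorem core_state {P : T2} (h : P ∈ S.core) :
    (∃ u w, P = St 0 u w ∧ |w| ≤ 3 / (10 * S.L ^ 2) ∧
      (u ∈ Icc (1 / 5 : ℝ) (3 / 10) ∨ |u| < 2 / (5 * S.L))) ∨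
    (∃ a b, P = St 1 a b ∧ |b| ≤ 3 / (10 * S.L ^ 2) ∧ |a| < 2 / (5 * S.L)) := by
  have hL := S.hL
  have hLp := S.L_pos
  have ha := S.a0_le
  have hap := S.a0_pos
  rcases le_or_gt (2 / 5) ‖P.2‖ with h2 | h2
  · exact Or.inl (S.core_state_zero h h2)
  · right
    have h1 : 2 / 5 ≤ ‖P.1‖ := by
      by_contra h3
      have := S.core_not2 h (not_le.1 h3)
      linarith
    have h2' : ‖P.2‖ < 2 / (5 * S.L) := by
      by_contra h3
      have := (S.core_not1 h (by linarith) (not_lt.1 h3)).norm.2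
      linarith
    set Q := S.f.symm P with hQ
    have hQc : Q ∈ S.core := S.core_symm h
    have hfQ : S.f Q = P := S.f.apply_symm_apply P
    obtain ⟨x, hx, hx1, hx2⟩ := exists_circle_lift Q.1
    obtain ⟨z, hz, hz1, hz2⟩ := exists_circle_lift Q.2
    have hQp : Q = proj (x, z) := by
      unfold proj; rw [hx1, hz1]
    have hP2 : ‖P.2‖ = S.GD.G |x| := by
      rw [← hfQ, hQp]; exact S.norm_f_snd x z hx
    have hxa : |x| < 2 / (5 * S.L) := by
      by_contra hle
      rw [not_lt] at hle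
      have := S.GD.mono.monotone hle
      rw [S.G_a0] at this
      linarith
    have hQ2 := S.core_not2 hQc (by rw [hx2]; linarith)
    obtain ⟨u, w, hu, hw, huu⟩ := S.core_state_zero hQc hQ2
    have hua : |u| < 2 / (5 * S.L) := by
      rcases huu with huu | huu
      · exfalso
        have : Q.1 = (u : UnitAddCircle) := by rw [hu]; rfl
        have := (show InSig Q from ⟨u, huu, this⟩).norm.1
        linarith
      · exact huu
    have hwsmall : |w| ≤ 1 / 5 := by linarith [S.w_lt hw]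
    have hP : P = St 1 (S.L * u) (w / S.L ^ 2) := by
      rw [← hfQ, hu, S.f_St hua.le hwsmall]
    refine ⟨S.L * u, w / S.L ^ 2, hP, ?_, ?_⟩
    · rw [abs_div, abs_of_pos (pow_pos hLp 2)]
      exact (div_le_self (abs_nonneg _) (one_le_pow₀ (by linarith))).trans hw
    · have h5 : |S.L * u| < 2 / 5 := by
        rw [abs_mul, abs_of_pos hLp]
        rw [lt_div_iff₀ (by positivity)] at hua
        linarith
      have h6 : ‖P.2‖ = |S.L * u| := by
        rw [hP, St_one]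
        unfold proj
        simp only
        rw [norm_coe_of_abs_le (by rw [abs_neg]; linarith), abs_neg]
      rw [← h6]; exact h2'

end Sys

end Pool.Agent.helper15.SD
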