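import Pool.Agent.helper15.SD.Defs

/-!
# Cover: entropy upper bound by coding (SD-M1)
-/

open Set Filter Topology

namespace Pool.Agent.helper15.SD

namespace CoverAux

/-- Number of itineraries. -/
theorem itin_ncard {X κ : Type} (g : X → X) (A : Set X) (hA : ∀ p ∈ A, g p ∈ A) (c : X → κ)
    (hfin : (c '' A).Finite) (M : ℕ)
    (hM : ∀ b : κ, Set.ncard ((fun p => c (g p)) '' {p | p ∈ A ∧ c p = b}) ≤ M) (K : ℕ) :
    ((fun p => fun j : Fin (K + 1) => c (g^[j] p)) '' A).Finite ∧
    Set.ncard ((fun p => fun j : Fin (K + 1) => c (g^[j] p)) '' A) ≤ (c '' A).ncard * M ^ K := by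
  classical
  have hit : ∀ j, ∀ p ∈ A, g^[j] p ∈ A := by
    intro j
    induction j with
    | zero => intro p hp; simpa using hp
    | succ j ih => intro p hp; rw [Function.iterate_succ_apply']; exact hA _ (ih p hp)
  induction K with
  | zero =>
    have hcomp : (fun p => fun j : Fin (0 + 1) => c (g^[j] p)) '' A =
        (fun b : κ => fun _ : Fin (0 + 1) => b) '' (c '' A) := by
      rw [Set.image_image]
      apply Set.image_congr
      intro p _
      funext j
      simp
    rw [hcomp]
    exact ⟨hfin.image _, by simpa using Set.ncard_image_le hfin⟩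
  | succ K ih =>
    obtain ⟨ihf, ihc⟩ := ih
    set S := (fun p => fun j : Fin (K + 1) => c (g^[j] p)) '' A with hS
    set S' := (fun p => fun j : Fin (K + 1 + 1) => c (g^[j] p)) '' A with hS'
    -- the restriction map
    let r : (Fin (K + 1 + 1) → κ) → (Fin (K + 1) → κ) := fun a j => a j.castSucc
    have hfin2 : ∀ b : κ, ((fun p => c (g p)) '' {p | p ∈ A ∧ c p = b}).Finite := by
      intro b
      apply hfin.subset
      rintro _ ⟨p, ⟨hp, _⟩, rfl⟩
      exact ⟨g p, hA p hp, rfl⟩
    let T : (Fin (K + 1) → κ) → Finset (Fin (K + 1 + 1) → κ) := fun a =>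
      (hfin2 (a (Fin.last K))).toFinset.image (fun b => Fin.snoc (α := fun _ => κ) a b)
    have hsub : S' ⊆ ↑(ihf.toFinset.biUnion T) := by
      rintro _ ⟨p, hp, rfl⟩
      rw [Finset.coe_biUnion]
      simp only [Set.mem_iUnion]
      refine ⟨fun j : Fin (K + 1) => c (g^[j] p), ?_, ?_⟩
      · simp only [Set.Finite.coe_toFinset]
        exact ⟨p, hp, rfl⟩
      · simp only [T, Finset.coe_image, Set.Finite.coe_toFinset]
        refine ⟨c (g (g^[K] p)), ⟨g^[K] p, ⟨hit K p hp, ?_⟩, rfl⟩, ?_⟩
        · simp
        · funext j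
          refine Fin.lastCases ?_ (fun j => ?_) j
          · show Fin.snoc (α := fun _ => κ) _ _ (Fin.last (K + 1)) = _
            rw [Fin.snoc_last]
            simp only [Fin.val_last]
            rw [Function.iterate_succ_apply']
          · show Fin.snoc (α := fun _ => κ) _ _ j.castSucc = _
            rw [Fin.snoc_castSucc]
            rfl
    refine ⟨(Finset.finite_toSet _).subset hsub, ?_⟩
    calc S'.ncard ≤ (↑(ihf.toFinset.biUnion T) : Set _).ncard :=
          Set.ncard_le_ncard hsub (Finset.finite_toSet _)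
      _ = (ihf.toFinset.biUnion T).card := Set.ncard_coe_finset _
      _ ≤ ihf.toFinset.card * M := by
          apply Finset.card_biUnion_le_card_mul
          intro a _
          calc (T a).card ≤ (hfin2 (a (Fin.last K))).toFinset.card := Finset.card_image_le
            _ = Set.ncard ((fun p => c (g p)) '' {p | p ∈ A ∧ c p = a (Fin.last K)}) := by
                rw [Set.ncard_eq_toFinset_card _ (hfin2 _)]
            _ ≤ M := hM _
      _ = S.ncard * M := by rw [Set.ncard_eq_toFinset_card _ ihf]
      _ ≤ (c '' A).ncard * M ^ K * M := Nat.mul_le_mul_right _ ihc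
      _ = (c '' A).ncard * M ^ (K + 1) := by ring

theorem entourage_le {X : Type} (f : X → X) (A : Set X) (N : ℕ) (hN : 0 < N)
    (M : ℕ) (hM : 1 ≤ M) (hA : ∀ p ∈ A, f^[N] p ∈ A) (U : SetRel X X) {κ : Type} (c : X → κ)
    (hfin : (c '' A).Finite)
    (hU : ∀ p ∈ A, ∀ q ∈ A, c p = c q → c (f^[N] p) = c (f^[N] q) →
        ∀ k < N, (f^[k] p, f^[k] q) ∈ U)
    (hb : ∀ b : κ, Set.ncard ((fun p => c (f^[N] p)) '' {p | p ∈ A ∧ c p = b}) ≤ M) :
    Dynamics.coverEntropyEntourage f A U ≤ ((Real.log M / N : ℝ) : EReal) := by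
  classical
  -- the covering number at times `N * K`
  have hit : ∀ j, ∀ p ∈ A, (f^[N])^[j] p ∈ A := by
    intro j
    induction j with
    | zero => intro p hp; simpa using hp
    | succ j ih => intro p hp; rw [Function.iterate_succ_apply']; exact hA _ (ih p hp)
  have key : ∀ K : ℕ, Dynamics.coverMincard f A U (N * K) ≤ ((c '' A).ncard * M ^ K : ℕ) := by
    intro K
    obtain ⟨h1, h2⟩ := itin_ncard (f^[N]) A hA c hfin M hb K
    set I := fun p => fun j : Fin (K + 1) => c ((f^[N])^[j] p) with hI
    -- choose representatives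
    have hch : ∀ a ∈ I '' A, ∃ p ∈ A, I p = a := fun a ha => ha
    rcases A.eq_empty_or_nonempty with rfl | ⟨x0, hx0⟩
    · rw [Dynamics.coverMincard_empty]; exact bot_le
    let ρ : (Fin (K + 1) → κ) → X := fun a => if h : a ∈ I '' A then (hch a h).choose else x0
    have hρ1 : ∀ a ∈ I '' A, ρ a ∈ A := by
      intro a ha
      simp only [ρ, ha, dif_pos]
      exact (hch a ha).choose_spec.1
    have hρ2 : ∀ a ∈ I '' A, I (ρ a) = a := by
      intro a ha
      simp only [ρ, ha, dif_pos]
      exact (hch a ha).choose_spec.2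
    let s : Finset X := h1.toFinset.image ρ
    have hcov : Dynamics.IsDynCoverOf f A U (N * K) (s : Set X) := by
      intro x hx
      refine ⟨ρ (I x), ?_, ?_⟩
      · simp only [s, Finset.coe_image, Set.Finite.coe_toFinset]
        exact ⟨I x, ⟨x, hx, rfl⟩, rfl⟩
      · show (x, ρ (I x)) ∈ Dynamics.dynEntourage f U (N * K)
        rw [Dynamics.mem_dynEntourage]
        intro k hk
        have hxI : I x ∈ I '' A := ⟨x, hx, rfl⟩
        have hy := hρ1 _ hxI
        have hIy := hρ2 _ hxI
        set y := ρ (I x)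
        have hj : k / N < K := Nat.div_lt_of_lt_mul hk
        have hl : k % N < N := Nat.mod_lt _ hN
        have e1 : ∀ z, f^[k] z = f^[k % N] ((f^[N])^[k / N] z) := by
          intro z
          rw [← Function.iterate_mul, ← Function.iterate_add_apply]
          congr 1
          rw [Nat.mod_add_div]
        rw [e1 x, e1 y]
        apply hU _ (hit _ x hx) _ (hit _ y hy)
        · have := congrFun hIy ⟨k / N, by omega⟩
          simpa [I] using this.symm
        · have := congrFun hIy ⟨k / N + 1, by omega⟩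
          simp only [I] at this
          rw [Function.iterate_succ_apply', Function.iterate_succ_apply'] at this
          exact this.symm
        · exact hl
    refine (hcov.coverMincard_le_card).trans ?_
    have hcard : s.card ≤ (c '' A).ncard * M ^ K := by
      calc s.card ≤ h1.toFinset.card := Finset.card_image_le
        _ = (I '' A).ncard := (Set.ncard_eq_toFinset_card _ h1).symm
        _ ≤ _ := h2
    exact_mod_cast hcard
  have hmono : Monotone (fun n : ℕ => (Dynamics.coverMincard f A U n : ENNReal)) := by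
    intro m n hmn
    exact ENat.toENNReal_mono (Dynamics.coverMincard_monotone_time f A U hmn)
  have h3 := hmono.expGrowthSup_comp_mul (m := N) hN.ne'
  have h4 : ExpGrowth.expGrowthSup (fun K : ℕ => (Dynamics.coverMincard f A U (N * K) : ENNReal)) ≤
      ENNReal.log (M : ENNReal) := by
    rw [← ExpGrowth.expGrowthSup_pow]
    apply ExpGrowth.expGrowthSup_le_of_eventually_le (b := ((c '' A).ncard : ENNReal))
      (ENNReal.natCast_ne_top _)
    refine Eventually.of_forall (fun K => ?_)
    have := ENat.toENNReal_mono (key K)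
    refine this.trans ?_
    push_cast
    exact le_rfl
  have h5 : ENNReal.log (M : ENNReal) = ((Real.log M : ℝ) : EReal) := by
    have : (M : ENNReal) = ENNReal.ofReal (M : ℝ) := by simp
    rw [this, ENNReal.log_ofReal_of_pos (by exact_mod_cast hM)]
  have h6 : (N : EReal) * Dynamics.coverEntropyEntourage f A U ≤ ((Real.log M : ℝ) : EReal) := by
    rw [← h5]
    refine le_trans (le_of_eq ?_) h4
    exact h3.symm
  have hNpos : (0 : EReal) < (N : EReal) := by exact_mod_cast hN
  rw [EReal.coe_div]
  rw [EReal.le_div_iff_mul_le (by exact_mod_cast hN) (EReal.coe_ne_top _)]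
  rw [mul_comm]
  exact_mod_cast h6

end CoverAux

theorem cover_le {X : Type} [PseudoMetricSpace X] (f : X → X) (A : Set X) (N : ℕ) (hN : 0 < N)
    (M : ℕ) (hM : 1 ≤ M) (hA : ∀ p ∈ A, f^[N] p ∈ A)
    (hbox : ∀ ε : ℝ, 0 < ε → ∃ (κ : Type) (c : X → κ), (c '' A).Finite ∧
      (∀ p ∈ A, ∀ q ∈ A, c p = c q → c (f^[N] p) = c (f^[N] q) →
        ∀ k < N, dist (f^[k] p) (f^[k] q) < ε) ∧
      ∀ b : κ, Set.ncard ((fun p => c (f^[N] p)) '' {p | p ∈ A ∧ c p = b}) ≤ M) :
    Dynamics.coverEntropy f A ≤ ((Real.log M / N : ℝ) : EReal) := by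
  rw [Dynamics.coverEntropy_eq_iSup_basis (Metric.uniformity_basis_dist)]
  refine iSup₂_le (fun ε hε => ?_)
  obtain ⟨κ, c, h1, h2, h3⟩ := hbox ε hε
  exact CoverAux.entourage_le f A N hN M hM hA _ c h1 h2 h3

theorem coverEntropy_finite_le {X : Type} [PseudoMetricSpace X] (f : X → X) (A : Set X)
    (hA : A.Finite) (hf : ∀ p ∈ A, f p ∈ A) : Dynamics.coverEntropy f A ≤ 0 := by
  have := cover_le f A 1 one_pos 1 le_rfl (by simpa using hf) (fun ε hε => ?_)
  · simpa using this
  · refine ⟨X, id, by simpa using hA, ?_, ?_⟩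
    · intro p _ q _ h _ k hk
      have hk0 : k = 0 := by omega
      subst hk0
      simp only [id] at h
      subst h
      simpa using hε
    · intro b
      refine (Set.ncard_le_ncard (t := {f b}) ?_ (Set.finite_singleton _)).trans (by simp)
      rintro _ ⟨p, ⟨_, hp⟩, rfl⟩
      simp only [id] at hp
      subst hp
      simp

end Pool.Agent.helper15.SD
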