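import Pool.Agent.helper15.SD.Hol2

/-! Hölder classes: one variable criteria, sums and constants. -/

open Set Filter Topology

namespace Pool.Agent.helper15.SD

lemma norm_iteratedFDeriv_sub_eq (k : ℕ) (f : ℝ → ℝ) (x y : ℝ) :
    ‖iteratedFDeriv ℝ k f x - iteratedFDeriv ℝ k f y‖ =
      |iteratedDeriv k f x - iteratedDeriv k f y| := by
  have h1 := congrFun (iteratedFDeriv_eq_equiv_comp (𝕜 := ℝ) (n := k) (f := f)) x
  have h2 := congrFun (iteratedFDeriv_eq_equiv_comp (𝕜 := ℝ) (n := k) (f := f)) y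
  simp only [Function.comp_apply] at h1 h2
  rw [h1, h2]
  have h3 := (ContinuousMultilinearMap.piFieldEquiv ℝ (Fin k) ℝ).map_sub
    (iteratedDeriv k f x) (iteratedDeriv k f y)
  have h4 := (ContinuousMultilinearMap.piFieldEquiv ℝ (Fin k) ℝ).norm_map
    (iteratedDeriv k f x - iteratedDeriv k f y)
  rw [h3] at h4
  rw [h4, Real.norm_eq_abs]

theorem holB_of_iteratedDeriv {α : ℝ} {k : ℕ} {f : ℝ → ℝ} (hf : ContDiff ℝ k f) (C : ℝ)
    (h1 : ∀ j ≤ k, ∀ x, |iteratedDeriv j f x| ≤ C)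
    (h2 : ∀ x y, |iteratedDeriv k f x - iteratedDeriv k f y| ≤ C * |x - y| ^ α) :
    HolB α k f := by
  refine ⟨hf, C, ?_, ?_⟩
  · intro j hj x
    rw [norm_iteratedFDeriv_eq_norm_iteratedDeriv]
    exact h1 j hj x
  · intro x y
    rw [norm_iteratedFDeriv_sub_eq]
    exact h2 x y

theorem holB_of_contDiff_succ {α : ℝ} (h0 : 0 ≤ α) (h1 : α ≤ 1) {k : ℕ} {f : ℝ → ℝ}
    (hf : ContDiff ℝ (k + 1 : ℕ) f) (C : ℝ) (hC : ∀ j ≤ k + 1, ∀ x, |iteratedDeriv j f x| ≤ C) :
    HolB α k f := by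
  refine ⟨hf.of_le (by exact_mod_cast Nat.le_succ k), 2 * C, ?_, ?_⟩
  · intro j hj x
    rw [norm_iteratedFDeriv_eq_norm_iteratedDeriv]
    have h := hC j (by omega) x
    have h' := (abs_nonneg _).trans h
    rw [Real.norm_eq_abs]
    linarith
  · intro x y
    have hC0 : 0 ≤ C := (abs_nonneg _).trans (hC 0 (by omega) 0)
    have hd : Differentiable ℝ (iteratedFDeriv ℝ k f) :=
      hf.differentiable_iteratedFDeriv (by exact_mod_cast Nat.lt_succ_self k)
    have hl : ‖iteratedFDeriv ℝ k f x - iteratedFDeriv ℝ k f y‖ ≤ C * ‖x - y‖ := by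
      refine Convex.norm_image_sub_le_of_norm_fderiv_le (𝕜 := ℝ) (s := Set.univ)
        (fun z _ => hd z) (fun z _ => ?_) convex_univ (mem_univ _) (mem_univ _)
      rw [norm_fderiv_iteratedFDeriv, norm_iteratedFDeriv_eq_norm_iteratedDeriv]
      exact hC (k + 1) le_rfl z
    refine le_two_mul_rpow h0 h1 hC0 (norm_nonneg _) hl ?_
    have h3 := norm_sub_le (iteratedFDeriv ℝ k f x) (iteratedFDeriv ℝ k f y)
    rw [norm_iteratedFDeriv_eq_norm_iteratedDeriv, norm_iteratedFDeriv_eq_norm_iteratedDeriv] at h3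
    have h4 := hC k (by omega) x
    have h5 := hC k (by omega) y
    rw [← Real.norm_eq_abs] at h4 h5
    linarith

section hol
variable {E F G H : Type} [NormedAddCommGroup E] [NormedSpace ℝ E] [NormedAddCommGroup F]
  [NormedSpace ℝ F] [NormedAddCommGroup G] [NormedSpace ℝ G] [NormedAddCommGroup H]
  [NormedSpace ℝ H]

theorem HolB.add {α : ℝ} {k : ℕ} {f g : E → F} (hf : HolB α k f) (hg : HolB α k g) :
    HolB α k (fun x => f x + g x) := HolB.add_aux hf hg

theorem holB_const {α : ℝ} {k : ℕ} (c : F) : HolB α k (fun _ : E => c) := by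
  refine ⟨contDiff_const, ‖c‖, ?_, ?_⟩
  · intro j _ x
    rcases Nat.eq_zero_or_pos j with rfl | hj
    · rw [norm_iteratedFDeriv_zero]
    · rw [iteratedFDeriv_const_of_ne hj.ne']
      simp
  · intro x y
    have h : iteratedFDeriv ℝ k (fun _ : E => c) x = iteratedFDeriv ℝ k (fun _ : E => c) y := by
      rcases Nat.eq_zero_or_pos k with rfl | hj
      · ext v
        simp
      · rw [iteratedFDeriv_const_of_ne hj.ne']
        rfl
    rw [h, sub_self, norm_zero]
    exact mul_nonneg (norm_nonneg _) (Real.rpow_nonneg (norm_nonneg _) _)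

end hol

end Pool.Agent.helper15.SD
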