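import Pool.Agent.helper15.SD.KickDefs

/-!
# WigBasic (SD-M7): the wiggles of the windows
-/

open Set Filter Topology

namespace Pool.Agent.helper15.SD

section wig
variable {L : ℝ} {β : ℕ} {N : ℕ → ℕ}

theorem chi_nonneg (s : ℝ) : 0 ≤ chi s :=
  mul_nonneg (Real.smoothTransition.nonneg _) (Real.smoothTransition.nonneg _)

theorem chi_le_one (s : ℝ) : chi s ≤ 1 :=
  mul_le_one₀ (Real.smoothTransition.le_one _) (Real.smoothTransition.nonneg _)
    (Real.smoothTransition.le_one _)

theorem chi_one {s : ℝ} (h : |s| ≤ 1 / 2) : chi s = 1 := by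
  rw [abs_le] at h
  unfold chi
  rw [Real.smoothTransition.one_of_one_le (by linarith),
    Real.smoothTransition.one_of_one_le (by linarith), one_mul]

theorem chi_zero {s : ℝ} (h : 1 ≤ |s|) : chi s = 0 := by
  unfold chi
  rcases le_abs.1 h with h | h
  · rw [Real.smoothTransition.zero_of_nonpos (by linarith), zero_mul]
  · rw [Real.smoothTransition.zero_of_nonpos (x := 2 * (1 + s)) (by linarith), mul_zero]

theorem chi_smooth (n : ℕ) : ContDiff ℝ n chi := by
  unfold chi
  exact (Real.smoothTransition.contDiff.comp (by fun_prop)).mul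
    (Real.smoothTransition.contDiff.comp (by fun_prop))

theorem chi_support : HasCompactSupport chi := by
  apply HasCompactSupport.of_support_subset_isCompact (isCompact_Icc (a := (-1 : ℝ)) (b := 1))
  intro s hs
  by_contra hn
  apply hs
  apply chi_zero
  by_contra hlt
  push Not at hlt
  rw [abs_lt] at hlt
  exact hn ⟨hlt.1.le, hlt.2.le⟩

theorem exists_chi_lip : ∃ C : ℝ, 0 ≤ C ∧ ∀ s t, |chi s - chi t| ≤ C * |s - t| := by
  obtain ⟨C, hC⟩ := ((chi_smooth 1).lipschitzWith_of_hasCompactSupport chi_support (by norm_num))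
  refine ⟨C, C.2, fun s t => ?_⟩
  have := hC.dist_le_mul s t
  rwa [Real.dist_eq, Real.dist_eq] at this

theorem ll_pos' (hL : 1000 ≤ L) (i : ℕ) : 0 < ll L i := by
  have : 0 < L := by linarith
  unfold ll; positivity

theorem rr_pos' (hL : 1000 ≤ L) (i : ℕ) : 0 < rr L i := by
  have : 0 < L := by linarith
  unfold rr; positivity

theorem ll_eq (L : ℝ) (i : ℕ) : ll L i = rr L i / 4 := by
  unfold ll rr; ring

theorem abs_om_le (L : ℝ) (N : ℕ → ℕ) (i : ℕ) (u : ℝ) : |om L N i u| ≤ 1 := by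
  unfold om
  rw [abs_mul, abs_of_nonneg (chi_nonneg _)]
  exact mul_le_one₀ (chi_le_one _) (abs_nonneg _) (Real.abs_sin_le_one _)

theorem om_eq_sin (hL : 1000 ≤ L) (i : ℕ) {u : ℝ} (hu : |u - xx L i| ≤ ll L i / 2) :
    om L N i u = Real.sin (N i * Real.pi * (u - xx L i) / ll L i) := by
  have hl := ll_pos' hL i
  unfold om
  rw [chi_one, one_mul]
  rw [abs_div, abs_of_pos hl, div_le_iff₀ hl]
  linarith

theorem om_eq_zero (hL : 1000 ≤ L) (i : ℕ) {u : ℝ} (hu : ll L i ≤ |u - xx L i|) :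
    om L N i u = 0 := by
  have hl := ll_pos' hL i
  unfold om
  rw [chi_zero, zero_mul]
  rw [abs_div, abs_of_pos hl, le_div_iff₀ hl]
  linarith

theorem exists_om_lip : ∃ C : ℝ, 1 ≤ C ∧ ∀ (L : ℝ) (N : ℕ → ℕ) (i : ℕ), 1000 ≤ L → 1 ≤ N i →
    ∀ u v, |om L N i u - om L N i v| ≤ C * N i / ll L i * |u - v| := by
  obtain ⟨K, hK, hchi⟩ := exists_chi_lip
  refine ⟨K + Real.pi, by linarith [Real.pi_gt_three], fun L N i hL hN u v => ?_⟩
  have hl := ll_pos' hL i
  have hN' : (1 : ℝ) ≤ N i := by exact_mod_cast hN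
  set s := (u - xx L i) / ll L i with hs
  set t := (v - xx L i) / ll L i with ht
  have hst : |s - t| = |u - v| / ll L i := by
    rw [hs, ht, ← sub_div, abs_div, abs_of_pos hl]
    congr 2; ring
  have e1 : om L N i u = chi s * Real.sin (N i * Real.pi * s) := by
    unfold om; rw [hs]; congr 2; ring
  have e2 : om L N i v = chi t * Real.sin (N i * Real.pi * t) := by
    unfold om; rw [ht]; congr 2; ring
  have h1 := hchi s t
  have h2 : |Real.sin (N i * Real.pi * s) - Real.sin (N i * Real.pi * t)| ≤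
      N i * Real.pi * |s - t| := by
    have hl := Real.lipschitzWith_sin.dist_le_mul (N i * Real.pi * s) (N i * Real.pi * t)
    rw [Real.dist_eq, Real.dist_eq, NNReal.coe_one, one_mul] at hl
    refine hl.trans (le_of_eq ?_)
    rw [← mul_sub, abs_mul, abs_of_nonneg (by positivity)]
  rw [e1, e2]
  have e3 : chi s * Real.sin (N i * Real.pi * s) - chi t * Real.sin (N i * Real.pi * t) =
      (chi s - chi t) * Real.sin (N i * Real.pi * s) +
        chi t * (Real.sin (N i * Real.pi * s) - Real.sin (N i * Real.pi * t)) := by ring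
  rw [e3]
  calc |(chi s - chi t) * Real.sin (N i * Real.pi * s) +
        chi t * (Real.sin (N i * Real.pi * s) - Real.sin (N i * Real.pi * t))|
      ≤ |chi s - chi t| * |Real.sin (N i * Real.pi * s)| +
        |chi t| * |Real.sin (N i * Real.pi * s) - Real.sin (N i * Real.pi * t)| := by
        refine (abs_add_le _ _).trans ?_
        rw [abs_mul, abs_mul]
    _ ≤ (K * |s - t|) * 1 + 1 * (N i * Real.pi * |s - t|) := by
        have hc : |chi t| ≤ 1 := by rw [abs_of_nonneg (chi_nonneg _)]; exact chi_le_one _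
        gcongr
        exact Real.abs_sin_le_one _
    _ ≤ (K * |s - t|) * N i + 1 * (N i * Real.pi * |s - t|) := by
        gcongr
    _ = (K + Real.pi) * N i / ll L i * |u - v| := by
        rw [hst]; field_simp

/-- the windows are disjoint -/
theorem window_disj (hL : 1000 ≤ L) {i j : ℕ} (hij : i ≠ j) {u : ℝ}
    (hu : |u - xx L i| ≤ ll L i) : ll L j < |u - xx L j| := by
  have hLp : 0 < L := by linarith
  have key : ∀ a b : ℕ, a < b → 100 * rr L b ≤ rr L a := by
    intro a b hab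
    unfold rr
    have h1 : L ^ (2 * a) * 1000 ≤ L ^ (2 * b) := by
      calc L ^ (2 * a) * 1000 ≤ L ^ (2 * a) * L := by gcongr
        _ = L ^ (2 * a + 1) := by ring
        _ ≤ L ^ (2 * b) := pow_le_pow_right₀ (by linarith) (by omega)
    rw [← mul_div_assoc, div_le_div_iff₀ (by positivity) (by positivity)]
    nlinarith [pow_pos hLp (2 * a)]
  rw [ll_eq] at hu ⊢
  have hu2 := abs_le.1 hu
  unfold xx at *
  have ri := rr_pos' hL i
  have rj := rr_pos' hL j
  rw [lt_abs]
  rcases lt_or_gt_of_ne hij with h | h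
  · have := key i j h
    right; linarith [hu2.1, hu2.2]
  · have := key j i h
    left; linarith [hu2.1, hu2.2]

theorem wig_window (hL : 1000 ≤ L) {i : ℕ} (hi : 1 ≤ i) {u : ℝ} (hu : |u - xx L i| ≤ ll L i) :
    wig L β N u = ll L i / 2 / L ^ nn β i * om L N i u := by
  unfold wig
  obtain ⟨k, rfl⟩ : ∃ k, i = k + 1 := ⟨i - 1, by omega⟩
  rw [tsum_eq_single k]
  intro j hj
  rw [om_eq_zero hL (j + 1) (window_disj hL (i := k + 1) (j := j + 1) (by omega) hu).le, mul_zero]

theorem wig_zone (hL : 1000 ≤ L) {u : ℝ} (hu : ∀ i, 1 ≤ i → ll L i ≤ |u - xx L i|) :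
    wig L β N u = 0 := by
  unfold wig
  rw [tsum_congr (g := fun _ => (0 : ℝ)), tsum_zero]
  intro j
  rw [om_eq_zero hL (j + 1) (hu (j + 1) (by omega)), mul_zero]

theorem wig_summable (hL : 1000 ≤ L) (u : ℝ) :
    Summable (fun i : ℕ => ll L (i + 1) / 2 / L ^ nn β (i + 1) * om L N (i + 1) u) := by
  have hLp : 0 < L := by linarith
  apply Summable.of_norm_bounded (g := fun i : ℕ => (1 / 2 : ℝ) ^ i) (summable_geometric_two)
  intro i
  rw [Real.norm_eq_abs, abs_mul]
  have hl := ll_pos' hL (i + 1)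
  have h1 : ll L (i + 1) ≤ (1 / 2 : ℝ) ^ i := by
    unfold ll
    rw [one_div_pow, div_div, div_le_div_iff₀ (by positivity) (by positivity)]
    have : (2 : ℝ) ^ i ≤ L ^ (2 * (i + 1)) := by
      calc (2 : ℝ) ^ i ≤ L ^ i := by gcongr; linarith
        _ ≤ L ^ (2 * (i + 1)) := pow_le_pow_right₀ (by linarith) (by omega)
    nlinarith [pow_pos hLp (2 * (i + 1))]
  have h2 : (1 : ℝ) ≤ L ^ nn β (i + 1) := one_le_pow₀ (by linarith)
  have h3 : |ll L (i + 1) / 2 / L ^ nn β (i + 1)| ≤ (1 / 2 : ℝ) ^ i := by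
    rw [abs_of_pos (by positivity)]
    refine le_trans (div_le_self (by positivity) h2) ?_
    linarith
  calc |ll L (i + 1) / 2 / L ^ nn β (i + 1)| * |om L N (i + 1) u|
      ≤ (1 / 2 : ℝ) ^ i * 1 := mul_le_mul h3 (abs_om_le _ _ _ _) (abs_nonneg _) (by positivity)
    _ = (1 / 2 : ℝ) ^ i := mul_one _

/-- the constant `C` is the one of `exists_om_lip` -/
theorem wig_lip {C : ℝ} (hC : 1 ≤ C) (hL : 1000 ≤ L)
    (hom : ∀ i, 1 ≤ i → ∀ u v, |om L N i u - om L N i v| ≤ C * N i / ll L i * |u - v|)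
    (hN : ∀ i, 1 ≤ i → (N i : ℝ) ≤ L ^ nn β i / 2 ^ i) (u v : ℝ) :
    |wig L β N u - wig L β N v| ≤ C * |u - v| := by
  have hLp : 0 < L := by linarith
  unfold wig
  rw [← (wig_summable hL u).tsum_sub (wig_summable hL v)]
  have hg : HasSum (fun i : ℕ => C * |u - v| / 4 * (1 / 2 : ℝ) ^ i) (C * |u - v| / 4 * 2) :=
    hasSum_geometric_two.mul_left _
  have := tsum_of_norm_bounded hg (f := fun i : ℕ =>
    ll L (i + 1) / 2 / L ^ nn β (i + 1) * om L N (i + 1) u -
      ll L (i + 1) / 2 / L ^ nn β (i + 1) * om L N (i + 1) v) (fun i => by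
    have hl := ll_pos' hL (i + 1)
    have hLn : 0 < L ^ nn β (i + 1) := pow_pos hLp _
    rw [Real.norm_eq_abs, ← mul_sub, abs_mul, abs_of_pos (by positivity)]
    have h1 := hom (i + 1) (by omega) u v
    have h2 := hN (i + 1) (by omega)
    calc ll L (i + 1) / 2 / L ^ nn β (i + 1) * |om L N (i + 1) u - om L N (i + 1) v|
        ≤ ll L (i + 1) / 2 / L ^ nn β (i + 1) * (C * N (i + 1) / ll L (i + 1) * |u - v|) := by
          gcongr
      _ = C * |u - v| / 2 * (N (i + 1) / L ^ nn β (i + 1)) := by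
          field_simp
      _ ≤ C * |u - v| / 2 * (1 / 2 ^ (i + 1)) := by
          apply mul_le_mul_of_nonneg_left _ (by positivity)
          rw [div_le_iff₀ hLn]
          calc (N (i + 1) : ℝ) ≤ L ^ nn β (i + 1) / 2 ^ (i + 1) := h2
            _ = 1 / 2 ^ (i + 1) * L ^ nn β (i + 1) := by ring
      _ = C * |u - v| / 4 * (1 / 2 : ℝ) ^ i := by
          rw [pow_succ, one_div_pow]; ring)
  rw [Real.norm_eq_abs] at this
  refine this.trans ?_
  have : 0 ≤ C * |u - v| := by positivity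
  linarith

end wig

end Pool.Agent.helper15.SD
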