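import Pool.Agent.helper15.SD.KickDefs
import Pool.Agent.helper15.SD.Hol1

/-! Hölder class of the wiggle series (helper40). -/

open Set Filter Topology

namespace Pool.Agent.helper15.SD

namespace WigAux

theorem contDiff_chi (n : ℕ) : ContDiff ℝ n chi := by
  have h1 : ContDiff ℝ n (fun s : ℝ => 2 * (1 - s)) := by fun_prop
  have h2 : ContDiff ℝ n (fun s : ℝ => 2 * (1 + s)) := by fun_prop
  exact (Real.smoothTransition.contDiff.comp h1).mul (Real.smoothTransition.contDiff.comp h2)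

theorem chi_supp : HasCompactSupport chi := by
  refine HasCompactSupport.of_support_subset_isCompact (isCompact_Icc (a := (-1:ℝ)) (b := 1)) ?_
  intro s hs
  rw [Function.mem_support] at hs
  by_contra h
  apply hs
  rw [mem_Icc, not_and_or, not_le, not_le] at h
  unfold chi
  rcases h with h | h
  · rw [Real.smoothTransition.zero_of_nonpos (x := 2 * (1 + s)) (by linarith), mul_zero]
  · rw [Real.smoothTransition.zero_of_nonpos (x := 2 * (1 - s)) (by linarith), zero_mul]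

theorem chi_bound (n : ℕ) : ∃ M : ℝ, 0 ≤ M ∧ ∀ x, |iteratedDeriv n chi x| ≤ M := by
  have hc : Continuous (iteratedFDeriv ℝ n chi) :=
    (contDiff_chi n).continuous_iteratedFDeriv (by exact_mod_cast le_rfl)
  obtain ⟨M, hM⟩ := hc.bounded_above_of_compact_support (chi_supp.iteratedFDeriv n)
  refine ⟨M, (norm_nonneg _).trans (hM 0), fun x => ?_⟩
  rw [← Real.norm_eq_abs, ← norm_iteratedFDeriv_eq_norm_iteratedDeriv]
  exact hM x

theorem iter_affine {F : ℝ → ℝ} {n : ℕ} (hF : ContDiff ℝ n F) (c x₀ u : ℝ) :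
    iteratedDeriv n (fun u => F (c * (u - x₀))) u = c ^ n * iteratedDeriv n F (c * (u - x₀)) := by
  have h1 := congrFun (iteratedDeriv_comp_sub_const n (fun v => F (c * v)) x₀) u
  have h2 := congrFun (iteratedDeriv_comp_const_mul hF c) (u - x₀)
  exact h1.trans h2

theorem om_eq (L : ℝ) (N : ℕ → ℕ) (i : ℕ) : om L N i = fun u =>
    chi (1 / ll L i * (u - xx L i)) * Real.sin (N i * Real.pi / ll L i * (u - xx L i)) := by
  funext u
  unfold om
  congr 2 <;> ring

theorem contDiff_om (L : ℝ) (N : ℕ → ℕ) (i n : ℕ) : ContDiff ℝ n (om L N i) := by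
  rw [om_eq]
  have h1 : ContDiff ℝ n (fun u : ℝ => 1 / ll L i * (u - xx L i)) := by fun_prop
  have h2 : ContDiff ℝ n (fun u : ℝ => (N i : ℝ) * Real.pi / ll L i * (u - xx L i)) := by fun_prop
  exact ((contDiff_chi n).comp h1).mul (Real.contDiff_sin.comp h2)

theorem ll_pos {L : ℝ} (hL : 1000 ≤ L) (i : ℕ) : 0 < ll L i := by
  unfold ll; positivity

theorem ll_le_one {L : ℝ} (hL : 1000 ≤ L) (i : ℕ) : ll L i ≤ 1 := by
  unfold ll
  have h : 1 ≤ L ^ (2 * i) := one_le_pow₀ (by linarith)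
  rw [div_le_one (by positivity)]
  linarith

/-- all derivatives of the wiggles, uniformly -/
theorem om_bound (n : ℕ) : ∃ C : ℝ, 0 ≤ C ∧ ∀ (L : ℝ) (N : ℕ → ℕ) (i : ℕ), 1000 ≤ L → 1 ≤ N i →
    ∀ u, |iteratedDeriv n (om L N i) u| ≤ C * ((N i : ℝ) / ll L i) ^ n := by
  choose M hM0 hM using chi_bound
  refine ⟨∑ a ∈ Finset.range (n + 1), (n.choose a : ℝ) * M a * Real.pi ^ (n - a),
    Finset.sum_nonneg (fun a _ => by have := hM0 a; positivity), fun L N i hL hN u => ?_⟩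
  have hl := ll_pos hL i
  have hN' : (1:ℝ) ≤ N i := by exact_mod_cast hN
  have h1 : ContDiff ℝ n (fun u : ℝ => 1 / ll L i * (u - xx L i)) := by fun_prop
  have h2 : ContDiff ℝ n (fun u : ℝ => (N i : ℝ) * Real.pi / ll L i * (u - xx L i)) := by fun_prop
  have h1' : ContDiff ℝ n (fun u : ℝ => chi (1 / ll L i * (u - xx L i))) := (contDiff_chi n).comp h1
  have h2' : ContDiff ℝ n (fun u : ℝ => Real.sin ((N i : ℝ) * Real.pi / ll L i * (u - xx L i))) :=
    Real.contDiff_sin.comp h2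
  rw [om_eq, iteratedDeriv_fun_mul h1'.contDiffAt h2'.contDiffAt]
  refine (Finset.abs_sum_le_sum_abs _ _).trans ?_
  rw [Finset.sum_mul]
  refine Finset.sum_le_sum (fun a ha => ?_)
  have han : a ≤ n := Nat.lt_succ_iff.1 (Finset.mem_range.1 ha)
  rw [iter_affine (contDiff_chi a), iter_affine Real.contDiff_sin, abs_mul, abs_mul, abs_mul,
    abs_mul, abs_pow, abs_pow, Nat.abs_cast, abs_of_pos (by positivity : 0 < 1 / ll L i),
    abs_of_pos (by positivity : 0 < (N i : ℝ) * Real.pi / ll L i)]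
  have e1 : (1 / ll L i) ^ a ≤ ((N i : ℝ) / ll L i) ^ a := by gcongr
  have e2 : ((N i : ℝ) * Real.pi / ll L i) ^ (n - a) =
      Real.pi ^ (n - a) * ((N i : ℝ) / ll L i) ^ (n - a) := by
    rw [← mul_pow]; congr 1; ring
  have e3 : ((N i : ℝ) / ll L i) ^ a * ((N i : ℝ) / ll L i) ^ (n - a) =
      ((N i : ℝ) / ll L i) ^ n := by
    rw [← pow_add]; congr 1; omega
  have e4 := Real.abs_iteratedDeriv_sin_le_one (n - a) ((N i : ℝ) * Real.pi / ll L i * (u - xx L i))
  have e5 := hM a (1 / ll L i * (u - xx L i))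
  have hMa := hM0 a
  calc _ ≤ (n.choose a : ℝ) * (((N i : ℝ) / ll L i) ^ a * M a) *
        (((N i : ℝ) * Real.pi / ll L i) ^ (n - a) * 1) := by gcongr
    _ = (n.choose a : ℝ) * M a * Real.pi ^ (n - a) *
        (((N i : ℝ) / ll L i) ^ a * ((N i : ℝ) / ll L i) ^ (n - a)) := by rw [e2]; ring
    _ = _ := by rw [e3]

/-- interpolation -/
theorem interp {q h α : ℝ} (hq : 0 < q) (hh : 0 ≤ h) (h0 : 0 ≤ α) (h1 : α ≤ 1) (k : ℕ) {d A C : ℝ}
    (hA : 0 ≤ A) (hC : 0 ≤ C)
    (hd1 : d ≤ 2 * (A * (C * q ^ k))) (hd2 : d ≤ A * (C * q ^ (k + 1)) * h) :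
    d ≤ 2 * C * (A * q ^ ((k : ℝ) + α)) * h ^ α := by
  have e : A * q ^ ((k : ℝ) + α) * h ^ α = A * (q ^ k * (q * h) ^ α) := by
    rw [Real.rpow_add hq, Real.rpow_natCast, Real.mul_rpow hq.le hh]; ring
  have e' : 2 * C * (A * q ^ ((k : ℝ) + α)) * h ^ α = 2 * C * (A * q ^ ((k : ℝ) + α) * h ^ α) := by ring
  rw [e', e]
  have hqh : 0 ≤ q * h := by positivity
  have hp : 0 ≤ (q * h) ^ α := Real.rpow_nonneg hqh _
  rcases le_total (q * h) 1 with hle | hle
  · have h3 : q * h ≤ (q * h) ^ α := Real.self_le_rpow_of_le_one hqh hle h1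
    calc d ≤ A * (C * q ^ (k + 1)) * h := hd2
      _ = C * (A * (q ^ k * (q * h))) := by ring
      _ ≤ C * (A * (q ^ k * (q * h) ^ α)) := by gcongr
      _ ≤ 2 * C * (A * (q ^ k * (q * h) ^ α)) := by
          have : 0 ≤ C * (A * (q ^ k * (q * h) ^ α)) := by positivity
          linarith
  · have h3 : 1 ≤ (q * h) ^ α := Real.one_le_rpow hle h0
    calc d ≤ 2 * (A * (C * q ^ k)) := hd1
      _ = 2 * C * (A * (q ^ k * 1)) := by ring
      _ ≤ 2 * C * (A * (q ^ k * (q * h) ^ α)) := by gcongr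

end WigAux

open WigAux

section wig
variable {L : ℝ} {β : ℕ} {N : ℕ → ℕ}

theorem wig_holB {r : ℝ} (hr : 1 < r) (hL : 1000 ≤ L) (hN : ∀ i, 1 ≤ i → 1 ≤ N i)
    (hK : ∃ K : ℝ, ∀ i, 1 ≤ i → ll L i / L ^ nn β i * ((N i : ℝ) / ll L i) ^ r ≤ K / 2 ^ i) :
    HolB (r - (⌊r⌋₊ : ℝ)) ⌊r⌋₊ (wig L β N) := by
  obtain ⟨K, hK⟩ := hK
  set k := ⌊r⌋₊ with hk
  have hkr : (k : ℝ) ≤ r := Nat.floor_le (by linarith)
  have hkr' : r < k + 1 := Nat.lt_floor_add_one r
  choose C hC0 hC using om_bound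
  -- amplitudes and frequencies
  set A : ℕ → ℝ := fun i => ll L (i + 1) / 2 / L ^ nn β (i + 1) with hA
  set q : ℕ → ℝ := fun i => (N (i + 1) : ℝ) / ll L (i + 1) with hq
  have hA0 : ∀ i, 0 ≤ A i := fun i => by have := ll_pos hL (i + 1); positivity
  have hq1 : ∀ i, 1 ≤ q i := by
    intro i
    have h1 := ll_pos hL (i + 1)
    have h2 := ll_le_one hL (i + 1)
    have h3 : (1:ℝ) ≤ N (i + 1) := by exact_mod_cast hN (i + 1) (by omega)
    rw [hq]; show 1 ≤ (N (i + 1) : ℝ) / ll L (i + 1)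
    rw [le_div_iff₀ h1]; linarith
  have hAq : ∀ i, A i * q i ^ r ≤ K / 2 ^ (i + 1) := by
    intro i
    have h := hK (i + 1) (by omega)
    have e : A i * q i ^ r = 1 / 2 * (ll L (i + 1) / L ^ nn β (i + 1) *
        ((N (i + 1) : ℝ) / ll L (i + 1)) ^ r) := by
      rw [hA, hq]; ring
    have h0 : 0 ≤ ll L (i + 1) / L ^ nn β (i + 1) * ((N (i + 1) : ℝ) / ll L (i + 1)) ^ r := by
      have := ll_pos hL (i + 1); positivity
    rw [e]; linarith
  have hK0 : 0 ≤ K := by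
    have h1 := hAq 0
    have h2 : 0 ≤ A 0 * q 0 ^ r := mul_nonneg (hA0 0) (Real.rpow_nonneg (by linarith [hq1 0]) _)
    have h3 := h2.trans h1
    by_contra hneg
    have : K / 2 ^ (0 + 1) < 0 := div_neg_of_neg_of_pos (not_le.1 hneg) (by positivity)
    linarith
  have hsum : Summable (fun i : ℕ => K / 2 ^ (i + 1)) := by
    have h : Summable (fun i : ℕ => K / 2 * (1 / 2 : ℝ) ^ i) :=
      (summable_geometric_of_lt_one (by norm_num) (by norm_num)).mul_left _
    refine h.congr (fun i => ?_)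
    rw [pow_succ, one_div, inv_pow]; field_simp
  -- the terms
  set f : ℕ → ℝ → ℝ := fun i u => A i * om L N (i + 1) u with hf
  have hfsm : ∀ i (n : ℕ), ContDiff ℝ n (f i) := fun i n =>
    contDiff_const.mul (contDiff_om L N (i + 1) n)
  have hfb : ∀ (j i : ℕ) (x : ℝ), ‖iteratedFDeriv ℝ j (f i) x‖ ≤ A i * (C j * q i ^ j) := by
    intro j i x
    rw [norm_iteratedFDeriv_eq_norm_iteratedDeriv, Real.norm_eq_abs]
    have e : iteratedDeriv j (f i) x = A i * iteratedDeriv j (om L N (i + 1)) x :=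
      iteratedDeriv_const_mul_field (A i) (om L N (i + 1))
    rw [e, abs_mul, abs_of_nonneg (hA0 i)]
    have := hC j L N (i + 1) hL (hN (i + 1) (by omega)) x
    have := hA0 i
    gcongr
  have hfb' : ∀ (j i : ℕ) (x : ℝ), j ≤ k → ‖iteratedFDeriv ℝ j (f i) x‖ ≤ C j * (K / 2 ^ (i + 1)) := by
    intro j i x hj
    refine (hfb j i x).trans ?_
    have h1 : q i ^ j ≤ q i ^ r := by
      rw [← Real.rpow_natCast]
      refine Real.rpow_le_rpow_of_exponent_le (hq1 i) ?_
      have : (j : ℝ) ≤ k := by exact_mod_cast hj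
      linarith
    have h2 := hAq i
    have h3 := hA0 i
    have h4 := hC0 j
    calc A i * (C j * q i ^ j) ≤ A i * (C j * q i ^ r) := by gcongr
      _ = C j * (A i * q i ^ r) := by ring
      _ ≤ C j * (K / 2 ^ (i + 1)) := by gcongr
  have hwig : wig L β N = fun u => ∑' i, f i u := rfl
  have hv : ∀ j : ℕ, ((j : ℕ∞)) ≤ (k : ℕ∞) → Summable (fun i : ℕ => C j * (K / 2 ^ (i + 1))) :=
    fun j _ => hsum.mul_left _
  have hb : ∀ (j i : ℕ) (x : ℝ), ((j : ℕ∞)) ≤ (k : ℕ∞) →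
      ‖iteratedFDeriv ℝ j (f i) x‖ ≤ (fun (j i : ℕ) => C j * (K / 2 ^ (i + 1))) j i :=
    fun j i x hj => hfb' j i x (by exact_mod_cast hj)
  have hcd : ContDiff ℝ (k : ℕ∞) (wig L β N) := by
    rw [hwig]
    exact contDiff_tsum (fun i => hfsm i k) hv hb
  have hder : ∀ j ≤ k, iteratedFDeriv ℝ j (wig L β N) = fun x => ∑' i, iteratedFDeriv ℝ j (f i) x := by
    intro j hj
    rw [hwig]
    exact iteratedFDeriv_tsum (fun i => hfsm i k) hv hb (by exact_mod_cast hj)
  have hsn : ∀ j ≤ k, ∀ x, Summable (fun i => iteratedFDeriv ℝ j (f i) x) := by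
    intro j hj x
    exact Summable.of_norm_bounded (hsum.mul_left (C j)) (fun i => hfb' j i x hj)
  set S : ℝ := ∑' i : ℕ, K / 2 ^ (i + 1) with hS
  have hS0 : 0 ≤ S := tsum_nonneg (fun i => by positivity)
  set Cm : ℝ := ∑ j ∈ Finset.range (k + 2), C j with hCm
  have hCle : ∀ j ≤ k + 1, C j ≤ Cm := by
    intro j hj
    exact Finset.single_le_sum (f := C) (fun a _ => hC0 a) (Finset.mem_range.2 (by omega))
  have hCm0 : 0 ≤ Cm := (hC0 0).trans (hCle 0 (by omega))
  refine ⟨hcd, 2 * Cm * S, ?_, ?_⟩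
  · intro j hj x
    rw [hder j hj]
    calc ‖∑' i, iteratedFDeriv ℝ j (f i) x‖ ≤ ∑' i, C j * (K / 2 ^ (i + 1)) :=
          tsum_of_norm_bounded (hsum.mul_left (C j)).hasSum (fun i => hfb' j i x hj)
      _ = C j * S := by rw [tsum_mul_left]
      _ ≤ 2 * Cm * S := by
          have := hCle j (by omega)
          nlinarith
  · intro x y
    rw [hder k le_rfl]
    show ‖(∑' i, iteratedFDeriv ℝ k (f i) x) - ∑' i, iteratedFDeriv ℝ k (f i) y‖ ≤ _
    rw [← (hsn k le_rfl x).tsum_sub (hsn k le_rfl y)]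
    have hterm : ∀ i, ‖iteratedFDeriv ℝ k (f i) x - iteratedFDeriv ℝ k (f i) y‖ ≤
        2 * Cm * ‖x - y‖ ^ (r - (k : ℝ)) * (K / 2 ^ (i + 1)) := by
      intro i
      have b1 : ‖iteratedFDeriv ℝ k (f i) x - iteratedFDeriv ℝ k (f i) y‖ ≤
          2 * (A i * (Cm * q i ^ k)) := by
        have h1 := norm_sub_le (iteratedFDeriv ℝ k (f i) x) (iteratedFDeriv ℝ k (f i) y)
        have h2 := hfb k i x
        have h3 := hfb k i y
        have h4 : A i * (C k * q i ^ k) ≤ A i * (Cm * q i ^ k) := by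
          have := hCle k (by omega)
          have := hA0 i
          have := hq1 i
          gcongr
        linarith
      have b2 : ‖iteratedFDeriv ℝ k (f i) x - iteratedFDeriv ℝ k (f i) y‖ ≤
          A i * (Cm * q i ^ (k + 1)) * ‖x - y‖ := by
        have hd : Differentiable ℝ (iteratedFDeriv ℝ k (f i)) :=
          (hfsm i (k + 1)).differentiable_iteratedFDeriv (by exact_mod_cast Nat.lt_succ_self k)
        refine Convex.norm_image_sub_le_of_norm_fderiv_le (𝕜 := ℝ) (s := Set.univ)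
          (fun z _ => hd z) (fun z _ => ?_) convex_univ (mem_univ _) (mem_univ _)
        rw [norm_fderiv_iteratedFDeriv]
        refine (hfb (k + 1) i z).trans ?_
        have := hCle (k + 1) le_rfl
        have := hA0 i
        have := hq1 i
        gcongr
      have b3 := interp (by linarith [hq1 i] : 0 < q i) (norm_nonneg (x - y))
        (by linarith : 0 ≤ r - (k : ℝ)) (by linarith) k (hA0 i) hCm0 b1 b2
      have e : (k : ℝ) + (r - (k : ℝ)) = r := by ring
      rw [e] at b3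
      refine b3.trans ?_
      have h5 := hAq i
      have h6 : 0 ≤ ‖x - y‖ ^ (r - (k : ℝ)) := Real.rpow_nonneg (norm_nonneg _) _
      calc 2 * Cm * (A i * q i ^ r) * ‖x - y‖ ^ (r - (k : ℝ)) ≤
            2 * Cm * (K / 2 ^ (i + 1)) * ‖x - y‖ ^ (r - (k : ℝ)) := by gcongr
        _ = _ := by ring
    calc _ ≤ ∑' i, 2 * Cm * ‖x - y‖ ^ (r - (k : ℝ)) * (K / 2 ^ (i + 1)) :=
          tsum_of_norm_bounded (hsum.mul_left _).hasSum hterm
      _ = 2 * Cm * S * ‖x - y‖ ^ (r - (k : ℝ)) := by rw [tsum_mul_left]; ring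

end wig

end Pool.Agent.helper15.SD
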