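import Pool.Agent.helper15.SD.KickDefs
import Pool.Agent.helper15.SD.Hol1
import Pool.Agent.helper15.SD.BaseBasic
import Pool.Agent.helper15.SD.BaseHol
import Pool.Agent.helper15.SD.BaseRoot
import Pool.Agent.helper15.SD.WigBasic
import Pool.Agent.helper15.SD.WigHol

/-!
# Existence of the kick function (module M11 of the SD project), helper31
-/

open Set Filter Topology

namespace Pool.Agent.helper15.SD

theorem exists_DData : ∃ Cw : ℝ, 1 ≤ Cw ∧ ∀ β : ℕ, 2 ≤ β → ∃ Cz Cd : ℝ, 1 ≤ Cz ∧ 1 ≤ Cd ∧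
    ∀ (r L : ℝ) (N : ℕ → ℕ), 1 < r → ⌊r⌋₊ + 2 ≤ β → 1000 ≤ L → (∀ i, 1 ≤ i → 1 ≤ N i) →
      (∀ i, 1 ≤ i → (N i : ℝ) ≤ L ^ nn β i / 2 ^ i) →
      (∃ K : ℝ, ∀ i, 1 ≤ i → ll L i / L ^ nn β i * ((N i : ℝ) / ll L i) ^ r ≤ K / 2 ^ i) →
      Nonempty (DData r L β N Cw Cz Cd) := by
  obtain ⟨Cw, hCw, hom⟩ := exists_om_lip
  refine ⟨Cw, hCw, fun β hβ => ?_⟩
  obtain ⟨Cz, hCz, hz⟩ := base_root_lip β hβ
  obtain ⟨Cb, hCb, hb⟩ := base_lip β hβ
  refine ⟨Cz, Cb + Cw, hCz, by linarith, ?_⟩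
  intro r L N hr hrβ hL hN hNL hK
  have hr0 : (⌊r⌋₊ : ℝ) ≤ r := Nat.floor_le (by linarith)
  have hr1 : r < ⌊r⌋₊ + 1 := Nat.lt_floor_add_one r
  have hL0 : 0 < L := by linarith
  have hL2 : ∀ i, 1 ≤ i → 0 < 1 / L ^ (2 * i) ∧ 1 / L ^ (2 * i) ≤ 1 / 1000 := by
    intro i hi
    refine ⟨by positivity, ?_⟩
    have h1 : L ^ 1 ≤ L ^ (2 * i) := pow_le_pow_right₀ (by linarith) (by omega)
    rw [pow_one] at h1
    gcongr
    linarith
  have hxx : ∀ i, xx L i = 1 / 4 - 1 / 25 * (1 / L ^ (2 * i)) := by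
    intro i; unfold xx rr; ring
  have hll : ∀ i, ll L i = 1 / 100 * (1 / L ^ (2 * i)) := by
    intro i; unfold ll; ring
  have hwin : ∀ i, 1 ≤ i → ∀ u, |u - xx L i| ≤ ll L i →
      base L β u + wig L β N u = (xx L i + ll L i / 2 * om L N i u) / L ^ nn β i := by
    intro i hi u hu
    rw [base_window hL hβ hi hu, wig_window hL hi hu]
    ring
  have hdich : ∀ u, (∃ i, 1 ≤ i ∧ |u - xx L i| ≤ ll L i) ∨ (wig L β N u = 0) := by
    intro u
    by_cases h : ∃ i, 1 ≤ i ∧ |u - xx L i| ≤ ll L i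
    · exact Or.inl h
    · refine Or.inr (wig_zone hL fun i hi => ?_)
      by_contra h'
      exact h ⟨i, hi, (not_le.1 h').le⟩
  have hLnn : ∀ i, 1000 ≤ L ^ nn β i := by
    intro i
    have h1 : L ^ 1 ≤ L ^ nn β i := pow_le_pow_right₀ (by linarith) (by unfold nn; omega)
    rw [pow_one] at h1
    linarith
  have hbd : ∀ i, 1 ≤ i → ∀ u, 0 ≤ xx L i + ll L i / 2 * om L N i u ∧
      xx L i + ll L i / 2 * om L N i u ≤ 1 := by
    intro i hi u
    obtain ⟨h1, h2⟩ := hL2 i hi
    have h3 := abs_le.1 (abs_om_le L N i u)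
    rw [hxx, hll]
    constructor <;> nlinarith
  refine ⟨{
    d := fun u => base L β u + wig L β N u
    om := om L N
    hol := HolB.add (base_holB hL hβ (by linarith) (by linarith) hrβ) (wig_holB hr hL hN hK)
    nonneg := ?_
    le_half := ?_
    left := ?_
    right := ?_
    flat := ?_
    window := hwin
    om_le := fun i u => abs_om_le L N i u
    om_sin := fun i u hu => om_eq_sin hL i hu
    om_lip := fun i hi u v => hom L N i hL (hN i hi) u v
    zone := ?_
    lip := ?_ }⟩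
  · intro u
    rcases hdich u with ⟨i, hi, hu⟩ | h
    · show 0 ≤ base L β u + wig L β N u
      rw [hwin i hi u hu]
      have := (hbd i hi u).1
      positivity
    · show 0 ≤ base L β u + wig L β N u
      rw [h, add_zero]; exact base_nonneg hL hβ u
  · intro u
    rcases hdich u with ⟨i, hi, hu⟩ | h
    · show base L β u + wig L β N u ≤ 1 / 2
      rw [hwin i hi u hu, div_le_div_iff₀ (by positivity) (by norm_num)]
      have := (hbd i hi u).2
      have := hLnn i
      linarith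
    · show base L β u + wig L β N u ≤ 1 / 2
      rw [h, add_zero]; exact base_le_half hL hβ u
  · intro u hu
    show base L β u + wig L β N u = 1 / 2
    rw [base_left hL hβ hu, wig_zone hL, add_zero]
    intro i hi
    obtain ⟨h1, h2⟩ := hL2 i hi
    rw [hxx, hll, abs_of_nonpos (by linarith)]
    linarith
  · intro u hu
    show base L β u + wig L β N u = 1 / 2
    rw [base_right hL hβ hu, wig_zone hL, add_zero]
    intro i hi
    obtain ⟨h1, h2⟩ := hL2 i hi
    rw [hxx, hll, abs_of_nonneg (by linarith)]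
    linarith
  · intro u hu1 hu2
    show base L β u + wig L β N u = 0
    rw [base_flat hL hβ hu1 hu2, wig_zone hL, add_zero]
    intro i hi
    obtain ⟨h1, h2⟩ := hL2 i hi
    rw [hxx, hll, abs_of_nonneg (by linarith)]
    linarith
  · intro u v hu hv
    show |(base L β u + wig L β N u) ^ (1 / (β : ℝ)) - (base L β v + wig L β N v) ^ (1 / (β : ℝ))|
      ≤ Cz * |u - v|
    rw [wig_zone hL hu, wig_zone hL hv, add_zero, add_zero]
    exact hz L hL u v
  · intro u v
    have h1 := hb L hL u v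
    have h2 := wig_lip (N := N) (β := β) hCw hL (fun i hi u v => hom L N i hL (hN i hi) u v) hNL u v
    show |base L β u + wig L β N u - (base L β v + wig L β N v)| ≤ (Cb + Cw) * |u - v|
    calc |base L β u + wig L β N u - (base L β v + wig L β N v)|
        = |(base L β u - base L β v) + (wig L β N u - wig L β N v)| := by congr 1; ring
      _ ≤ |base L β u - base L β v| + |wig L β N u - wig L β N v| := abs_add_le _ _
      _ ≤ Cb * |u - v| + Cw * |u - v| := add_le_add h1 h2
      _ = (Cb + Cw) * |u - v| := by ring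

end Pool.Agent.helper15.SD
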