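import Mathlib

/-!
# MP_de2d0b_an : definitions

`C^r` diffeomorphisms of the torus `ℝ²/ℤ²`, topological entropy (Mathlib's `coverEntropy`),
growth rates of the derivative, hyperbolic periodic orbits and homoclinic classes.
-/

open Set Filter Topology

namespace Pool.Agent.helper15.SD

/-- The torus `ℝ²/ℤ²`. -/
abbrev T2 : Type := UnitAddCircle × UnitAddCircle

/-- The covering map `ℝ² → ℝ²/ℤ²`. -/
def proj (v : ℝ × ℝ) : T2 := ((v.1 : UnitAddCircle), (v.2 : UnitAddCircle))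

/-- A map of the plane is of class `C^r` (`r ≥ 0` real): it is `C^k`, `k = ⌊r⌋`, and its `k`-th
derivative is Hölder continuous with exponent `r - k`. (All maps below commute with the
translations of `ℤ²` up to an automorphism, so local and global Hölder continuity agree.) -/
def IsCr (r : ℝ) (F : ℝ × ℝ → ℝ × ℝ) : Prop :=
  ContDiff ℝ (⌊r⌋₊ : ℕ) F ∧ ∃ C : ℝ, ∀ x y : ℝ × ℝ,
    ‖iteratedFDeriv ℝ ⌊r⌋₊ F x - iteratedFDeriv ℝ ⌊r⌋₊ F y‖ ≤ C * ‖x - y‖ ^ (r - (⌊r⌋₊ : ℝ))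

/-- A `C^r` diffeomorphism of the closed surface `ℝ²/ℤ²`, given together with lifts
`F`, `F'` of it and of its inverse to the plane. -/
structure CrDiffeo (r : ℝ) where
  f : T2 ≃ₜ T2
  F : ℝ × ℝ → ℝ × ℝ
  F' : ℝ × ℝ → ℝ × ℝ
  lift : ∀ v, f (proj v) = proj (F v)
  lift' : ∀ v, f.symm (proj v) = proj (F' v)
  left_inv : ∀ v, F' (F v) = v
  right_inv : ∀ v, F (F' v) = v
  cr : IsCr r F
  cr' : IsCr r F'

/-- `lim (1/n) log max_x ‖D_x f^n‖ = l`, computed on a lift. -/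
def IsGrowthRate (F : ℝ × ℝ → ℝ × ℝ) (l : ℝ) : Prop :=
  Tendsto (fun n : ℕ => Real.log (⨆ v : ℝ × ℝ, ‖fderiv ℝ (F^[n]) v‖) / n) atTop (𝓝 l)

variable {r : ℝ}

/-- The complex eigenvalues of a linear map of the plane. -/
noncomputable def Eigs (D : (ℝ × ℝ) →L[ℝ] (ℝ × ℝ)) : Multiset ℂ :=
  ((D : (ℝ × ℝ) →ₗ[ℝ] (ℝ × ℝ)).charpoly.map (algebraMap ℝ ℂ)).roots

/-- `proj v` is periodic of period `n` (not necessarily the least one) and `O` is its orbit. -/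
def IsOrbitOf (φ : CrDiffeo r) (O : Set T2) (v : ℝ × ℝ) (n : ℕ) : Prop :=
  0 < n ∧ (φ.f)^[n] (proj v) = proj v ∧ O = {q | ∃ k : ℕ, q = (φ.f)^[k] (proj v)}

/-- `O ∈ HPO(f)`: `O` is a hyperbolic periodic orbit. -/
def IsHPO (φ : CrDiffeo r) (O : Set T2) : Prop :=
  ∃ v n, IsOrbitOf φ O v n ∧ ∀ z ∈ Eigs (fderiv ℝ (φ.F^[n]) v), ‖z‖ ≠ 1

/-- `O` is a periodic orbit of saddle type. -/
def IsSaddle (φ : CrDiffeo r) (O : Set T2) : Prop :=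
  ∃ v n, IsOrbitOf φ O v n ∧ (∃ z ∈ Eigs (fderiv ℝ (φ.F^[n]) v), ‖z‖ < 1) ∧
    ∃ z ∈ Eigs (fderiv ℝ (φ.F^[n]) v), 1 < ‖z‖

/-- The stable manifold of the orbit `O`. -/
def Ws (φ : CrDiffeo r) (O : Set T2) : Set T2 :=
  {q | Tendsto (fun n : ℕ => Metric.infDist ((φ.f)^[n] q) O) atTop (𝓝 0)}

/-- The unstable manifold of the orbit `O`. -/
def Wu (φ : CrDiffeo r) (O : Set T2) : Set T2 :=
  {q | Tendsto (fun n : ℕ => Metric.infDist ((φ.f.symm)^[n] q) O) atTop (𝓝 0)}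

/-- Vectors contracted by the forward iterates: for `proj v` on the stable manifold of a
saddle this is the tangent line of the stable manifold. -/
def Es (φ : CrDiffeo r) (v : ℝ × ℝ) : Set (ℝ × ℝ) :=
  {ξ | Tendsto (fun n : ℕ => fderiv ℝ (φ.F^[n]) v ξ) atTop (𝓝 0)}

/-- Vectors contracted by the backward iterates. -/
def Eu (φ : CrDiffeo r) (v : ℝ × ℝ) : Set (ℝ × ℝ) :=
  {ξ | Tendsto (fun n : ℕ => fderiv ℝ (φ.F'^[n]) v ξ) atTop (𝓝 0)}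

/-- Transverse intersection points of the stable and the unstable manifold of `O`. -/
def TransHom (φ : CrDiffeo r) (O : Set T2) : Set T2 :=
  {q | q ∈ Ws φ O ∧ q ∈ Wu φ O ∧ ∃ v, proj v = q ∧
    ∀ η : ℝ × ℝ, ∃ ξ₁ ∈ Es φ v, ∃ ξ₂ ∈ Eu φ v, η = ξ₁ + ξ₂}

/-- The homoclinic class of a hyperbolic periodic orbit: the closure of the set of transverse
homoclinic points for a saddle, and `O` itself for a sink or a source. -/
def HC (φ : CrDiffeo r) (O : Set T2) : Set T2 :=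
  {q | (IsSaddle φ O ∧ q ∈ closure (TransHom φ O)) ∨ (¬ IsSaddle φ O ∧ q ∈ O)}

/-- The final statement (full positive answer to Q1 of MP_de2d0b_an). -/
def Goal : Prop :=
  ∀ r ε : ℝ, 1 < r → 0 < ε → ε < 1 →
    ∃ (φ : CrDiffeo r) (lu ls : ℝ),
      IsGrowthRate φ.F lu ∧ IsGrowthRate φ.F' ls ∧
      0 < (1 - ε) * min lu ls / r ∧
      (((1 - ε) * min lu ls / r : ℝ) : EReal) < Dynamics.coverEntropy φ.f univ ∧
      ∀ O : Set T2, IsHPO φ O →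
        Dynamics.coverEntropy φ.f (HC φ O) < Dynamics.coverEntropy φ.f univ

/-! ### Bounded Hölder classes -/

/-- `f` is `C^k` with bounded derivatives of orders `0..k` and `α`-Hölder `k`-th derivative. -/
def HolB (α : ℝ) (k : ℕ) {E F : Type} [NormedAddCommGroup E] [NormedSpace ℝ E]
    [NormedAddCommGroup F] [NormedSpace ℝ F] (f : E → F) : Prop :=
  ContDiff ℝ k f ∧ ∃ C : ℝ, (∀ j ≤ k, ∀ x, ‖iteratedFDeriv ℝ j f x‖ ≤ C) ∧
    ∀ x y, ‖iteratedFDeriv ℝ k f x - iteratedFDeriv ℝ k f y‖ ≤ C * ‖x - y‖ ^ α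

/-! ### The circle map `G` -/

/-- A circle diffeomorphism with repelling fixed point `0` (slope `L`) and attracting fixed
point `1/2` (slope `L⁻²`), linear near these points. -/
structure GData (L : ℝ) where
  G : ℝ → ℝ
  Gi : ℝ → ℝ
  G_smooth : ∀ n : ℕ, ContDiff ℝ n G
  Gi_smooth : ∀ n : ℕ, ContDiff ℝ n Gi
  Gi_G : ∀ x, Gi (G x) = x
  G_Gi : ∀ x, G (Gi x) = x
  mono : StrictMono G
  odd : ∀ x, G (-x) = -G x
  deg : ∀ x, G (x + 1) = G x + 1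
  deriv_le : ∀ x, |deriv G x| ≤ 2 * L
  lin0 : ∀ x, |x| ≤ 2 / (5 * L) → G x = L * x
  lin1 : ∀ x, 1 / 5 ≤ x → x ≤ 4 / 5 → G x = 1 / 2 + (x - 1 / 2) / L ^ 2

/-! ### Windows -/

/-- distance of the centre of the `i`-th window to `1/4` -/
noncomputable def rr (L : ℝ) (i : ℕ) : ℝ := 1 / 25 / L ^ (2 * i)

/-- centre of the `i`-th window -/
noncomputable def xx (L : ℝ) (i : ℕ) : ℝ := 1 / 4 - rr L i

/-- half width of the `i`-th window, `= rr L i / 4` -/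
noncomputable def ll (L : ℝ) (i : ℕ) : ℝ := 1 / 100 / L ^ (2 * i)

/-- return time of the `i`-th window -/
def nn (β i : ℕ) : ℕ := 4 * β * i + 1

/-- The kick function `d` (plateaus and wiggles). `N i` is the number of wiggles of window `i`,
`Cw`, `Cz` and `Cd` are Lipschitz constants. -/
structure DData (r L : ℝ) (β : ℕ) (N : ℕ → ℕ) (Cw Cz Cd : ℝ) where
  d : ℝ → ℝ
  om : ℕ → ℝ → ℝ
  hol : HolB (r - (⌊r⌋₊ : ℝ)) ⌊r⌋₊ d
  nonneg : ∀ u, 0 ≤ d u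
  le_half : ∀ u, d u ≤ 1 / 2
  left : ∀ u, u ≤ 23 / 100 → d u = 1 / 2
  right : ∀ u, 28 / 100 ≤ u → d u = 1 / 2
  flat : ∀ u, 1 / 4 ≤ u → u ≤ 27 / 100 → d u = 0
  window : ∀ i, 1 ≤ i → ∀ u, |u - xx L i| ≤ ll L i →
    d u = (xx L i + ll L i / 2 * om i u) / L ^ nn β i
  om_le : ∀ i u, |om i u| ≤ 1
  om_sin : ∀ i u, |u - xx L i| ≤ ll L i / 2 →
    om i u = Real.sin (N i * Real.pi * (u - xx L i) / ll L i)
  om_lip : ∀ i, 1 ≤ i → ∀ u v, |om i u - om i v| ≤ Cw * N i / ll L i * |u - v|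
  zone : ∀ u v, (∀ i, 1 ≤ i → ll L i ≤ |u - xx L i|) →
    (∀ i, 1 ≤ i → ll L i ≤ |v - xx L i|) →
    |d u ^ (1 / (β : ℝ)) - d v ^ (1 / (β : ℝ))| ≤ Cz * |u - v|
  lip : ∀ u v, |d u - d v| ≤ Cd * |u - v|

/-- All the data. -/
structure Sys (r : ℝ) where
  L : ℝ
  β : ℕ
  N : ℕ → ℕ
  Cw : ℝ
  Cz : ℝ
  Cd : ℝ
  hr : 1 < r
  hL : 1000 ≤ L
  hβ : 2 ≤ β
  hCw : 1 ≤ Cw
  hCz : 1 ≤ Cz
  hCd : 1 ≤ Cd
  hN : ∀ i, 1 ≤ i → ∃ q : ℕ, 1 ≤ q ∧ N i = 4 * q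
  GD : GData L
  DD : DData r L β N Cw Cz Cd

namespace Sys

variable (S : Sys r)

/-- The shear `ψ`, a `1`-periodic function. -/
noncomputable def psi (x : ℝ) : ℝ := S.DD.d (Int.fract x) - 1 / 2

/-- The lift of the diffeomorphism. -/
noncomputable def FF (v : ℝ × ℝ) : ℝ × ℝ := (S.GD.G (v.2 + S.psi v.1), -S.GD.G v.1)

/-- The lift of its inverse. -/
noncomputable def FF' (v : ℝ × ℝ) : ℝ × ℝ :=
  (-S.GD.Gi v.2, S.GD.Gi v.1 - S.psi (-S.GD.Gi v.2))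

end Sys

end Pool.Agent.helper15.SD
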