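import Pool.Agent.helper15.SD.Defs

/-!
# Net: entropy lower bound by separated orbits (SD-M2)
-/

open Set Filter Topology

namespace Pool.Agent.helper15.SD

theorem net_ge {X : Type} [PseudoMetricSpace X] (f : X → X) (N : ℕ) (hN : 0 < N) (M : ℕ)
    (hM : 1 ≤ M) (ε : ℝ) (hε : 0 < ε)
    (h : ∀ K : ℕ, ∃ g : (Fin K → Fin M) → X, ∀ a b, a ≠ b →
      ∃ k < K * N, ε ≤ dist (f^[k] (g a)) (f^[k] (g b))) :
    ((Real.log M / N : ℝ) : EReal) ≤ Dynamics.coverEntropy f univ := by
  classical
  set U : SetRel X X := {p : X × X | dist p.1 p.2 < ε / 2} with hU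
  have hUu : U ∈ uniformity X := Metric.dist_mem_uniformity (half_pos hε)
  refine le_trans ?_ (Dynamics.netEntropyEntourage_le_coverEntropy (T := f) (F := univ) hUu)
  have key : ∀ K : ℕ, ((M ^ K : ℕ) : ℕ∞) ≤ Dynamics.netMaxcard f univ U (N * K) := by
    intro K
    obtain ⟨g, hg⟩ := h K
    have hinj : Function.Injective g := by
      intro a b hab
      by_contra hne
      obtain ⟨k, _, hk⟩ := hg a b hne
      rw [hab, dist_self] at hk
      linarith
    let s : Finset X := Finset.univ.image g
    have hs : Dynamics.IsDynNetIn f univ U (N * K) (s : Set X) := by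
      refine ⟨subset_univ _, ?_⟩
      intro x hx y hy hxy
      simp only [s, Finset.coe_image, Finset.coe_univ, image_univ] at hx hy
      obtain ⟨a, rfl⟩ := hx
      obtain ⟨b, rfl⟩ := hy
      have hab : a ≠ b := fun h => hxy (by rw [h])
      obtain ⟨k, hk1, hk2⟩ := hg a b hab
      have hk3 : k < N * K := by rw [mul_comm]; exact hk1
      refine Set.disjoint_left.2 (fun z hz1 hz2 => ?_)
      have h1 := (Dynamics.mem_ball_dynEntourage.1 hz1) k hk3
      have h2 := (Dynamics.mem_ball_dynEntourage.1 hz2) k hk3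
      have h1' : dist (f^[k] (g a)) (f^[k] z) < ε / 2 := h1
      have h2' : dist (f^[k] (g b)) (f^[k] z) < ε / 2 := h2
      have := dist_triangle_right (f^[k] (g a)) (f^[k] (g b)) (f^[k] z)
      linarith
    refine le_trans ?_ hs.card_le_netMaxcard
    have : s.card = M ^ K := by
      rw [Finset.card_image_of_injective _ hinj]
      simp
    rw [this]
  have hmono : Monotone (fun n : ℕ => (Dynamics.netMaxcard f univ U n : ENNReal)) := by
    intro m n hmn
    exact ENat.toENNReal_mono (Dynamics.netMaxcard_monotone_time f univ U hmn)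
  have h3 := hmono.expGrowthSup_comp_mul (m := N) hN.ne'
  have h4 : ENNReal.log (M : ENNReal) ≤
      ExpGrowth.expGrowthSup (fun K : ℕ => (Dynamics.netMaxcard f univ U (N * K) : ENNReal)) := by
    rw [← ExpGrowth.expGrowthSup_pow]
    apply ExpGrowth.expGrowthSup_monotone
    intro K
    have := ENat.toENNReal_mono (key K)
    refine le_trans ?_ this
    push_cast
    exact le_rfl
  have h5 : ENNReal.log (M : ENNReal) = ((Real.log M : ℝ) : EReal) := by
    have : (M : ENNReal) = ENNReal.ofReal (M : ℝ) := by simp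
    rw [this, ENNReal.log_ofReal_of_pos (by exact_mod_cast hM)]
  have h6 : ((Real.log M : ℝ) : EReal) ≤ (N : EReal) * Dynamics.netEntropyEntourage f univ U := by
    rw [← h5]
    refine le_trans h4 (le_of_eq ?_)
    exact h3
  rw [EReal.coe_div]
  rw [EReal.div_le_iff_le_mul (by exact_mod_cast hN) (EReal.coe_ne_top _)]
  exact_mod_cast h6

end Pool.Agent.helper15.SD
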