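import Pool.Agent.helper15.SD.Core
import Pool.Agent.helper15.SD.Net

/-!
# M24: lower bound of the entropy (horseshoe in the window `i`)
-/

open Set Filter Topology

namespace Pool.Agent.helper15.SD

namespace EG

/-- crossing lemma, increasing version -/
theorem crossing_aux {g : ℝ → ℝ} {a b l r : ℝ} (hab : a ≤ b) (hlr : l ≤ r)
    (hg : Continuous g) (ha : g a ≤ l) (hb : r ≤ g b) :
    ∃ a' b', a ≤ a' ∧ a' ≤ b' ∧ b' ≤ b ∧ g a' = l ∧ g b' = r ∧
      ∀ t ∈ Icc a' b', g t ∈ Icc l r := by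
  have hT : IsCompact {t | t ∈ Icc a b ∧ r ≤ g t} :=
    isCompact_Icc.inter_right (isClosed_Ici.preimage hg)
  obtain ⟨b', ⟨hb'1, hb'2⟩, hb'3⟩ := hT.exists_isLeast ⟨b, ⟨hab, le_rfl⟩, hb⟩
  have hgb' : g b' = r := by
    obtain ⟨t, ht1, ht2⟩ := intermediate_value_Icc hb'1.1 hg.continuousOn ⟨ha.trans hlr, hb'2⟩
    have : b' ≤ t := hb'3 ⟨⟨ht1.1, ht1.2.trans hb'1.2⟩, ht2.ge⟩
    rw [← ht2, le_antisymm this ht1.2]
  have hS : IsCompact {t | t ∈ Icc a b' ∧ g t ≤ l} :=
    isCompact_Icc.inter_right (isClosed_Iic.preimage hg)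
  obtain ⟨a', ⟨ha'1, ha'2⟩, ha'3⟩ := hS.exists_isGreatest ⟨a, ⟨le_rfl, hb'1.1⟩, ha⟩
  have hga' : g a' = l := by
    obtain ⟨t, ht1, ht2⟩ := intermediate_value_Icc ha'1.2 hg.continuousOn
      ⟨ha'2, hlr.trans hgb'.ge⟩
    have : t ≤ a' := ha'3 ⟨⟨ha'1.1.trans ht1.1, ht1.2⟩, ht2.le⟩
    rw [← ht2, le_antisymm this ht1.1]
  refine ⟨a', b', ha'1.1, ha'1.2, hb'1.2, hga', hgb', ?_⟩
  intro t ht
  constructor
  · by_contra hlt
    push Not at hlt
    have h1 : t ≤ a' := ha'3 ⟨⟨ha'1.1.trans ht.1, ht.2⟩, hlt.le⟩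
    have h2 : t = a' := le_antisymm h1 ht.1
    rw [h2, hga'] at hlt
    exact lt_irrefl _ hlt
  · by_contra hlt
    push Not at hlt
    have h1 : b' ≤ t := hb'3 ⟨⟨ha'1.1.trans ht.1, ht.2.trans hb'1.2⟩, hlt.le⟩
    have h2 : t = b' := le_antisymm ht.2 h1
    rw [h2, hgb'] at hlt
    exact lt_irrefl _ hlt

/-- `g` takes values on both sides of `[l, r]` at `a`, `b` -/
def Cross (g : ℝ → ℝ) (a b l r : ℝ) : Prop := (g a ≤ l ∧ r ≤ g b) ∨ (r ≤ g a ∧ g b ≤ l)

theorem crossing {g : ℝ → ℝ} {a b l r : ℝ} (hab : a ≤ b) (hlr : l ≤ r)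
    (hg : Continuous g) (h : Cross g a b l r) :
    ∃ a' b', a ≤ a' ∧ a' ≤ b' ∧ b' ≤ b ∧ ((g a' = l ∧ g b' = r) ∨ (g a' = r ∧ g b' = l)) ∧
      ∀ t ∈ Icc a' b', g t ∈ Icc l r := by
  rcases h with ⟨h1, h2⟩ | ⟨h1, h2⟩
  · obtain ⟨a', b', h3, h4, h5, h6, h7, h8⟩ := crossing_aux hab hlr hg h1 h2
    exact ⟨a', b', h3, h4, h5, Or.inl ⟨h6, h7⟩, h8⟩
  · obtain ⟨a', b', h3, h4, h5, h6, h7, h8⟩ :=
      crossing_aux (g := fun t => -g t) (l := -r) (r := -l) hab (by linarith) hg.neg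
        (by simpa using h1) (by simpa using h2)
    refine ⟨a', b', h3, h4, h5, Or.inr ⟨by linarith, by linarith⟩, ?_⟩
    intro t ht
    have := h8 t ht
    simp only [mem_Icc, neg_le_neg_iff] at this
    exact ⟨this.2, this.1⟩

theorem sqrt3 : (3 : ℝ) / 4 ≤ √3 / 2 := by
  have : (3 / 2 : ℝ) ≤ √3 := by
    apply Real.le_sqrt_of_sq_le; norm_num
  linarith

theorem sin_add_third (t : ℕ) :
    Real.sin (t * Real.pi + Real.pi / 3) = (-1) ^ t * (√3 / 2) := by
  rw [add_comm, Real.sin_add_nat_mul_pi, Real.sin_pi_div_three]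

theorem sin_sub_third (t : ℕ) :
    Real.sin (t * Real.pi - Real.pi / 3) = -((-1) ^ t * (√3 / 2)) := by
  have : (t : ℝ) * Real.pi - Real.pi / 3 = -(Real.pi / 3) + t * Real.pi := by ring
  rw [this, Real.sin_add_nat_mul_pi, Real.sin_neg, Real.sin_pi_div_three]
  ring

variable {r : ℝ} (S : Sys r)

theorem ll_pos (i : ℕ) : 0 < ll S.L i := by
  have := S.L_pos
  unfold ll; positivity

theorem ll_le (i : ℕ) : ll S.L i ≤ 1 / 100 := by
  have h := S.hL
  unfold ll
  exact div_le_self (by norm_num) (one_le_pow₀ (by linarith))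

theorem xx_mem {i : ℕ} (hi : 1 ≤ i) : xx S.L i ∈ Icc (24 / 100 : ℝ) (1 / 4) := by
  have h := S.hL
  have hL := S.L_pos
  unfold xx rr
  have h2 : (1000 : ℝ) ≤ S.L ^ (2 * i) := by
    calc (1000 : ℝ) ≤ S.L := h
      _ = S.L ^ 1 := (pow_one _).symm
      _ ≤ S.L ^ (2 * i) := pow_le_pow_right₀ (by linarith) (by omega)
  have h3 : (1 : ℝ) / 25 / S.L ^ (2 * i) ≤ 1 / 100 := by
    rw [div_le_iff₀ (by positivity)]; nlinarith
  have h4 : (0 : ℝ) ≤ 1 / 25 / S.L ^ (2 * i) := by positivity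
  constructor <;> linarith

/-- the arrival term is small -/
theorem arr_small {i : ℕ} (_ : 1 ≤ i) : 1 / S.L ^ nn S.β i ≤ ll S.L i / 8 := by
  have h := S.hL
  have hL := S.L_pos
  have hβ := S.hβ
  unfold ll
  have h2 : (1000 : ℝ) ≤ S.L := h
  have e : (1 : ℝ) / 100 / S.L ^ (2 * i) / 8 = 1 / (800 * S.L ^ (2 * i)) := by
    field_simp; norm_num
  rw [e]
  apply one_div_le_one_div_of_le (by positivity)
  have h3 : (800 : ℝ) * S.L ^ (2 * i) ≤ S.L * S.L ^ (2 * i) := by gcongr; linarith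
  refine h3.trans ?_
  rw [← pow_succ']
  apply pow_le_pow_right₀ (by linarith)
  unfold nn
  have : 2 * i ≤ 4 * S.β * i := Nat.mul_le_mul_right i (by omega)
  omega

/-- the return map coordinates -/
noncomputable def uw (i : ℕ) : ℕ → ℝ → ℝ × ℝ
  | 0, s => (s, 0)
  | k + 1, s => (S.L ^ nn S.β i * ((uw i k s).2 + S.DD.d (uw i k s).1),
      (1 / 2 - (uw i k s).1) / S.L ^ (2 * nn S.β i))

theorem continuous_uw (i k : ℕ) : Continuous (uw S i k) := by
  induction k with
  | zero => exact continuous_id.prodMk continuous_const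
  | succ k ih =>
    have h1 : Continuous (fun s => (uw S i k s).1) := continuous_fst.comp ih
    have h2 : Continuous (fun s => (uw S i k s).2) := continuous_snd.comp ih
    exact (continuous_const.mul (h2.add (S.continuous_d.comp h1))).prodMk
      ((continuous_const.sub h1).div_const _)

theorem uw_w {i : ℕ} (hi : 1 ≤ i) (K : ℕ) (s : ℝ)
    (h : ∀ k < K, (uw S i k s).1 ∈ Icc (1 / 5 : ℝ) (3 / 10)) :
    0 ≤ (uw S i K s).2 ∧ S.L ^ nn S.β i * (uw S i K s).2 ≤ ll S.L i / 8 := by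
  have hL := S.L_pos
  have hl := ll_pos S i
  rcases K with _ | K
  · simp only [uw]
    constructor
    · exact le_rfl
    · rw [mul_zero]; positivity
  · have h0 := h K (Nat.lt_succ_self K)
    simp only [uw]
    constructor
    · apply div_nonneg _ (by positivity)
      linarith [h0.2]
    · have e : S.L ^ nn S.β i * ((1 / 2 - (uw S i K s).1) / S.L ^ (2 * nn S.β i)) =
          (1 / 2 - (uw S i K s).1) * (1 / S.L ^ nn S.β i) := by
        rw [two_mul, pow_add]; field_simp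
      rw [e]
      have h1 : (1 / 2 - (uw S i K s).1) * (1 / S.L ^ nn S.β i) ≤ 1 * (1 / S.L ^ nn S.β i) := by
        apply mul_le_mul_of_nonneg_right _ (by positivity)
        linarith [h0.1]
      linarith [arr_small S hi]

/-- the orbit through the windows -/
theorem orbit {i : ℕ} (hi : 1 ≤ i) (K : ℕ) (s : ℝ)
    (h : ∀ k < K, |(uw S i k s).1 - xx S.L i| ≤ ll S.L i / 4) :
    S.f^[K * nn S.β i] (St 0 s 0) = St 0 (uw S i K s).1 (uw S i K s).2 := by
  have hL := S.L_pos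
  have hl := ll_pos S i
  have hl' := ll_le S i
  have hx := xx_mem S hi
  induction K with
  | zero => simp [uw]
  | succ K ih =>
    have h5 : ∀ k < K, (uw S i k s).1 ∈ Icc (1 / 5 : ℝ) (3 / 10) := by
      intro k hk
      have := abs_le.1 (h k (by omega))
      constructor <;> linarith [hx.1, hx.2, this.1, this.2]
    have hK := h K (Nat.lt_succ_self K)
    have hK' := abs_le.1 hK
    have hu : (uw S i K s).1 ∈ Icc (1 / 5 : ℝ) (3 / 10) := by
      constructor <;> linarith [hx.1, hx.2, hK'.1, hK'.2]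
    obtain ⟨hw1, hw2⟩ := uw_w S hi K s h5
    have hd := S.DD.window i hi (uw S i K s).1 (by linarith)
    have hom := abs_le.1 (S.DD.om_le i (uw S i K s).1)
    have hval : S.L ^ nn S.β i * ((uw S i K s).2 + S.DD.d (uw S i K s).1) =
        S.L ^ nn S.β i * (uw S i K s).2 + (xx S.L i + ll S.L i / 2 * S.DD.om i (uw S i K s).1) := by
      rw [hd]; field_simp
    have hw3 : 0 ≤ S.L ^ nn S.β i * (uw S i K s).2 := by positivity
    have hom2 : |ll S.L i / 2 * S.DD.om i (uw S i K s).1| ≤ ll S.L i / 2 := by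
      rw [abs_mul, abs_of_pos (by positivity)]
      calc ll S.L i / 2 * |S.DD.om i (uw S i K s).1| ≤ ll S.L i / 2 * 1 := by
            gcongr; exact S.DD.om_le i _
        _ = ll S.L i / 2 := mul_one _
    have hom3 := abs_le.1 hom2
    have hpos : 0 < S.L ^ nn S.β i * ((uw S i K s).2 + S.DD.d (uw S i K s).1) := by
      rw [hval]; linarith [hx.1, hom3.1]
    have hpos2 : 0 < (uw S i K s).2 + S.DD.d (uw S i K s).1 := by
      by_contra hc
      push Not at hc
      have : S.L ^ nn S.β i * ((uw S i K s).2 + S.DD.d (uw S i K s).1) ≤ 0 :=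
        mul_nonpos_of_nonneg_of_nonpos (by positivity) hc
      linarith
    have hle : S.L ^ nn S.β i * |(uw S i K s).2 + S.DD.d (uw S i K s).1| ≤ 2 / 5 := by
      rw [abs_of_pos hpos2, hval]; linarith [hx.2, hom3.2]
    have hn : nn S.β i = 4 * S.β * i + 1 := rfl
    have hph : ∀ a b : ℝ, St (4 * S.β * i) a b = St 0 a b := by
      intro a b
      unfold St
      have : 4 * S.β * i % 4 = 0 % 4 := by
        rw [mul_assoc]; omega
      rw [this]
    rw [Nat.succ_mul, Nat.add_comm, Function.iterate_add_apply, ih (fun k hk => h k (by omega)),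
      hn, S.iterate_kick hu _ (by rw [← hn]; exact hle), hph, ← hn]
    simp only [uw]

/-- lower end of the branch `t` -/
noncomputable def lo (i t : ℕ) : ℝ := xx S.L i + (t - 1 / 3) * ll S.L i / S.N i

/-- upper end of the branch `t` -/
noncomputable def hi' (i t : ℕ) : ℝ := xx S.L i + (t + 1 / 3) * ll S.L i / S.N i

theorem lo_hi {i q t : ℕ} (hq : S.N i = 4 * q) (ht : t < q) :
    xx S.L i - ll S.L i / 4 ≤ lo S i t ∧ lo S i t ≤ hi' S i t ∧
      hi' S i t ≤ xx S.L i + ll S.L i / 4 := by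
  have hl := ll_pos S i
  have hq0 : (1 : ℝ) ≤ q := by exact_mod_cast (by omega : 1 ≤ q)
  have ht1 : (t : ℝ) + 1 ≤ q := by exact_mod_cast ht
  have ht0 : (0 : ℝ) ≤ t := by positivity
  unfold lo hi'
  rw [hq]
  push_cast
  refine ⟨?_, ?_, ?_⟩
  · have : -(ll S.L i / 4) ≤ (t - 1 / 3) * ll S.L i / (4 * q) := by
      rw [le_div_iff₀ (by positivity)]
      nlinarith
    linarith
  · have : (t - 1 / 3) * ll S.L i / (4 * q) ≤ ((t : ℝ) + 1 / 3) * ll S.L i / (4 * q) := by
      gcongr; linarith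
    linarith
  · have : ((t : ℝ) + 1 / 3) * ll S.L i / (4 * q) ≤ ll S.L i / 4 := by
      rw [div_le_iff₀ (by positivity)]
      nlinarith
    linarith

theorem om_lo {i q t : ℕ} (hq : S.N i = 4 * q) (ht : t < q) :
    S.DD.om i (lo S i t) = -((-1) ^ t * (√3 / 2)) := by
  have hl := ll_pos S i
  obtain ⟨h1, h2, h3⟩ := lo_hi S hq ht
  have hq0 : (1 : ℝ) ≤ q := by exact_mod_cast (by omega : 1 ≤ q)
  have hN : (S.N i : ℝ) ≠ 0 := by rw [hq]; push_cast; positivity
  rw [S.DD.om_sin i _ (by rw [abs_le]; constructor <;> linarith), ← sin_sub_third t]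
  congr 1
  unfold lo
  field_simp
  ring

theorem om_hi {i q t : ℕ} (hq : S.N i = 4 * q) (ht : t < q) :
    S.DD.om i (hi' S i t) = (-1) ^ t * (√3 / 2) := by
  have hl := ll_pos S i
  obtain ⟨h1, h2, h3⟩ := lo_hi S hq ht
  have hq0 : (1 : ℝ) ≤ q := by exact_mod_cast (by omega : 1 ≤ q)
  have hN : (S.N i : ℝ) ≠ 0 := by rw [hq]; push_cast; positivity
  rw [S.DD.om_sin i _ (by rw [abs_le]; constructor <;> linarith), ← sin_add_third t]
  congr 1
  unfold hi'
  field_simp
  ring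

/-- itineraries are realized -/
theorem exists_itin {i q : ℕ} (hi : 1 ≤ i) (hq : S.N i = 4 * q) (a : ℕ → ℕ)
    (ha : ∀ k, a k < q) (K : ℕ) :
    ∃ x y, x ≤ y ∧ (∀ s ∈ Icc x y, ∀ k < K, (uw S i k s).1 ∈ Icc (lo S i (a k)) (hi' S i (a k))) ∧
      Cross (fun s => (uw S i K s).1) x y (xx S.L i - ll S.L i / 4)
        (xx S.L i + ll S.L i / 4) := by
  have hL := S.L_pos
  have hl := ll_pos S i
  have hl' := ll_le S i
  have hx := xx_mem S hi
  induction K with
  | zero =>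
    refine ⟨xx S.L i - ll S.L i / 4, xx S.L i + ll S.L i / 4, by linarith, by
      intro s _ k hk; omega, Or.inl ⟨by simp [uw], by simp [uw]⟩⟩
  | succ K ih =>
    obtain ⟨x, y, hxy, h1, h2⟩ := ih
    obtain ⟨g1, g2, g3⟩ := lo_hi S hq (ha K)
    have hc : Continuous (fun s => (uw S i K s).1) := continuous_fst.comp (continuous_uw S i K)
    have h2' : Cross (fun s => (uw S i K s).1) x y (lo S i (a K)) (hi' S i (a K)) := by
      rcases h2 with ⟨h2, h3⟩ | ⟨h2, h3⟩
      · exact Or.inl ⟨h2.trans g1, g3.trans h3⟩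
      · exact Or.inr ⟨g3.trans h2, h3.trans g1⟩
    obtain ⟨x', y', k1, k2, k3, k4, k5⟩ := crossing hxy g2 hc h2'
    have hmem : ∀ s ∈ Icc x' y', ∀ k < K + 1,
        (uw S i k s).1 ∈ Icc (lo S i (a k)) (hi' S i (a k)) := by
      intro s hs k hk
      rcases Nat.lt_succ_iff_lt_or_eq.1 hk with hk | rfl
      · exact h1 s ⟨k1.trans hs.1, hs.2.trans k3⟩ k hk
      · exact k5 s hs
    have h5 : ∀ s ∈ Icc x' y', ∀ k < K, (uw S i k s).1 ∈ Icc (1 / 5 : ℝ) (3 / 10) := by
      intro s hs k hk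
      have := hmem s hs k (by omega)
      obtain ⟨e1, e2, e3⟩ := lo_hi S hq (ha k)
      constructor <;> linarith [hx.1, hx.2, this.1, this.2]
    refine ⟨x', y', k2, hmem, ?_⟩
    -- values at the two ends
    have hval : ∀ s ∈ Icc x' y', (uw S i (K + 1) s).1 =
        S.L ^ nn S.β i * (uw S i K s).2 +
          (xx S.L i + ll S.L i / 2 * S.DD.om i (uw S i K s).1) := by
      intro s hs
      have hm := hmem s hs K (Nat.lt_succ_self K)
      have hd := S.DD.window i hi (uw S i K s).1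
        (by rw [abs_le]; constructor <;> linarith [hm.1, hm.2])
      simp only [uw]
      rw [hd]; field_simp
    have hX := hval x' ⟨le_rfl, k2⟩
    have hY := hval y' ⟨k2, le_rfl⟩
    obtain ⟨wX1, wX2⟩ := uw_w S hi K x' (h5 x' ⟨le_rfl, k2⟩)
    obtain ⟨wY1, wY2⟩ := uw_w S hi K y' (h5 y' ⟨k2, le_rfl⟩)
    have wX3 : 0 ≤ S.L ^ nn S.β i * (uw S i K x').2 := by positivity
    have wY3 : 0 ≤ S.L ^ nn S.β i * (uw S i K y').2 := by positivity
    have hs3 := sqrt3
    have hll : ll S.L i / 2 * (3 / 4) ≤ ll S.L i / 2 * (√3 / 2) := by gcongr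
    unfold Cross
    simp only
    rw [hX, hY]
    rcases k4 with ⟨e1, e2⟩ | ⟨e1, e2⟩
    · rw [e1, e2, om_lo S hq (ha K), om_hi S hq (ha K)]
      rcases neg_one_pow_eq_or ℝ (a K) with hh | hh
      · rw [hh]; left
        constructor <;> linarith
      · rw [hh]; right
        constructor <;> linarith
    · rw [e1, e2, om_lo S hq (ha K), om_hi S hq (ha K)]
      rcases neg_one_pow_eq_or ℝ (a K) with hh | hh
      · rw [hh]; right
        constructor <;> linarith
      · rw [hh]; left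
        constructor <;> linarith

/-- branches are separated -/
theorem sep {i q t t' : ℕ} (hq : S.N i = 4 * q) (hq1 : 1 ≤ q) (h : t < t') {u u' : ℝ}
    (hu : u ∈ Icc (lo S i t) (hi' S i t)) (hu' : u' ∈ Icc (lo S i t') (hi' S i t')) :
    ll S.L i / (3 * S.N i) ≤ u' - u := by
  have hl := ll_pos S i
  have hN : (0 : ℝ) < S.N i := by
    rw [hq]; push_cast
    have : (1 : ℝ) ≤ q := by exact_mod_cast hq1
    positivity
  have ht : (t : ℝ) + 1 ≤ t' := by exact_mod_cast h
  have h1 := hu.2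
  have h2 := hu'.1
  unfold hi' at h1
  unfold lo at h2
  have e : ll S.L i / (3 * S.N i) ≤
      ((t' : ℝ) - 1 / 3) * ll S.L i / S.N i - ((t : ℝ) + 1 / 3) * ll S.L i / S.N i := by
    rw [← sub_div, ← sub_mul, div_le_div_iff₀ (by positivity) hN]
    have : (1 : ℝ) / 3 ≤ (t' : ℝ) - 1 / 3 - (t + 1 / 3) := by linarith
    have h3 : 1 / 3 * ll S.L i * (3 * S.N i) ≤
        ((t' : ℝ) - 1 / 3 - (t + 1 / 3)) * ll S.L i * (3 * S.N i) := by gcongr
    linarith
  linarith

end EG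

namespace Sys

variable {r : ℝ} (S : Sys r)

theorem entropy_ge {i : ℕ} (hi : 1 ≤ i) :
    ((Real.log (S.N i / 4) / nn S.β i : ℝ) : EReal) ≤ Dynamics.coverEntropy S.f univ := by
  obtain ⟨q, hq1, hq⟩ := S.hN i hi
  have hl := EG.ll_pos S i
  have hl' := EG.ll_le S i
  have hx := EG.xx_mem S hi
  have hN : (0 : ℝ) < S.N i := by
    rw [hq]; push_cast
    have : (1 : ℝ) ≤ q := by exact_mod_cast hq1
    positivity
  have hNq : (S.N i : ℝ) / 4 = q := by rw [hq]; push_cast; ring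
  rw [hNq]
  refine net_ge S.f (nn S.β i) (by unfold nn; omega) q hq1 (ll S.L i / (3 * S.N i))
    (by positivity) ?_
  intro K
  have key : ∀ a : Fin K → Fin q, ∃ s : ℝ, ∀ k : Fin K,
      (EG.uw S i k s).1 ∈ Icc (EG.lo S i (a k)) (EG.hi' S i (a k)) := by
    intro a
    obtain ⟨x, y, hxy, h1, -⟩ := EG.exists_itin S hi hq
      (fun k => if h : k < K then (a ⟨k, h⟩ : ℕ) else 0)
      (by
        intro k
        by_cases h : k < K
        · simp only [h, dite_true]; exact (a ⟨k, h⟩).2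
        · simp only [h, dite_false]; omega) K
    refine ⟨x, fun k => ?_⟩
    have := h1 x ⟨le_rfl, hxy⟩ k k.2
    simpa using this
  choose s hs using key
  refine ⟨fun a => St 0 (s a) 0, ?_⟩
  intro a b hab
  have hab' : ∃ k : Fin K, a k ≠ b k := by
    by_contra hc
    push Not at hc
    exact hab (funext hc)
  obtain ⟨k, hk⟩ := hab'
  refine ⟨k * nn S.β i, ?_, ?_⟩
  · exact Nat.mul_lt_mul_of_pos_right k.2 (by unfold nn; omega)
  have hnear : ∀ a : Fin K → Fin q, ∀ j : Fin K,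
      |(EG.uw S i j (s a)).1 - xx S.L i| ≤ ll S.L i / 4 := by
    intro a j
    have h1 := hs a j
    obtain ⟨e1, e2, e3⟩ := EG.lo_hi S hq (a j).2
    rw [abs_le]
    constructor <;> linarith [h1.1, h1.2]
  have horb : ∀ a : Fin K → Fin q, S.f^[k * nn S.β i] (St 0 (s a) 0) =
      St 0 (EG.uw S i k (s a)).1 (EG.uw S i k (s a)).2 := by
    intro a
    exact EG.orbit S hi k (s a) (fun j hj => hnear a ⟨j, hj.trans k.2⟩)
  simp only
  rw [horb a, horb b, St_zero, St_zero]
  have hna := abs_le.1 (hnear a k)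
  have hnb := abs_le.1 (hnear b k)
  refine le_trans ?_ (abs_fst_le_dist (v := ((EG.uw S i k (s a)).1, _))
    (w := ((EG.uw S i k (s b)).1, _)) ?_)
  · simp only
    rcases lt_or_gt_of_ne (fun h => hk (Fin.ext h) : (a k : ℕ) ≠ b k) with h | h
    · have := EG.sep S hq hq1 h (hs a k) (hs b k)
      rw [abs_sub_comm]
      exact this.trans (le_abs_self _)
    · have := EG.sep S hq hq1 h (hs b k) (hs a k)
      exact this.trans (le_abs_self _)
  · simp only
    rw [abs_le]; constructor <;> linarith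

end Sys

end Pool.Agent.helper15.SD
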