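import Pool.Agent.helper15.SD.Pass

/-!
# The previous kick
-/

open Set Filter Topology

namespace Pool.Agent.helper15.SD

theorem norm_half_add_eq {b : ℝ} (hb : |b| ≤ 1 / 10) :
    ‖((1 / 2 + b : ℝ) : UnitAddCircle)‖ = 1 / 2 - |b| := by
  rw [abs_le] at hb
  rcases le_total b 0 with h | h
  · rw [norm_coe_of_abs_le (by rw [abs_of_nonneg (by linarith)]; linarith),
      abs_of_nonneg (by linarith), abs_of_nonpos h]
    ring
  · have : ((1 / 2 + b : ℝ) : UnitAddCircle) = ((-(1 / 2) + b : ℝ) : UnitAddCircle) := by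
      rw [coe_eq_iff]; exact ⟨-1, by push_cast; ring⟩
    rw [this, norm_coe_of_abs_le (by rw [abs_of_nonpos (by linarith)]; linarith),
      abs_of_nonpos (by linarith), abs_of_nonneg h]
    ring

/-- the size of the stable coordinate is an intrinsic function of the point -/
theorem max_norm_St {e : ℕ} {a b : ℝ} (ha : |a| ≤ 2 / 5) (hb : |b| ≤ 1 / 10) :
    max ‖(St e a b).1‖ ‖(St e a b).2‖ = 1 / 2 - |b| := by
  have h1 := norm_half_add_eq hb
  have h2 := norm_half_add_eq (b := -b) (by rwa [abs_neg])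
  rw [abs_neg, ← sub_eq_add_neg] at h2
  have h3 : ‖(a : UnitAddCircle)‖ = |a| := norm_coe_of_abs_le (by linarith)
  have h4 : ‖((-a : ℝ) : UnitAddCircle)‖ = |a| := by
    rw [norm_coe_of_abs_le (by rw [abs_neg]; linarith), abs_neg]
  have h5 : |a| ≤ 1 / 2 - |b| := by linarith
  unfold St
  split
  · unfold proj; simp only; rw [h1, h3, max_eq_right h5]
  · unfold proj; simp only; rw [h1, h4, max_eq_left h5]
  · unfold proj; simp only; rw [h2, h4, max_eq_right h5]
  · unfold proj; simp only; rw [h2, h3, max_eq_left h5]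

namespace Sys

variable {r : ℝ} (S : Sys r)

theorem w_le {w : ℝ} (h : |w| ≤ 3 / (10 * S.L ^ 2)) : |w| ≤ 1 / 10 := by
  have hL := S.hL
  refine h.trans ?_
  rw [div_le_div_iff₀ (by positivity) (by norm_num)]; nlinarith

/-- a core point which is not a kick state -/
theorem core_not_kick {Q : T2} (hQ : Q ∈ S.core) (hn : ∀ u w, ¬ S.IsKick Q u w) :
    ∃ e a b, Q = St e a b ∧ |b| ≤ 3 / (10 * S.L ^ 2) ∧ |a| < 2 / (5 * S.L) := by
  rcases S.core_state hQ with ⟨u, w, h1, h2, h3 | h3⟩ | ⟨a, b, h1, h2, h3⟩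
  · exact (hn u w ⟨h1, h3, h2⟩).elim
  · exact ⟨0, u, w, h1, h2, h3⟩
  · exact ⟨1, a, b, h1, h2, h3⟩

theorem prev_aux {P : T2} {u w : ℝ} (hP : P ∈ S.core) (hk : S.IsKick P u w) (k : ℕ)
    (hn : ∀ m, 0 < m → m ≤ k → ∀ u' w', ¬ S.IsKick (S.f.symm^[m] P) u' w') :
    S.L ^ (2 * k) * |w| ≤ 3 / (10 * S.L ^ 2) ∧
      max ‖(S.f.symm^[k] P).1‖ ‖(S.f.symm^[k] P).2‖ = 1 / 2 - S.L ^ (2 * k) * |w| := by
  have hLp := S.L_pos
  have hap := S.a0_le
  induction k with
  | zero =>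
    obtain ⟨hPe, hu, hw⟩ := hk
    refine ⟨by simpa using hw, ?_⟩
    rw [Function.iterate_zero, id, hPe, max_norm_St _ (S.w_le hw)]
    · simp
    · rw [abs_of_nonneg (by linarith [hu.1])]; linarith [hu.2]
  | succ k ih =>
    obtain ⟨-, ih2⟩ := ih (fun m h1 h2 => hn m h1 (by omega))
    set Q := S.f.symm^[k + 1] P with hQ
    have hQc : Q ∈ S.core := S.core_symm_iterate hP _
    obtain ⟨e, a, b, h1, h2, h3⟩ := S.core_not_kick hQc (hn (k + 1) (by omega) le_rfl)
    have hR : S.f Q = S.f.symm^[k] P := by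
      rw [hQ, Function.iterate_succ_apply', Homeomorph.apply_symm_apply]
    have hb := S.w_le h2
    have hR2 : S.f.symm^[k] P = St (e + 1) (S.L * a) (b / S.L ^ 2) := by
      rw [← hR, h1, S.f_St h3.le (by linarith)]
    have hLa : |S.L * a| ≤ 2 / 5 := by
      rw [abs_mul, abs_of_pos hLp]
      rw [lt_div_iff₀ (by positivity)] at h3
      linarith
    have hbb : |b / S.L ^ 2| = |b| / S.L ^ 2 := by rw [abs_div, abs_of_pos (pow_pos hLp 2)]
    have hb' : |b / S.L ^ 2| ≤ 1 / 10 := by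
      rw [hbb]
      exact (div_le_self (abs_nonneg _) (one_le_pow₀ (by linarith [S.hL]))).trans hb
    rw [hR2, max_norm_St hLa hb', hbb] at ih2
    have h5 : |b| / S.L ^ 2 = S.L ^ (2 * k) * |w| := by linarith
    have h6 : |b| = S.L ^ (2 * (k + 1)) * |w| := by
      rw [div_eq_iff (by positivity)] at h5
      rw [h5]; ring
    refine ⟨by rw [← h6]; exact h2, ?_⟩
    rw [← h6, h1, max_norm_St (by linarith) hb]

theorem prev_kick {P : T2} {u w : ℝ} (hP : P ∈ S.core) (hk : S.IsKick P u w) (hw : w ≠ 0) :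
    ∃ m : ℕ, 0 < m ∧ ∃ u' w', S.IsKick (S.f.symm^[m] P) u' w' ∧
      ∀ k, 0 < k → k < m → ∀ u'' w'', ¬ S.IsKick (S.f.symm^[k] P) u'' w'' := by
  classical
  have hex : ∃ m : ℕ, 0 < m ∧ ∃ u' w', S.IsKick (S.f.symm^[m] P) u' w' := by
    by_contra hcon
    push Not at hcon
    have hb : ∀ k : ℕ, S.L ^ (2 * k) * |w| ≤ 3 / (10 * S.L ^ 2) := fun k =>
      (S.prev_aux hP hk k (fun m h1 _ u' w' => hcon m h1 u' w')).1
    have hwp : 0 < |w| := abs_pos.2 hw
    obtain ⟨n, hn⟩ := pow_unbounded_of_one_lt (3 / (10 * S.L ^ 2) / |w|)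
      (show 1 < S.L by linarith [S.hL])
    have h1 := hb n
    rw [div_lt_iff₀ hwp] at hn
    have h2 : S.L ^ n ≤ S.L ^ (2 * n) := pow_le_pow_right₀ (by linarith [S.hL]) (by omega)
    nlinarith
  have hspec := Nat.find_spec hex
  refine ⟨Nat.find hex, hspec.1, ?_⟩
  obtain ⟨u', w', h'⟩ := hspec.2
  refine ⟨u', w', h', ?_⟩
  intro k hk0 hkm u'' w'' hcon
  exact Nat.find_min hex hkm ⟨hk0, u'', w'', hcon⟩

theorem prev_formula {P : T2} {u w : ℝ} (hP : P ∈ S.core) (hk : S.IsKick P u w) (hw : w ≠ 0) :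
    ∃ (Q : T2) (m : ℕ) (u' w' : ℝ), Q ∈ S.core ∧ 0 < m ∧ S.f^[m] Q = P ∧ S.IsKick Q u' w' ∧
      ((0 < w' + S.DD.d u' ∧ m % 4 = 1 ∧ u = S.L ^ m * (w' + S.DD.d u') ∧
          w = (1 / 2 - u') / S.L ^ (2 * m)) ∨
       (w' + S.DD.d u' < 0 ∧ m % 4 = 3 ∧ u = S.L ^ m * |w' + S.DD.d u'| ∧
          w = -((1 / 2 - u') / S.L ^ (2 * m)))) := by
  obtain ⟨m, hm, u', w', hk', hno⟩ := S.prev_kick hP hk hw
  set Q := S.f.symm^[m] P with hQ
  have hQc : Q ∈ S.core := S.core_symm_iterate hP m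
  have hfm : S.f^[m] Q = P := S.iterate_symm_iterate m P
  have hbet : ∀ k, 0 < k → k < m → ∀ u'' w'', ¬ S.IsKick (S.f^[k] Q) u'' w'' := by
    intro k h1 h2 u'' w'' hcon
    have e : S.f^[k] Q = S.f.symm^[m - k] P := by
      have : m = k + (m - k) := by omega
      rw [hQ]
      conv_lhs => rw [this, Function.iterate_add_apply]
      rw [S.iterate_symm_iterate]
    rw [e] at hcon
    exact hno (m - k) (by omega) (by omega) u'' w'' hcon
  refine ⟨Q, m, u', w', hQc, hm, hfm, hk', ?_⟩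
  rcases lt_trichotomy (w' + S.DD.d u') 0 with ht | ht | ht
  · right
    obtain ⟨j, hj1, hj2⟩ := S.pass_neg hQc hk' ht
    have hkk := S.isKick_pass_neg hk' ht j hj1
    have hmj : m = 4 * j + 3 := by
      rcases lt_trichotomy m (4 * j + 3) with h | h | h
      · exact (hj2 m hm h u w (by rw [hfm]; exact hk)).elim
      · exact h
      · exact (hbet (4 * j + 3) (by omega) h _ _ hkk).elim
    subst hmj
    rw [hfm] at hkk
    obtain ⟨e1, e2⟩ := hk.unique hkk
    exact ⟨ht, by omega, e1, e2⟩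
  · exact (S.pass_zero hk' ht m hm u w (by rw [hfm]; exact hk)).elim
  · left
    obtain ⟨j, hj1, hj2⟩ := S.pass_pos hQc hk' ht
    have hkk := S.isKick_pass hk' j hj1
    have hmj : m = 4 * j + 1 := by
      rcases lt_trichotomy m (4 * j + 1) with h | h | h
      · exact (hj2 m hm h u w (by rw [hfm]; exact hk)).elim
      · exact h
      · exact (hbet (4 * j + 1) (by omega) h _ _ hkk).elim
    subst hmj
    rw [hfm] at hkk
    obtain ⟨e1, e2⟩ := hk.unique hkk
    exact ⟨ht, by omega, e1, e2⟩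

/-- comparison of powers of `L` -/
theorem pow_cmp {a b : ℕ} {c : ℝ} (hc : c ≤ 2) (h : S.L ^ a ≤ c * S.L ^ b) : a ≤ b := by
  by_contra hlt
  have hL := S.hL
  have hLp := S.L_pos
  have h1 : S.L ^ (b + 1) ≤ S.L ^ a := pow_le_pow_right₀ (by linarith) (by omega)
  have h2 : 0 < S.L ^ b := by positivity
  rw [pow_succ] at h1
  nlinarith

theorem kick_neg_aux (m : ℕ) : ∀ (Q : T2) (u' w' : ℝ), Q ∈ S.core → S.IsKick Q u' w' → 0 < m →
    w' + S.DD.d u' < 0 → 1 / 5 ≤ S.L ^ m * |w' + S.DD.d u'| → False := by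
  have hL := S.hL
  have hLp := S.L_pos
  induction m using Nat.strong_induction_on with
  | _ m ih =>
    intro Q u' w' hQ hk hm ht hu
    have hd := S.DD.nonneg u'
    have hw' : w' < 0 := by linarith
    obtain ⟨R, m', u2, w2, hR, hm', -, hkR, h | h⟩ := S.prev_formula hQ hk hw'.ne
    · obtain ⟨-, -, -, h4⟩ := h
      have : 0 < (1 / 2 - u2) / S.L ^ (2 * m') :=
        div_pos (by linarith [hkR.2.1.2]) (by positivity)
      linarith
    · obtain ⟨h1, -, h3, h4⟩ := h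
      have habs : |w' + S.DD.d u'| ≤ (1 / 2 - u2) / S.L ^ (2 * m') := by
        rw [abs_of_neg ht]; linarith
      have h5 : 1 / 5 ≤ S.L ^ m * ((1 / 2 - u2) / S.L ^ (2 * m')) :=
        hu.trans (mul_le_mul_of_nonneg_left habs (by positivity))
      have h6 : S.L ^ (2 * m') ≤ 3 / 2 * S.L ^ m := by
        rw [← mul_div_assoc, le_div_iff₀ (by positivity)] at h5
        have h7 : S.L ^ m * (1 / 2 - u2) ≤ S.L ^ m * (3 / 10) := by
          apply mul_le_mul_of_nonneg_left _ (by positivity)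
          linarith [hkR.2.1.1]
        linarith
      have h7 := S.pow_cmp (by norm_num) h6
      exact ih m' (by omega) R u2 w2 hR hkR hm' h1 (by rw [← h3]; exact hk.2.1.1)

theorem kick_nonneg {P : T2} {u w : ℝ} (hP : P ∈ S.core) (hk : S.IsKick P u w) : 0 ≤ w := by
  by_contra hw
  rw [not_le] at hw
  have hLp := S.L_pos
  obtain ⟨R, m', u2, w2, hR, hm', -, hkR, h | h⟩ := S.prev_formula hP hk hw.ne
  · obtain ⟨-, -, -, h4⟩ := h
    have : 0 < (1 / 2 - u2) / S.L ^ (2 * m') :=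
      div_pos (by linarith [hkR.2.1.2]) (by positivity)
    linarith
  · obtain ⟨h1, -, h3, -⟩ := h
    exact S.kick_neg_aux m' R u2 w2 hR hkR hm' h1 (by rw [← h3]; exact hk.2.1.1)

end Sys

end Pool.Agent.helper15.SD
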