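import Pool.Agent.helper15.SD.Pass
import Pool.Agent.helper15.SD.Prev
import Pool.Agent.helper15.SD.BaseRoot
import Pool.Agent.helper15.SD.Cover

/-!
# M22: upper bound of the entropy outside the windows
-/

open Set Filter Topology

namespace Pool.Agent.helper15.SD

namespace EK

/-- number of cells met by a set of small diameter -/
theorem ncard_floor_le {α : Type} (g : α → ℝ) (s : Set α) {δ c : ℝ} (hδ : 0 < δ) (hc : 0 ≤ c)
    (h : ∀ p ∈ s, ∀ q ∈ s, |g p - g q| ≤ c * δ) :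
    ((fun p => ⌊g p / δ⌋) '' s).Finite ∧ (((fun p => ⌊g p / δ⌋) '' s).ncard : ℝ) ≤ c + 2 := by
  rcases s.eq_empty_or_nonempty with rfl | ⟨p0, hp0⟩
  · simp; linarith
  set T := (fun p => ⌊g p / δ⌋) '' s with hT
  have hdist : ∀ x ∈ T, ∀ y ∈ T, x - y ≤ ⌈c⌉ := by
    rintro _ ⟨p, hp, rfl⟩ _ ⟨q, hq, rfl⟩
    have h1 := h p hp q hq
    have h2 : g p / δ - g q / δ ≤ c := by
      rw [← sub_div, div_le_iff₀ hδ]
      exact (le_abs_self _).trans h1
    have h3 : (⌊g p / δ⌋ : ℝ) ≤ g p / δ := Int.floor_le _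
    have h4 : g q / δ < ⌊g q / δ⌋ + 1 := Int.lt_floor_add_one _
    have h5 : ((⌊g p / δ⌋ - ⌊g q / δ⌋ : ℤ) : ℝ) < ⌈c⌉ + 1 := by
      push_cast
      have := Int.le_ceil c
      linarith
    have h6 : (⌊g p / δ⌋ - ⌊g q / δ⌋ : ℤ) < ⌈c⌉ + 1 := by exact_mod_cast h5
    simp only
    omega
  have hfin : T.Finite := by
    apply (Set.finite_Icc (⌊g p0 / δ⌋ - ⌈c⌉) (⌊g p0 / δ⌋ + ⌈c⌉)).subset
    intro x hx
    have h1 := hdist x hx _ ⟨p0, hp0, rfl⟩
    have h2 := hdist _ ⟨p0, hp0, rfl⟩ x hx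
    simp only at h1 h2
    constructor <;> omega
  refine ⟨hfin, ?_⟩
  have hne : T.Nonempty := ⟨_, p0, hp0, rfl⟩
  obtain ⟨m, hm1, hm2⟩ := hfin.exists_minimalFor id T hne
  have hmin : ∀ x ∈ T, m ≤ x := by
    intro x hx
    rcases le_total m x with h | h
    · exact h
    · exact hm2 hx h
  have hsub : T ⊆ ↑(Finset.Icc m (m + ⌈c⌉)) := by
    intro x hx
    rw [Finset.coe_Icc]
    have h1 := hdist x hx m hm1
    constructor
    · exact hmin x hx
    · omega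
  have hc0 : 0 ≤ ⌈c⌉ := Int.ceil_nonneg hc
  calc (T.ncard : ℝ) ≤ ((↑(Finset.Icc m (m + ⌈c⌉)) : Set ℤ).ncard : ℝ) := by
        exact_mod_cast Set.ncard_le_ncard hsub (Finset.finite_toSet _)
    _ = ((Finset.Icc m (m + ⌈c⌉)).card : ℝ) := by rw [Set.ncard_coe_finset]
    _ = ⌈c⌉ + 1 := by
        rw [Int.card_Icc]
        have : ((m + ⌈c⌉ + 1 - m).toNat : ℤ) = ⌈c⌉ + 1 := by
          rw [Int.toNat_of_nonneg (by omega)]; ring
        exact_mod_cast this
    _ ≤ c + 2 := by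
        have := Int.ceil_lt_add_one c
        linarith

theorem lt_of_floor_eq {x y δ : ℝ} (hδ : 0 < δ) (h : ⌊x / δ⌋ = ⌊y / δ⌋) : |x - y| < δ := by
  have := Int.abs_sub_lt_one_of_floor_eq_floor h
  rw [← sub_div, abs_div, abs_of_pos hδ, div_lt_one hδ] at this
  exact this

/-- signed root -/
noncomputable def sr (β : ℕ) (x : ℝ) : ℝ := SignType.sign x * |x| ^ (1 / (β : ℝ))

theorem sr_nonneg_eq {β : ℕ} {x : ℝ} (hβ : 1 ≤ β) (hx : 0 ≤ x) : sr β x = x ^ (1 / (β : ℝ)) := by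
  unfold sr
  rcases hx.eq_or_lt with rfl | hx
  · have : (1 : ℝ) / β ≠ 0 := by positivity
    rw [Real.zero_rpow this]; simp
  · rw [sign_pos hx, abs_of_pos hx]; simp

theorem sr_neg (β : ℕ) (x : ℝ) : sr β (-x) = -sr β x := by
  unfold sr
  rw [Left.sign_neg, abs_neg]; push_cast; ring

theorem sr_mul (β : ℕ) {c : ℝ} (hc : 0 < c) (x : ℝ) :
    sr β (c * x) = c ^ (1 / (β : ℝ)) * sr β x := by
  unfold sr
  rw [sign_mul, sign_pos hc, one_mul, abs_mul, abs_of_pos hc,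
    Real.mul_rpow hc.le (abs_nonneg _)]
  ring

theorem abs_sr_le_one {β : ℕ} {x : ℝ} (hx : |x| ≤ 1) : |sr β x| ≤ 1 := by
  unfold sr
  rw [abs_mul, abs_of_nonneg (Real.rpow_nonneg (abs_nonneg x) _)]
  have h1 : |((SignType.sign x : SignType) : ℝ)| ≤ 1 := by
    rcases lt_trichotomy x 0 with h | h | h
    · rw [sign_neg h]; simp
    · subst h; simp
    · rw [sign_pos h]; simp
  have h2 : |x| ^ (1 / (β : ℝ)) ≤ 1 := Real.rpow_le_one (abs_nonneg x) hx (by positivity)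
  have h3 := Real.rpow_nonneg (abs_nonneg x) (1 / (β : ℝ))
  nlinarith [abs_nonneg ((SignType.sign x : SignType) : ℝ)]

theorem pow_sub_le {x y : ℝ} (hy : 0 ≤ y) (hyx : y ≤ x) (hx : x ≤ 1) (n : ℕ) :
    x ^ n - y ^ n ≤ n * (x - y) := by
  induction n with
  | zero => simp
  | succ n ih =>
    have h1 : x ^ (n + 1) - y ^ (n + 1) = x * (x ^ n - y ^ n) + (x - y) * y ^ n := by ring
    rw [h1]
    have h2 : y ^ n ≤ 1 := pow_le_one₀ hy (hyx.trans hx)
    have h3 : 0 ≤ y ^ n := by positivity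
    have h4 : 0 ≤ x ^ n - y ^ n := sub_nonneg.2 (pow_le_pow_left₀ hy hyx n)
    push_cast
    nlinarith

theorem root_pow {β : ℕ} (hβ : 1 ≤ β) {x : ℝ} (hx : 0 ≤ x) : (x ^ (1 / (β : ℝ))) ^ β = x := by
  rw [one_div]
  exact Real.rpow_inv_natCast_pow hx (by omega)

/-- the inverse of the signed root is Lipschitz -/
theorem sr_inv_lip {β : ℕ} (hβ : 1 ≤ β) {x y : ℝ} (hx : |x| ≤ 1) (hy : |y| ≤ 1) :
    |x - y| ≤ β * |sr β x - sr β y| := by
  -- both nonnegative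
  have key : ∀ a b : ℝ, 0 ≤ b → b ≤ a → a ≤ 1 → a - b ≤ β * (sr β a - sr β b) := by
    intro a b hb hba ha
    rw [sr_nonneg_eq hβ (hb.trans hba), sr_nonneg_eq hβ hb]
    have h1 : b ^ (1 / (β : ℝ)) ≤ a ^ (1 / (β : ℝ)) := Real.rpow_le_rpow hb hba (by positivity)
    have h2 : a ^ (1 / (β : ℝ)) ≤ 1 := Real.rpow_le_one (hb.trans hba) ha (by positivity)
    have := pow_sub_le (Real.rpow_nonneg hb (1 / (β : ℝ))) h1 h2 β
    rwa [root_pow hβ (hb.trans hba), root_pow hβ hb] at this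
  have sr0 : sr β 0 = 0 := by unfold sr; simp
  -- ordered version
  have key2 : ∀ a b : ℝ, |a| ≤ 1 → |b| ≤ 1 → b ≤ a → a - b ≤ β * (sr β a - sr β b) := by
    intro a b ha hb hba
    rw [abs_le] at ha hb
    rcases le_total 0 b with h0 | h0
    · exact key a b h0 hba ha.2
    · rcases le_total 0 a with h1 | h1
      · have e1 := key a 0 le_rfl h1 ha.2
        have e2 := key (-b) 0 le_rfl (by linarith) (by linarith)
        rw [sr0] at e1 e2
        rw [sr_neg] at e2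
        nlinarith
      · have := key (-b) (-a) (by linarith) (by linarith) (by linarith)
        rw [sr_neg, sr_neg] at this
        nlinarith
  rcases le_total y x with h | h
  · rw [abs_of_nonneg (sub_nonneg.2 h)]
    refine (key2 x y hx hy h).trans ?_
    gcongr
    exact le_abs_self _
  · rw [abs_sub_comm, abs_of_nonneg (sub_nonneg.2 h), abs_sub_comm]
    refine (key2 y x hy hx h).trans ?_
    gcongr
    exact le_abs_self _

/-- the root is Lipschitz away from `0` -/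
theorem root_lip {β : ℕ} (hβ : 1 ≤ β) {x y : ℝ} (hx : 1 / 5 ≤ x) (hx1 : x ≤ 1) (hy : 1 / 5 ≤ y)
    (hy1 : y ≤ 1) : |sr β x - sr β y| ≤ 5 * |x - y| := by
  have key : ∀ a b : ℝ, 1 / 5 ≤ b → b ≤ a → a ≤ 1 → sr β a - sr β b ≤ 5 * (a - b) := by
    intro a b hb hba ha
    have hb0 : 0 < b := by linarith
    have ha0 : 0 < a := by linarith
    rw [sr_nonneg_eq hβ ha0.le, sr_nonneg_eq hβ hb0.le]
    -- a^(1/β) = b^(1/β) (a/b)^(1/β) ≤ b^(1/β) (a/b)
    have h1 : a ^ (1 / (β : ℝ)) = b ^ (1 / (β : ℝ)) * (a / b) ^ (1 / (β : ℝ)) := by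
      rw [← Real.mul_rpow hb0.le (by positivity), mul_div_cancel₀ _ hb0.ne']
    have h2 : (a / b) ^ (1 / (β : ℝ)) ≤ a / b := by
      have h3 : 1 ≤ a / b := by rw [le_div_iff₀ hb0]; linarith
      calc (a / b) ^ (1 / (β : ℝ)) ≤ (a / b) ^ (1 : ℝ) := by
            apply Real.rpow_le_rpow_of_exponent_le h3
            rw [div_le_one (by positivity)]
            exact_mod_cast hβ
        _ = a / b := Real.rpow_one _
    have h4 : b ^ (1 / (β : ℝ)) ≤ 1 := Real.rpow_le_one hb0.le (by linarith) (by positivity)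
    have h5 : 0 ≤ b ^ (1 / (β : ℝ)) := Real.rpow_nonneg hb0.le _
    have h6 : a / b - 1 ≤ 5 * (a - b) := by
      rw [div_sub_one hb0.ne', div_le_iff₀ hb0]
      nlinarith
    have h7 : 0 ≤ a / b - 1 := by
      rw [sub_nonneg, le_div_iff₀ hb0]; linarith
    rw [h1]
    nlinarith
  have hmono : ∀ a b : ℝ, 0 ≤ b → b ≤ a → sr β b ≤ sr β a := by
    intro a b hb hba
    rw [sr_nonneg_eq hβ (hb.trans hba), sr_nonneg_eq hβ hb]
    exact Real.rpow_le_rpow hb hba (by positivity)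
  rcases le_total y x with h | h
  · rw [abs_of_nonneg (sub_nonneg.2 h), abs_of_nonneg (sub_nonneg.2 (hmono x y (by linarith) h))]
    exact key x y hy h hx1
  · rw [abs_sub_comm, abs_sub_comm x y, abs_of_nonneg (sub_nonneg.2 h),
      abs_of_nonneg (sub_nonneg.2 (hmono y x (by linarith) h))]
    exact key y x hx h hy1

theorem ncard_code_le {α : Type} (g0 : α → Bool) (g1 g2 : α → ℝ) (t : Set α) {δ c1 c2 : ℝ}
    (hδ : 0 < δ) (hc1 : 0 ≤ c1) (hc2 : 0 ≤ c2) (h0 : ∀ p ∈ t, ∀ q ∈ t, g0 p = g0 q)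
    (h1 : ∀ p ∈ t, ∀ q ∈ t, |g1 p - g1 q| ≤ c1 * δ)
    (h2 : ∀ p ∈ t, ∀ q ∈ t, |g2 p - g2 q| ≤ c2 * δ) :
    ((fun p => (g0 p, ⌊g1 p / δ⌋, ⌊g2 p / δ⌋)) '' t).Finite ∧
      (((fun p => (g0 p, ⌊g1 p / δ⌋, ⌊g2 p / δ⌋)) '' t).ncard : ℝ) ≤ (c1 + 2) * (c2 + 2) := by
  rcases t.eq_empty_or_nonempty with rfl | ⟨p0, hp0⟩
  · simp; positivity
  obtain ⟨f1, n1⟩ := ncard_floor_le g1 t hδ hc1 h1
  obtain ⟨f2, n2⟩ := ncard_floor_le g2 t hδ hc2 h2
  have hsub : ((fun p => (g0 p, ⌊g1 p / δ⌋, ⌊g2 p / δ⌋)) '' t) ⊆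
      {g0 p0} ×ˢ (((fun p => ⌊g1 p / δ⌋) '' t) ×ˢ ((fun p => ⌊g2 p / δ⌋) '' t)) := by
    rintro _ ⟨p, hp, rfl⟩
    exact ⟨h0 p hp p0 hp0, ⟨⟨p, hp, rfl⟩, ⟨p, hp, rfl⟩⟩⟩
  have hfin : ({g0 p0} ×ˢ (((fun p => ⌊g1 p / δ⌋) '' t) ×ˢ ((fun p => ⌊g2 p / δ⌋) '' t))).Finite :=
    (Set.finite_singleton _).prod (f1.prod f2)
  refine ⟨hfin.subset hsub, ?_⟩
  have h3 := Set.ncard_le_ncard hsub hfin
  rw [Set.ncard_prod, Set.ncard_prod, Set.ncard_singleton, one_mul] at h3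
  have h4 : (((fun p => (g0 p, ⌊g1 p / δ⌋, ⌊g2 p / δ⌋)) '' t).ncard : ℝ) ≤
      (((fun p => ⌊g1 p / δ⌋) '' t).ncard : ℝ) * (((fun p => ⌊g2 p / δ⌋) '' t).ncard : ℝ) := by
    exact_mod_cast h3
  refine h4.trans ?_
  gcongr

variable {r : ℝ} (S : Sys r)

/-- `P` has slot `e` (`false`: phase `0`, `true`: phase `1`) and coordinates `a`, `b` -/
def IsSt (P : T2) (x : Bool × ℝ × ℝ) : Prop :=
  (x.1 = false ∧ P = St 0 x.2.1 x.2.2 ∧ |x.2.2| ≤ 3 / (10 * S.L ^ 2) ∧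
      (x.2.1 ∈ Icc (1 / 5 : ℝ) (3 / 10) ∨ |x.2.1| < 2 / (5 * S.L))) ∨
    (x.1 = true ∧ P = St 1 x.2.1 x.2.2 ∧ |x.2.2| ≤ 3 / (10 * S.L ^ 2) ∧
      |x.2.1| < 2 / (5 * S.L))

theorem slot_ne {a b a' b' : ℝ} (ha : |a| ≤ 2 / 5) (hb' : |b'| < 1 / 10) :
    St 0 a b ≠ St 1 a' b' := by
  intro h
  rw [St_zero, St_one, proj_eq_iff] at h
  obtain ⟨m, n, h1, h2⟩ := h
  simp only at h1 h2
  rw [abs_lt] at hb'
  rw [abs_le] at ha
  have hm : (m : ℝ) < 1 := by linarith [ha.1, hb'.2]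
  have hm' : (0 : ℝ) < m := by linarith [ha.2, hb'.1]
  have h1' : m < 1 := by exact_mod_cast hm
  have h2' : 0 < m := by exact_mod_cast hm'
  omega

theorem b_small {b : ℝ} (hb : |b| ≤ 3 / (10 * S.L ^ 2)) : |b| < 1 / 10 := by
  have hL := S.hL
  have h2 : (1000 : ℝ) ≤ S.L ^ 2 := by nlinarith
  refine hb.trans_lt ?_
  rw [div_lt_iff₀ (by positivity)]
  nlinarith

theorem IsSt.fst_le {P : T2} {x : Bool × ℝ × ℝ} (h : IsSt S P x) : |x.2.1| ≤ 3 / 10 := by
  have := S.a0_le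
  rcases h with ⟨-, -, -, h | h⟩ | ⟨-, -, -, h⟩
  · rw [abs_of_nonneg (by linarith [h.1])]; exact h.2
  · linarith
  · linarith

theorem IsSt.snd_lt {P : T2} {x : Bool × ℝ × ℝ} (h : IsSt S P x) : |x.2.2| < 1 / 10 := by
  rcases h with ⟨-, -, h, -⟩ | ⟨-, -, h, -⟩ <;> exact b_small S h

theorem IsSt.unique {P : T2} {x y : Bool × ℝ × ℝ} (hx : IsSt S P x) (hy : IsSt S P y) :
    x = y := by
  have a1 := hx.fst_le
  have a2 := hy.fst_le
  have b1 := hx.snd_lt
  have b2 := hy.snd_lt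
  obtain ⟨e, a, b⟩ := x
  obtain ⟨e', a', b'⟩ := y
  simp only at a1 a2 b1 b2
  rcases hx with ⟨h1, h2, -, -⟩ | ⟨h1, h2, -, -⟩ <;> rcases hy with ⟨h3, h4, -, -⟩ | ⟨h3, h4, -, -⟩
  · simp only at h1 h2 h3 h4
    obtain ⟨e1, e2⟩ := St_inj (e := 0) (Or.inl rfl) (by linarith) (by linarith) (by linarith)
      (by linarith) (h2.symm.trans h4)
    rw [h1, h3, e1, e2]
  · exact absurd (h2.symm.trans h4) (slot_ne (by simp only; linarith) b2)
  · exact absurd (h4.symm.trans h2) (slot_ne (by simp only; linarith) b1)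
  · simp only at h1 h2 h3 h4
    obtain ⟨e1, e2⟩ := St_inj (e := 1) (Or.inr rfl) (by linarith) (by linarith) (by linarith)
      (by linarith) (h2.symm.trans h4)
    rw [h1, h3, e1, e2]

theorem exists_isSt {P : T2} (hP : P ∈ S.core) : ∃ x, IsSt S P x := by
  rcases S.core_state hP with ⟨u, w, h1, h2, h3⟩ | ⟨a, b, h1, h2, h3⟩
  · exact ⟨(false, u, w), Or.inl ⟨rfl, h1, h2, h3⟩⟩
  · exact ⟨(true, a, b), Or.inr ⟨rfl, h1, h2, h3⟩⟩

open Classical in
/-- coordinates as a total function -/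
noncomputable def cst (P : T2) : Bool × ℝ × ℝ :=
  if h : ∃ x, IsSt S P x then h.choose else (false, 0, 0)

theorem cst_spec {P : T2} (hP : P ∈ S.core) : IsSt S P (cst S P) := by
  unfold cst
  rw [dif_pos (exists_isSt S hP)]
  exact (exists_isSt S hP).choose_spec

theorem cst_eq {P : T2} (hP : P ∈ S.core) {x : Bool × ℝ × ℝ} (h : IsSt S P x) : cst S P = x :=
  IsSt.unique S (cst_spec S hP) h

/-- a state of phase `0` in the core -/
theorem isSt_of_zero {P : T2} (hP : P ∈ S.core) {a b : ℝ} (h : P = St 0 a b) (ha : |a| ≤ 2 / 5)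
    (hb : |b| < 1 / 10) : IsSt S P (false, a, b) := by
  rcases S.core_state hP with ⟨u, w, h1, h2, h3⟩ | ⟨a', b', h1, h2, h3⟩
  · have hP' : IsSt S P (false, u, w) := Or.inl ⟨rfl, h1, h2, h3⟩
    have hu := hP'.fst_le
    have hw := hP'.snd_lt
    simp only at hu hw
    obtain ⟨e1, e2⟩ := St_inj (e := 0) (Or.inl rfl) (by linarith) (by linarith) (by linarith)
      (by linarith) (h.symm.trans h1)
    rw [e1, e2]
    exact Or.inl ⟨rfl, h1, h2, h3⟩
  · exact absurd (h.symm.trans h1) (slot_ne ha (b_small S h2))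

theorem isSt_of_one {P : T2} (hP : P ∈ S.core) {a b : ℝ} (h : P = St 1 a b) (ha : |a| ≤ 2 / 5)
    (hb : |b| < 1 / 10) : IsSt S P (true, a, b) := by
  have ha0 := S.a0_le
  rcases S.core_state hP with ⟨u, w, h1, h2, h3⟩ | ⟨a', b', h1, h2, h3⟩
  · have hP' : IsSt S P (false, u, w) := Or.inl ⟨rfl, h1, h2, h3⟩
    have hu := hP'.fst_le
    simp only at hu
    exact absurd (h1.symm.trans h) (slot_ne (by linarith) hb)
  · have hb' := b_small S h2
    obtain ⟨e1, e2⟩ := St_inj (e := 1) (Or.inr rfl) (by linarith) (by linarith) (by linarith)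
      (by linarith) (h.symm.trans h1)
    rw [e1, e2]
    exact Or.inr ⟨rfl, h1, h2, h3⟩

/-- the three kinds of transitions -/
theorem trans {P : T2} (hP : P ∈ S.Kset) :
    (∃ a b, IsSt S P (false, a, b) ∧ |a| < 2 / (5 * S.L) ∧
      IsSt S (S.f P) (true, S.L * a, b / S.L ^ 2)) ∨
    (∃ a b, IsSt S P (false, a, b) ∧ a ∈ Icc (1 / 5 : ℝ) (3 / 10) ∧ 0 ≤ b ∧
      (∀ i, 1 ≤ i → ll S.L i ≤ |a - xx S.L i|) ∧
      IsSt S (S.f P) (false, S.L * (b + S.DD.d a), (1 / 2 - a) / S.L ^ 2)) ∨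
    (∃ a b, IsSt S P (true, a, b) ∧ IsSt S (S.f P) (false, -(S.L * a), -(b / S.L ^ 2))) := by
  have hL := S.L_pos
  have hL' := S.hL
  have hc := hP.1
  have hfc := S.core_f hc
  have hL2 : (1000 : ℝ) ≤ S.L ^ 2 := by nlinarith
  have hbL : ∀ b : ℝ, |b| < 1 / 10 → |b / S.L ^ 2| < 1 / 10 := by
    intro b hb
    rw [abs_div, abs_of_pos (by positivity : (0 : ℝ) < S.L ^ 2)]
    exact (div_le_self (abs_nonneg _) (by linarith)).trans_lt hb
  have haL : ∀ a : ℝ, |a| < 2 / (5 * S.L) → |S.L * a| ≤ 2 / 5 := by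
    intro a ha
    rw [abs_mul, abs_of_pos hL]
    rw [lt_div_iff₀ (by positivity)] at ha
    nlinarith
  obtain ⟨⟨e, a, b⟩, hx⟩ := exists_isSt S hc
  have hb := hx.snd_lt
  simp only at hb
  rcases id hx with ⟨h1, h2, h3, h4⟩ | ⟨h1, h2, h3, h4⟩
  · simp only at h1 h2 h3 h4
    subst h1
    rcases h4 with h4 | h4
    · -- kick
      right; left
      have hk : S.IsKick P a b := ⟨h2, h4, h3⟩
      have ht := S.abs_t_le hc hk
      refine ⟨a, b, hx, h4, S.kick_nonneg hc hk, ?_, ?_⟩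
      · intro i hi
        exact (hP.2 0 a b i hi (Or.inl hk)).le
      · have hf := S.f_kick h4 ht
        rw [← h2] at hf
        apply isSt_of_zero S hfc hf
        · rw [abs_mul, abs_of_pos hL]
          rw [le_div_iff₀ (by positivity)] at ht
          nlinarith
        · rw [abs_div, abs_of_pos (by positivity : (0 : ℝ) < S.L ^ 2),
            abs_of_nonneg (by linarith [h4.2]), div_lt_iff₀ (by positivity)]
          nlinarith [h4.1]
    · left
      refine ⟨a, b, hx, h4, ?_⟩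
      have hf := S.f_St (e := 0) h4.le (hb.le.trans (by norm_num))
      rw [← h2, zero_add] at hf
      exact isSt_of_one S hfc hf (haL a h4) (hbL b hb)
  · simp only at h1 h2 h3 h4
    subst h1
    right; right
    refine ⟨a, b, hx, ?_⟩
    have hf := S.f_St (e := 1) h4.le (hb.le.trans (by norm_num))
    rw [← h2] at hf
    have hf' : S.f P = St 0 (-(S.L * a)) (-(b / S.L ^ 2)) := by rw [hf, ← St_two']
    exact isSt_of_zero S hfc hf' (by rw [abs_neg]; exact haL a h4) (by rw [abs_neg]; exact hbL b hb)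

theorem Kset_f {P : T2} (hP : P ∈ S.Kset) : S.f P ∈ S.Kset := by
  refine ⟨S.core_f hP.1, ?_⟩
  intro n u w i hi h
  rcases h with h | h
  · apply hP.2 (n + 1) u w i hi (Or.inl _)
    rwa [Function.iterate_succ_apply]
  · rcases n with _ | n
    · apply hP.2 1 u w i hi (Or.inl _)
      simpa using h
    · apply hP.2 n u w i hi (Or.inr _)
      rwa [Function.iterate_succ_apply, Homeomorph.symm_apply_apply] at h

end EK

namespace Sys

variable {r : ℝ} (S : Sys r)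

theorem entropy_K : Dynamics.coverEntropy S.f S.Kset ≤
    ((Real.log (40 * S.Cz * S.β ^ 2 * S.L ^ (1 / (S.β : ℝ))) : ℝ) : EReal) := by
  have hL := S.L_pos
  have hL1 : 1 ≤ S.L := by linarith [S.hL]
  have hCz := S.hCz
  have hβ : 1 ≤ S.β := by linarith [S.hβ]
  have hB : (2 : ℝ) ≤ S.β := by exact_mod_cast S.hβ
  set X : ℝ := S.L ^ (1 / (S.β : ℝ)) with hX
  have hX1 : 1 ≤ X := Real.one_le_rpow hL1 (by positivity)
  set D : ℝ := 40 * S.Cz * S.β ^ 2 * X with hD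
  have hD1 : 1 ≤ D := by
    rw [hD]
    have h1 : (1 : ℝ) ≤ S.β ^ 2 := by nlinarith
    have h2 : (1 : ℝ) ≤ 40 * S.Cz := by linarith
    have h3 : (1 : ℝ) ≤ 40 * S.Cz * S.β ^ 2 := one_le_mul_of_one_le_of_one_le h2 h1
    exact one_le_mul_of_one_le_of_one_le h3 hX1
  set M : ℕ := ⌊D⌋₊ with hM
  have hM1 : 1 ≤ M := by
    rw [hM]; apply Nat.le_floor; push_cast; exact hD1
  have hMle : (M : ℝ) ≤ D := Nat.floor_le (by positivity)
  have hcov := cover_le S.f S.Kset 1 one_pos M hM1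
    (fun P hP => by simpa using EK.Kset_f S hP) ?_
  · refine hcov.trans ?_
    rw [EReal.coe_le_coe_iff, Nat.cast_one, div_one]
    gcongr
  intro ε hε
  set δ : ℝ := ε / (2 * S.β) with hδdef
  have hδ : 0 < δ := by positivity
  have hβδ : S.β * δ < ε := by
    rw [hδdef]
    have : (S.β : ℝ) * (ε / (2 * S.β)) = ε / 2 := by field_simp
    rw [this]; linarith
  refine ⟨Bool × ℤ × ℤ, fun P => ((EK.cst S P).1, ⌊EK.sr S.β (EK.cst S P).2.1 / δ⌋,
    ⌊EK.sr S.β (EK.cst S P).2.2 / δ⌋), ?_, ?_, ?_⟩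
  · -- finiteness
    have h1 : ∀ P ∈ S.Kset, |EK.sr S.β (EK.cst S P).2.1| ≤ 1 ∧
        |EK.sr S.β (EK.cst S P).2.2| ≤ 1 := by
      intro P hP
      have hs := EK.cst_spec S hP.1
      have a1 := hs.fst_le
      have a2 := hs.snd_lt
      exact ⟨EK.abs_sr_le_one (by linarith), EK.abs_sr_le_one (by linarith)⟩
    have hf1 := (EK.ncard_floor_le (fun P => EK.sr S.β (EK.cst S P).2.1) S.Kset hδ
      (c := 2 / δ) (by positivity) (by
        intro p hp q hq
        have a1 := abs_le.1 (h1 p hp).1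
        have a2 := abs_le.1 (h1 q hq).1
        rw [div_mul_cancel₀ _ hδ.ne', abs_le]
        constructor <;> linarith)).1
    have hf2 := (EK.ncard_floor_le (fun P => EK.sr S.β (EK.cst S P).2.2) S.Kset hδ
      (c := 2 / δ) (by positivity) (by
        intro p hp q hq
        have a1 := abs_le.1 (h1 p hp).2
        have a2 := abs_le.1 (h1 q hq).2
        rw [div_mul_cancel₀ _ hδ.ne', abs_le]
        constructor <;> linarith)).1
    apply ((Set.finite_univ (α := Bool)).prod (hf1.prod hf2)).subset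
    rintro _ ⟨P, hP, rfl⟩
    exact ⟨trivial, ⟨P, hP, rfl⟩, ⟨P, hP, rfl⟩⟩
  · -- closeness
    intro p hp q hq hpq _ k hk
    have hk0 : k = 0 := by omega
    subst hk0
    simp only [Function.iterate_zero, id_eq]
    have hsp := EK.cst_spec S hp.1
    have hsq := EK.cst_spec S hq.1
    have a1 := hsp.fst_le
    have a2 := hsp.snd_lt
    have a3 := hsq.fst_le
    have a4 := hsq.snd_lt
    simp only [Prod.mk.injEq] at hpq
    obtain ⟨g0, g1, g2⟩ := hpq
    have e1 := EK.lt_of_floor_eq hδ g1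
    have e2 := EK.lt_of_floor_eq hδ g2
    have l1 := EK.sr_inv_lip hβ (x := (EK.cst S p).2.1) (y := (EK.cst S q).2.1)
      (by linarith) (by linarith)
    have l2 := EK.sr_inv_lip hβ (x := (EK.cst S p).2.2) (y := (EK.cst S q).2.2)
      (by linarith) (by linarith)
    have m1 : |(EK.cst S p).2.1 - (EK.cst S q).2.1| < ε := by
      refine l1.trans_lt (lt_of_le_of_lt ?_ hβδ)
      gcongr
    have m2 : |(EK.cst S p).2.2 - (EK.cst S q).2.2| < ε := by
      refine l2.trans_lt (lt_of_le_of_lt ?_ hβδ)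
      gcongr
    rcases hsp with ⟨s1, s2, -, -⟩ | ⟨s1, s2, -, -⟩ <;> rcases hsq with ⟨t1, t2, -, -⟩ | ⟨t1, t2, -, -⟩
    · rw [s2, t2]
      exact (dist_St_le 0 _ _ _ _).trans_lt (max_lt m1 m2)
    · rw [s1, t1] at g0; exact absurd g0 (by decide)
    · rw [s1, t1] at g0; exact absurd g0 (by decide)
    · rw [s2, t2]
      exact (dist_St_le 1 _ _ _ _).trans_lt (max_lt m1 m2)
  · -- counting
    rintro ⟨e0, b1, b2⟩
    simp only [Function.iterate_one]
    set s : Set T2 := {p | p ∈ S.Kset ∧ (((EK.cst S p).1, ⌊EK.sr S.β (EK.cst S p).2.1 / δ⌋,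
      ⌊EK.sr S.β (EK.cst S p).2.2 / δ⌋) : Bool × ℤ × ℤ) = (e0, b1, b2)} with hs
    set g : T2 → Bool × ℤ × ℤ := fun p => ((EK.cst S (S.f p)).1,
      ⌊EK.sr S.β (EK.cst S (S.f p)).2.1 / δ⌋, ⌊EK.sr S.β (EK.cst S (S.f p)).2.2 / δ⌋) with hg
    -- closeness of the coordinates in `s`
    have hcl : ∀ p ∈ s, ∀ q ∈ s, |EK.sr S.β (EK.cst S p).2.1 - EK.sr S.β (EK.cst S q).2.1| ≤ δ ∧
        |EK.sr S.β (EK.cst S p).2.2 - EK.sr S.β (EK.cst S q).2.2| ≤ δ := by
      rintro p ⟨hp, hpb⟩ q ⟨hq, hqb⟩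
      have hpq := hpb.trans hqb.symm
      simp only [Prod.mk.injEq] at hpq
      exact ⟨(EK.lt_of_floor_eq hδ hpq.2.1).le, (EK.lt_of_floor_eq hδ hpq.2.2).le⟩
    set s1 : Set T2 := {p | p ∈ s ∧ (∃ a b, EK.IsSt S p (false, a, b) ∧ |a| < 2 / (5 * S.L) ∧
      EK.IsSt S (S.f p) (true, S.L * a, b / S.L ^ 2))} with hs1
    set s2 : Set T2 := {p | p ∈ s ∧ (∃ a b, EK.IsSt S p (false, a, b) ∧
      a ∈ Icc (1 / 5 : ℝ) (3 / 10) ∧ 0 ≤ b ∧
      (∀ i, 1 ≤ i → ll S.L i ≤ |a - xx S.L i|) ∧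
      EK.IsSt S (S.f p) (false, S.L * (b + S.DD.d a), (1 / 2 - a) / S.L ^ 2))} with hs2
    set s3 : Set T2 := {p | p ∈ s ∧ (∃ a b, EK.IsSt S p (true, a, b) ∧
      EK.IsSt S (S.f p) (false, -(S.L * a), -(b / S.L ^ 2)))} with hs3
    have hcover : s ⊆ s1 ∪ (s2 ∪ s3) := by
      intro p hp
      rcases EK.trans S hp.1 with h | h | h
      · exact Or.inl ⟨hp, h⟩
      · exact Or.inr (Or.inl ⟨hp, h⟩)
      · exact Or.inr (Or.inr ⟨hp, h⟩)
    have hLinv : (S.L ^ 2)⁻¹ ^ (1 / (S.β : ℝ)) ≤ 1 := by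
      apply Real.rpow_le_one (by positivity) _ (by positivity)
      exact inv_le_one_of_one_le₀ (one_le_pow₀ hL1)
    have hLinv0 : 0 ≤ (S.L ^ 2)⁻¹ ^ (1 / (S.β : ℝ)) := by positivity
    have hcon : ∀ b : ℝ, EK.sr S.β (b / S.L ^ 2) =
        (S.L ^ 2)⁻¹ ^ (1 / (S.β : ℝ)) * EK.sr S.β b := by
      intro b
      rw [div_eq_inv_mul, EK.sr_mul _ (by positivity)]
    have hcon2 : ∀ b b' : ℝ, |EK.sr S.β b - EK.sr S.β b'| ≤ δ →
        |EK.sr S.β (b / S.L ^ 2) - EK.sr S.β (b' / S.L ^ 2)| ≤ δ := by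
      intro b b' h
      rw [hcon, hcon, ← mul_sub, abs_mul, abs_of_nonneg hLinv0]
      nlinarith [abs_nonneg (EK.sr S.β b - EK.sr S.β b')]
    have hexp : ∀ a a' : ℝ, |EK.sr S.β a - EK.sr S.β a'| ≤ δ →
        |EK.sr S.β (S.L * a) - EK.sr S.β (S.L * a')| ≤ X * δ := by
      intro a a' h
      rw [EK.sr_mul _ hL, EK.sr_mul _ hL, ← mul_sub, abs_mul, abs_of_nonneg (by positivity)]
      gcongr
    -- count 1
    obtain ⟨f1, n1⟩ := EK.ncard_code_le (fun p => (EK.cst S (S.f p)).1)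
      (fun p => EK.sr S.β (EK.cst S (S.f p)).2.1) (fun p => EK.sr S.β (EK.cst S (S.f p)).2.2)
      s1 hδ (c1 := X) (c2 := 1) (by positivity) (by norm_num)
      (by
        rintro p ⟨hp, a, b, k1, k2, k3⟩ q ⟨hq, a', b', l1, l2, l3⟩
        rw [EK.cst_eq S (S.core_f hp.1.1) k3, EK.cst_eq S (S.core_f hq.1.1) l3])
      (by
        rintro p ⟨hp, a, b, k1, k2, k3⟩ q ⟨hq, a', b', l1, l2, l3⟩
        rw [EK.cst_eq S (S.core_f hp.1.1) k3, EK.cst_eq S (S.core_f hq.1.1) l3]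
        have := (hcl p hp q hq).1
        rw [EK.cst_eq S hp.1.1 k1, EK.cst_eq S hq.1.1 l1] at this
        exact hexp _ _ this)
      (by
        rintro p ⟨hp, a, b, k1, k2, k3⟩ q ⟨hq, a', b', l1, l2, l3⟩
        rw [EK.cst_eq S (S.core_f hp.1.1) k3, EK.cst_eq S (S.core_f hq.1.1) l3]
        have := (hcl p hp q hq).2
        rw [EK.cst_eq S hp.1.1 k1, EK.cst_eq S hq.1.1 l1] at this
        rw [one_mul]
        exact hcon2 _ _ this)
    -- count 3
    obtain ⟨f3, n3⟩ := EK.ncard_code_le (fun p => (EK.cst S (S.f p)).1)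
      (fun p => EK.sr S.β (EK.cst S (S.f p)).2.1) (fun p => EK.sr S.β (EK.cst S (S.f p)).2.2)
      s3 hδ (c1 := X) (c2 := 1) (by positivity) (by norm_num)
      (by
        rintro p ⟨hp, a, b, k1, k3⟩ q ⟨hq, a', b', l1, l3⟩
        rw [EK.cst_eq S (S.core_f hp.1.1) k3, EK.cst_eq S (S.core_f hq.1.1) l3])
      (by
        rintro p ⟨hp, a, b, k1, k3⟩ q ⟨hq, a', b', l1, l3⟩
        rw [EK.cst_eq S (S.core_f hp.1.1) k3, EK.cst_eq S (S.core_f hq.1.1) l3]
        have := (hcl p hp q hq).1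
        rw [EK.cst_eq S hp.1.1 k1, EK.cst_eq S hq.1.1 l1] at this
        simp only
        rw [EK.sr_neg, EK.sr_neg, neg_sub_neg, abs_sub_comm]
        exact hexp _ _ this)
      (by
        rintro p ⟨hp, a, b, k1, k3⟩ q ⟨hq, a', b', l1, l3⟩
        rw [EK.cst_eq S (S.core_f hp.1.1) k3, EK.cst_eq S (S.core_f hq.1.1) l3]
        have := (hcl p hp q hq).2
        rw [EK.cst_eq S hp.1.1 k1, EK.cst_eq S hq.1.1 l1] at this
        simp only
        rw [EK.sr_neg, EK.sr_neg, neg_sub_neg, abs_sub_comm, one_mul]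
        exact hcon2 _ _ this)
    -- count 2
    obtain ⟨f2, n2⟩ := EK.ncard_code_le (fun p => (EK.cst S (S.f p)).1)
      (fun p => EK.sr S.β (EK.cst S (S.f p)).2.1) (fun p => EK.sr S.β (EK.cst S (S.f p)).2.2)
      s2 hδ (c1 := X * (1 + S.Cz * S.β)) (c2 := 5 * S.β) (by positivity) (by positivity)
      (by
        rintro p ⟨hp, a, b, k1, k2, k3, k4, k5⟩ q ⟨hq, a', b', l1, l2, l3, l4, l5⟩
        rw [EK.cst_eq S (S.core_f hp.1.1) k5, EK.cst_eq S (S.core_f hq.1.1) l5])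
      (by
        rintro p ⟨hp, a, b, k1, k2, k3, k4, k5⟩ q ⟨hq, a', b', l1, l2, l3, l4, l5⟩
        rw [EK.cst_eq S (S.core_f hp.1.1) k5, EK.cst_eq S (S.core_f hq.1.1) l5]
        have h1 := (hcl p hp q hq).1
        have h2 := (hcl p hp q hq).2
        rw [EK.cst_eq S hp.1.1 k1, EK.cst_eq S hq.1.1 l1] at h1 h2
        simp only at h1 h2 ⊢
        rw [EK.sr_mul _ hL, EK.sr_mul _ hL, ← mul_sub, abs_mul, abs_of_nonneg (by positivity),
          mul_assoc]
        gcongr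
        have hda := S.DD.nonneg a
        have hda' := S.DD.nonneg a'
        rw [EK.sr_nonneg_eq hβ (by positivity), EK.sr_nonneg_eq hβ (by positivity)]
        refine (abs_root_add_sub_le S.β hβ k3 hda l3 hda').trans ?_
        rw [EK.sr_nonneg_eq hβ k3, EK.sr_nonneg_eq hβ l3] at h2
        have h3 := S.DD.zone a a' k4 l4
        have h4 := EK.sr_inv_lip hβ (x := a) (y := a')
          (by rw [abs_le]; constructor <;> linarith [k2.1, k2.2])
          (by rw [abs_le]; constructor <;> linarith [l2.1, l2.2])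
        have h5 : S.Cz * |a - a'| ≤ S.Cz * (S.β * δ) := by
          gcongr
          refine h4.trans ?_
          gcongr
        calc _ ≤ δ + S.Cz * (S.β * δ) := add_le_add h2 (h3.trans h5)
          _ = (1 + S.Cz * S.β) * δ := by ring)
      (by
        rintro p ⟨hp, a, b, k1, k2, k3, k4, k5⟩ q ⟨hq, a', b', l1, l2, l3, l4, l5⟩
        rw [EK.cst_eq S (S.core_f hp.1.1) k5, EK.cst_eq S (S.core_f hq.1.1) l5]
        have h1 := (hcl p hp q hq).1
        rw [EK.cst_eq S hp.1.1 k1, EK.cst_eq S hq.1.1 l1] at h1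
        simp only at h1 ⊢
        rw [hcon, hcon, ← mul_sub, abs_mul, abs_of_nonneg hLinv0]
        have h4 := EK.sr_inv_lip hβ (x := a) (y := a')
          (by rw [abs_le]; constructor <;> linarith [k2.1, k2.2])
          (by rw [abs_le]; constructor <;> linarith [l2.1, l2.2])
        have h5 := EK.root_lip hβ (x := 1 / 2 - a) (y := 1 / 2 - a')
          (by linarith [k2.2]) (by linarith [k2.1]) (by linarith [l2.2]) (by linarith [l2.1])
        have h6 : |1 / 2 - a - (1 / 2 - a')| = |a - a'| := by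
          rw [abs_sub_comm]; congr 1; ring
        rw [h6] at h5
        calc (S.L ^ 2)⁻¹ ^ (1 / (S.β : ℝ)) * |EK.sr S.β (1 / 2 - a) - EK.sr S.β (1 / 2 - a')| ≤
              1 * (5 * (S.β * δ)) := by
                apply mul_le_mul hLinv _ (abs_nonneg _) zero_le_one
                refine h5.trans ?_
                gcongr
                refine h4.trans ?_
                gcongr
          _ = 5 * S.β * δ := by ring)
    have hfin : (g '' s1 ∪ (g '' s2 ∪ g '' s3)).Finite := f1.union (f2.union f3)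
    have hsub : g '' s ⊆ g '' s1 ∪ (g '' s2 ∪ g '' s3) := by
      rw [← Set.image_union, ← Set.image_union]
      exact Set.image_mono hcover
    have hle : Set.ncard (g '' s) ≤ Set.ncard (g '' s1) + (Set.ncard (g '' s2) +
        Set.ncard (g '' s3)) := by
      refine (Set.ncard_le_ncard hsub hfin).trans ?_
      refine (Set.ncard_union_le _ _).trans ?_
      gcongr
      exact Set.ncard_union_le _ _
    show Set.ncard (g '' s) ≤ M
    rw [hM]
    apply Nat.le_floor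
    have hle' : (Set.ncard (g '' s) : ℝ) ≤ Set.ncard (g '' s1) + (Set.ncard (g '' s2) +
        Set.ncard (g '' s3)) := by exact_mod_cast hle
    refine hle'.trans ?_
    have n1' : (Set.ncard (g '' s1) : ℝ) ≤ (X + 2) * (1 + 2) := n1
    have n2' : (Set.ncard (g '' s2) : ℝ) ≤ (X * (1 + S.Cz * S.β) + 2) * (5 * S.β + 2) := n2
    have n3' : (Set.ncard (g '' s3) : ℝ) ≤ (X + 2) * (1 + 2) := n3
    refine (add_le_add n1' (add_le_add n2' n3')).trans ?_
    rw [hD]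
    have hCB : 2 ≤ S.Cz * S.β := by nlinarith
    have hB6 : 5 * (S.β : ℝ) + 2 ≤ 6 * S.β := by linarith
    have q1 : (X * (1 + S.Cz * S.β) + 2) * (5 * S.β + 2) ≤
        (X * (3 * (S.Cz * S.β))) * (6 * S.β) := by
      apply mul_le_mul _ hB6 (by positivity) (by positivity)
      nlinarith
    have q2 : (X + 2) * (1 + 2) ≤ 9 * X := by linarith
    have q3 : 4 * X ≤ S.Cz * S.β ^ 2 * X := by
      gcongr
      nlinarith
    nlinarith

end Sys

end Pool.Agent.helper15.SD
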