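import Pool.Agent.helper15.SD.Prev

/-!
# The windows are trapping
-/

open Set Filter Topology

namespace Pool.Agent.helper15.SD

namespace Sys

variable {r : ℝ} (S : Sys r)

/-- the arrival coordinate of a kick followed by a pass: it is `0` or lies in the bands
`L^{-j}[1/5, 3/10]`, `j` odd -/
theorem arrival {P : T2} {u w : ℝ} (hP : P ∈ S.core) (hk : S.IsKick P u w) (j : ℕ)
    (ht : S.L ^ (4 * j + 1) * (w + S.DD.d u) ∈ Icc (1 / 5 : ℝ) (3 / 10)) :
    w = 0 ∨ ∃ (p : ℕ) (v : ℝ), v ∈ Icc (1 / 5 : ℝ) (3 / 10) ∧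
      S.L ^ (4 * j + 1) * w = v / S.L ^ (2 * p + 1) := by
  have hLp := S.L_pos
  by_cases hw : w = 0
  · exact Or.inl hw
  right
  have hw0 := S.kick_nonneg hP hk
  obtain ⟨Q, m, u', w', hQ, hm, -, hkQ, h | h⟩ := S.prev_formula hP hk hw
  · obtain ⟨-, hmod, -, h4⟩ := h
    have hv : 1 / 2 - u' ∈ Icc (1 / 5 : ℝ) (3 / 10) :=
      ⟨by linarith [hkQ.2.1.2], by linarith [hkQ.2.1.1]⟩
    have hd := S.DD.nonneg u
    have h5 : S.L ^ (4 * j + 1) * w ≤ 3 / 10 := by
      refine le_trans ?_ ht.2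
      apply mul_le_mul_of_nonneg_left _ (by positivity)
      linarith
    have h6 : S.L ^ (4 * j + 1) ≤ 3 / 2 * S.L ^ (2 * m) := by
      rw [h4, ← mul_div_assoc, div_le_iff₀ (by positivity)] at h5
      have : S.L ^ (4 * j + 1) * (1 / 5) ≤ S.L ^ (4 * j + 1) * (1 / 2 - u') :=
        mul_le_mul_of_nonneg_left hv.1 (by positivity)
      linarith
    have h7 := S.pow_cmp (by norm_num) h6
    obtain ⟨p, hp⟩ : ∃ p, 2 * m = (4 * j + 1) + (2 * p + 1) := ⟨m - 2 * j - 1, by omega⟩
    refine ⟨p, 1 / 2 - u', hv, ?_⟩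
    rw [h4, hp, pow_add S.L (4 * j + 1)]
    have h8 : S.L ^ (4 * j + 1) ≠ 0 := by positivity
    have h9 : S.L ^ (2 * p + 1) ≠ 0 := by positivity
    generalize S.L ^ (4 * j + 1) = A at h8 ⊢
    generalize S.L ^ (2 * p + 1) = B at h9 ⊢
    field_simp
  · obtain ⟨-, -, -, h4⟩ := h
    have : 0 < (1 / 2 - u') / S.L ^ (2 * m) :=
      div_pos (by linarith [hkQ.2.1.2]) (by positivity)
    linarith

theorem trap {P : T2} {u w : ℝ} (hP : P ∈ S.core) (hk : S.IsKick P u w) {i : ℕ} (hi : 1 ≤ i)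
    (hu : |u - xx S.L i| ≤ ll S.L i) :
    S.L ^ nn S.β i * (w + S.DD.d u) ∈ Icc (1 / 5 : ℝ) (3 / 10) ∧
      |S.L ^ nn S.β i * (w + S.DD.d u) - xx S.L i| ≤ 3 / 4 * ll S.L i ∧
      S.IsKick (S.f^[nn S.β i] P) (S.L ^ nn S.β i * (w + S.DD.d u))
        ((1 / 2 - u) / S.L ^ (2 * nn S.β i)) := by
  have hL := S.hL
  have hLp := S.L_pos
  have hw0 := S.kick_nonneg hP hk
  -- numerical facts on the window
  have hL2i : 0 < S.L ^ (2 * i) := by positivity
  have hL2 : (1000000 : ℝ) ≤ S.L ^ (2 * i) := by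
    have h1 : S.L ^ 2 ≤ S.L ^ (2 * i) := pow_le_pow_right₀ (by linarith) (by omega)
    nlinarith
  set q : ℝ := 1 / S.L ^ (2 * i) with hq
  have hq0 : 0 < q := by positivity
  have hq1 : q ≤ 1 / 1000000 := by
    rw [hq]; exact one_div_le_one_div_of_le (by norm_num) hL2
  have hll : ll S.L i = q / 100 := by rw [ll, hq]; ring
  have hxx : xx S.L i = 1 / 4 - q / 25 := by rw [xx, rr, hq]; ring
  have hom := S.DD.om_le i u
  rw [abs_le] at hom
  have hdw := S.DD.window i hi u hu
  set X : ℝ := xx S.L i + ll S.L i / 2 * S.DD.om i u with hX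
  have hX1 : X ≤ 1 / 4 - q / 25 + q / 200 := by rw [hX, hxx, hll]; nlinarith [hom.2]
  have hX2 : 1 / 4 - q / 25 - q / 200 ≤ X := by rw [hX, hxx, hll]; nlinarith [hom.1]
  have hXlo : 6 / 25 ≤ X := by linarith
  have hXhi : X ≤ 1 / 4 := by linarith
  have hdpos : 0 < S.DD.d u := by rw [hdw]; exact div_pos (by linarith) (by positivity)
  obtain ⟨j, hj, -⟩ := S.pass_pos hP hk (by linarith)
  have harr := S.arrival hP hk j hj
  have hj' := hj
  rw [mul_add] at hj'
  -- the arrival term is at most `(3/10)/L`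
  have harr1 : S.L ^ (4 * j + 1) * w ≤ 3 / 10000 := by
    rcases harr with h | ⟨p, v, hv, h⟩
    · rw [h]; norm_num
    · rw [h, div_le_iff₀ (by positivity)]
      have : S.L ≤ S.L ^ (2 * p + 1) := le_self_pow₀ (by linarith) (by omega)
      nlinarith [hv.2]
  have harr0 : 0 ≤ S.L ^ (4 * j + 1) * w := by positivity
  -- the return time is `nn`
  have hjn : 4 * j + 1 = nn S.β i := by
    have hn : nn S.β i = 4 * (S.β * i) + 1 := by unfold nn; ring
    have hd1 : S.L ^ (4 * j + 1) * S.DD.d u * S.L ^ nn S.β i = S.L ^ (4 * j + 1) * X := by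
      rw [hdw]; field_simp
    rcases lt_trichotomy j (S.β * i) with h | h | h
    · exfalso
      have h1 : 1 / 10 ≤ S.L ^ (4 * j + 1) * S.DD.d u := by linarith [hj'.1]
      have h2 : 1 / 10 * S.L ^ nn S.β i ≤ S.L ^ (4 * j + 1) * X := by
        rw [← hd1]; exact mul_le_mul_of_nonneg_right h1 (by positivity)
      have h3 : S.L ^ (4 * j + 1) * X ≤ S.L ^ (4 * j + 1) * (1 / 4) :=
        mul_le_mul_of_nonneg_left hXhi (by positivity)
      have h4 : S.L ^ (4 * j + 1) * S.L ≤ S.L ^ nn S.β i := by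
        rw [← pow_succ]; exact pow_le_pow_right₀ (by linarith) (by omega)
      have h5 : 0 < S.L ^ (4 * j + 1) := by positivity
      nlinarith
    · rw [hn, h]
    · exfalso
      have h1 : S.L ^ (4 * j + 1) * S.DD.d u ≤ 3 / 10 := by linarith [hj'.2]
      have h2 : S.L ^ (4 * j + 1) * X ≤ 3 / 10 * S.L ^ nn S.β i := by
        rw [← hd1]; exact mul_le_mul_of_nonneg_right h1 (by positivity)
      have h3 : S.L ^ (4 * j + 1) * (6 / 25) ≤ S.L ^ (4 * j + 1) * X :=
        mul_le_mul_of_nonneg_left hXlo (by positivity)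
      have h4 : S.L ^ nn S.β i * S.L ≤ S.L ^ (4 * j + 1) := by
        rw [← pow_succ]; exact pow_le_pow_right₀ (by linarith) (by omega)
      have h5 : 0 < S.L ^ nn S.β i := by positivity
      nlinarith
  have hkick := S.isKick_pass hk j hj
  rw [hjn] at hj hkick harr harr0 harr1
  refine ⟨hj, ?_, hkick⟩
  have hform : S.L ^ nn S.β i * (w + S.DD.d u) = S.L ^ nn S.β i * w + X := by
    rw [mul_add, hdw]; field_simp
  -- bound of the arrival term by `ll / 4`
  suffices hsuff : S.L ^ nn S.β i * w ≤ q / 400 by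
    rw [hform, hxx, hll, abs_le]
    constructor <;> linarith
  rcases harr with h | ⟨p, v, hv, h⟩
  · rw [h, mul_zero]; positivity
  · rcases le_or_gt i p with hp | hp
    · rw [h, hq, div_div, div_le_div_iff₀ (by positivity) (by positivity)]
      have h1 : S.L ^ (2 * i) * S.L ≤ S.L ^ (2 * p + 1) := by
        rw [← pow_succ]; exact pow_le_pow_right₀ (by linarith) (by omega)
      nlinarith [hv.2]
    · exfalso
      -- the image is in the flat part
      have h1 : 200 * q ≤ S.L ^ nn S.β i * w := by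
        rw [h, hq, mul_one_div, div_le_div_iff₀ (by positivity) (by positivity)]
        have h2 : S.L ^ (2 * p + 1) * S.L ≤ S.L ^ (2 * i) := by
          rw [← pow_succ]; exact pow_le_pow_right₀ (by linarith) (by omega)
        have h3 : 0 < S.L ^ (2 * p + 1) := by positivity
        nlinarith [hv.1]
      have hflat := S.DD.flat (S.L ^ nn S.β i * (w + S.DD.d u)) (by rw [hform]; linarith)
        (by rw [hform]; linarith)
      have hc := S.core_iterate hP (nn S.β i)
      have hnpos : 0 < nn S.β i := by unfold nn; omega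
      have hB := S.pass_snd hk.2.1 (nn S.β i) hnpos
      obtain ⟨j', hj2, -⟩ := S.pass_pos hc hkick (by rw [hflat, add_zero]; exact hB.1)
      rw [hflat, add_zero, ← mul_div_assoc] at hj2
      obtain ⟨h5, h6⟩ := hj2
      rw [le_div_iff₀ (by positivity)] at h5
      rw [div_le_iff₀ (by positivity)] at h6
      have hv2 : 1 / 2 - u ∈ Icc (1 / 5 : ℝ) (3 / 10) :=
        ⟨by linarith [hk.2.1.2], by linarith [hk.2.1.1]⟩
      have hp1 : 0 < S.L ^ (4 * j' + 1) := by positivity
      have hp2 : 0 < S.L ^ (2 * nn S.β i) := by positivity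
      have c1 : S.L ^ (4 * j' + 1) ≤ 3 / 2 * S.L ^ (2 * nn S.β i) := by nlinarith [hv2.1]
      have c2 : S.L ^ (2 * nn S.β i) ≤ 3 / 2 * S.L ^ (4 * j' + 1) := by nlinarith [hv2.2]
      have d1 := S.pow_cmp (by norm_num) c1
      have d2 := S.pow_cmp (by norm_num) c2
      omega

end Sys

end Pool.Agent.helper15.SD
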