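import Pool.Agent.helper15.SD.Core
import Pool.Agent.helper15.SD.Trap
import Pool.Agent.helper15.SD.Cover

/-!
# M23: upper bound of the entropy of the classes of the windows
-/

open Set Filter Topology

namespace Pool.Agent.helper15.SD

namespace EL

/-- number of cells met by a set of small diameter -/
theorem ncard_floor_le {α : Type} (g : α → ℝ) (s : Set α) {δ c : ℝ} (hδ : 0 < δ) (hc : 0 ≤ c)
    (h : ∀ p ∈ s, ∀ q ∈ s, |g p - g q| ≤ c * δ) :
    ((fun p => ⌊g p / δ⌋) '' s).Finite ∧ (((fun p => ⌊g p / δ⌋) '' s).ncard : ℝ) ≤ c + 2 := by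
  rcases s.eq_empty_or_nonempty with rfl | ⟨p0, hp0⟩
  · simp; linarith
  set T := (fun p => ⌊g p / δ⌋) '' s with hT
  have hdist : ∀ x ∈ T, ∀ y ∈ T, x - y ≤ ⌈c⌉ := by
    rintro _ ⟨p, hp, rfl⟩ _ ⟨q, hq, rfl⟩
    have h1 := h p hp q hq
    have h2 : g p / δ - g q / δ ≤ c := by
      rw [← sub_div, div_le_iff₀ hδ]
      exact (le_abs_self _).trans h1
    have h3 : (⌊g p / δ⌋ : ℝ) ≤ g p / δ := Int.floor_le _
    have h4 : g q / δ < ⌊g q / δ⌋ + 1 := Int.lt_floor_add_one _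
    have h5 : ((⌊g p / δ⌋ - ⌊g q / δ⌋ : ℤ) : ℝ) < ⌈c⌉ + 1 := by
      push_cast
      have := Int.le_ceil c
      linarith
    have h6 : (⌊g p / δ⌋ - ⌊g q / δ⌋ : ℤ) < ⌈c⌉ + 1 := by exact_mod_cast h5
    simp only
    omega
  have hfin : T.Finite := by
    apply (Set.finite_Icc (⌊g p0 / δ⌋ - ⌈c⌉) (⌊g p0 / δ⌋ + ⌈c⌉)).subset
    intro x hx
    have h1 := hdist x hx _ ⟨p0, hp0, rfl⟩
    have h2 := hdist _ ⟨p0, hp0, rfl⟩ x hx
    simp only at h1 h2
    constructor <;> omega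
  refine ⟨hfin, ?_⟩
  have hne : T.Nonempty := ⟨_, p0, hp0, rfl⟩
  obtain ⟨m, hm1, hm2⟩ := hfin.exists_minimalFor id T hne
  have hmin : ∀ x ∈ T, m ≤ x := by
    intro x hx
    rcases le_total m x with h | h
    · exact h
    · exact hm2 hx h
  have hsub : T ⊆ ↑(Finset.Icc m (m + ⌈c⌉)) := by
    intro x hx
    rw [Finset.coe_Icc]
    have h1 := hdist x hx m hm1
    constructor
    · exact hmin x hx
    · omega
  have hc0 : 0 ≤ ⌈c⌉ := Int.ceil_nonneg hc
  calc (T.ncard : ℝ) ≤ ((↑(Finset.Icc m (m + ⌈c⌉)) : Set ℤ).ncard : ℝ) := by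
        exact_mod_cast Set.ncard_le_ncard hsub (Finset.finite_toSet _)
    _ = ((Finset.Icc m (m + ⌈c⌉)).card : ℝ) := by rw [Set.ncard_coe_finset]
    _ = ⌈c⌉ + 1 := by
        rw [Int.card_Icc]
        have : ((m + ⌈c⌉ + 1 - m).toNat : ℤ) = ⌈c⌉ + 1 := by
          rw [Int.toNat_of_nonneg (by omega)]; ring
        exact_mod_cast this
    _ ≤ c + 2 := by
        have := Int.ceil_lt_add_one c
        linarith

theorem lt_of_floor_eq {x y δ : ℝ} (hδ : 0 < δ) (h : ⌊x / δ⌋ = ⌊y / δ⌋) : |x - y| < δ := by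
  have := Int.abs_sub_lt_one_of_floor_eq_floor h
  rw [← sub_div, abs_div, abs_of_pos hδ, div_lt_one hδ] at this
  exact this

variable {r : ℝ} (S : Sys r)

/-- coordinates of a point of phase `0`, as a total function -/
noncomputable def crd (P : T2) : ℝ × ℝ :=
  open Classical in
  if h : ∃ p : ℝ × ℝ, S.IsKick P p.1 p.2 then h.choose else (0, 0)

theorem crd_eq {P : T2} {u w : ℝ} (h : S.IsKick P u w) : crd S P = (u, w) := by
  unfold crd
  have hex : ∃ p : ℝ × ℝ, S.IsKick P p.1 p.2 := ⟨(u, w), h⟩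
  rw [dif_pos hex]
  have := Sys.IsKick.unique hex.choose_spec h
  exact Prod.ext this.1 this.2

end EL

namespace Sys

variable {r : ℝ} (S : Sys r)

theorem entropy_Lam {i : ℕ} (hi : 1 ≤ i) : Dynamics.coverEntropy S.f (S.Lam0 i) ≤
    ((Real.log (10 * S.Cw * S.N i) / nn S.β i : ℝ) : EReal) := by
  have hL := S.L_pos
  have hL1 : 1 ≤ S.L := by linarith [S.hL]
  have hCw := S.hCw
  have hl : 0 < ll S.L i := by unfold ll; positivity
  obtain ⟨q, hq1, hq⟩ := S.hN i hi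
  have hN1 : (4 : ℝ) ≤ S.N i := by
    rw [hq]; push_cast
    have : (1 : ℝ) ≤ q := by exact_mod_cast hq1
    linarith
  have hCN : 4 ≤ S.Cw * S.N i := by nlinarith
  have hnn : 0 < nn S.β i := by unfold nn; omega
  have hLn : (0 : ℝ) < S.L ^ nn S.β i := by positivity
  have hLn1 : (1 : ℝ) ≤ S.L ^ nn S.β i := one_le_pow₀ hL1
  -- the data of a point of `Lam0`
  have hdata : ∀ P ∈ S.Lam0 i, ∃ u w, S.IsKick P u w ∧ |u - xx S.L i| ≤ 3 / 4 * ll S.L i ∧
      S.f^[nn S.β i] P ∈ S.Lam0 i ∧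
      S.L ^ nn S.β i * (w + S.DD.d u) ∈ Icc (1 / 5 : ℝ) (3 / 10) ∧
      S.IsKick (S.f^[nn S.β i] P) (S.L ^ nn S.β i * (w + S.DD.d u))
        ((1 / 2 - u) / S.L ^ (2 * nn S.β i)) ∧
      S.L ^ nn S.β i * (w + S.DD.d u) = xx S.L i + ll S.L i / 2 * S.DD.om i u +
        S.L ^ nn S.β i * w := by
    rintro P ⟨hP, u, w, hk, hu⟩
    have hu' : |u - xx S.L i| ≤ ll S.L i := by linarith
    obtain ⟨t1, t2, t3⟩ := S.trap hP hk hi hu'
    refine ⟨u, w, hk, hu, ⟨S.core_iterate hP _, _, _, t3, t2⟩, t1, t3, ?_⟩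
    rw [mul_add, S.DD.window i hi u hu']
    field_simp
    try ring
  set M : ℕ := ⌊10 * S.Cw * S.N i⌋₊ with hM
  have hM1 : 1 ≤ M := by
    rw [hM]; apply Nat.le_floor; push_cast; nlinarith
  have hMle : (M : ℝ) ≤ 10 * S.Cw * S.N i := Nat.floor_le (by positivity)
  have hcov := cover_le S.f (S.Lam0 i) (nn S.β i) hnn M hM1
    (fun P hP => (hdata P hP).choose_spec.choose_spec.2.2.1) ?_
  · refine hcov.trans ?_
    rw [EReal.coe_le_coe_iff]
    gcongr
  intro ε hε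
  refine ⟨ℤ × ℤ, fun P => (⌊(EL.crd S P).1 / ε⌋, ⌊(S.L ^ nn S.β i * (EL.crd S P).2) / ε⌋),
    ?_, ?_, ?_⟩
  · -- finiteness
    have h1 : ∀ P ∈ S.Lam0 i, |(EL.crd S P).1| ≤ 1 ∧ |S.L ^ nn S.β i * (EL.crd S P).2| ≤
        S.L ^ nn S.β i := by
      intro P hP
      obtain ⟨u, w, hk, -⟩ := hdata P hP
      rw [EL.crd_eq S hk]
      obtain ⟨-, hu, hw⟩ := hk
      constructor
      · simp only
        rw [abs_le]; constructor <;> linarith [hu.1, hu.2]
      · simp only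
        rw [abs_mul, abs_of_pos hLn]
        have := S.w_lt hw
        nlinarith
    have hf1 := (EL.ncard_floor_le (fun P => (EL.crd S P).1) (S.Lam0 i) hε
      (c := 2 / ε) (by positivity) (by
        intro p hp q hq
        have a1 := abs_le.1 (h1 p hp).1
        have a2 := abs_le.1 (h1 q hq).1
        rw [div_mul_cancel₀ _ hε.ne', abs_le]
        constructor <;> linarith)).1
    have hf2 := (EL.ncard_floor_le (fun P => S.L ^ nn S.β i * (EL.crd S P).2) (S.Lam0 i) hε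
      (c := 2 * S.L ^ nn S.β i / ε) (by positivity) (by
        intro p hp q hq
        have a1 := abs_le.1 (h1 p hp).2
        have a2 := abs_le.1 (h1 q hq).2
        rw [div_mul_cancel₀ _ hε.ne', abs_le]
        constructor <;> linarith)).1
    apply (hf1.prod hf2).subset
    rintro _ ⟨P, hP, rfl⟩
    exact ⟨⟨P, hP, rfl⟩, ⟨P, hP, rfl⟩⟩
  · -- closeness
    intro p hp q hq hpq hpq' k hk
    obtain ⟨u, w, k1, k2, k3, k4, k5, k6⟩ := hdata p hp
    obtain ⟨u', w', m1, m2, m3, m4, m5, m6⟩ := hdata q hq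
    simp only [EL.crd_eq S k1, EL.crd_eq S m1, Prod.mk.injEq] at hpq
    simp only [EL.crd_eq S k5, EL.crd_eq S m5, Prod.mk.injEq] at hpq'
    have e1 := EL.lt_of_floor_eq hε hpq.1
    have e2 := EL.lt_of_floor_eq hε hpq.2
    have e3 := EL.lt_of_floor_eq hε hpq'.1
    rcases k with _ | k
    · simp only [Function.iterate_zero, id_eq]
      rw [k1.1, m1.1]
      refine (dist_St_le 0 _ _ _ _).trans_lt (max_lt e1 ?_)
      refine lt_of_le_of_lt ?_ e2
      rw [← mul_sub, abs_mul, abs_of_pos hLn]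
      exact le_mul_of_one_le_left (abs_nonneg _) hLn1
    · have hpow : S.L ^ (k + 1) ≤ S.L ^ nn S.β i := pow_le_pow_right₀ hL1 hk.le
      have hpw : ∀ u w : ℝ, S.L ^ nn S.β i * (w + S.DD.d u) ∈ Icc (1 / 5 : ℝ) (3 / 10) →
          S.L ^ (k + 1) * |w + S.DD.d u| ≤ 2 / 5 := by
        intro u w h
        calc S.L ^ (k + 1) * |w + S.DD.d u| ≤ S.L ^ nn S.β i * |w + S.DD.d u| := by gcongr
          _ = |S.L ^ nn S.β i * (w + S.DD.d u)| := by rw [abs_mul, abs_of_pos hLn]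
          _ ≤ 2 / 5 := by rw [abs_le]; constructor <;> linarith [h.1, h.2]
      rw [k1.1, m1.1, S.iterate_kick k1.2.1 k (hpw u w k4), S.iterate_kick m1.2.1 k (hpw u' w' m4)]
      refine (dist_St_le k _ _ _ _).trans_lt (max_lt ?_ ?_)
      · refine lt_of_le_of_lt ?_ e3
        rw [← mul_sub, ← mul_sub, abs_mul, abs_mul, abs_of_pos hLn, abs_of_pos (by positivity)]
        gcongr
      · refine lt_of_le_of_lt ?_ e1
        rw [← sub_div, abs_div, abs_of_pos (show (0 : ℝ) < S.L ^ (2 * (k + 1)) by positivity)]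
        have : 1 / 2 - u - (1 / 2 - u') = -(u - u') := by ring
        rw [this, abs_neg]
        exact div_le_self (abs_nonneg _) (one_le_pow₀ hL1)
  · -- counting
    rintro ⟨b1, b2⟩
    set s : Set T2 := {p | p ∈ S.Lam0 i ∧
      ((⌊(EL.crd S p).1 / ε⌋, ⌊(S.L ^ nn S.β i * (EL.crd S p).2) / ε⌋) : ℤ × ℤ) = (b1, b2)} with hs
    have key : ∀ p ∈ s, ∀ q ∈ s,
        |(EL.crd S (S.f^[nn S.β i] p)).1 - (EL.crd S (S.f^[nn S.β i] q)).1| ≤
          (S.Cw * S.N i / 2 + 1) * ε ∧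
        |S.L ^ nn S.β i * (EL.crd S (S.f^[nn S.β i] p)).2 -
          S.L ^ nn S.β i * (EL.crd S (S.f^[nn S.β i] q)).2| ≤ 1 * ε := by
      rintro p ⟨hp, hpb⟩ q ⟨hq, hqb⟩
      obtain ⟨u, w, k1, k2, k3, k4, k5, k6⟩ := hdata p hp
      obtain ⟨u', w', m1, m2, m3, m4, m5, m6⟩ := hdata q hq
      have hpq := hpb.trans hqb.symm
      simp only [EL.crd_eq S k1, EL.crd_eq S m1, Prod.mk.injEq] at hpq
      have e1 := EL.lt_of_floor_eq hε hpq.1
      have e2 := EL.lt_of_floor_eq hε hpq.2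
      rw [EL.crd_eq S k5, EL.crd_eq S m5]
      simp only
      constructor
      · rw [k6, m6]
        have hom := S.DD.om_lip i hi u u'
        have h1 : xx S.L i + ll S.L i / 2 * S.DD.om i u + S.L ^ nn S.β i * w -
            (xx S.L i + ll S.L i / 2 * S.DD.om i u' + S.L ^ nn S.β i * w') =
            ll S.L i / 2 * (S.DD.om i u - S.DD.om i u') +
              (S.L ^ nn S.β i * w - S.L ^ nn S.β i * w') := by ring
        rw [h1]
        refine (abs_add_le _ _).trans ?_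
        rw [add_mul, one_mul]
        apply add_le_add _ e2.le
        rw [abs_mul, abs_of_pos (by positivity)]
        calc ll S.L i / 2 * |S.DD.om i u - S.DD.om i u'| ≤
            ll S.L i / 2 * (S.Cw * S.N i / ll S.L i * |u - u'|) := by gcongr
          _ = S.Cw * S.N i / 2 * |u - u'| := by field_simp
          _ ≤ S.Cw * S.N i / 2 * ε := by gcongr
      · rw [one_mul]
        refine le_trans ?_ e1.le
        have : S.L ^ nn S.β i * ((1 / 2 - u) / S.L ^ (2 * nn S.β i)) -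
            S.L ^ nn S.β i * ((1 / 2 - u') / S.L ^ (2 * nn S.β i)) =
            -((u - u') / S.L ^ nn S.β i) := by
          rw [two_mul, pow_add]; field_simp; ring
        rw [this, abs_neg, abs_div, abs_of_pos hLn]
        exact div_le_self (abs_nonneg _) hLn1
    obtain ⟨f1, c1⟩ := EL.ncard_floor_le (fun p => (EL.crd S (S.f^[nn S.β i] p)).1) s hε
      (c := S.Cw * S.N i / 2 + 1) (by positivity) (fun p hp q hq => (key p hp q hq).1)
    obtain ⟨f2, c2⟩ := EL.ncard_floor_le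
      (fun p => S.L ^ nn S.β i * (EL.crd S (S.f^[nn S.β i] p)).2) s hε
      (c := 1) (by positivity) (fun p hp q hq => (key p hp q hq).2)
    have hcard : (Set.ncard ((fun p => ((⌊(EL.crd S (S.f^[nn S.β i] p)).1 / ε⌋,
        ⌊(S.L ^ nn S.β i * (EL.crd S (S.f^[nn S.β i] p)).2) / ε⌋) : ℤ × ℤ)) '' s) : ℝ) ≤
        (S.Cw * S.N i / 2 + 1 + 2) * (1 + 2) := by
      calc (Set.ncard ((fun p => ((⌊(EL.crd S (S.f^[nn S.β i] p)).1 / ε⌋,
            ⌊(S.L ^ nn S.β i * (EL.crd S (S.f^[nn S.β i] p)).2) / ε⌋) : ℤ × ℤ)) '' s) : ℝ) ≤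
            (Set.ncard (((fun p => ⌊(EL.crd S (S.f^[nn S.β i] p)).1 / ε⌋) '' s) ×ˢ
              ((fun p => ⌊S.L ^ nn S.β i * (EL.crd S (S.f^[nn S.β i] p)).2 / ε⌋) '' s)) : ℝ) := by
            have := Set.ncard_le_ncard (s := ((fun p => ((⌊(EL.crd S (S.f^[nn S.β i] p)).1 / ε⌋,
              ⌊(S.L ^ nn S.β i * (EL.crd S (S.f^[nn S.β i] p)).2) / ε⌋) : ℤ × ℤ)) '' s))
              (t := (((fun p => ⌊(EL.crd S (S.f^[nn S.β i] p)).1 / ε⌋) '' s) ×ˢ
              ((fun p => ⌊S.L ^ nn S.β i * (EL.crd S (S.f^[nn S.β i] p)).2 / ε⌋) '' s)))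
              (by rintro _ ⟨p, hp, rfl⟩; exact ⟨⟨p, hp, rfl⟩, ⟨p, hp, rfl⟩⟩) (f1.prod f2)
            exact_mod_cast this
        _ = (Set.ncard ((fun p => ⌊(EL.crd S (S.f^[nn S.β i] p)).1 / ε⌋) '' s) : ℝ) *
              (Set.ncard ((fun p => ⌊S.L ^ nn S.β i * (EL.crd S (S.f^[nn S.β i] p)).2 / ε⌋) ''
                s) : ℝ) := by
            rw [Set.ncard_prod]; push_cast; rfl
        _ ≤ (S.Cw * S.N i / 2 + 1 + 2) * (1 + 2) := by gcongr
    have hfin : Set.ncard ((fun p => ((⌊(EL.crd S (S.f^[nn S.β i] p)).1 / ε⌋,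
        ⌊(S.L ^ nn S.β i * (EL.crd S (S.f^[nn S.β i] p)).2) / ε⌋) : ℤ × ℤ)) '' s) ≤ M := by
      rw [hM]
      apply Nat.le_floor
      refine hcard.trans ?_
      nlinarith
    exact hfin

end Sys

end Pool.Agent.helper15.SD
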