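import Pool.Agent.helper15.SD.PsiHol

/-! The maps `FF` and `FF'` of the plane are of class `C^r`. -/

open Set Filter Topology

namespace Pool.Agent.helper15.SD

namespace GData

variable {L : ℝ} (D : GData L)

lemma Gi_deg (x : ℝ) : D.Gi (x + 1) = D.Gi x + 1 := by
  have h := D.deg (D.Gi x)
  rw [D.G_Gi] at h
  rw [← h, D.Gi_G]

end GData

lemma iteratedDeriv_periodic {f : ℝ → ℝ} (hf : ∀ x, f (x + 1) = f x) (j : ℕ) (x : ℝ) :
    iteratedDeriv j f (x + 1) = iteratedDeriv j f x := by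
  have h := congrFun (iteratedDeriv_comp_add_const j f 1) x
  have h2 : (fun z => f (z + 1)) = f := funext hf
  rw [h2] at h
  exact h.symm

lemma holB_of_periodic {f : ℝ → ℝ} (hf : ∀ n : ℕ, ContDiff ℝ n f) (hp : ∀ x, f (x + 1) = f x)
    (α : ℝ) (h0 : 0 ≤ α) (h1 : α ≤ 1) (k : ℕ) : HolB α k f := by
  have hb : ∀ j : ℕ, ∃ C, ∀ x, |iteratedDeriv j f x| ≤ C := by
    intro j
    have hc : Continuous (iteratedDeriv j f) := (hf j).continuous_iteratedDeriv' j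
    obtain ⟨C, hC⟩ := isCompact_Icc.exists_bound_of_continuousOn (s := Icc (0 : ℝ) 1)
      hc.continuousOn
    refine ⟨C, fun x => ?_⟩
    have hper : Function.Periodic (iteratedDeriv j f) 1 := iteratedDeriv_periodic hp j
    obtain ⟨y, hy, hxy⟩ := hper.exists_mem_Ico₀ one_pos x
    rw [hxy, ← Real.norm_eq_abs]
    exact hC y ⟨hy.1, hy.2.le⟩
  choose C hC using hb
  refine holB_of_contDiff_succ h0 h1 (hf (k + 1)) (∑ j ∈ Finset.range (k + 2), |C j|) ?_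
  intro j hj x
  refine (hC j x).trans ((le_abs_self _).trans ?_)
  exact Finset.single_le_sum (f := fun j => |C j|) (fun i _ => abs_nonneg _)
    (Finset.mem_range.2 (by omega))

lemma holB_fderiv_of_deg {f : ℝ → ℝ} (hf : ∀ n : ℕ, ContDiff ℝ n f)
    (hp : ∀ x, f (x + 1) = f x + 1) (α : ℝ) (h0 : 0 ≤ α) (h1 : α ≤ 1) (k : ℕ) :
    HolB α k (fderiv ℝ f) := by
  have hd : ∀ n : ℕ, ContDiff ℝ n (deriv f) := by
    intro n
    have := hf (n + 1)
    have h2 := (contDiff_succ_iff_deriv (𝕜 := ℝ) (n := (n : WithTop ℕ∞)) (f := f)).1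
      (by exact_mod_cast this)
    exact h2.2.2
  have hper : ∀ x, deriv f (x + 1) = deriv f x := by
    intro x
    have h2 : (fun z => f (z + 1)) = fun z => f z + 1 := funext hp
    have h3 := deriv_comp_add_const f 1 x
    rw [h2] at h3
    rw [← h3, deriv_add_const]
  have h3 := holB_of_periodic hd hper α h0 h1 k
  have h4 : fderiv ℝ f = fun x =>
      (ContinuousLinearMap.smulRightL ℝ ℝ ℝ (ContinuousLinearMap.id ℝ ℝ)) (deriv f x) := by
    funext x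
    ext
    simp
  rw [h4]
  exact h3.clm _

namespace Sys

variable {r : ℝ} (S : Sys r)

/-- all derivatives of order `≥ 1` of `G` and `Gi` are bounded -/
theorem G_holB (α : ℝ) (h0 : 0 ≤ α) (h1 : α ≤ 1) (k : ℕ) :
    HolB α k (fderiv ℝ S.GD.G) ∧ HolB α k (fderiv ℝ S.GD.Gi) :=
  ⟨holB_fderiv_of_deg S.GD.G_smooth S.GD.deg α h0 h1 k,
    holB_fderiv_of_deg S.GD.Gi_smooth S.GD.Gi_deg α h0 h1 k⟩

end Sys

section aux

variable {E F G : Type} [NormedAddCommGroup E] [NormedSpace ℝ E] [NormedAddCommGroup F]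
  [NormedSpace ℝ F] [NormedAddCommGroup G] [NormedSpace ℝ G]

/-- differentiable with derivative in the class `HolB α k` -/
def DHol (α : ℝ) (k : ℕ) (f : E → F) : Prop := Differentiable ℝ f ∧ HolB α k (fderiv ℝ f)

lemma DHol.add {α : ℝ} {k : ℕ} {f g : E → F} (hf : DHol α k f) (hg : DHol α k g) :
    DHol α k (fun x => f x + g x) := by
  refine ⟨hf.1.add hg.1, ?_⟩
  have : fderiv ℝ (fun x => f x + g x) = fun x => fderiv ℝ f x + fderiv ℝ g x := by
    funext x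
    exact fderiv_add (hf.1 x) (hg.1 x)
  rw [this]
  exact hf.2.add hg.2

lemma DHol.clm {α : ℝ} {k : ℕ} {f : E → F} (B : F →L[ℝ] G) (hf : DHol α k f) :
    DHol α k (fun x => B (f x)) := by
  refine ⟨B.differentiable.comp hf.1, ?_⟩
  have : fderiv ℝ (fun x => B (f x)) = fun x =>
      ContinuousLinearMap.compL ℝ E F G B (fderiv ℝ f x) := by
    funext x
    have h := fderiv_comp x (B.differentiableAt (x := f x)) (hf.1 x)
    rw [B.fderiv] at h
    exact h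
  rw [this]
  exact hf.2.clm _

lemma dHol_clm {α : ℝ} {k : ℕ} (B : E →L[ℝ] F) : DHol α k (fun x => B x) := by
  refine ⟨B.differentiable, ?_⟩
  have : fderiv ℝ (fun x => B x) = fun _ => B := by
    funext x
    exact B.fderiv
  rw [this]
  exact holB_const _

lemma DHol.comp {α : ℝ} (h0 : 0 ≤ α) (h1 : α ≤ 1) {k : ℕ} {f : F → G} {g : E → F}
    (hf : DHol α k f) (hg : DHol α k g) : DHol α k (fun x => f (g x)) := by
  refine ⟨hf.1.comp hg.1, ?_⟩
  have e : fderiv ℝ (fun x => f (g x)) = fun x =>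
      ContinuousLinearMap.compL ℝ E F G (fderiv ℝ f (g x)) (fderiv ℝ g x) := by
    funext x
    exact fderiv_comp x (hf.1 (g x)) (hg.1 x)
  rw [e]
  have hg2 : HolB α (k - 1) (fderiv ℝ g) := by
    rcases k with _ | k
    · exact hg.2
    · exact hg.2.of_succ h0 h1
  exact HolB.bilin h0 h1 _ (HolB.comp h0 h1 hf.2 hg.1 hg2) hg.2

lemma DHol.prodMk {α : ℝ} {k : ℕ} {f : E → F} {g : E → G} (hf : DHol α k f)
    (hg : DHol α k g) : DHol α k (fun x => (f x, g x)) := by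
  have h := (hf.clm (ContinuousLinearMap.inl ℝ F G)).add (hg.clm (ContinuousLinearMap.inr ℝ F G))
  have e : (fun x => (f x, g x)) = fun x => ContinuousLinearMap.inl ℝ F G (f x) +
      ContinuousLinearMap.inr ℝ F G (g x) := by
    funext x
    simp
  rw [e]
  exact h

end aux

namespace Sys

variable {r : ℝ} (S : Sys r)

include S in
lemma exists_k : ∃ k : ℕ, ⌊r⌋₊ = k + 1 := by
  have := S.floor_r_pos
  exact ⟨⌊r⌋₊ - 1, by omega⟩

lemma dHol_psi {k : ℕ} (hk : ⌊r⌋₊ = k + 1) : DHol (r - (⌊r⌋₊ : ℝ)) k S.psi := by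
  refine ⟨S.differentiable_psi, ?_⟩
  have h := S.psi_holB
  have h2 : HolB (r - (⌊r⌋₊ : ℝ)) (k + 1) S.psi := by
    rw [← hk]; exact h
  exact (holB_succ_iff.1 h2).2.2

lemma dHol_G (k : ℕ) : DHol (r - (⌊r⌋₊ : ℝ)) k S.GD.G :=
  ⟨(S.GD.G_smooth 1).differentiable (by norm_num),
    (S.G_holB _ S.alpha_nonneg S.alpha_le_one k).1⟩

lemma dHol_Gi (k : ℕ) : DHol (r - (⌊r⌋₊ : ℝ)) k S.GD.Gi :=
  ⟨(S.GD.Gi_smooth 1).differentiable (by norm_num),
    (S.G_holB _ S.alpha_nonneg S.alpha_le_one k).2⟩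

lemma dHol_fst (α : ℝ) (k : ℕ) : DHol α k (fun v : ℝ × ℝ => v.1) :=
  dHol_clm (ContinuousLinearMap.fst ℝ ℝ ℝ)

lemma dHol_snd (α : ℝ) (k : ℕ) : DHol α k (fun v : ℝ × ℝ => v.2) :=
  dHol_clm (ContinuousLinearMap.snd ℝ ℝ ℝ)

lemma dHol_neg {α : ℝ} {k : ℕ} {f : ℝ × ℝ → ℝ} (hf : DHol α k f) :
    DHol α k (fun v => -f v) := by
  have h := hf.clm (-(ContinuousLinearMap.id ℝ ℝ))
  simpa using h

lemma dHol_FF {k : ℕ} (hk : ⌊r⌋₊ = k + 1) : DHol (r - (⌊r⌋₊ : ℝ)) k S.FF := by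
  have h0 := S.alpha_nonneg
  have h1 := S.alpha_le_one
  have a1 : DHol (r - (⌊r⌋₊ : ℝ)) k (fun v : ℝ × ℝ => v.2 + S.psi v.1) :=
    (dHol_snd _ k).add (DHol.comp h0 h1 (S.dHol_psi hk) (dHol_fst _ k))
  have a2 := DHol.comp h0 h1 (S.dHol_G k) a1
  have a3 := dHol_neg (DHol.comp h0 h1 (S.dHol_G k) (dHol_fst _ k))
  exact a2.prodMk a3

lemma dHol_FF' {k : ℕ} (hk : ⌊r⌋₊ = k + 1) : DHol (r - (⌊r⌋₊ : ℝ)) k S.FF' := by
  have h0 := S.alpha_nonneg
  have h1 := S.alpha_le_one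
  have a1 := dHol_neg (DHol.comp h0 h1 (S.dHol_Gi k) (dHol_snd _ k))
  have a2 := DHol.comp h0 h1 (S.dHol_Gi k) (dHol_fst _ k)
  have a3 := dHol_neg (DHol.comp h0 h1 (S.dHol_psi hk) a1)
  have a4 := a2.add a3
  have e : S.FF' = fun v : ℝ × ℝ => (-S.GD.Gi v.2, S.GD.Gi v.1 + -S.psi (-S.GD.Gi v.2)) := by
    funext v
    simp only [FF', sub_eq_add_neg]
  rw [e]
  exact a1.prodMk a4

theorem cr_FF : IsCr r S.FF := by
  obtain ⟨k, hk⟩ := S.exists_k
  have h := S.dHol_FF hk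
  exact isCr_of_fderiv hk h.1 h.2

theorem cr_FF' : IsCr r S.FF' := by
  obtain ⟨k, hk⟩ := S.exists_k
  have h := S.dHol_FF' hk
  exact isCr_of_fderiv hk h.1 h.2

theorem exists_fderiv_FF'_le : ∃ B : ℝ, ∀ v, ‖fderiv ℝ S.FF' v‖ ≤ B := by
  obtain ⟨k, hk⟩ := S.exists_k
  obtain ⟨-, -, C, hC, -⟩ := S.dHol_FF' hk
  refine ⟨C, fun v => ?_⟩
  have := hC 0 (Nat.zero_le _) v
  rwa [norm_iteratedFDeriv_zero] at this

end Sys

end Pool.Agent.helper15.SD
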