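import Pool.Agent.helper15.SD.Defs

/-!
# Existence of growth rates (helper78)
-/

open Set Filter Topology

namespace Pool.Agent.helper15.SD

theorem exists_growth (F : ℝ × ℝ → ℝ × ℝ) (hF : Differentiable ℝ F) (B : ℝ)
    (hB : ∀ v, ‖fderiv ℝ F v‖ ≤ B) (c : ℝ) (hc : 1 ≤ c)
    (hlow : ∀ n : ℕ, ∃ v, c ^ n ≤ ‖fderiv ℝ (F^[n]) v‖) :
    ∃ l : ℝ, IsGrowthRate F l ∧ Real.log c ≤ l ∧ l ≤ Real.log B := by
  have hd : ∀ n, Differentiable ℝ (F^[n]) := fun n => hF.iterate n
  have hB1 : 1 ≤ B := by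
    obtain ⟨v, hv⟩ := hlow 1
    rw [Function.iterate_one, pow_one] at hv
    linarith [hB v]
  have hchain : ∀ m n v, ‖fderiv ℝ (F^[m + n]) v‖ ≤
      ‖fderiv ℝ (F^[m]) (F^[n] v)‖ * ‖fderiv ℝ (F^[n]) v‖ := by
    intro m n v
    rw [Function.iterate_add, fderiv_comp v (hd m _) (hd n v)]
    exact ContinuousLinearMap.opNorm_comp_le _ _
  have hbd : ∀ n v, ‖fderiv ℝ (F^[n]) v‖ ≤ B ^ n := by
    intro n
    induction n with
    | zero =>
      intro v
      rw [Function.iterate_zero, fderiv_id, pow_zero]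
      exact ContinuousLinearMap.norm_id_le
    | succ n ih =>
      intro v
      refine (hchain n 1 v).trans ?_
      rw [pow_succ, Function.iterate_one]
      exact mul_le_mul (ih _) (hB v) (norm_nonneg _) (by positivity)
  set M : ℕ → ℝ := fun n => ⨆ v : ℝ × ℝ, ‖fderiv ℝ (F^[n]) v‖ with hM
  have hbdd : ∀ n, BddAbove (range fun v : ℝ × ℝ => ‖fderiv ℝ (F^[n]) v‖) := fun n =>
    ⟨B ^ n, by rintro _ ⟨v, rfl⟩; exact hbd n v⟩
  have hle : ∀ n v, ‖fderiv ℝ (F^[n]) v‖ ≤ M n := fun n v => le_ciSup (hbdd n) v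
  have hMc : ∀ n, c ^ n ≤ M n := fun n => by
    obtain ⟨v, hv⟩ := hlow n
    exact hv.trans (hle n v)
  have hM1 : ∀ n, 1 ≤ M n := fun n => (one_le_pow₀ hc).trans (hMc n)
  have hM0 : ∀ n, 0 < M n := fun n => lt_of_lt_of_le one_pos (hM1 n)
  have hMB : ∀ n, M n ≤ B ^ n := fun n => ciSup_le (hbd n)
  have hsub : Subadditive (fun n => Real.log (M n)) := by
    intro m n
    rw [← Real.log_mul (hM0 m).ne' (hM0 n).ne']
    apply Real.log_le_log (hM0 _)
    apply ciSup_le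
    intro v
    refine (hchain m n v).trans ?_
    exact mul_le_mul (hle m _) (hle n _) (norm_nonneg _) (hM0 m).le
  have hlb : BddBelow (range fun n : ℕ => Real.log (M n) / n) := by
    refine ⟨0, ?_⟩
    rintro _ ⟨n, rfl⟩
    exact div_nonneg (Real.log_nonneg (hM1 n)) (Nat.cast_nonneg n)
  have hlim := hsub.tendsto_lim hlb
  refine ⟨hsub.lim, hlim, ?_, ?_⟩
  · refine ge_of_tendsto hlim ?_
    filter_upwards [eventually_ge_atTop 1] with n hn
    have hn0 : (0 : ℝ) < n := by exact_mod_cast hn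
    rw [le_div_iff₀ hn0, mul_comm, ← Real.log_pow]
    exact Real.log_le_log (by positivity) (hMc n)
  · refine le_of_tendsto hlim ?_
    filter_upwards [eventually_ge_atTop 1] with n hn
    have hn0 : (0 : ℝ) < n := by exact_mod_cast hn
    rw [div_le_iff₀ hn0, mul_comm, ← Real.log_pow]
    exact Real.log_le_log (hM0 n) (hMB n)

end Pool.Agent.helper15.SD
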