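import Pool.Agent.helper15.SD.Torus

/-!
# States, one step of the dynamics, kicks and passes
-/

open Set Filter Topology

namespace Pool.Agent.helper15.SD

/-- The states near the saddle orbit: `a` is the unstable and `b` the stable coordinate. The phase
`e` is counted modulo `4`; for `e = 0` this is the point `(a, 1/2 + b)`. -/
noncomputable def St (e : ℕ) (a b : ℝ) : T2 :=
  match e % 4 with
  | 0 => proj (a, 1 / 2 + b)
  | 1 => proj (1 / 2 + b, -a)
  | 2 => proj (-a, 1 / 2 - b)
  | _ => proj (1 / 2 - b, a)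

theorem St_add_four (e : ℕ) (a b : ℝ) : St (e + 4) a b = St e a b := by
  unfold St; rw [Nat.add_mod_right]

theorem St_zero (a b : ℝ) : St 0 a b = proj (a, 1 / 2 + b) := rfl
theorem St_one (a b : ℝ) : St 1 a b = proj (1 / 2 + b, -a) := rfl
theorem St_two (a b : ℝ) : St 2 a b = proj (-a, 1 / 2 - b) := rfl
theorem St_three (a b : ℝ) : St 3 a b = proj (1 / 2 - b, a) := rfl

theorem St_two' (a b : ℝ) : St 2 a b = St 0 (-a) (-b) := by
  rw [St_two, St_zero, sub_eq_add_neg]

theorem St_three' (a b : ℝ) : St 3 a b = St 1 (-a) (-b) := by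
  rw [St_three, St_one, sub_eq_add_neg, neg_neg]

/-- States with the same phase are close if their coordinates are. -/
theorem dist_St_le (e : ℕ) (a b a' b' : ℝ) :
    dist (St e a b) (St e a' b') ≤ max |a - a'| |b - b'| := by
  unfold St
  have h1 : |(1 / 2 + b) - (1 / 2 + b')| = |b - b'| := by congr 1; ring
  have h2 : |(1 / 2 - b) - (1 / 2 - b')| = |b - b'| := by rw [abs_sub_comm]; congr 1; ring
  have h3 : |-a - -a'| = |a - a'| := by rw [abs_sub_comm]; congr 1; ring
  split
  · refine (dist_proj_le _ _).trans ?_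
    simp only [h1]; exact le_rfl
  · refine (dist_proj_le _ _).trans ?_
    simp only [h1, h3]; rw [max_comm]
  · refine (dist_proj_le _ _).trans ?_
    simp only [h2, h3]; exact le_rfl
  · refine (dist_proj_le _ _).trans ?_
    simp only [h2]; rw [max_comm]

/-- Uniqueness of the coordinates of a state of phase `0` (and of phase `1`). -/
theorem St_inj {e : ℕ} {a b a' b' : ℝ} (he : e = 0 ∨ e = 1) (ha : |a| < 1 / 2) (hb : |b| < 1 / 2)
    (ha' : |a'| < 1 / 2) (hb' : |b'| < 1 / 2) (h : St e a b = St e a' b') : a = a' ∧ b = b' := by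
  rw [abs_lt] at ha hb ha' hb'
  rcases he with rfl | rfl
  · rw [St_zero, St_zero, proj_eq_iff] at h
    obtain ⟨m, n, h1, h2⟩ := h
    simp only at h1 h2
    have hm : (m : ℝ) < 1 := by linarith [ha.1, ha'.2]
    have hm' : (-1 : ℝ) < m := by linarith [ha.2, ha'.1]
    have hn : (n : ℝ) < 1 := by linarith [hb.1, hb'.2]
    have hn' : (-1 : ℝ) < n := by linarith [hb.2, hb'.1]
    have e1 : m = 0 := by
      have : m < 1 := by exact_mod_cast hm
      have : -1 < m := by exact_mod_cast hm'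
      omega
    have e2 : n = 0 := by
      have : n < 1 := by exact_mod_cast hn
      have : -1 < n := by exact_mod_cast hn'
      omega
    subst e1; subst e2
    constructor
    · simp at h1; linarith
    · simp at h2; linarith
  · rw [St_one, St_one, proj_eq_iff] at h
    obtain ⟨m, n, h1, h2⟩ := h
    simp only at h1 h2
    have hn : (n : ℝ) < 1 := by linarith [ha.1, ha'.2]
    have hn' : (-1 : ℝ) < n := by linarith [ha.2, ha'.1]
    have hm : (m : ℝ) < 1 := by linarith [hb.1, hb'.2]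
    have hm' : (-1 : ℝ) < m := by linarith [hb.2, hb'.1]
    have e1 : m = 0 := by
      have : m < 1 := by exact_mod_cast hm
      have : -1 < m := by exact_mod_cast hm'
      omega
    have e2 : n = 0 := by
      have : n < 1 := by exact_mod_cast hn
      have : -1 < n := by exact_mod_cast hn'
      omega
    subst e1; subst e2
    constructor
    · simp at h2; linarith
    · simp at h1; linarith

/-- States of phases `0` and `1` are different. -/
theorem St_ne {a b a' b' : ℝ} (ha : |a| < 3 / 8) (hb : |b| < 1 / 8)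
    (ha' : |a'| < 3 / 8) (hb' : |b'| < 1 / 8) : St 0 a b ≠ St 1 a' b' := by
  intro h
  rw [St_zero, St_one, proj_eq_iff] at h
  obtain ⟨m, n, h1, h2⟩ := h
  simp only at h1 h2
  rw [abs_lt] at ha hb ha' hb'
  have hm : (m : ℝ) < 1 := by linarith [ha.1, hb'.2]
  have hm' : (0 : ℝ) < m := by linarith [ha.2, hb'.1]
  have h1' : m < 1 := by exact_mod_cast hm
  have h2' : 0 < m := by exact_mod_cast hm'
  omega

namespace Sys

variable {r : ℝ} (S : Sys r)

theorem a0_le : 2 / (5 * S.L) ≤ 1 / 2500 := by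
  have := S.hL
  rw [div_le_div_iff₀ (by linarith) (by norm_num)]
  linarith

theorem psi_small {a : ℝ} (h : |a| ≤ 1 / 5) : S.psi a = 0 := by
  rw [abs_le] at h
  rcases le_or_gt 0 a with h0 | h0
  · rw [S.psi_of_mem h0 (by linarith), S.DD.left a (by linarith)]; ring
  · have := S.psi_int a 1
    rw [← this, S.psi_of_mem (by push_cast; linarith) (by push_cast; linarith),
      S.DD.right _ (by push_cast; linarith)]; ring

theorem psi_mid {b : ℝ} (h : |b| ≤ 1 / 5) : S.psi (1 / 2 + b) = 0 := by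
  rw [abs_le] at h
  rw [S.psi_of_mem (by linarith) (by linarith), S.DD.right _ (by linarith)]; ring

theorem G_half {b : ℝ} (h : |b| ≤ 3 / 10) : S.GD.G (1 / 2 + b) = 1 / 2 + b / S.L ^ 2 := by
  rw [abs_le] at h
  rw [S.GD.lin1 _ (by linarith) (by linarith)]; ring

/-- One step of the linear dynamics. -/
theorem f_St {e : ℕ} {a b : ℝ} (ha : |a| ≤ 2 / (5 * S.L)) (hb : |b| ≤ 1 / 5) :
    S.f (St e a b) = St (e + 1) (S.L * a) (b / S.L ^ 2) := by
  have ha5 : |a| ≤ 1 / 5 := ha.trans (S.a0_le.trans (by norm_num))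
  have ha5' : |-a| ≤ 1 / 5 := by rwa [abs_neg]
  have hb3 : |b| ≤ 3 / 10 := hb.trans (by norm_num)
  have hb' : |-b| ≤ 1 / 5 := by rwa [abs_neg]
  have hb3' : |-b| ≤ 3 / 10 := by rwa [abs_neg]
  have key : ∀ k, k < 4 → S.f (St k a b) = St (k + 1) (S.L * a) (b / S.L ^ 2) := by
    intro k hk
    interval_cases k
    · rw [St_zero, S.f_proj, St_one]
      unfold FF
      simp only
      rw [S.psi_small ha5, add_zero, S.G_half hb3, S.GD.lin0 a ha]
    · rw [St_one, S.f_proj, St_two]
      unfold FF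
      simp only
      rw [S.psi_mid hb, add_zero, S.GD.odd, S.GD.lin0 a ha, S.G_half hb3, proj_eq_iff]
      refine ⟨0, 1, by simp, ?_⟩
      push_cast; ring
    · rw [St_two, S.f_proj, St_three]
      unfold FF
      simp only
      rw [S.psi_small ha5', add_zero, sub_eq_add_neg, S.G_half hb3', S.GD.odd,
        S.GD.lin0 a ha, neg_neg, neg_div, ← sub_eq_add_neg]
    · rw [St_three, S.f_proj, St_add_four, St_zero]
      unfold FF
      simp only
      rw [sub_eq_add_neg, S.psi_mid hb', add_zero, S.GD.lin0 a ha, S.G_half hb3', proj_eq_iff]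
      refine ⟨0, 1, by simp, ?_⟩
      push_cast; ring
  have h1 : St e a b = St (e % 4) a b := by unfold St; rw [Nat.mod_mod]
  have h2 : St (e + 1) (S.L * a) (b / S.L ^ 2) = St (e % 4 + 1) (S.L * a) (b / S.L ^ 2) := by
    unfold St; rw [Nat.mod_add_mod]
  rw [h1, h2]
  exact key _ (Nat.mod_lt _ (by norm_num))

/-- The kick. -/
theorem f_kick {u w : ℝ} (hu : u ∈ Icc (1 / 5 : ℝ) (3 / 10))
    (ht : |w + S.DD.d u| ≤ 2 / (5 * S.L)) :
    S.f (St 0 u w) = St 0 (S.L * (w + S.DD.d u)) ((1 / 2 - u) / S.L ^ 2) := by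
  obtain ⟨h1, h2⟩ := hu
  rw [St_zero, S.f_proj, St_zero]
  unfold FF
  simp only
  rw [S.psi_of_mem (by linarith) (by linarith), S.GD.lin1 u h1 (by linarith)]
  have e : 1 / 2 + w + (S.DD.d u - 1 / 2) = w + S.DD.d u := by ring
  rw [e, S.GD.lin0 _ ht, proj_eq_iff]
  refine ⟨0, 1, by simp, ?_⟩
  push_cast; ring

/-- The general formula for one step from a kick state. -/
theorem f_kick_gen {u w : ℝ} (hu : u ∈ Icc (1 / 5 : ℝ) (3 / 10)) :
    S.f (St 0 u w) = proj (S.GD.G (w + S.DD.d u), 1 / 2 + (1 / 2 - u) / S.L ^ 2) := by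
  obtain ⟨h1, h2⟩ := hu
  rw [St_zero, S.f_proj]
  unfold FF
  simp only
  rw [S.psi_of_mem (by linarith) (by linarith), S.GD.lin1 u h1 (by linarith)]
  have e : 1 / 2 + w + (S.DD.d u - 1 / 2) = w + S.DD.d u := by ring
  rw [e, proj_eq_iff]
  refine ⟨0, 1, by simp, ?_⟩
  push_cast; ring

/-- Iterates of the linear dynamics. -/
theorem iterate_St {e : ℕ} {a b : ℝ} (k : ℕ) (ha : S.L ^ k * |a| ≤ 2 / 5) (hb : |b| ≤ 1 / 5) :
    S.f^[k] (St e a b) = St (e + k) (S.L ^ k * a) (b / S.L ^ (2 * k)) := by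
  have hL := S.L_pos
  have hL1 : 1 ≤ S.L := by linarith [S.hL]
  induction k with
  | zero => simp
  | succ k ih =>
    have h1 : S.L ^ k * |a| ≤ 2 / 5 := by
      refine le_trans ?_ ha
      exact mul_le_mul_of_nonneg_right (pow_le_pow_right₀ hL1 (Nat.le_succ k)) (abs_nonneg _)
    rw [Function.iterate_succ_apply', ih h1, S.f_St]
    · rw [add_assoc]
      congr 1
      · rw [pow_succ]; ring
      · rw [div_div, ← pow_add]; congr 1
    · rw [abs_mul, abs_of_pos (pow_pos hL k), le_div_iff₀ (by positivity)]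
      rw [pow_succ] at ha
      nlinarith [ha]
    · rw [abs_div, abs_of_pos (pow_pos hL _)]
      exact (div_le_self (abs_nonneg _) (one_le_pow₀ hL1)).trans hb

/-- A pass: a kick followed by `m - 1` linear steps. -/
theorem iterate_kick {u w : ℝ} (hu : u ∈ Icc (1 / 5 : ℝ) (3 / 10)) (m : ℕ)
    (ht : S.L ^ (m + 1) * |w + S.DD.d u| ≤ 2 / 5) :
    S.f^[m + 1] (St 0 u w) =
      St m (S.L ^ (m + 1) * (w + S.DD.d u)) ((1 / 2 - u) / S.L ^ (2 * (m + 1))) := by
  have hL := S.L_pos
  have hL1 : 1 ≤ S.L := by linarith [S.hL]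
  obtain ⟨h1, h2⟩ := id hu
  have h0 : |w + S.DD.d u| ≤ 2 / (5 * S.L) := by
    rw [le_div_iff₀ (by positivity)]
    have : S.L * |w + S.DD.d u| ≤ S.L ^ (m + 1) * |w + S.DD.d u| := by
      gcongr
      exact le_self_pow₀ hL1 (by omega)
    nlinarith
  rw [Function.iterate_succ_apply, S.f_kick hu h0, S.iterate_St m]
  · congr 1
    · omega
    · rw [pow_succ]; ring
    · rw [div_div, ← pow_add]; congr 2; omega
  · rw [abs_mul, abs_of_pos hL, ← mul_assoc, ← pow_succ]; exact ht
  · rw [abs_div, abs_of_pos (pow_pos hL _), abs_of_nonneg (by linarith)]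
    have hL2 : (1000 : ℝ) ≤ S.L ^ 2 := by nlinarith [S.hL]
    rw [div_le_iff₀ (by positivity)]
    nlinarith

end Sys

end Pool.Agent.helper15.SD
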