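import Pool.Agent.helper15.SD.PsiHol
import Pool.Agent.helper15.SD.FCr
import Pool.Agent.helper15.SD.GrowthGen
import Pool.Agent.helper15.SD.Step

/-! SD-M15: growth rates of the lifts of `S.f` and of its inverse. -/

open Set Filter Topology

namespace Pool.Agent.helper15.SD

namespace Sys

variable {r : ℝ} (S : Sys r)

namespace GrowthAux

theorem differentiable_G : Differentiable ℝ S.GD.G :=
  (S.GD.G_smooth 1).differentiable (by norm_num)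

theorem differentiable_Gi : Differentiable ℝ S.GD.Gi :=
  (S.GD.Gi_smooth 1).differentiable (by norm_num)

/-- the derivative of the lift -/
noncomputable def DF (v : ℝ × ℝ) : (ℝ × ℝ) →L[ℝ] (ℝ × ℝ) :=
  ((deriv S.GD.G (v.2 + S.psi v.1)) •
      (ContinuousLinearMap.snd ℝ ℝ ℝ + (deriv S.psi v.1) • ContinuousLinearMap.fst ℝ ℝ ℝ)).prod
    (-((deriv S.GD.G v.1) • ContinuousLinearMap.fst ℝ ℝ ℝ))

theorem DF_apply (v ξ : ℝ × ℝ) :
    DF S v ξ = (deriv S.GD.G (v.2 + S.psi v.1) * (ξ.2 + deriv S.psi v.1 * ξ.1),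
      -(deriv S.GD.G v.1 * ξ.1)) := rfl

theorem hasFDerivAt_FF (v : ℝ × ℝ) : HasFDerivAt S.FF (DF S v) v := by
  have h1 : HasFDerivAt (fun w : ℝ × ℝ => S.psi w.1)
      ((deriv S.psi v.1) • ContinuousLinearMap.fst ℝ ℝ ℝ) v := by
    have := (S.differentiable_psi v.1).hasDerivAt
    exact this.comp_hasFDerivAt v (hasFDerivAt_fst (𝕜 := ℝ) (p := v))
  have h2 : HasFDerivAt (fun w : ℝ × ℝ => w.2 + S.psi w.1)
      (ContinuousLinearMap.snd ℝ ℝ ℝ + (deriv S.psi v.1) • ContinuousLinearMap.fst ℝ ℝ ℝ) v :=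
    (hasFDerivAt_snd (𝕜 := ℝ) (p := v)).add h1
  have h3 : HasFDerivAt (fun w : ℝ × ℝ => S.GD.G (w.2 + S.psi w.1))
      ((deriv S.GD.G (v.2 + S.psi v.1)) •
      (ContinuousLinearMap.snd ℝ ℝ ℝ + (deriv S.psi v.1) • ContinuousLinearMap.fst ℝ ℝ ℝ)) v :=
    ((differentiable_G S) (v.2 + S.psi v.1)).hasDerivAt.comp_hasFDerivAt v h2
  have h4 : HasFDerivAt (fun w : ℝ × ℝ => S.GD.G w.1)
      ((deriv S.GD.G v.1) • ContinuousLinearMap.fst ℝ ℝ ℝ) v :=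
    ((differentiable_G S) v.1).hasDerivAt.comp_hasFDerivAt v (hasFDerivAt_fst (𝕜 := ℝ) (p := v))
  exact h3.prodMk h4.neg

theorem differentiable_FF : Differentiable ℝ S.FF :=
  fun v => (hasFDerivAt_FF S v).differentiableAt

theorem differentiable_FF' : Differentiable ℝ S.FF' := by
  have hG := differentiable_Gi S
  have hp := S.differentiable_psi
  unfold FF'
  fun_prop

theorem fderiv_FF (v : ℝ × ℝ) : fderiv ℝ S.FF v = DF S v := (hasFDerivAt_FF S v).fderiv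

theorem norm_DF_le (v : ℝ × ℝ) : ‖fderiv ℝ S.FF v‖ ≤ 4 * S.Cd * S.L := by
  have hL := S.L_pos
  have hC := S.hCd
  rw [fderiv_FF]
  refine ContinuousLinearMap.opNorm_le_bound _ (by positivity) (fun ξ => ?_)
  rw [DF_apply, Prod.norm_mk]
  have h1 : |ξ.1| ≤ ‖ξ‖ := norm_fst_le ξ
  have h2 : |ξ.2| ≤ ‖ξ‖ := norm_snd_le ξ
  have hn : 0 ≤ ‖ξ‖ := norm_nonneg ξ
  have g1 := S.GD.deriv_le (v.2 + S.psi v.1)
  have g2 := S.GD.deriv_le v.1
  have p1 := S.abs_deriv_psi_le v.1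
  refine max_le ?_ ?_
  · rw [Real.norm_eq_abs, abs_mul]
    have h3 : |ξ.2 + deriv S.psi v.1 * ξ.1| ≤ 2 * S.Cd * ‖ξ‖ := by
      refine (abs_add_le _ _).trans ?_
      rw [abs_mul]
      have : |deriv S.psi v.1| * |ξ.1| ≤ S.Cd * ‖ξ‖ := by gcongr
      nlinarith
    calc |deriv S.GD.G (v.2 + S.psi v.1)| * |ξ.2 + deriv S.psi v.1 * ξ.1|
        ≤ (2 * S.L) * (2 * S.Cd * ‖ξ‖) := by gcongr
      _ = _ := by ring
  · rw [norm_neg, Real.norm_eq_abs, abs_mul]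
    calc |deriv S.GD.G v.1| * |ξ.1| ≤ (2 * S.L) * ‖ξ‖ := by gcongr
      _ ≤ 4 * S.Cd * S.L * ‖ξ‖ := by
        have : 2 * S.L ≤ 4 * S.Cd * S.L := by nlinarith
        gcongr

/-! derivatives at the saddle orbit -/

theorem a0_pos : 0 < 2 / (5 * S.L) := by have := S.L_pos; positivity

theorem deriv_G_zero : deriv S.GD.G 0 = S.L := by
  have h : S.GD.G =ᶠ[𝓝 0] fun x => S.L * x := by
    filter_upwards [Metric.ball_mem_nhds (0:ℝ) (a0_pos S)] with x hx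
    rw [Metric.mem_ball, dist_zero_right, Real.norm_eq_abs] at hx
    exact S.GD.lin0 x hx.le
  rw [h.deriv_eq]
  simp

theorem deriv_G_half : deriv S.GD.G (1 / 2) = 1 / S.L ^ 2 := by
  have h : S.GD.G =ᶠ[𝓝 (1 / 2)] fun x => 1 / 2 + (x - 1 / 2) / S.L ^ 2 := by
    filter_upwards [Icc_mem_nhds (show (1 / 5 : ℝ) < 1 / 2 by norm_num)
      (show (1 / 2 : ℝ) < 4 / 5 by norm_num)] with x hx
    exact S.GD.lin1 x hx.1 hx.2
  rw [h.deriv_eq]
  simp [deriv_const_add, deriv_div_const]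

theorem deriv_G_neg (x : ℝ) : deriv S.GD.G (-x) = deriv S.GD.G x := by
  have h : S.GD.G = fun x => -S.GD.G (-x) := by
    ext x; rw [S.GD.odd, neg_neg]
  have h1 : HasDerivAt (fun x => -S.GD.G (-x)) (deriv S.GD.G (-x)) x := by
    have h2 := (((differentiable_G S) (-x)).hasDerivAt.comp x (hasDerivAt_neg x)).neg
    rw [mul_neg_one, neg_neg] at h2
    exact h2
  rw [← h] at h1
  exact h1.deriv.symm

theorem psi_near {a : ℝ} (ha : a = 0 ∨ a = 1 / 2 ∨ a = -1 / 2) :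
    S.psi =ᶠ[𝓝 a] fun _ => 0 := by
  have hb : Metric.ball a (1 / 5) ∈ 𝓝 a := Metric.ball_mem_nhds a (by norm_num)
  filter_upwards [hb] with x hx
  rw [Metric.mem_ball, Real.dist_eq] at hx
  rcases ha with rfl | rfl | rfl
  · rw [sub_zero] at hx
    exact S.psi_small hx.le
  · have := S.psi_mid (b := x - 1 / 2) hx.le
    rwa [add_sub_cancel] at this
  · have h1 := S.psi_mid (b := x - -1 / 2) hx.le
    have h2 := S.psi_int x 1
    push_cast at h2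
    rw [← h2, ← h1]
    congr 1; ring

theorem deriv_psi {a : ℝ} (ha : a = 0 ∨ a = 1 / 2 ∨ a = -1 / 2) : deriv S.psi a = 0 := by
  rw [(psi_near S ha).deriv_eq]; simp

theorem psi_val {a : ℝ} (ha : a = 0 ∨ a = 1 / 2 ∨ a = -1 / 2) : S.psi a = 0 :=
  (psi_near S ha).self_of_nhds

theorem G_zero : S.GD.G 0 = 0 := by
  rw [S.GD.lin0 0 (by rw [abs_zero]; exact (a0_pos S).le)]; ring

theorem G_one_half : S.GD.G (1 / 2) = 1 / 2 := by
  rw [S.GD.lin1 _ (by norm_num) (by norm_num)]; simp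

theorem G_neg_half : S.GD.G (-1 / 2) = -1 / 2 := by
  have : (-1 / 2 : ℝ) = -(1 / 2) := by norm_num
  rw [this, S.GD.odd, G_one_half]

theorem deriv_G_neg_half : deriv S.GD.G (-1 / 2) = 1 / S.L ^ 2 := by
  have : (-1 / 2 : ℝ) = -(1 / 2) := by norm_num
  rw [this, deriv_G_neg, deriv_G_half]

/-- the points of the saddle orbit, even and odd times -/
def Ev (v : ℝ × ℝ) : Prop := v.1 = 0 ∧ (v.2 = 1 / 2 ∨ v.2 = -1 / 2)
def Od (v : ℝ × ℝ) : Prop := (v.1 = 1 / 2 ∨ v.1 = -1 / 2) ∧ v.2 = 0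

theorem FF_Ev {v : ℝ × ℝ} (h : Ev v) : Od (S.FF v) := by
  obtain ⟨h1, h2⟩ := h
  unfold FF Od
  rw [h1, psi_val S (Or.inl rfl), G_zero, add_zero]
  refine ⟨?_, by simp⟩
  rcases h2 with h2 | h2
  · left; rw [h2]; exact G_one_half S
  · right; rw [h2]; exact G_neg_half S

theorem FF_Od {v : ℝ × ℝ} (h : Od v) : Ev (S.FF v) := by
  obtain ⟨h1, h2⟩ := h
  unfold FF Ev
  rw [h2, psi_val S (Or.inr h1), zero_add, G_zero]
  refine ⟨rfl, ?_⟩
  rcases h1 with h1 | h1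
  · right; rw [h1]; show -S.GD.G (1 / 2) = -1 / 2; rw [G_one_half]; norm_num
  · left; rw [h1]; show -S.GD.G (-1 / 2) = 1 / 2; rw [G_neg_half]; norm_num

theorem DF_Ev {v : ℝ × ℝ} (h : Ev v) (ξ : ℝ × ℝ) :
    fderiv ℝ S.FF v ξ = (ξ.2 / S.L ^ 2, -(S.L * ξ.1)) := by
  obtain ⟨h1, h2⟩ := h
  rw [fderiv_FF, DF_apply, h1, psi_val S (Or.inl rfl), deriv_psi S (Or.inl rfl), add_zero,
    deriv_G_zero]
  have : deriv S.GD.G v.2 = 1 / S.L ^ 2 := by
    rcases h2 with h2 | h2 <;> rw [h2]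
    · exact deriv_G_half S
    · exact deriv_G_neg_half S
  rw [this]
  ext
  · simp; ring
  · simp

theorem DF_Od {v : ℝ × ℝ} (h : Od v) (ξ : ℝ × ℝ) :
    fderiv ℝ S.FF v ξ = (S.L * ξ.2, -(ξ.1 / S.L ^ 2)) := by
  obtain ⟨h1, h2⟩ := h
  rw [fderiv_FF, DF_apply, h2, psi_val S (Or.inr h1), deriv_psi S (Or.inr h1), add_zero,
    deriv_G_zero]
  have : deriv S.GD.G v.1 = 1 / S.L ^ 2 := by
    rcases h1 with h1 | h1 <;> rw [h1]
    · exact deriv_G_half S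
    · exact deriv_G_neg_half S
  rw [this]
  ext
  · simp
  · simp; ring

theorem fderiv_iterate_succ {F : ℝ × ℝ → ℝ × ℝ} (hF : Differentiable ℝ F) (n : ℕ) (v ξ : ℝ × ℝ) :
    fderiv ℝ (F^[n + 1]) v ξ = fderiv ℝ F (F^[n] v) (fderiv ℝ (F^[n]) v ξ) := by
  rw [Function.iterate_succ', fderiv_comp v (hF _) ((hF.iterate n) v)]
  rfl

theorem expand (n : ℕ) : ∀ v : ℝ × ℝ, v = (0, 1 / 2) →
    (Ev (S.FF^[n] v) ∧ (fderiv ℝ (S.FF^[n]) v (1, 0)).2 = 0 ∧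
      |(fderiv ℝ (S.FF^[n]) v (1, 0)).1| = S.L ^ n) ∨
    (Od (S.FF^[n] v) ∧ (fderiv ℝ (S.FF^[n]) v (1, 0)).1 = 0 ∧
      |(fderiv ℝ (S.FF^[n]) v (1, 0)).2| = S.L ^ n) := by
  intro v hv
  have hL := S.L_pos
  induction n with
  | zero =>
    left
    subst hv
    refine ⟨⟨rfl, Or.inl rfl⟩, ?_, ?_⟩
    · simp
    · simp
  | succ n ih =>
    rcases ih with ⟨h1, h2, h3⟩ | ⟨h1, h2, h3⟩
    · right
      rw [fderiv_iterate_succ (differentiable_FF S), DF_Ev S h1, Function.iterate_succ_apply']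
      refine ⟨FF_Ev S h1, ?_, ?_⟩
      · simp only; rw [h2]; simp
      · simp only; rw [abs_neg, abs_mul, h3, abs_of_pos hL, pow_succ]; ring
    · left
      rw [fderiv_iterate_succ (differentiable_FF S), DF_Od S h1, Function.iterate_succ_apply']
      refine ⟨FF_Od S h1, ?_, ?_⟩
      · simp only; rw [h2]; simp
      · simp only; rw [abs_mul, h3, abs_of_pos hL, pow_succ]; ring

theorem contract (n : ℕ) : ∀ v : ℝ × ℝ, v = (0, 1 / 2) →
    (Ev (S.FF^[n] v) ∧ (fderiv ℝ (S.FF^[n]) v (0, 1)).1 = 0 ∧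
      |(fderiv ℝ (S.FF^[n]) v (0, 1)).2| = (1 / S.L ^ 2) ^ n) ∨
    (Od (S.FF^[n] v) ∧ (fderiv ℝ (S.FF^[n]) v (0, 1)).2 = 0 ∧
      |(fderiv ℝ (S.FF^[n]) v (0, 1)).1| = (1 / S.L ^ 2) ^ n) := by
  intro v hv
  have hL := S.L_pos
  induction n with
  | zero =>
    left
    subst hv
    refine ⟨⟨rfl, Or.inl rfl⟩, ?_, ?_⟩
    · simp
    · simp
  | succ n ih =>
    have hp : |S.L ^ 2| = S.L ^ 2 := abs_of_pos (by positivity)
    rcases ih with ⟨h1, h2, h3⟩ | ⟨h1, h2, h3⟩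
    · right
      rw [fderiv_iterate_succ (differentiable_FF S), DF_Ev S h1, Function.iterate_succ_apply']
      refine ⟨FF_Ev S h1, ?_, ?_⟩
      · simp only; rw [h2]; simp
      · simp only; rw [abs_div, h3, hp, pow_succ]; ring
    · left
      rw [fderiv_iterate_succ (differentiable_FF S), DF_Od S h1, Function.iterate_succ_apply']
      refine ⟨FF_Od S h1, ?_, ?_⟩
      · simp only; rw [h2]; simp
      · simp only; rw [abs_neg, abs_div, h3, hp, pow_succ]; ring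

theorem low (n : ℕ) : ∃ v, S.L ^ n ≤ ‖fderiv ℝ (S.FF^[n]) v‖ := by
  refine ⟨(0, 1 / 2), ?_⟩
  have h1 : ‖fderiv ℝ (S.FF^[n]) (0, 1 / 2) (1, 0)‖ ≤ ‖fderiv ℝ (S.FF^[n]) (0, 1 / 2)‖ := by
    have := (fderiv ℝ (S.FF^[n]) (0, 1 / 2)).le_opNorm ((1, 0) : ℝ × ℝ)
    simpa [Prod.norm_mk] using this
  refine le_trans ?_ h1
  rcases expand S n _ rfl with ⟨_, _, h⟩ | ⟨_, _, h⟩
  · rw [← h, ← Real.norm_eq_abs]
    exact norm_fst_le (fderiv ℝ (S.FF^[n]) (0, 1 / 2) (1, 0))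
  · rw [← h, ← Real.norm_eq_abs]
    exact norm_snd_le (fderiv ℝ (S.FF^[n]) (0, 1 / 2) (1, 0))

theorem low' (n : ℕ) : ∃ v, S.L ^ n ≤ ‖fderiv ℝ (S.FF'^[n]) v‖ := by
  have hL := S.L_pos
  have hL1 : 1 ≤ S.L := by linarith [S.hL]
  refine ⟨S.FF^[n] (0, 1 / 2), ?_⟩
  set v : ℝ × ℝ := (0, 1 / 2) with hv
  set ξ := fderiv ℝ (S.FF^[n]) v (0, 1) with hξ
  have hnorm : ‖ξ‖ = (1 / S.L ^ 2) ^ n := by
    rcases contract S n v hv with ⟨_, h1, h2⟩ | ⟨_, h1, h2⟩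
    · rw [Prod.norm_def, h1, norm_zero, Real.norm_eq_abs, h2]
      exact max_eq_right (by positivity)
    · rw [Prod.norm_def, h1, norm_zero, Real.norm_eq_abs, h2]
      exact max_eq_left (by positivity)
  have hcomp : S.FF'^[n] ∘ S.FF^[n] = id := by
    ext1 w
    exact Function.LeftInverse.iterate (f := S.FF) (g := S.FF') S.FF'_FF n w
  have hd : fderiv ℝ (S.FF'^[n]) (S.FF^[n] v) ξ = (0, 1) := by
    have h1 := fderiv_comp v (((differentiable_FF' S).iterate n) (S.FF^[n] v))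
      (((differentiable_FF S).iterate n) v)
    rw [hcomp, fderiv_id] at h1
    have h2 := congrArg (fun T : (ℝ × ℝ) →L[ℝ] (ℝ × ℝ) => T (0, 1)) h1
    simp only [ContinuousLinearMap.coe_comp, Function.comp_apply] at h2
    rw [hξ, ← h2]; rfl
  have h3 := (fderiv ℝ (S.FF'^[n]) (S.FF^[n] v)).le_opNorm ξ
  rw [hd, hnorm] at h3
  have h4 : ‖((0 : ℝ), (1 : ℝ))‖ = 1 := by simp [Prod.norm_mk]
  rw [h4, div_pow, one_pow, ← pow_mul, mul_one_div, le_div_iff₀ (by positivity), one_mul] at h3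
  refine le_trans ?_ h3
  exact pow_le_pow_right₀ hL1 (by omega)

end GrowthAux

open GrowthAux

theorem growth_FF : ∃ l : ℝ, IsGrowthRate S.FF l ∧ Real.log S.L ≤ l ∧
    l ≤ Real.log (4 * S.Cd * S.L) :=
  exists_growth S.FF (differentiable_FF S) _ (norm_DF_le S) S.L (by linarith [S.hL]) (low S)

theorem growth_FF' : ∃ l : ℝ, IsGrowthRate S.FF' l ∧ Real.log S.L ≤ l := by
  obtain ⟨B, hB⟩ := S.exists_fderiv_FF'_le
  obtain ⟨l, h1, h2, _⟩ := exists_growth S.FF' (differentiable_FF' S) B hB S.L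
    (by linarith [S.hL]) (low' S)
  exact ⟨l, h1, h2⟩

end Sys

end Pool.Agent.helper15.SD
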