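import Pool.Agent.helper15.SD.Core

/-!
# The sink and the source (helper78)
-/

open Set Filter Topology

namespace Pool.Agent.helper15.SD

theorem exists_rep (a : UnitAddCircle) : ∃ x : ℝ, |x| ≤ 1 / 2 ∧ (x : UnitAddCircle) = a ∧
    ‖a‖ = |x| := by
  obtain ⟨y, rfl⟩ := QuotientAddGroup.mk_surjective a
  have h : ((y - round y : ℝ) : UnitAddCircle) = QuotientAddGroup.mk y := by
    rw [QuotientAddGroup.eq, AddSubgroup.mem_zmultiples_iff]
    exact ⟨round y, by simp⟩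
  refine ⟨y - round y, abs_sub_round y, h, ?_⟩
  rw [← h, norm_coe_of_abs_le (abs_sub_round y)]

/-- coordinates centred at the sink -/
noncomputable def Nk (a b : ℝ) : T2 := proj (1 / 2 + a, 1 / 2 + b)

theorem dist_Nk {a b : ℝ} (ha : |a| ≤ 1 / 2) (hb : |b| ≤ 1 / 2) :
    dist (Nk a b) sink = max |a| |b| := by
  unfold Nk sink proj
  rw [Prod.dist_eq]
  simp only
  rw [dist_eq_norm, dist_eq_norm, ← AddCircle.coe_sub, ← AddCircle.coe_sub, add_sub_cancel_left,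
    add_sub_cancel_left, norm_coe_of_abs_le ha, norm_coe_of_abs_le hb]

theorem dist_proj_src {x z : ℝ} (hx : |x| ≤ 1 / 2) (hz : |z| ≤ 1 / 2) :
    dist (proj (x, z)) src = max |x| |z| := by
  unfold src proj
  rw [Prod.dist_eq]
  simp only
  rw [dist_eq_norm, dist_eq_norm, ← AddCircle.coe_sub, ← AddCircle.coe_sub, sub_zero, sub_zero,
    norm_coe_of_abs_le hx, norm_coe_of_abs_le hz]

theorem exists_Nk (P : T2) : ∃ a b : ℝ, |a| ≤ 1 / 2 ∧ |b| ≤ 1 / 2 ∧ P = Nk a b := by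
  obtain ⟨a, ha, ha', -⟩ := exists_rep (P.1 - ((1 / 2 : ℝ) : UnitAddCircle))
  obtain ⟨b, hb, hb', -⟩ := exists_rep (P.2 - ((1 / 2 : ℝ) : UnitAddCircle))
  refine ⟨a, b, ha, hb, ?_⟩
  unfold Nk proj
  ext
  · simp only
    rw [AddCircle.coe_add, ha']; abel
  · simp only
    rw [AddCircle.coe_add, hb']; abel

theorem exists_proj (P : T2) : ∃ x z : ℝ, |x| ≤ 1 / 2 ∧ |z| ≤ 1 / 2 ∧ P = proj (x, z) ∧
    ‖P.1‖ = |x| ∧ ‖P.2‖ = |z| := by
  obtain ⟨a, ha, ha', h1⟩ := exists_rep P.1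
  obtain ⟨b, hb, hb', h2⟩ := exists_rep P.2
  refine ⟨a, b, ha, hb, ?_, h1, h2⟩
  unfold proj
  ext
  · exact ha'.symm
  · exact hb'.symm

/-- a sequence with `d n = d (n+1) / c`, `c > 1`, converging to `0` vanishes -/
theorem eq_zero_of_contract {d : ℕ → ℝ} {c : ℝ} (hc : 1 < c) (hd : ∀ n, 0 ≤ d n)
    (hl : Tendsto d atTop (𝓝 0)) {δ : ℝ} (hδ : 0 < δ)
    (h : ∀ n, d (n + 1) ≤ δ → d n = d (n + 1) / c) : ∃ n, d n = 0 := by
  obtain ⟨n, hn⟩ := eventually_atTop.1 (hl.eventually (gt_mem_nhds hδ))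
  refine ⟨n, ?_⟩
  have hk : ∀ k, d n ≤ δ / c ^ k := by
    have : ∀ k, d n = d (n + k) / c ^ k := by
      intro k
      induction k with
      | zero => simp
      | succ k ih =>
        rw [ih, h (n + k) (hn _ (by omega)).le, div_div, pow_succ, mul_comm c, ← add_assoc]
    intro k
    rw [this k]
    gcongr
    exact (hn _ (by omega)).le
  have h0 : Tendsto (fun k : ℕ => δ / c ^ k) atTop (𝓝 0) :=
    tendsto_const_nhds.div_atTop (tendsto_pow_atTop_atTop_of_one_lt hc)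
  exact le_antisymm (ge_of_tendsto' h0 hk) (hd n)

namespace Sys

variable {r : ℝ} (S : Sys r)

theorem f_Nk {a b : ℝ} (ha : |a| ≤ 1 / 5) (hb : |b| ≤ 3 / 10) :
    S.f (Nk a b) = Nk (b / S.L ^ 2) (-a / S.L ^ 2) := by
  unfold Nk
  rw [S.f_proj]
  unfold FF
  simp only
  rw [S.psi_mid ha, add_zero, S.G_half hb, S.G_half (ha.trans (by norm_num)), proj_eq_iff]
  refine ⟨0, 1, by simp, ?_⟩
  push_cast; ring

theorem f_sink : S.f sink = sink := by
  have h := S.f_Nk (a := 0) (b := 0) (by norm_num) (by norm_num)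
  have e : sink = Nk 0 0 := by unfold sink Nk; simp
  rw [e, h]; simp

theorem Gi_small {z : ℝ} (hz : |z| ≤ 2 / 5) : S.GD.Gi z = z / S.L := by
  apply S.GD.mono.injective
  have hL := S.L_pos
  rw [S.GD.G_Gi, S.GD.lin0]
  · field_simp
  · rw [abs_div, abs_of_pos hL, div_le_div_iff₀ hL (by positivity)]
    nlinarith

theorem f_symm_small {x z : ℝ} (hx : |x| ≤ 2 / 5) (hz : |z| ≤ 2 / 5) :
    S.f.symm (proj (x, z)) = proj (-z / S.L, x / S.L) := by
  have hL := S.L_pos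
  have hL' := S.hL
  rw [S.f_symm_proj]
  unfold FF'
  simp only
  rw [S.Gi_small hx, S.Gi_small hz, S.psi_small, sub_zero, neg_div]
  rw [abs_neg, abs_div, abs_of_pos hL, div_le_iff₀ hL]
  linarith

theorem f_symm_src : S.f.symm src = src := by
  unfold src
  rw [S.f_symm_small (by norm_num) (by norm_num)]
  simp

theorem f_src : S.f src = src := by
  have h := congrArg S.f S.f_symm_src
  rw [S.f.apply_symm_apply] at h
  exact h.symm

theorem one_lt_L : 1 < S.L := by linarith [S.hL]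

theorem one_lt_L2 : 1 < S.L ^ 2 := one_lt_pow₀ S.one_lt_L (by norm_num)

theorem iterate_Nk (n : ℕ) {a b c : ℝ} (ha : |a| ≤ c) (hb : |b| ≤ c) (hc : c ≤ 1 / 5) :
    ∃ a' b' : ℝ, S.f^[n] (Nk a b) = Nk a' b' ∧ |a'| ≤ c / (S.L ^ 2) ^ n ∧
      |b'| ≤ c / (S.L ^ 2) ^ n := by
  have hc0 : 0 ≤ c := (abs_nonneg a).trans ha
  induction n with
  | zero => exact ⟨a, b, rfl, by simpa using ha, by simpa using hb⟩
  | succ n ih =>
    obtain ⟨a', b', h1, h2, h3⟩ := ih
    have hL2 := S.one_lt_L2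
    have h5 : c / (S.L ^ 2) ^ n ≤ 1 / 5 :=
      (div_le_self hc0 (one_le_pow₀ hL2.le)).trans hc
    refine ⟨b' / S.L ^ 2, -a' / S.L ^ 2, ?_, ?_, ?_⟩
    · rw [Function.iterate_succ_apply', h1, S.f_Nk (h2.trans h5) (h3.trans (h5.trans (by norm_num)))]
    · rw [abs_div, abs_of_pos (by linarith : (0:ℝ) < S.L ^ 2), pow_succ (S.L ^ 2) n, ← div_div]
      gcongr
    · rw [abs_div, abs_neg, abs_of_pos (by linarith : (0:ℝ) < S.L ^ 2), pow_succ (S.L ^ 2) n,
        ← div_div]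
      gcongr

/-- the shear vanishes outside the strip -/
theorem psi_eq_zero {x : ℝ} (h : ¬ InSig (proj (x, 0))) : S.psi x = 0 := by
  unfold psi
  rcases le_or_gt (Int.fract x) (23 / 100) with h1 | h1
  · rw [S.DD.left _ h1]; ring
  rcases le_or_gt (28 / 100) (Int.fract x) with h2 | h2
  · rw [S.DD.right _ h2]; ring
  exfalso
  apply h
  refine ⟨Int.fract x, ⟨by linarith, by linarith⟩, ?_⟩
  unfold proj
  simp only
  rw [QuotientAddGroup.eq, AddSubgroup.mem_zmultiples_iff]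
  refine ⟨-⌊x⌋, ?_⟩
  have := Int.floor_add_fract x
  simp only [zsmul_eq_mul, mul_one, Int.cast_neg]
  linarith

/-- the image under `G` of a point away from the source is near `1/2` modulo `1` -/
theorem G_far {x : ℝ} (h1 : 2 / (5 * S.L) ≤ |x|) (h2 : |x| ≤ 1 / 2) :
    ∃ a : ℝ, |a| ≤ 1 / 10 ∧ (S.GD.G x = 1 / 2 + a ∨ S.GD.G x = -1 / 2 + a) := by
  have hL := S.L_pos
  have key : ∀ y, 2 / (5 * S.L) ≤ y → y ≤ 1 / 2 → 2 / 5 ≤ S.GD.G y ∧ S.GD.G y ≤ 1 / 2 := by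
    intro y hy1 hy2
    constructor
    · have e : S.GD.G (2 / (5 * S.L)) = 2 / 5 := by
        rw [S.GD.lin0 _ (by rw [abs_of_pos (by positivity)])]
        field_simp
      rw [← e]
      exact S.GD.mono.monotone hy1
    · have e : S.GD.G (1 / 2) = 1 / 2 := by
        rw [S.GD.lin1 _ (by norm_num) (by norm_num)]; simp
      calc S.GD.G y ≤ S.GD.G (1 / 2) := S.GD.mono.monotone hy2
        _ = 1 / 2 := e
  rcases le_or_gt 0 x with h0 | h0
  · rw [abs_of_nonneg h0] at h1 h2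
    obtain ⟨h3, h4⟩ := key x h1 h2
    exact ⟨S.GD.G x - 1 / 2, by rw [abs_le]; constructor <;> linarith, Or.inl (by ring)⟩
  · rw [abs_of_neg h0] at h1 h2
    obtain ⟨h3, h4⟩ := key (-x) h1 h2
    rw [S.GD.odd] at h3 h4
    exact ⟨S.GD.G x + 1 / 2, by rw [abs_le]; constructor <;> linarith, Or.inr (by ring)⟩

theorem f_bad1 {P : T2} (h : S.Bad1 P) : ∃ a b : ℝ, |a| ≤ 1 / 10 ∧ |b| ≤ 1 / 10 ∧
    S.f P = Nk a b := by
  obtain ⟨h1, h2, h3⟩ := h
  obtain ⟨x, z, hx, hz, rfl, hx', hz'⟩ := exists_proj P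
  rw [hx'] at h2
  rw [hz'] at h3
  have hpsi : S.psi x = 0 := by
    apply S.psi_eq_zero
    intro h
    apply h1
    obtain ⟨u, hu, e⟩ := h
    exact ⟨u, hu, e⟩
  obtain ⟨a, ha, hGz⟩ := S.G_far h3 hz
  obtain ⟨b, hb, hGx⟩ := S.G_far h2 hx
  refine ⟨a, -b, ha, by rwa [abs_neg], ?_⟩
  rw [S.f_proj]
  unfold FF Nk
  simp only
  rw [hpsi, add_zero, proj_eq_iff]
  rcases hGz with e | e <;> rcases hGx with e' | e' <;> rw [e, e']
  · exact ⟨0, 1, by simp, by push_cast; ring⟩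
  · exact ⟨0, 0, by simp, by push_cast; ring⟩
  · exact ⟨1, 1, by push_cast; ring, by push_cast; ring⟩
  · exact ⟨1, 0, by push_cast; ring, by push_cast; ring⟩

theorem tendsto_sink {P : T2} (h : S.Bad1 P) :
    Tendsto (fun n : ℕ => S.f^[n] P) atTop (𝓝 sink) := by
  obtain ⟨a, b, ha, hb, hP⟩ := S.f_bad1 h
  rw [← tendsto_add_atTop_iff_nat 1, tendsto_iff_dist_tendsto_zero]
  have hL2 := S.one_lt_L2
  have h0 : Tendsto (fun n : ℕ => (1 / 10 : ℝ) / (S.L ^ 2) ^ n) atTop (𝓝 0) :=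
    tendsto_const_nhds.div_atTop (tendsto_pow_atTop_atTop_of_one_lt hL2)
  refine squeeze_zero (fun _ => dist_nonneg) (fun n => ?_) h0
  rw [Function.iterate_succ_apply, hP]
  obtain ⟨a', b', h1, h2, h3⟩ := S.iterate_Nk n ha hb (by norm_num)
  have h5 : (1 / 10 : ℝ) / (S.L ^ 2) ^ n ≤ 1 / 2 :=
    (div_le_self (by norm_num) (one_le_pow₀ hL2.le)).trans (by norm_num)
  rw [h1, dist_Nk (h2.trans h5) (h3.trans h5)]
  exact max_le h2 h3

theorem iterate_symm_small (n : ℕ) {x z : ℝ} (hx : |x| ≤ 2 / 5) (hz : |z| ≤ 2 / 5) :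
    ∃ x' z' : ℝ, S.f.symm^[n] (proj (x, z)) = proj (x', z') ∧ |x'| ≤ 2 / 5 / S.L ^ n ∧
      |z'| ≤ 2 / 5 / S.L ^ n := by
  induction n with
  | zero => exact ⟨x, z, rfl, by simpa using hx, by simpa using hz⟩
  | succ n ih =>
    obtain ⟨a', b', h1, h2, h3⟩ := ih
    have hL := S.one_lt_L
    have hL0 := S.L_pos
    have h5 : (2 / 5 : ℝ) / S.L ^ n ≤ 2 / 5 := div_le_self (by norm_num) (one_le_pow₀ hL.le)
    refine ⟨-b' / S.L, a' / S.L, ?_, ?_, ?_⟩
    · rw [Function.iterate_succ_apply', h1, S.f_symm_small (h2.trans h5) (h3.trans h5)]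
    · rw [abs_div, abs_neg, abs_of_pos hL0, pow_succ, ← div_div]
      gcongr
    · rw [abs_div, abs_of_pos hL0, pow_succ, ← div_div]
      gcongr

theorem tendsto_src {P : T2} (h : Bad2 P) :
    Tendsto (fun n : ℕ => S.f.symm^[n] P) atTop (𝓝 src) := by
  obtain ⟨h1, h2⟩ := h
  obtain ⟨x, z, hx, hz, rfl, hx', hz'⟩ := exists_proj P
  rw [hx'] at h1
  rw [hz'] at h2
  rw [tendsto_iff_dist_tendsto_zero]
  have hL := S.one_lt_L
  have h0 : Tendsto (fun n : ℕ => (2 / 5 : ℝ) / S.L ^ n) atTop (𝓝 0) :=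
    tendsto_const_nhds.div_atTop (tendsto_pow_atTop_atTop_of_one_lt hL)
  refine squeeze_zero (fun _ => dist_nonneg) (fun n => ?_) h0
  obtain ⟨a', b', e1, e2, e3⟩ := S.iterate_symm_small n h1.le h2.le
  have h5 : (2 / 5 : ℝ) / S.L ^ n ≤ 1 / 2 :=
    (div_le_self (by norm_num) (one_le_pow₀ hL.le)).trans (by norm_num)
  rw [e1, dist_proj_src (e2.trans h5) (e3.trans h5)]
  exact max_le e2 e3

theorem eq_sink {P : T2} (h : Tendsto (fun n : ℕ => S.f.symm^[n] P) atTop (𝓝 sink)) :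
    P = sink := by
  rw [tendsto_iff_dist_tendsto_zero] at h
  have key : ∀ n, dist (S.f.symm^[n + 1] P) sink ≤ 1 / 10 →
      dist (S.f.symm^[n] P) sink = dist (S.f.symm^[n + 1] P) sink / S.L ^ 2 := by
    intro n hn
    obtain ⟨a, b, ha, hb, e⟩ := exists_Nk (S.f.symm^[n + 1] P)
    have hL2 := S.one_lt_L2
    have e2 : S.f.symm^[n] P = S.f (Nk a b) := by
      rw [← e, Function.iterate_succ_apply', S.f.apply_symm_apply]
    rw [e, dist_Nk ha hb] at hn
    have h1 : |a| ≤ 1 / 10 := (le_max_left _ _).trans hn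
    have h2 : |b| ≤ 1 / 10 := (le_max_right _ _).trans hn
    have q : ∀ y : ℝ, |y| ≤ 1 / 10 → |y / S.L ^ 2| ≤ 1 / 2 := by
      intro y hy
      rw [abs_div, abs_of_pos (by linarith : (0:ℝ) < S.L ^ 2)]
      exact (div_le_self (abs_nonneg _) hL2.le).trans (hy.trans (by norm_num))
    rw [e, dist_Nk ha hb, e2, S.f_Nk (h1.trans (by norm_num)) (h2.trans (by norm_num)),
      dist_Nk (q _ h2) (q _ (by rwa [abs_neg])), abs_div, abs_div, abs_neg,
      abs_of_pos (by linarith : (0:ℝ) < S.L ^ 2), max_div_div_right (by linarith), max_comm]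
  obtain ⟨n, hn⟩ := eq_zero_of_contract S.one_lt_L2 (fun _ => dist_nonneg) h
    (δ := 1 / 10) (by norm_num) key
  have h1 : S.f.symm^[n] P = sink := dist_eq_zero.1 hn
  have h2 := congrArg (S.f^[n]) h1
  rw [S.iterate_symm_iterate] at h2
  rw [h2]
  exact Function.iterate_fixed S.f_sink n

theorem eq_src {P : T2} (h : Tendsto (fun n : ℕ => S.f^[n] P) atTop (𝓝 src)) :
    P = src := by
  rw [tendsto_iff_dist_tendsto_zero] at h
  have key : ∀ n, dist (S.f^[n + 1] P) src ≤ 2 / 5 →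
      dist (S.f^[n] P) src = dist (S.f^[n + 1] P) src / S.L := by
    intro n hn
    obtain ⟨a, b, ha, hb, e, -, -⟩ := exists_proj (S.f^[n + 1] P)
    have hL := S.one_lt_L
    have e2 : S.f^[n] P = S.f.symm (proj (a, b)) := by
      rw [← e, Function.iterate_succ_apply', S.f.symm_apply_apply]
    rw [e, dist_proj_src ha hb] at hn
    have h1 : |a| ≤ 2 / 5 := (le_max_left _ _).trans hn
    have h2 : |b| ≤ 2 / 5 := (le_max_right _ _).trans hn
    have q : ∀ y : ℝ, |y| ≤ 2 / 5 → |y / S.L| ≤ 1 / 2 := by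
      intro y hy
      rw [abs_div, abs_of_pos S.L_pos]
      exact (div_le_self (abs_nonneg _) hL.le).trans (hy.trans (by norm_num))
    rw [e, dist_proj_src ha hb, e2, S.f_symm_small h1 h2,
      dist_proj_src (q _ (by rwa [abs_neg])) (q _ h1), abs_div, abs_div, abs_neg,
      abs_of_pos S.L_pos, max_div_div_right (by linarith), max_comm]
  obtain ⟨n, hn⟩ := eq_zero_of_contract S.one_lt_L (fun _ => dist_nonneg) h
    (δ := 2 / 5) (by norm_num) key
  have h1 : S.f^[n] P = src := dist_eq_zero.1 hn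
  have h2 := congrArg (S.f.symm^[n]) h1
  rw [S.symm_iterate_iterate] at h2
  rw [h2]
  exact Function.iterate_fixed S.f_symm_src n

end Sys

end Pool.Agent.helper15.SD
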