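import Pool.Agent.helper15.SD.HomClassOf
import Pool.Agent.helper15.SD.SinkSrc
import Pool.Agent.helper15.SD.Trap

/-!
# Homoclinic classes
-/

open Set Filter Topology

namespace Pool.Agent.helper15.SD

namespace Sys

variable {r : ℝ} (S : Sys r)

theorem hom_class {O : Set T2} (hO : IsPer S.f O) (h1 : O ≠ {sink}) (h2 : O ≠ {src}) :
    (∀ P ∈ WsF S.f O, P ∈ WsF S.f.symm O → P ∈ S.Kset) ∨
    ∃ i, 1 ≤ i ∧ ∀ P ∈ WsF S.f O, P ∈ WsF S.f.symm O →
      ∃ s < nn S.β i, ∃ Q ∈ S.Lam0 i, P = S.f^[s] Q :=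
  S.hom_class_of S.f_sink S.f_src (fun _ h => S.tendsto_sink h) (fun _ h => S.tendsto_src h)
    (fun _ h => S.core_state h) (fun _ _ _ hP hk _ hi hu => S.trap hP hk hi hu) hO h1 h2

end Sys

end Pool.Agent.helper15.SD
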