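import Pool.Agent.helper15.SD.Params
import Pool.Agent.helper15.SD.FCr
import Pool.Agent.helper15.SD.GrowthS
import Pool.Agent.helper15.SD.HomClass
import Pool.Agent.helper15.SD.EntK
import Pool.Agent.helper15.SD.EntLam
import Pool.Agent.helper15.SD.EntGe
import Pool.Agent.helper15.SD.Cover

/-!
# Assembly of the full answer
-/

open Set Filter Topology

namespace Pool.Agent.helper15.SD

namespace Sys

variable {r : ℝ} (S : Sys r)

/-- The `C^r` diffeomorphism. -/
noncomputable def toDiffeo : CrDiffeo r where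
  f := S.f
  F := S.FF
  F' := S.FF'
  lift := S.f_proj
  lift' := S.f_symm_proj
  left_inv := S.FF'_FF
  right_inv := S.FF_FF'
  cr := S.cr_FF
  cr' := S.cr_FF'

theorem isPer_of_isHPO {O : Set T2} (h : IsHPO S.toDiffeo O) : IsPer S.f O := by
  obtain ⟨v, n, ⟨hn, hp, hO⟩, -⟩ := h
  exact ⟨proj v, n, hn, hp, hO⟩

theorem finite_of_isPer {O : Set T2} (h : IsPer S.f O) : O.Finite := by
  obtain ⟨P, n, hn, hp, rfl⟩ := h
  apply (Set.finite_range (fun k : Fin n => S.f^[k] P)).subset
  rintro q ⟨k, rfl⟩
  refine ⟨⟨k % n, Nat.mod_lt _ hn⟩, ?_⟩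
  have : Function.IsPeriodicPt S.f n P := hp
  exact (this.iterate_mod_apply k)

theorem maps_of_isPer {O : Set T2} (h : IsPer S.f O) : ∀ p ∈ O, S.f p ∈ O := by
  obtain ⟨P, n, hn, hp, rfl⟩ := h
  rintro q ⟨k, rfl⟩
  exact ⟨k + 1, (Function.iterate_succ_apply' _ _ _).symm⟩

theorem tendsto_of_infDist {g : ℕ → T2} {a : T2}
    (h : Tendsto (fun n => Metric.infDist (g n) {a}) atTop (𝓝 0)) :
    Tendsto g atTop (𝓝 a) := by
  rw [tendsto_iff_dist_tendsto_zero]
  refine h.congr fun n => ?_
  rw [Metric.infDist_singleton]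

/-- The bound for the homoclinic class of any periodic orbit. -/
theorem hc_lt {e : ℝ} (he : 0 < e)
    (hK : Real.log (40 * S.Cz * S.β ^ 2 * S.L ^ (1 / (S.β : ℝ))) < e)
    (hW : ∀ i, 1 ≤ i → Real.log (10 * S.Cw * S.N i) / nn S.β i < e)
    {O : Set T2} (hO : IsHPO S.toDiffeo O) :
    Dynamics.coverEntropy S.f (HC S.toDiffeo O) < ((e : ℝ) : EReal) := by
  have hper := S.isPer_of_isHPO hO
  have he' : (0 : EReal) < ((e : ℝ) : EReal) := by exact_mod_cast he
  have hOfin : Dynamics.coverEntropy S.f O ≤ 0 :=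
    coverEntropy_finite_le S.f O (S.finite_of_isPer hper) (S.maps_of_isPer hper)
  -- a bound for the closure of the homoclinic points
  have key : Dynamics.coverEntropy S.f (closure (TransHom S.toDiffeo O)) < ((e : ℝ) : EReal) := by
    rw [Dynamics.coverEntropy_closure S.f.continuous]
    have hsub : ∀ P ∈ TransHom S.toDiffeo O, P ∈ WsF S.f O ∧ P ∈ WsF S.f.symm O := by
      rintro P ⟨h1, h2, -⟩
      exact ⟨h1, h2⟩
    by_cases hs : O = {sink}
    · subst hs
      have : TransHom S.toDiffeo {sink} ⊆ {sink} := by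
        intro P hP
        exact S.eq_sink (tendsto_of_infDist (hsub P hP).2)
      exact ((Dynamics.coverEntropy_monotone S.f this).trans hOfin).trans_lt he'
    by_cases hs' : O = {src}
    · subst hs'
      have : TransHom S.toDiffeo {src} ⊆ {src} := by
        intro P hP
        exact S.eq_src (tendsto_of_infDist (hsub P hP).1)
      exact ((Dynamics.coverEntropy_monotone S.f this).trans hOfin).trans_lt he'
    rcases S.hom_class hper hs hs' with h | ⟨i, hi, h⟩
    · have h1 : TransHom S.toDiffeo O ⊆ S.Kset := fun P hP => h P (hsub P hP).1 (hsub P hP).2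
      refine ((Dynamics.coverEntropy_monotone S.f h1).trans S.entropy_K).trans_lt ?_
      exact_mod_cast hK
    · have h1 : TransHom S.toDiffeo O ⊆ ⋃ s ∈ Finset.range (nn S.β i), S.f^[s] '' S.Lam0 i := by
        intro P hP
        obtain ⟨s, hs, Q, hQ, rfl⟩ := h P (hsub P hP).1 (hsub P hP).2
        simp only [mem_iUnion, Finset.mem_range]
        exact ⟨s, hs, Q, hQ, rfl⟩
      have h2 : ∀ s : ℕ, Dynamics.coverEntropy S.f (S.f^[s] '' S.Lam0 i) ≤
          Dynamics.coverEntropy S.f (S.Lam0 i) := by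
        intro s
        apply Dynamics.coverEntropy_image_le_of_uniformContinuous
        · exact Function.Commute.iterate_left (Function.Commute.refl (S.f : T2 → T2)) s
        · exact CompactSpace.uniformContinuous_of_continuous (S.f.continuous.iterate s)
      refine (Dynamics.coverEntropy_monotone S.f h1).trans_lt ?_
      show Dynamics.coverEntropy S.f (⋃ s ∈ Finset.range (nn S.β i), S.f^[s] '' S.Lam0 i) < _
      rw [Dynamics.coverEntropy_biUnion_finset]
      refine lt_of_le_of_lt (iSup₂_le fun s _ => (h2 s).trans (S.entropy_Lam hi)) ?_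
      exact_mod_cast hW i hi
  by_cases hsad : IsSaddle S.toDiffeo O
  · have : HC S.toDiffeo O = closure (TransHom S.toDiffeo O) := by
      ext q; simp [HC, hsad]
    rw [this]; exact key
  · have : HC S.toDiffeo O = O := by
      ext q; simp [HC, hsad]
    rw [this]; exact hOfin.trans_lt he'

end Sys

theorem full_answer : Goal := by
  intro r ε hr hε hε1
  obtain ⟨S, e, he, h1, h2, h3, h4⟩ := exists_params r ε hr hε hε1
  obtain ⟨lu, hlu, hlu1, hlu2⟩ := S.growth_FF
  obtain ⟨ls, hls, hls1⟩ := S.growth_FF'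
  have hL : 0 < Real.log S.L := Real.log_pos (by linarith [S.hL])
  have hent : ((e : ℝ) : EReal) ≤ Dynamics.coverEntropy S.f univ := by
    by_contra hcon
    push_neg at hcon
    obtain ⟨c, hc1, hc2⟩ := EReal.lt_iff_exists_real_btwn.1 hcon
    have hce : c < e := by exact_mod_cast hc2
    obtain ⟨i, hi, hi'⟩ := h4 (e - c) (by linarith)
    have h5 := S.entropy_ge hi
    have h6 : ((c : ℝ) : EReal) < ((Real.log (S.N i / 4) / nn S.β i : ℝ) : EReal) := by
      have : c < Real.log (S.N i / 4) / nn S.β i := by linarith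
      exact_mod_cast this
    exact absurd (h6.trans_le h5) (not_lt.2 hc1.le)
  refine ⟨S.toDiffeo, lu, ls, hlu, hls, ?_, ?_, ?_⟩
  · have : 0 < min lu ls := lt_min (by linarith) (by linarith)
    have h1e : 0 < 1 - ε := by linarith
    positivity
  · refine lt_of_lt_of_le ?_ hent
    have : (1 - ε) * min lu ls / r < e := by
      refine lt_of_le_of_lt ?_ h1
      have hm : min lu ls ≤ Real.log (4 * S.Cd * S.L) := (min_le_left _ _).trans hlu2
      have h1e : 0 ≤ 1 - ε := by linarith
      exact div_le_div_of_nonneg_right (mul_le_mul_of_nonneg_left hm h1e) (by linarith)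
    exact_mod_cast this
  · intro O hO
    exact (S.hc_lt he h2 h3 hO).trans_le hent

end Pool.Agent.helper15.SD
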