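import Pool.Agent.helper15.SD.Defs

/-!
Module M3 of the SD project (helper24): an explicit circle diffeomorphism with prescribed
linear parts.
-/

open Set Filter Topology MeasureTheory

namespace Pool.Agent.helper15.SD

namespace GE

/-- smooth, even, 1-periodic, `0` on `[0,p]`, `1` on `[q,1-q]` -/
noncomputable def cut (p q x : ℝ) : ℝ :=
  Real.smoothTransition ((Real.sin (Real.pi * x) ^ 2 - Real.sin (Real.pi * p) ^ 2) /
    (Real.sin (Real.pi * q) ^ 2 - Real.sin (Real.pi * p) ^ 2))

theorem cut_nonneg (p q x : ℝ) : 0 ≤ cut p q x := Real.smoothTransition.nonneg _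

theorem cut_le_one (p q x : ℝ) : cut p q x ≤ 1 := Real.smoothTransition.le_one _

theorem cut_smooth (p q : ℝ) {n : ℕ∞} : ContDiff ℝ n (cut p q) := by
  unfold cut
  apply Real.smoothTransition.contDiff.comp
  fun_prop

theorem cut_neg (p q x : ℝ) : cut p q (-x) = cut p q x := by
  unfold cut
  rw [mul_neg, Real.sin_neg, neg_sq]

theorem cut_add_one (p q x : ℝ) : cut p q (x + 1) = cut p q x := by
  unfold cut
  rw [mul_add, mul_one, Real.sin_add_pi, neg_sq]

/-- `sin²(π x)` is strictly increasing on `[0,1/2]` -/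
theorem sinsq_lt {x y : ℝ} (hx : 0 ≤ x) (hxy : x < y) (hy : y ≤ 1 / 2) :
    Real.sin (Real.pi * x) ^ 2 < Real.sin (Real.pi * y) ^ 2 := by
  have hpi := Real.pi_pos
  have h1 : Real.sin (Real.pi * x) < Real.sin (Real.pi * y) := by
    apply Real.sin_lt_sin_of_lt_of_le_pi_div_two
    · nlinarith
    · nlinarith
    · nlinarith
  have h0 : 0 ≤ Real.sin (Real.pi * x) := by
    apply Real.sin_nonneg_of_nonneg_of_le_pi
    · positivity
    · nlinarith
  nlinarith

theorem sinsq_le {x y : ℝ} (hx : 0 ≤ x) (hxy : x ≤ y) (hy : y ≤ 1 / 2) :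
    Real.sin (Real.pi * x) ^ 2 ≤ Real.sin (Real.pi * y) ^ 2 := by
  rcases hxy.eq_or_lt with h | h
  · rw [h]
  · exact (sinsq_lt hx h hy).le

theorem cut_zero {p q : ℝ} (hpq : p < q) (hq : q ≤ 1 / 2) {x : ℝ} (hx : 0 ≤ x) (hxp : x ≤ p) :
    cut p q x = 0 := by
  unfold cut
  apply Real.smoothTransition.zero_of_nonpos
  apply div_nonpos_of_nonpos_of_nonneg
  · have := sinsq_le hx hxp (by linarith)
    linarith
  · have := sinsq_lt (hx.trans hxp) hpq hq
    linarith

theorem cut_zero' {p q : ℝ} (hpq : p < q) (hq : q ≤ 1 / 2) {x : ℝ} (hx : |x| ≤ p) :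
    cut p q x = 0 := by
  rcases le_total 0 x with h | h
  · rw [abs_of_nonneg h] at hx
    exact cut_zero hpq hq h hx
  · rw [abs_of_nonpos h] at hx
    rw [← cut_neg]
    exact cut_zero hpq hq (by linarith) hx

theorem cut_one {p q : ℝ} (hp : 0 ≤ p) (hpq : p < q) (hq : q ≤ 1 / 2) {x : ℝ} (hx : q ≤ x)
    (hxq : x ≤ 1 - q) : cut p q x = 1 := by
  have key : ∀ y : ℝ, q ≤ y → y ≤ 1 / 2 → cut p q y = 1 := by
    intro y h1 h2
    unfold cut
    apply Real.smoothTransition.one_of_one_le
    have := sinsq_lt hp hpq hq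
    rw [le_div_iff₀ (by linarith)]
    have := sinsq_le (hp.trans hpq.le) h1 h2
    linarith
  rcases le_total x (1 / 2) with h | h
  · exact key x hx h
  · have h1 := key (1 - x) (by linarith) (by linarith)
    rw [← h1, show (1 : ℝ) - x = -x + 1 by ring, cut_add_one, cut_neg]

end GE

/-- the bump near zero -/
noncomputable def gb1 (L x : ℝ) : ℝ := 1 - GE.cut (2 / (5 * L)) (9 / (20 * L)) x

/-- the fixed bump -/
noncomputable def gb2 (x : ℝ) : ℝ := GE.cut (1 / 20) (1 / 15) x * (1 - GE.cut (1 / 8) (1 / 5) x)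

/-- the coefficient of the fixed bump -/
noncomputable def gka (L : ℝ) : ℝ :=
  (1 - 1 / L ^ 2 - (L - 1 / L ^ 2) * ∫ x in (0 : ℝ)..1, gb1 L x) / ∫ x in (0 : ℝ)..1, gb2 x

/-- the derivative of the circle map -/
noncomputable def gg (L x : ℝ) : ℝ := 1 / L ^ 2 + (L - 1 / L ^ 2) * gb1 L x + gka L * gb2 x

theorem gb1_smooth (L : ℝ) {n : ℕ∞} : ContDiff ℝ n (gb1 L) :=
  contDiff_const.sub (GE.cut_smooth _ _)

theorem gb2_smooth {n : ℕ∞} : ContDiff ℝ n gb2 :=
  (GE.cut_smooth _ _).mul (contDiff_const.sub (GE.cut_smooth _ _))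

theorem gg_smooth (L : ℝ) {n : ℕ∞} : ContDiff ℝ n (gg L) :=
  (contDiff_const.add (contDiff_const.mul (gb1_smooth L))).add (contDiff_const.mul gb2_smooth)

theorem gb1_cont (L : ℝ) : Continuous (gb1 L) := (gb1_smooth L (n := 0)).continuous
theorem gb2_cont : Continuous gb2 := (gb2_smooth (n := 0)).continuous
theorem gg_cont (L : ℝ) : Continuous (gg L) := (gg_smooth L (n := 0)).continuous

theorem gb1_nonneg (L x : ℝ) : 0 ≤ gb1 L x := by
  have := GE.cut_le_one (2 / (5 * L)) (9 / (20 * L)) x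
  unfold gb1
  linarith

theorem gb1_le_one (L x : ℝ) : gb1 L x ≤ 1 := by
  have := GE.cut_nonneg (2 / (5 * L)) (9 / (20 * L)) x
  unfold gb1
  linarith

theorem gb2_nonneg (x : ℝ) : 0 ≤ gb2 x := by
  unfold gb2
  apply mul_nonneg (GE.cut_nonneg _ _ _)
  have := GE.cut_le_one (1 / 8) (1 / 5) x
  linarith

theorem gb2_le_one (x : ℝ) : gb2 x ≤ 1 := by
  unfold gb2
  have h1 := GE.cut_le_one (1 / 8) (1 / 5) x
  have h2 := GE.cut_nonneg (1 / 8) (1 / 5) x
  have h3 := GE.cut_le_one (1 / 20) (1 / 15) x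
  have h4 := GE.cut_nonneg (1 / 20) (1 / 15) x
  nlinarith

section
variable {L : ℝ} (hL : 1000 ≤ L)
include hL

theorem gb1_int_le : ∫ x in (0 : ℝ)..1, gb1 L x ≤ 9 / (10 * L) := by
  have hL0 : 0 < L := by linarith
  set q : ℝ := 9 / (20 * L) with hq
  have hq0 : 0 < q := by positivity
  have hq1 : q ≤ 1 / 20 := by
    rw [hq, div_le_div_iff₀ (by positivity) (by norm_num)]
    linarith
  have hpq : 2 / (5 * L) < q := by
    rw [hq, div_lt_div_iff₀ (by positivity) (by positivity)]
    nlinarith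
  have hi : ∀ a b : ℝ, IntervalIntegrable (gb1 L) volume a b :=
    fun a b => (gb1_cont L).intervalIntegrable a b
  have h1 : ∫ x in (0 : ℝ)..q, gb1 L x ≤ q := by
    calc ∫ x in (0 : ℝ)..q, gb1 L x ≤ ∫ x in (0 : ℝ)..q, (1 : ℝ) :=
          intervalIntegral.integral_mono_on hq0.le (hi _ _) (by simp) fun x _ => gb1_le_one L x
      _ = q := by simp
  have h3 : ∫ x in (1 - q)..1, gb1 L x ≤ q := by
    calc ∫ x in (1 - q)..1, gb1 L x ≤ ∫ x in (1 - q)..1, (1 : ℝ) :=
          intervalIntegral.integral_mono_on (by linarith) (hi _ _) (by simp)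
            fun x _ => gb1_le_one L x
      _ = q := by simp
  have h2 : ∫ x in q..(1 - q), gb1 L x = 0 := by
    rw [intervalIntegral.integral_congr (g := fun _ => 0)]
    · simp
    · intro x hx
      rw [uIcc_of_le (by linarith)] at hx
      simp only [gb1]
      rw [GE.cut_one (by positivity) hpq (by linarith) hx.1 hx.2, sub_self]
  have h4 : ∫ x in (0 : ℝ)..1, gb1 L x = (∫ x in (0 : ℝ)..q, gb1 L x) +
      (∫ x in q..(1 - q), gb1 L x) + ∫ x in (1 - q)..1, gb1 L x := by
    rw [intervalIntegral.integral_add_adjacent_intervals (hi _ _) (hi _ _),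
      intervalIntegral.integral_add_adjacent_intervals (hi _ _) (hi _ _)]
  rw [h4, h2]
  have : 9 / (10 * L) = q + q := by rw [hq]; field_simp; norm_num
  rw [this]
  linarith

omit hL in
theorem gb2_int_ge : 1 / 500 ≤ ∫ x in (0 : ℝ)..1, gb2 x := by
  have hi : ∀ a b : ℝ, IntervalIntegrable gb2 volume a b :=
    fun a b => gb2_cont.intervalIntegrable a b
  have h4 : ∫ x in (0 : ℝ)..1, gb2 x = (∫ x in (0 : ℝ)..(1 / 15), gb2 x) +
      (∫ x in (1 / 15 : ℝ)..(1 / 8), gb2 x) + ∫ x in (1 / 8 : ℝ)..1, gb2 x := by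
    rw [intervalIntegral.integral_add_adjacent_intervals (hi _ _) (hi _ _),
      intervalIntegral.integral_add_adjacent_intervals (hi _ _) (hi _ _)]
  have h1 : 0 ≤ ∫ x in (0 : ℝ)..(1 / 15), gb2 x :=
    intervalIntegral.integral_nonneg (by norm_num) fun x _ => gb2_nonneg x
  have h3 : 0 ≤ ∫ x in (1 / 8 : ℝ)..1, gb2 x :=
    intervalIntegral.integral_nonneg (by norm_num) fun x _ => gb2_nonneg x
  have h2 : ∫ x in (1 / 15 : ℝ)..(1 / 8), gb2 x = 7 / 120 := by
    rw [intervalIntegral.integral_congr (g := fun _ => 1)]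
    · simp; norm_num
    · intro x hx
      rw [uIcc_of_le (by norm_num)] at hx
      simp only [gb2]
      rw [GE.cut_one (by norm_num) (by norm_num) (by norm_num) hx.1 (by linarith [hx.2]),
        GE.cut_zero (by norm_num) (by norm_num) (by linarith [hx.1]) hx.2]
      norm_num
  rw [h4, h2]
  linarith

theorem gka_nonneg : 0 ≤ gka L := by
  have h1 := gb1_int_le hL
  have h2 := gb2_int_ge
  have hL0 : 0 < L := by linarith
  unfold gka
  apply div_nonneg
  · have hinv : 1 / L ^ 2 ≤ 1 / 1000000 := by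
      apply one_div_le_one_div_of_le (by norm_num)
      nlinarith
    have hinv0 : 0 < 1 / L ^ 2 := by positivity
    have h3 : (L - 1 / L ^ 2) * ∫ x in (0 : ℝ)..1, gb1 L x ≤ L * (9 / (10 * L)) := by
      apply mul_le_mul (by linarith) h1 _ hL0.le
      exact intervalIntegral.integral_nonneg (by norm_num) fun x _ => gb1_nonneg L x
    have h4 : L * (9 / (10 * L)) = 9 / 10 := by field_simp
    linarith
  · linarith

theorem gka_le : gka L ≤ L / 2 := by
  have h2 := gb2_int_ge
  have hL0 : 0 < L := by linarith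
  have hinv : 1 / L ^ 2 ≤ 1 / 1000000 := by
    apply one_div_le_one_div_of_le (by norm_num)
    nlinarith
  have hinv0 : 0 < 1 / L ^ 2 := by positivity
  unfold gka
  rw [div_le_iff₀ (by linarith)]
  have h3 : 0 ≤ (L - 1 / L ^ 2) * ∫ x in (0 : ℝ)..1, gb1 L x := by
    apply mul_nonneg (by linarith)
    exact intervalIntegral.integral_nonneg (by norm_num) fun x _ => gb1_nonneg L x
  have h4 : 1 ≤ L / 2 * ∫ x in (0 : ℝ)..1, gb2 x := by
    calc (1 : ℝ) ≤ 500 * (1 / 500) := by norm_num
      _ ≤ L / 2 * ∫ x in (0 : ℝ)..1, gb2 x := by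
        apply mul_le_mul (by linarith) h2 (by norm_num) (by linarith)
  linarith

theorem gg_pos (x : ℝ) : 0 < gg L x := by
  have hL0 : 0 < L := by linarith
  have hinv : 1 / L ^ 2 ≤ 1 / 1000000 := by
    apply one_div_le_one_div_of_le (by norm_num)
    nlinarith
  have hinv0 : 0 < 1 / L ^ 2 := by positivity
  have h1 : 0 ≤ (L - 1 / L ^ 2) * gb1 L x := mul_nonneg (by linarith) (gb1_nonneg L x)
  have h2 : 0 ≤ gka L * gb2 x := mul_nonneg (gka_nonneg hL) (gb2_nonneg x)
  unfold gg
  linarith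

theorem gg_le (x : ℝ) : gg L x ≤ 2 * L := by
  have hL0 : 0 < L := by linarith
  have hinv : 1 / L ^ 2 ≤ 1 / 1000000 := by
    apply one_div_le_one_div_of_le (by norm_num)
    nlinarith
  have hinv0 : 0 < 1 / L ^ 2 := by positivity
  have h1 : (L - 1 / L ^ 2) * gb1 L x ≤ (L - 1 / L ^ 2) * 1 :=
    mul_le_mul_of_nonneg_left (gb1_le_one L x) (by linarith)
  have h2 : gka L * gb2 x ≤ L / 2 * 1 :=
    mul_le_mul (gka_le hL) (gb2_le_one x) (gb2_nonneg x) (by linarith)
  unfold gg
  linarith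

omit hL in
theorem gg_neg (x : ℝ) : gg L (-x) = gg L x := by
  unfold gg gb1 gb2
  rw [GE.cut_neg, GE.cut_neg, GE.cut_neg]

omit hL in
theorem gg_add_one (x : ℝ) : gg L (x + 1) = gg L x := by
  unfold gg gb1 gb2
  rw [GE.cut_add_one, GE.cut_add_one, GE.cut_add_one]

theorem gg_zone0 {x : ℝ} (hx : |x| ≤ 2 / (5 * L)) : gg L x = L := by
  have hL0 : 0 < L := by linarith
  have h1 : 2 / (5 * L) < 9 / (20 * L) := by
    rw [div_lt_div_iff₀ (by positivity) (by positivity)]
    nlinarith
  have h2 : 9 / (20 * L) ≤ 1 / 20 := by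
    rw [div_le_div_iff₀ (by positivity) (by norm_num)]
    linarith
  unfold gg gb1 gb2
  rw [GE.cut_zero' h1 (by linarith) hx,
    GE.cut_zero' (p := 1 / 20) (q := 1 / 15) (by norm_num) (by norm_num) (by linarith)]
  ring

theorem gg_zone1 {x : ℝ} (hx : 1 / 5 ≤ x) (hx' : x ≤ 4 / 5) : gg L x = 1 / L ^ 2 := by
  have hL0 : 0 < L := by linarith
  have h1 : 2 / (5 * L) < 9 / (20 * L) := by
    rw [div_lt_div_iff₀ (by positivity) (by positivity)]
    nlinarith
  have h2 : 9 / (20 * L) ≤ 1 / 20 := by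
    rw [div_le_div_iff₀ (by positivity) (by norm_num)]
    linarith
  unfold gg gb1 gb2
  rw [GE.cut_one (by positivity) h1 (by linarith) (by linarith) (by linarith),
    GE.cut_one (p := 1 / 8) (q := 1 / 5) (by norm_num) (by norm_num) (by norm_num) hx
      (by linarith)]
  ring

omit hL in
theorem gg_int_one : ∫ x in (0 : ℝ)..1, gg L x = 1 := by
  have h2 := gb2_int_ge
  have hi1 : IntervalIntegrable (gb1 L) volume 0 1 := (gb1_cont L).intervalIntegrable 0 1
  have hi2 : IntervalIntegrable gb2 volume 0 1 := gb2_cont.intervalIntegrable 0 1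
  unfold gg
  rw [intervalIntegral.integral_add ((intervalIntegrable_const).add (hi1.const_mul _))
    (hi2.const_mul _), intervalIntegral.integral_add intervalIntegrable_const (hi1.const_mul _),
    intervalIntegral.integral_const_mul, intervalIntegral.integral_const_mul]
  have h3 : gka L * (∫ x in (0 : ℝ)..1, gb2 x) =
      1 - 1 / L ^ 2 - (L - 1 / L ^ 2) * ∫ x in (0 : ℝ)..1, gb1 L x := by
    unfold gka
    rw [div_mul_cancel₀]
    linarith
  rw [h3]
  simp

end

/-- the circle map -/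
noncomputable def GG (L x : ℝ) : ℝ := ∫ t in (0 : ℝ)..x, gg L t

theorem GG_hasDerivAt (L x : ℝ) : HasDerivAt (GG L) (gg L x) x :=
  intervalIntegral.integral_hasDerivAt_right ((gg_cont L).intervalIntegrable _ _)
    ((gg_cont L).stronglyMeasurableAtFilter _ _) (gg_cont L).continuousAt

theorem GG_deriv (L : ℝ) : deriv (GG L) = gg L := funext fun x => (GG_hasDerivAt L x).deriv

theorem GG_smooth (L : ℝ) (n : ℕ) : ContDiff ℝ n (GG L) := by
  have h : ContDiff ℝ ((n : ℕ) + 1 : ℕ) (GG L) := by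
    rw [Nat.cast_add, Nat.cast_one, contDiff_succ_iff_deriv]
    refine ⟨fun x => (GG_hasDerivAt L x).differentiableAt, by simp, ?_⟩
    rw [GG_deriv]
    exact gg_smooth L (n := n)
  exact h.of_le (by exact_mod_cast Nat.le_succ n)

theorem GG_diff (L a b : ℝ) : GG L b - GG L a = ∫ t in a..b, gg L t := by
  unfold GG
  rw [intervalIntegral.integral_interval_sub_left ((gg_cont L).intervalIntegrable _ _)
    ((gg_cont L).intervalIntegrable _ _)]

theorem GG_odd (L x : ℝ) : GG L (-x) = -GG L x := by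
  unfold GG
  have h := intervalIntegral.integral_comp_neg (a := 0) (b := x) (fun t => gg L t)
  simp only [gg_neg, neg_zero] at h
  rw [h, intervalIntegral.integral_symm]

theorem GG_deg {L : ℝ} (hL : 1000 ≤ L) (x : ℝ) : GG L (x + 1) = GG L x + 1 := by
  have hp : Function.Periodic (gg L) 1 := fun y => gg_add_one y
  have h := hp.intervalIntegral_add_eq x 0
  rw [zero_add, gg_int_one] at h
  have h2 := GG_diff L x (x + 1)
  linarith

theorem GG_strictMono {L : ℝ} (hL : 1000 ≤ L) : StrictMono (GG L) := by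
  apply strictMono_of_deriv_pos
  intro x
  rw [GG_deriv]
  exact gg_pos hL x

theorem GG_add_nat {L : ℝ} (hL : 1000 ≤ L) (x : ℝ) (n : ℕ) : GG L (x + n) = GG L x + n := by
  induction n with
  | zero => simp
  | succ n ih =>
    rw [Nat.cast_add, Nat.cast_one, ← add_assoc, GG_deg hL, ih]
    ring

theorem GG_zero (L : ℝ) : GG L 0 = 0 := by unfold GG; simp

theorem GG_surj {L : ℝ} (hL : 1000 ≤ L) : Function.Surjective (GG L) := by
  have hc : Continuous (GG L) := (GG_smooth L 0).continuous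
  have hnat : ∀ n : ℕ, GG L n = n := by
    intro n
    have := GG_add_nat hL 0 n
    rwa [zero_add, GG_zero, zero_add] at this
  have hneg : ∀ n : ℕ, GG L (-n) = -n := by
    intro n
    rw [GG_odd, hnat]
  intro y
  obtain ⟨n, hn⟩ := exists_nat_ge |y|
  have h1 : y ∈ Icc (GG L (-n)) (GG L n) := by
    rw [hneg, hnat]
    exact abs_le.1 hn
  obtain ⟨x, -, hx⟩ := intermediate_value_Icc (by
    have : (0 : ℝ) ≤ n := Nat.cast_nonneg n
    linarith) hc.continuousOn h1
  exact ⟨x, hx⟩

theorem exists_GData (L : ℝ) (hL : 1000 ≤ L) : Nonempty (GData L) := by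
  have hL0 : 0 < L := by linarith
  let e : ℝ ≃ₜ ℝ := ((GG_strictMono hL).orderIsoOfSurjective (GG L) (GG_surj hL)).toHomeomorph
  have he : ∀ x, e x = GG L x := fun x => rfl
  have hhalf : GG L (1 / 2) = 1 / 2 := by
    have h1 := GG_deg hL (-(1 / 2))
    rw [GG_odd, show -(1 / 2 : ℝ) + 1 = 1 / 2 by norm_num] at h1
    linarith
  refine ⟨⟨GG L, e.symm, GG_smooth L, fun n => ?_, fun x => ?_, fun x => ?_, GG_strictMono hL,
    GG_odd L, GG_deg hL, fun x => ?_, fun x hx => ?_, fun x hx hx' => ?_⟩⟩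
  · apply Homeomorph.contDiff_symm_deriv e (f' := gg L) (fun x => (gg_pos hL x).ne')
    · exact fun x => GG_hasDerivAt L x
    · exact GG_smooth L n
  · rw [← he]; exact e.symm_apply_apply x
  · rw [← he]; exact e.apply_symm_apply x
  · rw [GG_deriv, abs_of_pos (gg_pos hL x)]
    exact gg_le hL x
  · unfold GG
    rw [intervalIntegral.integral_congr (g := fun _ => L)]
    · simp [mul_comm]
    · intro t ht
      apply gg_zone0 hL
      refine le_trans ?_ hx
      rcases le_total 0 x with h | h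
      · rw [uIcc_of_le h] at ht
        rw [abs_of_nonneg ht.1, abs_of_nonneg h]
        exact ht.2
      · rw [uIcc_of_ge h] at ht
        rw [abs_of_nonpos ht.2, abs_of_nonpos h]
        linarith [ht.1]
  · have h1 := GG_diff L (1 / 2) x
    rw [hhalf, intervalIntegral.integral_congr (g := fun _ => 1 / L ^ 2)] at h1
    · simp only [intervalIntegral.integral_const, smul_eq_mul] at h1
      rw [← sub_eq_iff_eq_add', h1]
      ring
    · intro t ht
      apply gg_zone1 hL
      · rcases le_total (1 / 2) x with h | h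
        · rw [uIcc_of_le h] at ht
          linarith [ht.1]
        · rw [uIcc_of_ge h] at ht
          linarith [ht.1]
      · rcases le_total (1 / 2) x with h | h
        · rw [uIcc_of_le h] at ht
          linarith [ht.2]
        · rw [uIcc_of_ge h] at ht
          linarith [ht.2]

end Pool.Agent.helper15.SD
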