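import Pool.Agent.helper15.SD.Defs

/-! Hölder classes: closure under linear and bilinear maps and composition. -/

open Set Filter Topology

namespace Pool.Agent.helper15.SD

section hol
variable {E F G H : Type} [NormedAddCommGroup E] [NormedSpace ℝ E] [NormedAddCommGroup F]
  [NormedSpace ℝ F] [NormedAddCommGroup G] [NormedSpace ℝ G] [NormedAddCommGroup H]
  [NormedSpace ℝ H]

lemma norm_iteratedFDeriv_succ_sub (f : E → F) (k : ℕ) (x y : E) :
    ‖iteratedFDeriv ℝ (k + 1) f x - iteratedFDeriv ℝ (k + 1) f y‖ =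
      ‖iteratedFDeriv ℝ k (fderiv ℝ f) x - iteratedFDeriv ℝ k (fderiv ℝ f) y‖ := by
  have h1 : ∀ z, iteratedFDeriv ℝ (k + 1) f z =
      (continuousMultilinearCurryRightEquiv' ℝ k E F).symm
        (iteratedFDeriv ℝ k (fderiv ℝ f) z) := by
    intro z
    rw [iteratedFDeriv_succ_eq_comp_right]
    rfl
  rw [h1 x, h1 y]
  have h2 := (continuousMultilinearCurryRightEquiv' ℝ k E F).symm.map_sub
    (iteratedFDeriv ℝ k (fderiv ℝ f) x) (iteratedFDeriv ℝ k (fderiv ℝ f) y)
  have h3 := (continuousMultilinearCurryRightEquiv' ℝ k E F).symm.norm_map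
    (iteratedFDeriv ℝ k (fderiv ℝ f) x - iteratedFDeriv ℝ k (fderiv ℝ f) y)
  rw [h2] at h3
  exact h3

theorem holB_succ_iff {α : ℝ} {k : ℕ} {f : E → F} :
    HolB α (k + 1) f ↔ (∃ C : ℝ, ∀ x, ‖f x‖ ≤ C) ∧ Differentiable ℝ f ∧
      HolB α k (fderiv ℝ f) := by
  have hcd : ContDiff ℝ ((k + 1 : ℕ) : ℕ∞) f ↔ Differentiable ℝ f ∧ ContDiff ℝ k (fderiv ℝ f) := by
    have := contDiff_succ_iff_fderiv (𝕜 := ℝ) (n := (k : WithTop ℕ∞)) (f := f)
    simp only [WithTop.natCast_ne_top, IsEmpty.forall_iff, true_and] at this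
    exact_mod_cast this
  constructor
  · rintro ⟨h1, C, h2, h3⟩
    have h1' := hcd.1 (by exact_mod_cast h1)
    refine ⟨⟨C, fun x => ?_⟩, h1'.1, h1'.2, C, ?_, ?_⟩
    · have := h2 0 (Nat.zero_le _) x
      rwa [norm_iteratedFDeriv_zero] at this
    · intro j hj x
      rw [norm_iteratedFDeriv_fderiv]
      exact h2 (j + 1) (by omega) x
    · intro x y
      rw [← norm_iteratedFDeriv_succ_sub]
      exact h3 x y
  · rintro ⟨⟨C0, h0⟩, h1, h2, C, h3, h4⟩
    refine ⟨by exact_mod_cast hcd.2 ⟨h1, h2⟩, max C0 C, ?_, ?_⟩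
    · intro j hj x
      rcases j with _ | j
      · rw [norm_iteratedFDeriv_zero]
        exact (h0 x).trans (le_max_left _ _)
      · rw [← norm_iteratedFDeriv_fderiv]
        exact (h3 j (by omega) x).trans (le_max_right _ _)
    · intro x y
      rw [norm_iteratedFDeriv_succ_sub]
      refine (h4 x y).trans ?_
      exact mul_le_mul_of_nonneg_right (le_max_right _ _) (Real.rpow_nonneg (norm_nonneg _) _)

lemma le_two_mul_rpow {C α t s : ℝ} (h0 : 0 ≤ α) (h1 : α ≤ 1) (hC : 0 ≤ C) (ht : 0 ≤ t)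
    (hs : s ≤ C * t) (hs' : s ≤ 2 * C) : s ≤ 2 * C * t ^ α := by
  rcases le_or_gt t 1 with h | h
  · rcases eq_or_lt_of_le ht with rfl | hpos
    · rcases eq_or_lt_of_le h0 with rfl | hα
      · simpa using hs'
      · rw [Real.zero_rpow hα.ne']; simpa using hs
    · have : t ≤ t ^ α := by
        calc t = t ^ (1 : ℝ) := (Real.rpow_one t).symm
          _ ≤ t ^ α := Real.rpow_le_rpow_of_exponent_ge hpos h h1
      nlinarith
  · have : 1 ≤ t ^ α := Real.one_le_rpow h.le h0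
    nlinarith

theorem HolB.of_succ {α : ℝ} (h0 : 0 ≤ α) (h1 : α ≤ 1) {k : ℕ} {f : E → F}
    (hf : HolB α (k + 1) f) : HolB α k f := by
  obtain ⟨h2, C, h3, h4⟩ := hf
  have hC : 0 ≤ C := (norm_nonneg _).trans (h3 0 (Nat.zero_le _) 0)
  refine ⟨h2.of_le (by exact_mod_cast Nat.le_succ k), 2 * C, ?_, ?_⟩
  · intro j hj x
    have := h3 j (by omega) x
    linarith
  · intro x y
    have hd : Differentiable ℝ (iteratedFDeriv ℝ k f) :=
      h2.differentiable_iteratedFDeriv (by exact_mod_cast Nat.lt_succ_self k)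
    have hl : ‖iteratedFDeriv ℝ k f x - iteratedFDeriv ℝ k f y‖ ≤ C * ‖x - y‖ := by
      refine Convex.norm_image_sub_le_of_norm_fderiv_le (𝕜 := ℝ) (s := Set.univ)
        (fun z _ => hd z) (fun z _ => ?_) convex_univ (mem_univ _) (mem_univ _)
      rw [norm_fderiv_iteratedFDeriv]
      exact h3 (k + 1) le_rfl z
    refine le_two_mul_rpow h0 h1 hC (norm_nonneg _) hl ?_
    have := norm_sub_le (iteratedFDeriv ℝ k f x) (iteratedFDeriv ℝ k f y)
    have := h3 k (by omega) x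
    have := h3 k (by omega) y
    linarith

theorem HolB.clm {α : ℝ} {k : ℕ} {f : E → F} (B : F →L[ℝ] G) (hf : HolB α k f) :
    HolB α k (fun x => B (f x)) := by
  obtain ⟨h1, C, h2, h3⟩ := hf
  have key : ∀ j ≤ k, ∀ x, iteratedFDeriv ℝ j (fun x => B (f x)) x =
      B.compContinuousMultilinearMap (iteratedFDeriv ℝ j f x) := by
    intro j hj x
    exact B.iteratedFDeriv_comp_left h1.contDiffAt (by exact_mod_cast hj)
  have hB : ∀ j, ∀ m : E [×j]→L[ℝ] F, ‖B.compContinuousMultilinearMap m‖ ≤ ‖B‖ * ‖m‖ :=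
    fun j m => B.norm_compContinuousMultilinearMap_le m
  refine ⟨B.contDiff.comp h1, ‖B‖ * C, ?_, ?_⟩
  · intro j hj x
    rw [key j hj x]
    exact (hB j _).trans (mul_le_mul_of_nonneg_left (h2 j hj x) (norm_nonneg _))
  · intro x y
    rw [key k le_rfl x, key k le_rfl y]
    have : B.compContinuousMultilinearMap (iteratedFDeriv ℝ k f x) -
        B.compContinuousMultilinearMap (iteratedFDeriv ℝ k f y) =
        B.compContinuousMultilinearMap (iteratedFDeriv ℝ k f x - iteratedFDeriv ℝ k f y) := by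
      ext v
      simp
    rw [this]
    refine (hB k _).trans ?_
    rw [mul_assoc]
    exact mul_le_mul_of_nonneg_left (h3 x y) (norm_nonneg _)

lemma HolB.add_aux {α : ℝ} {k : ℕ} {f g : E → F} (hf : HolB α k f) (hg : HolB α k g) :
    HolB α k (fun x => f x + g x) := by
  obtain ⟨h1, C, h2, h3⟩ := hf
  obtain ⟨g1, D, g2, g3⟩ := hg
  have key : ∀ j ≤ k, ∀ x, iteratedFDeriv ℝ j (fun x => f x + g x) x =
      iteratedFDeriv ℝ j f x + iteratedFDeriv ℝ j g x := by
    intro j hj x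
    have hj' : ((j : ℕ) : WithTop ℕ∞) ≤ k := by exact_mod_cast hj
    exact iteratedFDeriv_add_apply (h1.contDiffAt.of_le hj') (g1.contDiffAt.of_le hj')
  refine ⟨h1.add g1, C + D, ?_, ?_⟩
  · intro j hj x
    rw [key j hj x]
    exact (norm_add_le _ _).trans (add_le_add (h2 j hj x) (g2 j hj x))
  · intro x y
    rw [key k le_rfl x, key k le_rfl y, add_mul, add_sub_add_comm]
    exact (norm_add_le _ _).trans (add_le_add (h3 x y) (g3 x y))

lemma holB_zero_iff {E F : Type} [NormedAddCommGroup E] [NormedSpace ℝ E]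
    [NormedAddCommGroup F] [NormedSpace ℝ F] {α : ℝ} {f : E → F} :
    HolB α 0 f ↔ Continuous f ∧ ∃ C : ℝ,
    (∀ x, ‖f x‖ ≤ C) ∧ ∀ x y, ‖f x - f y‖ ≤ C * ‖x - y‖ ^ α := by
  have h : ∀ x y, ‖iteratedFDeriv ℝ 0 f x - iteratedFDeriv ℝ 0 f y‖ = ‖f x - f y‖ := by
    intro x y
    rw [iteratedFDeriv_zero_eq_comp (𝕜 := ℝ) (f := f)]
    simp only [Function.comp_apply]
    rw [← map_sub, LinearIsometryEquiv.norm_map]
  unfold HolB
  constructor
  · rintro ⟨h1, C, h2, h3⟩
    refine ⟨h1.continuous, C, fun x => ?_, fun x y => ?_⟩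
    · have := h2 0 le_rfl x
      rwa [norm_iteratedFDeriv_zero] at this
    · rw [← h]; exact h3 x y
  · rintro ⟨h1, C, h2, h3⟩
    have h1' : ContDiff ℝ ((0 : ℕ) : WithTop ℕ∞) f := by
      have := (contDiff_zero (𝕜 := ℝ)).2 h1
      exact_mod_cast this
    refine ⟨h1', C, fun j hj x => ?_, fun x y => ?_⟩
    · obtain rfl : j = 0 := by omega
      rw [norm_iteratedFDeriv_zero]; exact h2 x
    · rw [h]; exact h3 x y

theorem HolB.bilin {α : ℝ} (h0 : 0 ≤ α) (h1 : α ≤ 1) {k : ℕ} {f : E → F} {g : E → G}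
    (B : F →L[ℝ] G →L[ℝ] H) (hf : HolB α k f) (hg : HolB α k g) :
    HolB α k (fun x => B (f x) (g x)) := by
  induction k generalizing F G H with
  | zero =>
    rw [holB_zero_iff] at hf hg ⊢
    obtain ⟨hfc, C, hf1, hf2⟩ := hf
    obtain ⟨hgc, D, hg1, hg2⟩ := hg
    have hC : 0 ≤ C := (norm_nonneg _).trans (hf1 0)
    have hD : 0 ≤ D := (norm_nonneg _).trans (hg1 0)
    have hBn : ∀ a b, ‖B a b‖ ≤ ‖B‖ * ‖a‖ * ‖b‖ := fun a b => B.le_opNorm₂ a b
    refine ⟨by fun_prop, 2 * ‖B‖ * C * D, ?_, ?_⟩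
    · intro x
      have := hBn (f x) (g x)
      have h3 : ‖B‖ * ‖f x‖ * ‖g x‖ ≤ ‖B‖ * C * D := by
        gcongr
        · exact hf1 x
        · exact hg1 x
      have : 0 ≤ ‖B‖ * C * D := by positivity
      linarith
    · intro x y
      have e : B (f x) (g x) - B (f y) (g y) = B (f x - f y) (g x) + B (f y) (g x - g y) := by
        simp only [map_sub, _root_.sub_apply]
        abel
      rw [e]
      have hr : 0 ≤ ‖x - y‖ ^ α := Real.rpow_nonneg (norm_nonneg _) _
      have h3 : ‖B (f x - f y) (g x)‖ ≤ ‖B‖ * (C * ‖x - y‖ ^ α) * D := by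
        refine (hBn _ _).trans ?_
        gcongr
        · exact hf2 x y
        · exact hg1 x
      have h4 : ‖B (f y) (g x - g y)‖ ≤ ‖B‖ * C * (D * ‖x - y‖ ^ α) := by
        refine (hBn _ _).trans ?_
        gcongr
        · exact hf1 y
        · exact hg2 x y
      refine (norm_add_le _ _).trans ((add_le_add h3 h4).trans (le_of_eq ?_))
      ring
  | succ k ih =>
    have hf' := holB_succ_iff.1 hf
    have hg' := holB_succ_iff.1 hg
    rw [holB_succ_iff]
    obtain ⟨⟨C, hC⟩, hfd, hfh⟩ := hf'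
    obtain ⟨⟨D, hD⟩, hgd, hgh⟩ := hg'
    refine ⟨⟨‖B‖ * C * D, fun x => ?_⟩, ?_, ?_⟩
    · refine (B.le_opNorm₂ _ _).trans ?_
      have hC0 : 0 ≤ C := (norm_nonneg _).trans (hC 0)
      gcongr
      · exact hC x
      · exact hD x
    · exact (B.differentiable.comp hfd).clm_apply hgd
    · have e : fderiv ℝ (fun x => B (f x) (g x)) = fun x =>
          B.precompR E (f x) (fderiv ℝ g x) + B.precompL E (fderiv ℝ f x) (g x) := by
        funext x
        exact B.fderiv_of_bilinear (hfd x) (hgd x)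
      rw [e]
      exact HolB.add_aux (ih (B.precompR E) (hf.of_succ h0 h1) hgh)
        (ih (B.precompL E) hfh (hg.of_succ h0 h1))

/-- composition: `g` need not be bounded, but its derivative is -/
theorem HolB.comp {α : ℝ} (h0 : 0 ≤ α) (h1 : α ≤ 1) {k : ℕ} {f : F → G} {g : E → F}
    (hf : HolB α k f) (hg : Differentiable ℝ g) (hg' : HolB α (k - 1) (fderiv ℝ g)) :
    HolB α k (fun x => f (g x)) := by
  induction k generalizing G with
  | zero =>
    rw [holB_zero_iff] at hf ⊢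
    obtain ⟨hfc, C, hf1, hf2⟩ := hf
    rw [Nat.zero_sub, holB_zero_iff] at hg'
    obtain ⟨-, D, hD, -⟩ := hg'
    have hC : 0 ≤ C := (norm_nonneg _).trans (hf1 0)
    have hD0 : 0 ≤ D := (norm_nonneg _).trans (hD 0)
    have hl : ∀ x y, ‖g x - g y‖ ≤ D * ‖x - y‖ := by
      intro x y
      exact Convex.norm_image_sub_le_of_norm_fderiv_le (𝕜 := ℝ) (s := Set.univ)
        (fun z _ => hg z) (fun z _ => hD z) convex_univ (mem_univ _) (mem_univ _)
    refine ⟨hfc.comp hg.continuous, max C (C * D ^ α), ?_, ?_⟩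
    · intro x
      exact (hf1 (g x)).trans (le_max_left _ _)
    · intro x y
      refine (hf2 (g x) (g y)).trans ?_
      have hr : 0 ≤ ‖x - y‖ ^ α := Real.rpow_nonneg (norm_nonneg _) _
      have h3 : ‖g x - g y‖ ^ α ≤ D ^ α * ‖x - y‖ ^ α := by
        rw [← Real.mul_rpow hD0 (norm_nonneg _)]
        exact Real.rpow_le_rpow (norm_nonneg _) (hl x y) h0
      calc C * ‖g x - g y‖ ^ α ≤ C * (D ^ α * ‖x - y‖ ^ α) := by gcongr
        _ = C * D ^ α * ‖x - y‖ ^ α := by ring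
        _ ≤ max C (C * D ^ α) * ‖x - y‖ ^ α := by
            gcongr
            exact le_max_right _ _
  | succ k ih =>
    have hf' := holB_succ_iff.1 hf
    obtain ⟨⟨C, hC⟩, hfd, hfh⟩ := hf'
    rw [Nat.add_sub_cancel] at hg'
    rw [holB_succ_iff]
    refine ⟨⟨C, fun x => hC (g x)⟩, hfd.comp hg, ?_⟩
    have e : fderiv ℝ (fun x => f (g x)) = fun x =>
        ContinuousLinearMap.compL ℝ E F G (fderiv ℝ f (g x)) (fderiv ℝ g x) := by
      funext x
      exact fderiv_comp x (hfd (g x)) (hg x)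
    rw [e]
    have hg2 : HolB α (k - 1) (fderiv ℝ g) := by
      rcases k with _ | k
      · exact hg'
      · exact hg'.of_succ h0 h1
    exact HolB.bilin h0 h1 _ (ih hfh hg2) hg'

/-- from the derivative of a map of the plane to `IsCr` -/
theorem isCr_of_fderiv {r : ℝ} {k : ℕ} (hk : ⌊r⌋₊ = k + 1) {Φ : ℝ × ℝ → ℝ × ℝ}
    (hd : Differentiable ℝ Φ) (h : HolB (r - (⌊r⌋₊ : ℝ)) k (fderiv ℝ Φ)) : IsCr r Φ := by
  obtain ⟨h1, C, h2, h3⟩ := h
  unfold IsCr
  rw [hk] at h3 ⊢
  constructor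
  · have := contDiff_succ_iff_fderiv (𝕜 := ℝ) (n := (k : WithTop ℕ∞)) (f := Φ)
    simp only [WithTop.natCast_ne_top, IsEmpty.forall_iff, true_and] at this
    exact_mod_cast this.2 ⟨hd, h1⟩
  · refine ⟨C, fun x y => ?_⟩
    rw [norm_iteratedFDeriv_succ_sub]
    exact h3 x y

end hol

end Pool.Agent.helper15.SD
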