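import Pool.Agent.helper15.SD.Core

/-!
# HomClass (SD-M21): homoclinic points of a periodic orbit

`hom_class_of` is the statement `hom_class` with the results of the modules SinkSrc, CoreState and
Trap as hypotheses.
-/

open Set Filter Topology

namespace Pool.Agent.helper15.SD

namespace Hom

/-! ### periodic orbits -/

theorem per_finite {g : T2 ≃ₜ T2} {O : Set T2} (hO : IsPer g O) : O.Finite := by
  obtain ⟨P, n, hn, hP, rfl⟩ := hO
  apply (Set.finite_Iio n).image (fun k => g^[k] P) |>.subset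
  rintro _ ⟨k, rfl⟩
  refine ⟨k % n, Nat.mod_lt _ hn, ?_⟩
  have h1 : ∀ m, g^[n * m] P = P := by
    intro m
    induction m with
    | zero => simp
    | succ m ih => rw [Nat.mul_succ, Function.iterate_add_apply, hP, ih]
  have h2 : g^[k] P = g^[k % n] (g^[n * (k / n)] P) := by
    rw [← Function.iterate_add_apply, Nat.mod_add_div]
  simp only
  rw [h2, h1]

theorem per_nonempty {g : T2 ≃ₜ T2} {O : Set T2} (hO : IsPer g O) : O.Nonempty := by
  obtain ⟨P, n, hn, hP, rfl⟩ := hO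
  exact ⟨P, 0, rfl⟩

/-- any two points of the orbit: one is a forward image of the other -/
theorem per_trans {g : T2 ≃ₜ T2} {O : Set T2} (hO : IsPer g O) {q q' : T2} (hq : q ∈ O)
    (hq' : q' ∈ O) : ∃ a, g^[a] q = q' := by
  obtain ⟨P, n, hn, hP, rfl⟩ := hO
  obtain ⟨k, rfl⟩ := hq
  obtain ⟨l, rfl⟩ := hq'
  have h1 : ∀ m, g^[n * m] P = P := by
    intro m
    induction m with
    | zero => simp
    | succ m ih => rw [Nat.mul_succ, Function.iterate_add_apply, hP, ih]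
  -- go `n * k - k` steps to come back to `P`, then `l` steps
  refine ⟨l + (n * k - k), ?_⟩
  rw [← Function.iterate_add_apply]
  have hk : k ≤ n * k := Nat.le_mul_of_pos_left k hn
  have : l + (n * k - k) + k = l + n * k := by omega
  rw [this, Function.iterate_add_apply, h1]

theorem per_inv {g : T2 ≃ₜ T2} {O : Set T2} (hO : IsPer g O) {q : T2} (hq : q ∈ O) :
    g q ∈ O := by
  obtain ⟨P, n, hn, hP, rfl⟩ := hO
  obtain ⟨k, rfl⟩ := hq
  exact ⟨k + 1, by rw [Function.iterate_succ_apply']⟩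

theorem per_inv_iter {g : T2 ≃ₜ T2} {O : Set T2} (hO : IsPer g O) {q : T2} (hq : q ∈ O) (n : ℕ) :
    g^[n] q ∈ O := by
  induction n with
  | zero => exact hq
  | succ n ih => rw [Function.iterate_succ_apply']; exact per_inv hO ih

theorem sIt (g : T2 ≃ₜ T2) (n : ℕ) (P : T2) : g.symm^[n] (g^[n] P) = P :=
  Function.LeftInverse.iterate (f := g) (g := g.symm) g.symm_apply_apply n P

theorem itS (g : T2 ≃ₜ T2) (n : ℕ) (P : T2) : g^[n] (g.symm^[n] P) = P :=
  Function.LeftInverse.iterate (f := g.symm) (g := g) g.apply_symm_apply n P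

/-- the orbit is also a periodic orbit of the inverse -/
theorem per_symm {g : T2 ≃ₜ T2} {O : Set T2} (hO : IsPer g O) : IsPer g.symm O := by
  have hO' := hO
  obtain ⟨P, n, hn, hP, hOe⟩ := hO'
  have hPO : P ∈ O := by rw [hOe]; exact ⟨0, rfl⟩
  refine ⟨P, n, hn, ?_, ?_⟩
  · conv_lhs => rw [← hP]
    exact sIt g n P
  · ext q
    constructor
    · intro hq
      obtain ⟨a, ha⟩ := per_trans hO hq hPO
      refine ⟨a, ?_⟩
      rw [← ha, sIt]
    · rintro ⟨k, rfl⟩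
      -- g.symm^[k] P = g^[n*k - k] P
      rw [hOe]
      refine ⟨n * k - k, ?_⟩
      have h1 : ∀ m, g^[n * m] P = P := by
        intro m
        induction m with
        | zero => simp
        | succ m ih => rw [Nat.mul_succ, Function.iterate_add_apply, hP, ih]
      have hk : k ≤ n * k := Nat.le_mul_of_pos_left k hn
      have h2 : g^[k] (g^[n * k - k] P) = P := by
        rw [← Function.iterate_add_apply]
        have : k + (n * k - k) = n * k := by omega
        rw [this, h1]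
      have h3 := sIt g k (g^[n * k - k] P)
      rw [h2] at h3
      exact h3

theorem eq_singleton_of_fixed {g : T2 ≃ₜ T2} {O : Set T2} (hO : IsPer g O) {q : T2} (hq : q ∈ O)
    (hf : g q = q) : O = {q} := by
  have hfi : ∀ a, g^[a] q = q := by
    intro a
    induction a with
    | zero => rfl
    | succ a ih => rw [Function.iterate_succ_apply', ih, hf]
  ext x
  constructor
  · intro hx
    obtain ⟨a, ha⟩ := per_trans hO hq hx
    rw [hfi] at ha
    exact ha.symm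
  · rintro rfl
    exact hq

theorem mem_of_infDist_zero {O : Set T2} (hf : O.Finite) (hne : O.Nonempty) {x : T2}
    (h : Metric.infDist x O = 0) : x ∈ O := by
  have hc : IsClosed O := hf.isClosed
  exact (hc.mem_iff_infDist_zero hne).2 h

/-- if the forward orbit of a point of the stable set converges to `z`, then `z ∈ O` -/
theorem mem_of_tendsto {g : T2 ≃ₜ T2} {O : Set T2} (hO : IsPer g O) {P z : T2} (hP : P ∈ WsF g O)
    (hz : Tendsto (fun n : ℕ => g^[n] P) atTop (𝓝 z)) : z ∈ O := by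
  apply mem_of_infDist_zero (per_finite hO) (per_nonempty hO)
  have h1 : Tendsto (fun n : ℕ => Metric.infDist (g^[n] P) O) atTop (𝓝 (Metric.infDist z O)) :=
    ((Metric.continuous_infDist_pt O).tendsto z).comp hz
  exact tendsto_nhds_unique h1 hP

theorem ws_iter {g : T2 ≃ₜ T2} {O : Set T2} {P : T2} (hP : P ∈ WsF g O) (n : ℕ) :
    g^[n] P ∈ WsF g O := by
  have h : Tendsto (fun k : ℕ => Metric.infDist (g^[k] P) O) atTop (𝓝 0) := hP
  show Tendsto (fun k : ℕ => Metric.infDist (g^[k] (g^[n] P)) O) atTop (𝓝 0)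
  have h2 := h.comp (tendsto_add_atTop_nat n)
  refine h2.congr (fun k => ?_)
  simp only [Function.comp]
  rw [Function.iterate_add_apply]

theorem ws_symm_iter {g : T2 ≃ₜ T2} {O : Set T2} {P : T2} (hP : P ∈ WsF g O) (n : ℕ) :
    g.symm^[n] P ∈ WsF g O := by
  have h : Tendsto (fun k : ℕ => Metric.infDist (g^[k] P) O) atTop (𝓝 0) := hP
  show Tendsto (fun k : ℕ => Metric.infDist (g^[k] (g.symm^[n] P)) O) atTop (𝓝 0)
  rw [← tendsto_add_atTop_iff_nat n]
  refine h.congr (fun k => ?_)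
  rw [Function.iterate_add_apply, itS]

/-- an orbit attracted by `O` comes back to every neighbourhood of every point of `O` -/
theorem frequently_near {g : T2 ≃ₜ T2} {O : Set T2} (hO : IsPer g O) {P Q : T2}
    (hP : P ∈ WsF g O) (hQ : Q ∈ O) {δ : ℝ} (hδ : 0 < δ) (n0 : ℕ) :
    ∃ n, n0 ≤ n ∧ dist (g^[n] P) Q < δ := by
  have hfin := per_finite hO
  choose! a ha using fun q (hq : q ∈ O) => per_trans hO hq hQ
  have hcont : ∀ q ∈ O, ∃ ε > 0, ∀ x, dist x q < ε → dist (g^[a q] x) Q < δ := by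
    intro q hq
    have hc : Continuous (g^[a q]) := g.continuous.iterate _
    obtain ⟨ε, hε, h⟩ := Metric.continuous_iff.1 hc q δ hδ
    refine ⟨ε, hε, fun x hx => ?_⟩
    have := h x hx
    rwa [ha q hq] at this
  choose! ε hε1 hε2 using hcont
  obtain ⟨η, hη, hη2⟩ : ∃ η > 0, ∀ q ∈ O, η ≤ ε q := by
    obtain ⟨q, hq, hmin⟩ := Set.exists_min_image O ε hfin (per_nonempty hO)
    exact ⟨ε q, hε1 q hq, fun q' hq' => hmin q' hq'⟩
  have h : Tendsto (fun k : ℕ => Metric.infDist (g^[k] P) O) atTop (𝓝 0) := hP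
  have hev := (h.eventually (gt_mem_nhds hη)).and (eventually_ge_atTop n0)
  obtain ⟨k, hk1, hk2⟩ := hev.exists
  obtain ⟨q, hq, hqd⟩ := (Metric.infDist_lt_iff (per_nonempty hO)).1 hk1
  refine ⟨a q + k, by omega, ?_⟩
  rw [Function.iterate_add_apply]
  exact hε2 q hq _ (lt_of_lt_of_le hqd (hη2 q hq))

/-! ### homoclinic points are in the core -/

section
variable {r : ℝ} (S : Sys r)

theorem mem_core (hsink : S.f sink = sink) (hsrc : S.f src = src)
    (htk : ∀ P : T2, S.Bad1 P → Tendsto (fun n : ℕ => S.f^[n] P) atTop (𝓝 sink))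
    (htr : ∀ P : T2, Sys.Bad2 P → Tendsto (fun n : ℕ => S.f.symm^[n] P) atTop (𝓝 src))
    {O : Set T2} (hO : IsPer S.f O) (h1 : O ≠ {sink}) (h2 : O ≠ {src})
    {P : T2} (hP : P ∈ WsF S.f O) (hP' : P ∈ WsF S.f.symm O) : P ∈ S.core := by
  have hn1 : ∀ Q : T2, Q ∈ WsF S.f O → ¬ S.Bad1 Q := by
    intro Q hQ hb
    exact h1 (eq_singleton_of_fixed hO (mem_of_tendsto hO hQ (htk Q hb)) hsink)
  have hn2 : ∀ Q : T2, Q ∈ WsF S.f.symm O → ¬ Sys.Bad2 Q := by
    intro Q hQ hb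
    exact h2 (eq_singleton_of_fixed hO (mem_of_tendsto (per_symm hO) hQ (htr Q hb)) hsrc)
  intro n
  refine ⟨⟨hn1 _ (ws_iter hP n), hn2 _ ?_⟩, ⟨hn1 _ (ws_symm_iter hP n), hn2 _ (ws_iter hP' n)⟩⟩
  have := ws_symm_iter (g := S.f.symm) hP' n
  exact this

/-- points of the orbit are homoclinic -/
theorem orbit_ws {g : T2 ≃ₜ T2} {O : Set T2} (hO : IsPer g O) {Q : T2} (hQ : Q ∈ O) :
    Q ∈ WsF g O := by
  show Tendsto (fun k : ℕ => Metric.infDist (g^[k] Q) O) atTop (𝓝 0)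
  have : ∀ k, Metric.infDist (g^[k] Q) O = 0 := fun k =>
    Metric.infDist_zero_of_mem (per_inv_iter hO hQ k)
  simp only [this]
  exact tendsto_const_nhds

/-- core points near a kick state in the middle of window `i` are kick states in window `i` -/
theorem kick_near (hcs : ∀ P ∈ S.core,
      (∃ u w, P = St 0 u w ∧ |w| ≤ 3 / (10 * S.L ^ 2) ∧
        (u ∈ Icc (1 / 5 : ℝ) (3 / 10) ∨ |u| < 2 / (5 * S.L))) ∨
      (∃ a b, P = St 1 a b ∧ |b| ≤ 3 / (10 * S.L ^ 2) ∧ |a| < 2 / (5 * S.L)))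
    {Q : T2} {u1 w1 : ℝ} {i : ℕ} (hk : S.IsKick Q u1 w1)
    (hu : |u1 - xx S.L i| ≤ 3 / 4 * ll S.L i) {X : T2} (hX : X ∈ S.core)
    (hd : dist X Q < min (ll S.L i / 4) (1 / 10)) :
    ∃ u w, S.IsKick X u w ∧ |u - xx S.L i| ≤ ll S.L i := by
  obtain ⟨hQ, hu1, hw1⟩ := hk
  have ha0 := S.a0_le
  obtain ⟨hd1, hd2⟩ := lt_min_iff.1 hd
  rcases hcs X hX with ⟨u, w, rfl, hw, hu'⟩ | ⟨a, b, rfl, hb, ha⟩
  · have hle : |u - u1| ≤ 1 / 2 := by
      rcases hu' with hu' | hu'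
      · rw [abs_le]; constructor <;> linarith [hu'.1, hu'.2, hu1.1, hu1.2]
      · rw [abs_lt] at hu'
        rw [abs_le]; constructor <;> linarith [hu'.1, hu'.2, hu1.1, hu1.2]
    have h3 : |u - u1| ≤ dist (St 0 u w) Q := by
      rw [hQ, St_zero, St_zero]
      exact abs_fst_le_dist (v := (u, 1 / 2 + w)) (w := (u1, 1 / 2 + w1)) hle
    rcases hu' with hu' | hu'
    · refine ⟨u, w, ⟨rfl, hu', hw⟩, ?_⟩
      have : |u - xx S.L i| ≤ |u - u1| + |u1 - xx S.L i| := abs_sub_le _ _ _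
      linarith
    · exfalso
      have h4 : |u - u1| < 1 / 10 := lt_of_le_of_lt h3 hd2
      rw [abs_lt] at hu' h4
      linarith [hu1.1]
  · exfalso
    have hw' := S.w_lt hb
    rw [abs_lt] at hw'
    have hle : |(1 / 2 + b) - u1| ≤ 1 / 2 := by
      rw [abs_le]; constructor <;> linarith [hu1.1, hu1.2]
    have h3 : |(1 / 2 + b) - u1| ≤ dist (St 1 a b) Q := by
      rw [hQ, St_zero, St_one]
      exact abs_fst_le_dist (v := (1 / 2 + b, -a)) (w := (u1, 1 / 2 + w1)) hle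
    have h5 : |b| ≤ 3 / (10 * S.L ^ 2) := hb
    have h6 : 3 / (10 * S.L ^ 2) ≤ 1 / 100 := by
      have hL := S.hL
      rw [div_le_div_iff₀ (by positivity) (by norm_num)]
      nlinarith
    have h4 : |(1 / 2 + b) - u1| < 1 / 10 := lt_of_le_of_lt h3 hd2
    have h7 : |b| ≤ 1 / 100 := h5.trans h6
    rw [abs_le] at h7
    rw [abs_lt] at h4
    linarith [hu1.2]

end

end Hom

namespace Sys

variable {r : ℝ} (S : Sys r)

theorem hom_class_of (hsink : S.f sink = sink) (hsrc : S.f src = src)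
    (htk : ∀ P : T2, S.Bad1 P → Tendsto (fun n : ℕ => S.f^[n] P) atTop (𝓝 sink))
    (htr : ∀ P : T2, Bad2 P → Tendsto (fun n : ℕ => S.f.symm^[n] P) atTop (𝓝 src))
    (hcs : ∀ P ∈ S.core,
      (∃ u w, P = St 0 u w ∧ |w| ≤ 3 / (10 * S.L ^ 2) ∧
        (u ∈ Icc (1 / 5 : ℝ) (3 / 10) ∨ |u| < 2 / (5 * S.L))) ∨
      (∃ a b, P = St 1 a b ∧ |b| ≤ 3 / (10 * S.L ^ 2) ∧ |a| < 2 / (5 * S.L)))
    (htrap : ∀ (P : T2) (u w : ℝ), P ∈ S.core → S.IsKick P u w → ∀ i : ℕ, 1 ≤ i →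
      |u - xx S.L i| ≤ ll S.L i →
      S.L ^ nn S.β i * (w + S.DD.d u) ∈ Icc (1 / 5 : ℝ) (3 / 10) ∧
      |S.L ^ nn S.β i * (w + S.DD.d u) - xx S.L i| ≤ 3 / 4 * ll S.L i ∧
      S.IsKick (S.f^[nn S.β i] P) (S.L ^ nn S.β i * (w + S.DD.d u))
        ((1 / 2 - u) / S.L ^ (2 * nn S.β i)))
    {O : Set T2} (hO : IsPer S.f O) (h1 : O ≠ {sink}) (h2 : O ≠ {src}) :
    (∀ P ∈ WsF S.f O, P ∈ WsF S.f.symm O → P ∈ S.Kset) ∨
    ∃ i, 1 ≤ i ∧ ∀ P ∈ WsF S.f O, P ∈ WsF S.f.symm O →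
      ∃ s < nn S.β i, ∃ Q ∈ S.Lam0 i, P = S.f^[s] Q := by
  have hcore : ∀ {P : T2}, P ∈ WsF S.f O → P ∈ WsF S.f.symm O → P ∈ S.core :=
    fun hP hP' => Hom.mem_core S hsink hsrc htk htr hO h1 h2 hP hP'
  have hll : ∀ i, 0 < ll S.L i := by
    intro i
    have := S.L_pos
    unfold ll
    positivity
  -- repeated trapping
  have hrep : ∀ (X : T2) (i : ℕ), 1 ≤ i → X ∈ S.core →
      (∃ u w, S.IsKick X u w ∧ |u - xx S.L i| ≤ ll S.L i) →
      ∀ k, S.f^[nn S.β i * (k + 1)] X ∈ S.Lam0 i := by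
    intro X i hi hX hXk k
    induction k with
    | zero =>
      obtain ⟨u, w, hk, hu⟩ := hXk
      obtain ⟨ha, hb, hc⟩ := htrap X u w hX hk i hi hu
      rw [zero_add, mul_one]
      exact ⟨S.core_iterate hX _, _, _, hc, hb⟩
    | succ k ih =>
      obtain ⟨hc1, u, w, hk, hu⟩ := ih
      obtain ⟨ha, hb, hc⟩ := htrap _ u w hc1 hk i hi
        (hu.trans (by linarith [hll i]))
      rw [← Function.iterate_add_apply] at hc
      have e : nn S.β i * (k + 1 + 1) = nn S.β i + nn S.β i * (k + 1) := by ring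
      rw [e]
      exact ⟨S.core_iterate hX _, _, _, hc, hb⟩
  by_cases hcase : ∃ Q ∈ O, ∃ i, 1 ≤ i ∧ ∃ u w, S.IsKick Q u w ∧ |u - xx S.L i| ≤ ll S.L i
  · right
    obtain ⟨Q, hQ, i, hi, u, w, hk, hu⟩ := hcase
    refine ⟨i, hi, fun P hP hP' => ?_⟩
    have hQc : Q ∈ S.core := hcore (Hom.orbit_ws hO hQ) (Hom.orbit_ws (Hom.per_symm hO) hQ)
    obtain ⟨ha, hb, hc⟩ := htrap Q u w hQc hk i hi hu
    have hQ1 : S.f^[nn S.β i] Q ∈ O := Hom.per_inv_iter hO hQ _
    have hδ : 0 < min (ll S.L i / 4) (1 / 10 : ℝ) := lt_min (by linarith [hll i]) (by norm_num)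
    obtain ⟨n, hn, hnd⟩ := Hom.frequently_near (Hom.per_symm hO) hP' hQ1 hδ (nn S.β i)
    have hPc := hcore hP hP'
    have hX := S.core_symm_iterate hPc n
    have hXk := Hom.kick_near S hcs hc hb hX hnd
    have hnn : 0 < nn S.β i := by unfold nn; omega
    have hk1 : 1 ≤ n / nn S.β i := (Nat.one_le_div_iff hnn).2 hn
    obtain ⟨k, hk⟩ : ∃ k, n / nn S.β i = k + 1 := ⟨n / nn S.β i - 1, by omega⟩
    refine ⟨n % nn S.β i, Nat.mod_lt _ hnn, _, hrep _ i hi hX hXk k, ?_⟩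
    rw [← Function.iterate_add_apply]
    have e : n % nn S.β i + nn S.β i * (k + 1) = n := by rw [← hk]; exact Nat.mod_add_div n _
    rw [e]
    exact (S.iterate_symm_iterate n P).symm
  · left
    push Not at hcase
    intro P hP hP'
    refine ⟨hcore hP hP', fun n u w i hi hor => ?_⟩
    by_contra hlt
    push Not at hlt
    -- the point with the kick in the window
    obtain ⟨X, hXc, hXw, hXk⟩ : ∃ X, X ∈ S.core ∧ X ∈ WsF S.f O ∧ S.IsKick X u w := by
      rcases hor with h | h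
      · exact ⟨_, S.core_iterate (hcore hP hP') n, Hom.ws_iter hP n, h⟩
      · exact ⟨_, S.core_symm_iterate (hcore hP hP') n, Hom.ws_symm_iter hP n, h⟩
    -- the compact set of kick states
    let K : Set (ℝ × ℝ) := (Icc (1 / 5 : ℝ) (3 / 10) ×ˢ
      Icc (-(3 / (10 * S.L ^ 2))) (3 / (10 * S.L ^ 2))) ∩ {p | |p.1 - xx S.L i| ≤ 3 / 4 * ll S.L i}
    have hKc : IsCompact K := by
      apply IsCompact.inter_right (isCompact_Icc.prod isCompact_Icc)
      exact isClosed_le (by fun_prop) continuous_const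
    have hSt : Continuous (fun p : ℝ × ℝ => St 0 p.1 p.2) := by
      show Continuous (fun p : ℝ × ℝ => proj (p.1, 1 / 2 + p.2))
      exact continuous_proj.comp (by fun_prop)
    have hZ : IsCompact ((fun p : ℝ × ℝ => St 0 p.1 p.2) '' K) := hKc.image hSt
    have hin : ∀ k, S.f^[nn S.β i * (k + 1)] X ∈ (fun p : ℝ × ℝ => St 0 p.1 p.2) '' K := by
      intro k
      obtain ⟨_, u', w', ⟨e1, e2, e3⟩, e4⟩ := hrep X i hi hXc ⟨u, w, hXk, hlt⟩ k
      refine ⟨(u', w'), ⟨⟨e2, abs_le.1 e3⟩, e4⟩, e1.symm⟩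
    obtain ⟨z, hz, hzmin⟩ := hZ.exists_isMinOn ⟨_, hin 0⟩
      (Metric.continuous_infDist_pt O).continuousOn
    have h0 : Metric.infDist z O ≤ 0 := by
      have hX0 : Tendsto (fun k : ℕ => Metric.infDist (S.f^[k] X) O) atTop (𝓝 0) := hXw
      have ht : Tendsto (fun k : ℕ => nn S.β i * (k + 1)) atTop atTop := by
        apply tendsto_atTop_mono (f := fun k => k) (fun k => ?_) tendsto_id
        have hnn : 0 < nn S.β i := by unfold nn; omega
        nlinarith
      refine ge_of_tendsto (hX0.comp ht) (Eventually.of_forall (fun k => ?_))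
      exact hzmin (hin k)
    have hzO : z ∈ O := Hom.mem_of_infDist_zero (Hom.per_finite hO) (Hom.per_nonempty hO)
      (le_antisymm h0 Metric.infDist_nonneg)
    obtain ⟨p, ⟨⟨hp1, hp2⟩, hp3⟩, rfl⟩ := hz
    have := hcase _ hzO i hi p.1 p.2 ⟨rfl, hp1, abs_le.2 hp2⟩
    have h3 : |p.1 - xx S.L i| ≤ 3 / 4 * ll S.L i := hp3
    linarith [hll i]

end Sys

end Pool.Agent.helper15.SD
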