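import Pool.Agent.helper15.SD.DExist
import Pool.Agent.helper15.SD.GExist

/-!
# Choice of the parameters
-/

open Set Filter Topology

namespace Pool.Agent.helper15.SD

theorem exists_params (r ε : ℝ) (hr : 1 < r) (hε : 0 < ε) (hε1 : ε < 1) :
    ∃ (S : Sys r) (e : ℝ), 0 < e ∧ (1 - ε) * Real.log (4 * S.Cd * S.L) / r < e ∧
      Real.log (40 * S.Cz * S.β ^ 2 * S.L ^ (1 / (S.β : ℝ))) < e ∧
      (∀ i, 1 ≤ i → Real.log (10 * S.Cw * S.N i) / nn S.β i < e) ∧
      ∀ η > 0, ∃ i, 1 ≤ i ∧ e - η < Real.log (S.N i / 4) / nn S.β i := by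
  obtain ⟨Cw, hCw, hD⟩ := exists_DData
  obtain ⟨β, hβ2, hβr, hβε⟩ : ∃ β : ℕ, 2 ≤ β ∧ ⌊r⌋₊ + 2 ≤ β ∧ 8 * r / ε ≤ β := by
    refine ⟨max (⌊r⌋₊ + 2) ⌈8 * r / ε⌉₊, ?_, le_max_left _ _, ?_⟩
    · exact le_trans (by omega) (le_max_left _ _)
    · exact (Nat.le_ceil _).trans (by exact_mod_cast le_max_right _ _)
  obtain ⟨Cz, Cd, hCz, hCd, hD⟩ := hD β hβ2
  have hβR : (2 : ℝ) ≤ β := by exact_mod_cast hβ2
  have hβε' : 8 * r ≤ β * ε := by rwa [div_le_iff₀ hε] at hβε
  have hl1 : 0 ≤ Real.log (4 * Cd) := Real.log_nonneg (by linarith)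
  have hl2 : 0 ≤ Real.log (40 * Cz * β ^ 2) := Real.log_nonneg (by nlinarith)
  set M : ℝ := 1000 + 160 * Cw + 2 / ε * Real.log (4 * Cd) +
    8 * r / 3 * Real.log (40 * Cz * β ^ 2) with hM
  have ht1 : 0 ≤ 2 / ε * Real.log (4 * Cd) := by positivity
  have ht2 : 0 ≤ 8 * r / 3 * Real.log (40 * Cz * β ^ 2) := by positivity
  have hM1 : 1000 ≤ M := by linarith
  have hM2 : 160 * Cw ≤ M := by linarith
  set L : ℝ := Real.exp M with hLdef
  have hLM : Real.log L = M := Real.log_exp M
  have hL : 1000 ≤ L := by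
    have := Real.add_one_le_exp M
    linarith
  have hLpos : 0 < L := Real.exp_pos _
  set e : ℝ := (1 - ε / 2) * M / r with he
  have he0 : 0 < e := by
    have : 0 < 1 - ε / 2 := by linarith
    positivity
  have hrpos : 0 < r := by linarith
  have her : e * r = (1 - ε / 2) * M := by rw [he]; field_simp
  set q : ℕ → ℕ := fun i => ⌊Real.exp (nn β i * e) / (80 * Cw)⌋₊ with hq
  have hnn : ∀ i : ℕ, 1 ≤ i → (4 * β * i + 1 : ℝ) = nn β i := by
    intro i _; unfold nn; push_cast; ring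
  -- lower bound for the exponent
  have hexp : ∀ i, 1 ≤ i → M ≤ nn β i * e := by
    intro i hi
    have hi' : (1 : ℝ) ≤ i := by exact_mod_cast hi
    rw [← hnn i hi]
    have h1 : 2 * r * e ≥ M := by
      have : 2 * r * e = (2 - ε) * M := by linear_combination 2 * her
      rw [this]; nlinarith
    have h2 : 2 * r ≤ 4 * β * i + 1 := by
      have : r ≤ β := by nlinarith
      nlinarith
    calc M ≤ 2 * r * e := h1
      _ ≤ (4 * β * i + 1) * e := by gcongr
  have hbig : ∀ i, 1 ≤ i → 160 * Cw ≤ Real.exp (nn β i * e) := by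
    intro i hi
    have := Real.add_one_le_exp (nn β i * e)
    linarith [hexp i hi]
  have hq1 : ∀ i, 1 ≤ i → 1 ≤ q i := by
    intro i hi
    rw [hq]
    simp only
    rw [Nat.one_le_floor_iff, le_div_iff₀ (by positivity)]
    linarith [hbig i hi]
  have hqle : ∀ i, (q i : ℝ) ≤ Real.exp (nn β i * e) / (80 * Cw) := by
    intro i
    exact Nat.floor_le (by positivity)
  have hqge : ∀ i, 1 ≤ i → Real.exp (nn β i * e) / (160 * Cw) ≤ q i := by
    intro i hi
    have h1 : Real.exp (nn β i * e) / (80 * Cw) < q i + 1 := Nat.lt_floor_add_one _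
    have h2 : 1 ≤ Real.exp (nn β i * e) / (160 * Cw) := by
      rw [one_le_div (by positivity)]; exact hbig i hi
    have h3 : Real.exp (nn β i * e) / (80 * Cw) = 2 * (Real.exp (nn β i * e) / (160 * Cw)) := by
      field_simp; ring
    rw [h3] at h1
    linarith
  have hNle : ∀ i, ((4 * q i : ℕ) : ℝ) ≤ Real.exp (nn β i * e) := by
    intro i
    push_cast
    have := hqle i
    calc 4 * (q i : ℝ) ≤ 4 * (Real.exp (nn β i * e) / (80 * Cw)) := by linarith
      _ = Real.exp (nn β i * e) * (1 / (20 * Cw)) := by field_simp; ring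
      _ ≤ Real.exp (nn β i * e) * 1 := by
          gcongr
          rw [div_le_one (by positivity)]; linarith
      _ = _ := mul_one _
  have hLn : ∀ n : ℕ, L ^ n = Real.exp (n * M) := by
    intro n; rw [hLdef, ← Real.exp_nat_mul]
  have h2i : ∀ i : ℕ, (2 : ℝ) ^ i ≤ Real.exp i := by
    intro i
    rw [← Real.exp_one_pow]
    gcongr
    have := Real.add_one_le_exp (1 : ℝ)
    linarith
  -- `n M ε / 2 ≥ 16 r i M`
  have hgap : ∀ i, 1 ≤ i → 16 * r * i * M ≤ nn β i * M * ε / 2 := by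
    intro i hi
    have hi' : (1 : ℝ) ≤ i := by exact_mod_cast hi
    rw [← hnn i hi]
    have h1 : 8 * r * (i * M) ≤ β * ε * (i * M) := by gcongr
    nlinarith
  have hcond1 : ∀ i, 1 ≤ i → ((4 * q i : ℕ) : ℝ) ≤ L ^ nn β i / 2 ^ i := by
    intro i hi
    have hi' : (1 : ℝ) ≤ i := by exact_mod_cast hi
    rw [le_div_iff₀ (by positivity), hLn]
    calc ((4 * q i : ℕ) : ℝ) * 2 ^ i ≤ Real.exp (nn β i * e) * Real.exp i := by
          gcongr
          · exact hNle i
          · exact h2i i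
      _ = Real.exp (nn β i * e + i) := by rw [Real.exp_add]
      _ ≤ Real.exp (nn β i * M) := by
          apply Real.exp_le_exp.2
          have h1 : e ≤ (1 - ε / 2) * M := by
            rw [← her]; nlinarith
          have h2 := hgap i hi
          have h3 : (0 : ℝ) ≤ nn β i := Nat.cast_nonneg _
          have h4 : (nn β i : ℝ) * e ≤ nn β i * ((1 - ε / 2) * M) := by gcongr
          have h5 : (i : ℝ) ≤ 16 * r * i * M := by nlinarith [mul_nonneg (by linarith : (0:ℝ) ≤ i) (by linarith : (0:ℝ) ≤ M)]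
          nlinarith
  have hcond2 : ∃ K : ℝ, ∀ i, 1 ≤ i →
      ll L i / L ^ nn β i * (((4 * q i : ℕ) : ℝ) / ll L i) ^ r ≤ K / 2 ^ i := by
    refine ⟨100 ^ (r - 1), fun i hi => ?_⟩
    have hi' : (1 : ℝ) ≤ i := by exact_mod_cast hi
    have hll : 0 < ll L i := by unfold ll; positivity
    have hq0 : (0 : ℝ) ≤ ((4 * q i : ℕ) : ℝ) := Nat.cast_nonneg _
    rw [Real.div_rpow hq0 hll.le]
    have hNr : ((4 * q i : ℕ) : ℝ) ^ r ≤ Real.exp (nn β i * ((1 - ε / 2) * M)) := by
      calc ((4 * q i : ℕ) : ℝ) ^ r ≤ (Real.exp (nn β i * e)) ^ r :=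
            Real.rpow_le_rpow hq0 (hNle i) hrpos.le
        _ = Real.exp (nn β i * ((1 - ε / 2) * M)) := by
            rw [← Real.exp_mul]; congr 1; rw [← her]; ring
    have hll2 : ll L i / ll L i ^ r = 100 ^ (r - 1) * Real.exp (2 * i * M * (r - 1)) := by
      have e1 : ll L i = (100 * Real.exp (2 * i * M))⁻¹ := by
        unfold ll
        rw [hLn]; push_cast
        field_simp
      have e2 : ll L i / ll L i ^ r = ll L i ^ (1 - r) := by
        rw [Real.rpow_sub hll, Real.rpow_one]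
      rw [e2, e1, Real.inv_rpow (by positivity), ← Real.rpow_neg (by positivity), neg_sub,
        Real.mul_rpow (by norm_num) (by positivity), ← Real.exp_mul]
    calc ll L i / L ^ nn β i * (((4 * q i : ℕ) : ℝ) ^ r / ll L i ^ r)
        = (ll L i / ll L i ^ r) * (((4 * q i : ℕ) : ℝ) ^ r / L ^ nn β i) := by ring
      _ ≤ (100 ^ (r - 1) * Real.exp (2 * i * M * (r - 1))) *
            (Real.exp (nn β i * ((1 - ε / 2) * M)) / Real.exp (nn β i * M)) := by
          rw [hll2, hLn]; gcongr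
      _ = 100 ^ (r - 1) * Real.exp (2 * i * M * (r - 1) - nn β i * M * ε / 2) := by
          rw [← Real.exp_sub, mul_assoc, ← Real.exp_add]; congr 2; ring
      _ ≤ 100 ^ (r - 1) * Real.exp (-i) := by
          gcongr
          have h2 := hgap i hi
          have h5 : (i : ℝ) ≤ i * M := by nlinarith
          nlinarith [mul_nonneg (by linarith : (0:ℝ) ≤ i) (by linarith : (0:ℝ) ≤ M)]
      _ ≤ 100 ^ (r - 1) / 2 ^ i := by
          rw [Real.exp_neg, div_eq_mul_inv]
          gcongr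
          exact h2i i
  obtain ⟨DD⟩ := hD r L (fun i => 4 * q i) hr hβr hL
    (fun i hi => by have := hq1 i hi; omega) hcond1 hcond2
  obtain ⟨GD⟩ := exists_GData L hL
  refine ⟨⟨L, β, fun i => 4 * q i, Cw, Cz, Cd, hr, hL, hβ2, hCw, hCz, hCd,
    fun i hi => ⟨q i, hq1 i hi, rfl⟩, GD, DD⟩, e, he0, ?_, ?_, ?_, ?_⟩
  · simp only
    rw [div_lt_iff₀ hrpos, her, Real.log_mul (by positivity) (by positivity), hLM]
    have h1 : 2 / ε * Real.log (4 * Cd) < M := by linarith
    have h2 : Real.log (4 * Cd) < M * ε / 2 := by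
      rw [div_mul_eq_mul_div, div_lt_iff₀ hε] at h1; linarith
    nlinarith
  · simp only
    rw [Real.log_mul (by positivity) (by positivity), Real.log_rpow hLpos, hLM]
    have h1 : 8 * r / 3 * Real.log (40 * Cz * β ^ 2) < M := by linarith
    have h2 : Real.log (40 * Cz * β ^ 2) < 3 / (8 * r) * M := by
      rw [div_mul_eq_mul_div, lt_div_iff₀ (by positivity)]
      linarith
    have h3' : 1 / (β : ℝ) ≤ ε / (8 * r) := by
      rw [div_le_div_iff₀ (by positivity) (by positivity)]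
      linarith
    have h3 : 1 / (β : ℝ) * M ≤ ε / (8 * r) * M :=
      mul_le_mul_of_nonneg_right h3' (by linarith)
    have h4 : e = (1 - ε / 2) / r * M := by rw [he]; ring
    have h5' : 3 / (8 * r) + ε / (8 * r) ≤ (1 - ε / 2) / r := by
      rw [← add_div, div_le_div_iff₀ (by positivity) hrpos]
      nlinarith
    have h5 : 3 / (8 * r) * M + ε / (8 * r) * M ≤ (1 - ε / 2) / r * M := by
      rw [← add_mul]
      exact mul_le_mul_of_nonneg_right h5' (by linarith)
    linarith
  · intro i hi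
    simp only
    have hn : (0 : ℝ) < nn β i := by unfold nn; positivity
    rw [div_lt_iff₀ hn]
    have hpos : (0 : ℝ) < 10 * Cw * ((4 * q i : ℕ) : ℝ) := by
      have := hq1 i hi
      have : (1 : ℝ) ≤ q i := by exact_mod_cast this
      push_cast; positivity
    rw [Real.log_lt_iff_lt_exp hpos, mul_comm e]
    have h1 := hqle i
    rw [le_div_iff₀ (by positivity)] at h1
    push_cast
    nlinarith [Real.exp_pos (nn β i * e)]
  · intro η hη
    obtain ⟨i, hi⟩ := exists_nat_gt (Real.log (160 * Cw) / η)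
    refine ⟨i + 1, by omega, ?_⟩
    have hi1 : 1 ≤ i + 1 := by omega
    simp only
    have hn : (i : ℝ) + 1 ≤ nn β (i + 1) := by
      rw [← hnn (i + 1) hi1]; push_cast
      nlinarith [(Nat.cast_nonneg i : (0:ℝ) ≤ i)]
    have hnpos : (0 : ℝ) < nn β (i + 1) := by
      have := (Nat.cast_nonneg i : (0:ℝ) ≤ i)
      linarith
    have hlog0 : 0 ≤ Real.log (160 * Cw) := Real.log_nonneg (by linarith)
    have hcast : ((4 * q (i + 1) : ℕ) : ℝ) / 4 = q (i + 1) := by push_cast; ring
    rw [hcast, lt_div_iff₀ hnpos]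
    have h1 : nn β (i + 1) * e - Real.log (160 * Cw) ≤ Real.log (q (i + 1)) := by
      rw [Real.le_log_iff_exp_le (by
        have := hq1 (i + 1) hi1
        exact_mod_cast this), Real.exp_sub, Real.exp_log (by positivity)]
      exact hqge (i + 1) hi1
    have h2 : Real.log (160 * Cw) < η * nn β (i + 1) := by
      rw [div_lt_iff₀ hη] at hi
      nlinarith
    nlinarith

end Pool.Agent.helper15.SD
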