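import Pool.Agent.helper15.SD.CoreState

/-!
# Passes: from one kick to the next one
-/

open Set Filter Topology

namespace Pool.Agent.helper15.SD

theorem St_mod (e : ℕ) (a b : ℝ) : St e a b = St (e % 4) a b := by unfold St; rw [Nat.mod_mod]

namespace Sys

variable {r : ℝ} (S : Sys r)

/-- the norm of a number close to `1/2` -/
theorem norm_half_add {b : ℝ} (hb : |b| ≤ 1 / 10) : 2 / 5 ≤ ‖((1 / 2 + b : ℝ) : UnitAddCircle)‖ := by
  rw [abs_le] at hb
  rcases le_total b 0 with h | h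
  · rw [norm_coe_of_abs_le (by rw [abs_of_nonneg (by linarith)]; linarith),
      abs_of_nonneg (by linarith)]
    linarith
  · have : ((1 / 2 + b : ℝ) : UnitAddCircle) = ((-(1 / 2) + b : ℝ) : UnitAddCircle) := by
      rw [coe_eq_iff]; exact ⟨-1, by push_cast; ring⟩
    rw [this, norm_coe_of_abs_le (by rw [abs_of_nonpos (by linarith)]; linarith),
      abs_of_nonpos (by linarith)]
    linarith

theorem norm_half_sub {b : ℝ} (hb : |b| ≤ 1 / 10) : 2 / 5 ≤ ‖((1 / 2 - b : ℝ) : UnitAddCircle)‖ := by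
  rw [sub_eq_add_neg]
  exact norm_half_add (by rwa [abs_neg])

/-- the stable coordinate after a pass is small -/
theorem pass_snd {u : ℝ} (hu : u ∈ Icc (1 / 5 : ℝ) (3 / 10)) (m : ℕ) (hm : 0 < m) :
    0 < (1 / 2 - u) / S.L ^ (2 * m) ∧ (1 / 2 - u) / S.L ^ (2 * m) ≤ 3 / (10 * S.L ^ 2) := by
  have hL := S.hL
  have hLp := S.L_pos
  refine ⟨div_pos (by linarith [hu.2]) (by positivity), ?_⟩
  have h1 : S.L ^ 2 ≤ S.L ^ (2 * m) := pow_le_pow_right₀ (by linarith) (by omega)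
  have h2 : (0 : ℝ) < S.L ^ 2 := by positivity
  rw [div_le_div_iff₀ (by positivity) (by positivity)]
  nlinarith [hu.1]

theorem abs_t_le {P : T2} {u w : ℝ} (hP : P ∈ S.core) (hk : S.IsKick P u w) :
    |w + S.DD.d u| ≤ 2 / (5 * S.L) := by
  obtain ⟨hPe, hu, hw⟩ := hk
  have hL := S.hL
  have hLp := S.L_pos
  have ha := S.a0_le
  have hap := S.a0_pos
  have hfc := S.core_f hP
  have hf : S.f P = proj (S.GD.G (w + S.DD.d u), 1 / 2 + (1 / 2 - u) / S.L ^ 2) := by
    rw [hPe, S.f_kick_gen hu]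
  have hy := S.pass_snd hu 1 (by norm_num)
  have hsm : (3 : ℝ) / (10 * S.L ^ 2) ≤ 1 / 10 := by
    rw [div_le_div_iff₀ (by positivity) (by norm_num)]; nlinarith
  have hsm2 : (3 : ℝ) / (10 * S.L ^ 2) ≤ 2 / (5 * S.L) := by
    rw [div_le_div_iff₀ (by positivity) (by positivity)]; nlinarith
  have h2 : 2 / 5 ≤ ‖(S.f P).2‖ := by
    rw [hf]
    refine norm_half_add ?_
    simp only [mul_one] at hy
    rw [abs_of_pos hy.1]; linarith [hy.2]
  obtain ⟨u1, w1, hu1, hw1, huu⟩ := S.core_state_zero hfc h2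
  have hu3 : |u1| ≤ 3 / 10 := by
    rcases huu with h | h
    · rw [abs_of_nonneg (by linarith [h.1])]; exact h.2
    · linarith
  have h1 : ‖(S.f P).1‖ ≤ 3 / 10 := by
    rw [hu1, St_zero]; unfold proj; simp only
    rw [norm_coe_of_abs_le (by linarith)]; exact hu3
  rw [hf] at h1
  unfold proj at h1
  simp only at h1
  have hd0 := S.DD.nonneg u
  have hd1 := S.DD.le_half u
  rw [abs_le] at hw
  by_contra hlt
  rw [not_le] at hlt
  have ht : 2 / (5 * S.L) < w + S.DD.d u := by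
    rcases lt_abs.1 hlt with h | h
    · exact h
    · linarith [hw.1]
  have hG1 := S.GD.mono ht
  rw [S.G_a0] at hG1
  have hG2 : S.GD.G (w + S.DD.d u) ≤ S.GD.G (1 / 2 + 1 / 10) :=
    S.GD.mono.monotone (by linarith [hw.2])
  rw [S.G_half (by rw [abs_of_nonneg (by norm_num)]; norm_num)] at hG2
  have h5 : (1 : ℝ) / 10 / S.L ^ 2 ≤ 1 / 10 := by
    rw [div_div, div_le_div_iff₀ (by positivity) (by norm_num)]; nlinarith
  have h6 := norm_half_add (b := S.GD.G (w + S.DD.d u) - 1 / 2) (by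
    rw [abs_le]; constructor <;> linarith)
  rw [add_sub_cancel] at h6
  linarith

/-- a state with small unstable coordinate is not a kick state -/
theorem not_kick_of_small {e : ℕ} {a b : ℝ} (ha : |a| < 2 / (5 * S.L)) (hb : |b| < 1 / 8)
    (u w : ℝ) : ¬ S.IsKick (St e a b) u w := by
  rintro ⟨h, hu, hw⟩
  have ha0 := S.a0_le
  have hw' := S.w_lt hw
  have hu' : |u| ≤ 3 / 10 := by rw [abs_of_nonneg (by linarith [hu.1])]; exact hu.2
  have hu1 : 1 / 5 ≤ |u| := by rw [abs_of_nonneg (by linarith [hu.1])]; exact hu.1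
  rw [St_mod] at h
  have he : e % 4 < 4 := Nat.mod_lt _ (by norm_num)
  generalize e % 4 = k at h he
  interval_cases k
  · have := (St_inj (Or.inl rfl) (by linarith) (by linarith) (by linarith) (by linarith) h).1
    rw [this] at ha; linarith
  · exact St_ne (by linarith) (by linarith) (by linarith) (by linarith) h.symm
  · rw [St_two'] at h
    have := (St_inj (Or.inl rfl) (by rw [abs_neg]; linarith) (by rw [abs_neg]; linarith)
      (by linarith) (by linarith) h).1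
    rw [← abs_neg, this] at ha; linarith
  · rw [St_three'] at h
    exact St_ne (by linarith) (by linarith) (by rw [abs_neg]; linarith)
      (by rw [abs_neg]; linarith) h.symm

/-- The general structure of a pass. -/
theorem pass_gen {P : T2} {u w : ℝ} (hP : P ∈ S.core) (hk : S.IsKick P u w)
    (ht : w + S.DD.d u ≠ 0) :
    ∃ m : ℕ, S.L ^ (m + 1) * |w + S.DD.d u| ∈ Icc (1 / 5 : ℝ) (3 / 10) ∧
      ((m % 4 = 0 ∧ 0 < w + S.DD.d u) ∨ (m % 4 = 2 ∧ w + S.DD.d u < 0)) ∧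
      ∀ k, 0 < k → k < m + 1 → ∀ u' w', ¬ S.IsKick (S.f^[k] P) u' w' := by
  have hL := S.hL
  have hLp := S.L_pos
  have ha := S.a0_le
  have hap := S.a0_pos
  have htle := S.abs_t_le hP hk
  obtain ⟨hPe, hu, hw⟩ := hk
  set t := w + S.DD.d u with htdef
  have htpos : 0 < |t| := abs_pos.2 ht
  have hex : ∃ m : ℕ, 2 / (5 * S.L) ≤ S.L ^ (m + 1) * |t| := by
    obtain ⟨n, hn⟩ := pow_unbounded_of_one_lt (2 / (5 * S.L) / |t|)
      (show 1 < S.L by linarith)
    refine ⟨n, ?_⟩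
    rw [div_lt_iff₀ htpos] at hn
    have : S.L ^ n ≤ S.L ^ (n + 1) := pow_le_pow_right₀ (by linarith) (by omega)
    nlinarith
  classical
  obtain ⟨m, hm, hmin⟩ : ∃ m : ℕ, 2 / (5 * S.L) ≤ S.L ^ (m + 1) * |t| ∧
      ∀ k, k < m → S.L ^ (k + 1) * |t| < 2 / (5 * S.L) :=
    ⟨Nat.find hex, Nat.find_spec hex, fun k hk => not_le.1 (Nat.find_min hex hk)⟩
  have hprev : S.L ^ m * |t| ≤ 2 / (5 * S.L) := by
    rcases m with _ | m
    · simpa using htle
    · exact (hmin m (by omega)).le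
  have hup : S.L ^ (m + 1) * |t| ≤ 2 / 5 := by
    rw [le_div_iff₀ (by positivity)] at hprev
    rw [pow_succ]; linarith
  have hB := S.pass_snd hu (m + 1) (by omega)
  set B := (1 / 2 - u) / S.L ^ (2 * (m + 1)) with hBdef
  have hit : S.f^[m + 1] P = St m (S.L ^ (m + 1) * t) B := by
    rw [hPe]; exact S.iterate_kick hu m hup
  set A := S.L ^ (m + 1) * t with hA
  have hAabs : |A| = S.L ^ (m + 1) * |t| := by
    rw [hA, abs_mul, abs_of_pos (pow_pos hLp _)]
  have hAlo : 2 / (5 * S.L) ≤ |A| := by rw [hAabs]; exact hm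
  have hAup : |A| ≤ 2 / 5 := by rw [hAabs]; exact hup
  have hB8 : |B| ≤ 1 / 10 := by
    rw [abs_of_pos hB.1]
    refine hB.2.trans ?_
    rw [div_le_div_iff₀ (by positivity) (by norm_num)]; nlinarith
  have hc := S.core_iterate hP (m + 1)
  have hAn : ‖((A : ℝ) : UnitAddCircle)‖ = |A| := norm_coe_of_abs_le (by linarith)
  have hAn' : ‖((-A : ℝ) : UnitAddCircle)‖ = |A| := by
    rw [norm_coe_of_abs_le (by rw [abs_neg]; linarith), abs_neg]
  have hB1 := norm_half_add hB8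
  have hB2 := norm_half_sub hB8
  have hnok : ∀ k, 0 < k → k < m + 1 → ∀ u' w', ¬ S.IsKick (S.f^[k] P) u' w' := by
    intro k hk0 hkm u' w'
    obtain ⟨k', rfl⟩ : ∃ k', k = k' + 1 := ⟨k - 1, by omega⟩
    have hk' : k' < m := by omega
    have h1 := hmin k' hk'
    have h2 : S.f^[k' + 1] P = St k' (S.L ^ (k' + 1) * t) ((1 / 2 - u) / S.L ^ (2 * (k' + 1))) := by
      rw [hPe]; exact S.iterate_kick hu k' (by linarith)
    rw [h2]
    apply S.not_kick_of_small
    · rw [abs_mul, abs_of_pos (pow_pos hLp _)]; exact h1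
    · have hB' := S.pass_snd hu (k' + 1) (by omega)
      apply S.w_lt
      rw [abs_of_pos hB'.1]; exact hB'.2
  have hmain : |A| ∈ Icc (1 / 5 : ℝ) (3 / 10) ∧ ((m % 4 = 0 ∧ 0 < A) ∨ (m % 4 = 2 ∧ A < 0)) := by
    rw [hit, St_mod] at hc
    have he : m % 4 < 4 := Nat.mod_lt _ (by norm_num)
    generalize m % 4 = k at hc he
    interval_cases k
    · rw [St_zero] at hc
      obtain ⟨v, hv, hv1⟩ := S.core_not1 hc (by unfold proj; simp only; rw [hAn]; exact hAlo)
        (by unfold proj; simp only; linarith)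
      have : A = v := coe_eq_of_abs_le (by linarith)
        (by rw [abs_of_nonneg (by linarith [hv.1])]; linarith [hv.2]) hv1
      rw [this]
      have hv0 : 0 < v := by linarith [hv.1]
      exact ⟨by rw [abs_of_pos hv0]; exact hv, Or.inl ⟨rfl, hv0⟩⟩
    · rw [St_one] at hc
      have := (S.core_not1 hc (by unfold proj; simp only; linarith)
        (by unfold proj; simp only; rw [hAn']; exact hAlo)).norm.2
      unfold proj at this; simp only at this
      linarith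
    · rw [St_two] at hc
      obtain ⟨v, hv, hv1⟩ := S.core_not1 hc (by unfold proj; simp only; rw [hAn']; exact hAlo)
        (by unfold proj; simp only; linarith)
      have : -A = v := coe_eq_of_abs_le (by rw [abs_neg]; linarith)
        (by rw [abs_of_nonneg (by linarith [hv.1])]; linarith [hv.2]) hv1
      have hv0 : 0 < v := by linarith [hv.1]
      refine ⟨by rw [← abs_neg, this, abs_of_pos hv0]; exact hv, Or.inr ⟨rfl, by linarith⟩⟩
    · rw [St_three] at hc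
      have := (S.core_not1 hc (by unfold proj; simp only; linarith)
        (by unfold proj; simp only; rw [hAn]; exact hAlo)).norm.2
      unfold proj at this; simp only at this
      linarith
  have hpp : 0 < S.L ^ (m + 1) := by positivity
  refine ⟨m, by rw [← hAabs]; exact hmain.1, ?_, hnok⟩
  rcases hmain.2 with ⟨h1, h2⟩ | ⟨h1, h2⟩
  · exact Or.inl ⟨h1, pos_of_mul_pos_right h2 hpp.le⟩
  · refine Or.inr ⟨h1, ?_⟩
    by_contra h3
    rw [not_lt] at h3
    have : 0 ≤ A := mul_nonneg hpp.le h3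
    linarith

theorem pass_pos {P : T2} {u w : ℝ} (hP : P ∈ S.core) (hk : S.IsKick P u w)
    (ht : 0 < w + S.DD.d u) :
    ∃ j : ℕ, S.L ^ (4 * j + 1) * (w + S.DD.d u) ∈ Icc (1 / 5 : ℝ) (3 / 10) ∧
      ∀ k, 0 < k → k < 4 * j + 1 → ∀ u' w', ¬ S.IsKick (S.f^[k] P) u' w' := by
  obtain ⟨m, h1, h2, h3⟩ := S.pass_gen hP hk ht.ne'
  rcases h2 with h2 | h2
  · obtain ⟨j, rfl⟩ : ∃ j, m = 4 * j := ⟨m / 4, by omega⟩
    rw [abs_of_pos ht] at h1
    exact ⟨j, h1, h3⟩
  · linarith [h2.2]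

theorem pass_neg {P : T2} {u w : ℝ} (hP : P ∈ S.core) (hk : S.IsKick P u w)
    (ht : w + S.DD.d u < 0) :
    ∃ j : ℕ, S.L ^ (4 * j + 3) * |w + S.DD.d u| ∈ Icc (1 / 5 : ℝ) (3 / 10) ∧
      ∀ k, 0 < k → k < 4 * j + 3 → ∀ u' w', ¬ S.IsKick (S.f^[k] P) u' w' := by
  obtain ⟨m, h1, h2, h3⟩ := S.pass_gen hP hk ht.ne
  rcases h2 with h2 | h2
  · linarith [h2.2]
  · obtain ⟨j, rfl⟩ : ∃ j, m = 4 * j + 2 := ⟨m / 4, by omega⟩
    exact ⟨j, h1, h3⟩

theorem pass_zero {P : T2} {u w : ℝ} (hk : S.IsKick P u w) (ht : w + S.DD.d u = 0) (k : ℕ)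
    (hk0 : 0 < k) (u' w' : ℝ) : ¬ S.IsKick (S.f^[k] P) u' w' := by
  obtain ⟨hPe, hu, hw⟩ := hk
  obtain ⟨k', rfl⟩ : ∃ k', k = k' + 1 := ⟨k - 1, by omega⟩
  have h2 : S.f^[k' + 1] P = St k' (S.L ^ (k' + 1) * (w + S.DD.d u))
      ((1 / 2 - u) / S.L ^ (2 * (k' + 1))) := by
    rw [hPe]; exact S.iterate_kick hu k' (by rw [ht]; norm_num)
  rw [h2]
  apply S.not_kick_of_small
  · rw [ht, mul_zero, abs_zero]; exact S.a0_pos
  · have hB' := S.pass_snd hu (k' + 1) (by omega)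
    apply S.w_lt
    rw [abs_of_pos hB'.1]; exact hB'.2

/-- a pass of length `4 j + 1` ends in a kick state -/
theorem isKick_pass {P : T2} {u w : ℝ} (hk : S.IsKick P u w) (j : ℕ)
    (ht : S.L ^ (4 * j + 1) * (w + S.DD.d u) ∈ Icc (1 / 5 : ℝ) (3 / 10)) :
    S.IsKick (S.f^[4 * j + 1] P) (S.L ^ (4 * j + 1) * (w + S.DD.d u))
      ((1 / 2 - u) / S.L ^ (2 * (4 * j + 1))) := by
  obtain ⟨hPe, hu, hw⟩ := hk
  have hLp := S.L_pos
  have ht0 : 0 ≤ w + S.DD.d u := by
    by_contra h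
    have := mul_neg_of_pos_of_neg (pow_pos hLp (4 * j + 1)) (not_le.1 h)
    linarith [ht.1]
  have h2 : S.f^[4 * j + 1] P = St (4 * j) (S.L ^ (4 * j + 1) * (w + S.DD.d u))
      ((1 / 2 - u) / S.L ^ (2 * (4 * j + 1))) := by
    rw [hPe]; exact S.iterate_kick hu (4 * j) (by
      rw [abs_of_nonneg ht0]; linarith [ht.2])
  refine ⟨?_, ht, ?_⟩
  · rw [h2, St_mod, Nat.mul_mod_right]
  · have hB' := S.pass_snd hu (4 * j + 1) (by omega)
    rw [abs_of_pos hB'.1]; exact hB'.2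

/-- a pass of length `4 j + 3` (negative coordinate) ends in a kick state -/
theorem isKick_pass_neg {P : T2} {u w : ℝ} (hk : S.IsKick P u w) (hneg : w + S.DD.d u < 0) (j : ℕ)
    (ht : S.L ^ (4 * j + 3) * |w + S.DD.d u| ∈ Icc (1 / 5 : ℝ) (3 / 10)) :
    S.IsKick (S.f^[4 * j + 3] P) (S.L ^ (4 * j + 3) * |w + S.DD.d u|)
      (-((1 / 2 - u) / S.L ^ (2 * (4 * j + 3)))) := by
  obtain ⟨hPe, hu, hw⟩ := hk
  have hLp := S.L_pos
  have h2 : S.f^[4 * j + 3] P = St (4 * j + 2) (S.L ^ (4 * j + 3) * (w + S.DD.d u))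
      ((1 / 2 - u) / S.L ^ (2 * (4 * j + 3))) := by
    rw [hPe]; exact S.iterate_kick hu (4 * j + 2) (by linarith [ht.2])
  refine ⟨?_, ht, ?_⟩
  · rw [h2, St_mod]
    have : (4 * j + 2) % 4 = 2 := by omega
    rw [this, St_two', abs_of_neg hneg, mul_neg]
  · have hB' := S.pass_snd hu (4 * j + 3) (by omega)
    rw [abs_neg, abs_of_pos hB'.1]; exact hB'.2

end Sys

end Pool.Agent.helper15.SD
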