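import Pool.Agent.helper15.SD.Hol1

/-! The periodic shear `ψ` is in the same Hölder class as `d`. -/

open Set Filter Topology

namespace Pool.Agent.helper15.SD

namespace Sys

variable {r : ℝ} (S : Sys r)

lemma psi_eq_on (n : ℤ) {x : ℝ} (h1 : (n : ℝ) - 7 / 10 < x) (h2 : x < n + 1) :
    S.psi x = S.DD.d (x - n) + -(1 / 2) := by
  unfold psi
  rcases le_or_gt (n : ℝ) x with h | h
  · have hf : ⌊x⌋ = n := Int.floor_eq_iff.2 ⟨h, h2⟩
    have : Int.fract x = x - n := by rw [Int.fract, hf]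
    rw [this]; ring
  · have hf : ⌊x⌋ = n - 1 := by
      rw [Int.floor_eq_iff]
      push_cast
      constructor <;> linarith
    have h3 : Int.fract x = x - n + 1 := by
      rw [Int.fract, hf]; push_cast; ring
    rw [h3, S.DD.right _ (by linarith), S.DD.left _ (by linarith)]
    ring

lemma psi_eventuallyEq (n : ℤ) {x : ℝ} (h1 : (n : ℝ) - 7 / 10 < x) (h2 : x < n + 1) :
    S.psi =ᶠ[𝓝 x] fun y => S.DD.d (y - n) + -(1 / 2) := by
  filter_upwards [Ioo_mem_nhds h1 h2] with y hy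
  exact S.psi_eq_on n hy.1 hy.2

include S in
lemma floor_r_pos : 1 ≤ ⌊r⌋₊ := by
  rw [Nat.one_le_floor_iff]
  exact S.hr.le

include S in
lemma alpha_nonneg : 0 ≤ r - (⌊r⌋₊ : ℝ) := by
  have := Nat.floor_le (zero_le_one.trans S.hr.le)
  linarith

include S in
lemma alpha_le_one : r - (⌊r⌋₊ : ℝ) ≤ 1 := by
  have _h := S.hr
  have := Nat.lt_floor_add_one r
  linarith

/-- `d - 1/2` -/
lemma holB_e : HolB (r - (⌊r⌋₊ : ℝ)) ⌊r⌋₊ (fun u => S.DD.d u + -(1 / 2)) :=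
  S.DD.hol.add (holB_const _)

lemma iteratedFDeriv_psi (n : ℤ) (j : ℕ) {x : ℝ} (h1 : (n : ℝ) - 7 / 10 < x) (h2 : x < n + 1) :
    iteratedFDeriv ℝ j S.psi x =
      iteratedFDeriv ℝ j (fun u => S.DD.d u + -(1 / 2)) (x - n) := by
  have h := S.psi_eventuallyEq n h1 h2
  rw [(Filter.EventuallyEq.iteratedFDeriv ℝ h j).eq_of_nhds]
  exact iteratedFDeriv_comp_sub j (f := fun u => S.DD.d u + -(1 / 2)) (n : ℝ) x

theorem psi_holB : HolB (r - (⌊r⌋₊ : ℝ)) ⌊r⌋₊ S.psi := by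
  obtain ⟨h1, C, h2, h3⟩ := S.holB_e
  have hC : 0 ≤ C := (norm_nonneg _).trans (h2 0 (Nat.zero_le _) 0)
  have hfl : ∀ x : ℝ, ((⌊x⌋ : ℤ) : ℝ) - 7 / 10 < x ∧ x < (⌊x⌋ : ℤ) + 1 := by
    intro x
    have ha := Int.floor_le x
    have hb := Int.lt_floor_add_one x
    constructor <;> linarith
  have hb : ∀ j ≤ ⌊r⌋₊, ∀ x, ‖iteratedFDeriv ℝ j S.psi x‖ ≤ C := by
    intro j hj x
    rw [S.iteratedFDeriv_psi ⌊x⌋ j (hfl x).1 (hfl x).2]
    exact h2 j hj _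
  refine ⟨?_, 4 * C, ?_, ?_⟩
  · rw [contDiff_iff_contDiffAt]
    intro x
    have h4 : ContDiffAt ℝ ⌊r⌋₊ (fun y : ℝ => S.DD.d (y - (⌊x⌋ : ℤ)) + -(1 / 2)) x :=
      (h1.comp (contDiff_id.sub contDiff_const)).contDiffAt
    exact h4.congr_of_eventuallyEq (S.psi_eventuallyEq ⌊x⌋ (hfl x).1 (hfl x).2)
  · intro j hj x
    exact (hb j hj x).trans (by linarith)
  · intro x y
    have h0 := S.alpha_nonneg
    have h1' := S.alpha_le_one
    rcases lt_or_ge |x - y| (1 / 2) with h | h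
    · -- a common chart
      have hr0 : 0 ≤ ‖x - y‖ ^ (r - (⌊r⌋₊ : ℝ)) := Real.rpow_nonneg (norm_nonneg _) _
      have key : ∀ n : ℤ, (n : ℝ) - 7 / 10 < x → x < n + 1 → (n : ℝ) - 7 / 10 < y → y < n + 1 →
          ‖iteratedFDeriv ℝ ⌊r⌋₊ S.psi x - iteratedFDeriv ℝ ⌊r⌋₊ S.psi y‖ ≤
            4 * C * ‖x - y‖ ^ (r - (⌊r⌋₊ : ℝ)) := by
        intro n a1 a2 a3 a4
        rw [S.iteratedFDeriv_psi n _ a1 a2, S.iteratedFDeriv_psi n _ a3 a4]
        refine (h3 _ _).trans ?_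
        rw [sub_sub_sub_cancel_right]
        nlinarith [mul_nonneg hC hr0]
      rw [abs_lt] at h
      rcases le_total x y with hxy | hxy
      · refine key ⌊y⌋ ?_ ?_ (hfl y).1 (hfl y).2
        · have := Int.floor_le y
          linarith
        · exact lt_of_le_of_lt hxy (hfl y).2
      · refine key ⌊x⌋ (hfl x).1 (hfl x).2 ?_ ?_
        · have := Int.floor_le x
          linarith
        · exact lt_of_le_of_lt hxy (hfl x).2
    · have h5 : (1 / 2 : ℝ) ≤ ‖x - y‖ ^ (r - (⌊r⌋₊ : ℝ)) := by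
        calc (1 / 2 : ℝ) = (1 / 2 : ℝ) ^ (1 : ℝ) := (Real.rpow_one _).symm
          _ ≤ (1 / 2 : ℝ) ^ (r - (⌊r⌋₊ : ℝ)) :=
              Real.rpow_le_rpow_of_exponent_ge (by norm_num) (by norm_num) h1'
          _ ≤ ‖x - y‖ ^ (r - (⌊r⌋₊ : ℝ)) :=
              Real.rpow_le_rpow (by norm_num) (by rw [Real.norm_eq_abs]; exact h) h0
      have h6 := norm_sub_le (iteratedFDeriv ℝ ⌊r⌋₊ S.psi x) (iteratedFDeriv ℝ ⌊r⌋₊ S.psi y)
      have h7 := hb _ le_rfl x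
      have h8 := hb _ le_rfl y
      nlinarith

theorem differentiable_psi : Differentiable ℝ S.psi := by
  have h := S.psi_holB.1
  refine h.differentiable ?_
  have := S.floor_r_pos
  exact_mod_cast (by omega : ⌊r⌋₊ ≠ 0)

theorem abs_deriv_psi_le (x : ℝ) : |deriv S.psi x| ≤ S.Cd := by
  rw [← Real.norm_eq_abs]
  have hfl : ((⌊x⌋ : ℤ) : ℝ) - 7 / 10 < x ∧ x < (⌊x⌋ : ℤ) + 1 := by
    have ha := Int.floor_le x
    have hb := Int.lt_floor_add_one x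
    constructor <;> linarith
  refine norm_deriv_le_of_lip' (zero_le_one.trans S.hCd) ?_
  filter_upwards [Ioo_mem_nhds hfl.1 hfl.2] with y hy
  rw [S.psi_eq_on ⌊x⌋ hy.1 hy.2, S.psi_eq_on ⌊x⌋ hfl.1 hfl.2, add_sub_add_right_eq_sub,
    Real.norm_eq_abs, Real.norm_eq_abs]
  have := S.DD.lip (y - (⌊x⌋ : ℤ)) (x - (⌊x⌋ : ℤ))
  rwa [sub_sub_sub_cancel_right] at this

end Sys

end Pool.Agent.helper15.SD
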