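import Pool.Agent.helper15.SD.Defs

/-!
# Torus toolkit: the covering map, induced homeomorphisms, the diffeomorphism `S.f`.
-/

open Set Filter Topology

namespace Pool.Agent.helper15.SD

theorem proj_eq_iff (v w : ℝ × ℝ) :
    proj v = proj w ↔ ∃ m n : ℤ, w.1 = v.1 + m ∧ w.2 = v.2 + n := by
  unfold proj
  rw [Prod.mk.injEq]
  constructor
  · rintro ⟨h1, h2⟩
    rw [QuotientAddGroup.eq] at h1 h2
    rw [AddSubgroup.mem_zmultiples_iff] at h1 h2
    obtain ⟨m, hm⟩ := h1
    obtain ⟨n, hn⟩ := h2
    refine ⟨m, n, ?_, ?_⟩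
    · simp at hm; linarith
    · simp at hn; linarith
  · rintro ⟨m, n, h1, h2⟩
    constructor
    · rw [QuotientAddGroup.eq, AddSubgroup.mem_zmultiples_iff]
      exact ⟨m, by simp [h1]⟩
    · rw [QuotientAddGroup.eq, AddSubgroup.mem_zmultiples_iff]
      exact ⟨n, by simp [h2]⟩

theorem proj_add_int (v : ℝ × ℝ) (m n : ℤ) : proj (v.1 + m, v.2 + n) = proj v :=
  ((proj_eq_iff v _).2 ⟨m, n, rfl, rfl⟩).symm

theorem proj_surjective : Function.Surjective proj := by
  rintro ⟨a, b⟩
  obtain ⟨x, rfl⟩ := QuotientAddGroup.mk_surjective a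
  obtain ⟨y, rfl⟩ := QuotientAddGroup.mk_surjective b
  exact ⟨(x, y), rfl⟩

theorem continuous_proj : Continuous proj := by
  unfold proj
  exact ((AddCircle.continuous_mk' 1).comp continuous_fst).prodMk
    ((AddCircle.continuous_mk' 1).comp continuous_snd)

theorem isOpenMap_proj : IsOpenMap proj := by
  have h : IsOpenMap (fun x : ℝ => (x : UnitAddCircle)) := QuotientAddGroup.isOpenMap_coe
  exact h.prodMap h

theorem isQuotientMap_proj : IsQuotientMap proj :=
  isOpenMap_proj.isQuotientMap continuous_proj proj_surjective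

/-- The distance on the torus is at most the distance of lifts. -/
theorem dist_proj_le (v w : ℝ × ℝ) : dist (proj v) (proj w) ≤ max |v.1 - w.1| |v.2 - w.2| := by
  unfold proj
  rw [Prod.dist_eq]
  apply max_le_max
  · rw [dist_eq_norm, ← AddCircle.coe_sub]
    simpa using UnitAddCircle.norm_eq (x := v.1 - w.1) ▸ (by
      have := round_le (v.1 - w.1) 0
      simpa using this)
  · rw [dist_eq_norm, ← AddCircle.coe_sub]
    simpa using UnitAddCircle.norm_eq (x := v.2 - w.2) ▸ (by
      have := round_le (v.2 - w.2) 0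
      simpa using this)

theorem norm_coe_of_abs_le {x : ℝ} (h : |x| ≤ 1 / 2) : ‖(x : UnitAddCircle)‖ = |x| := by
  exact (AddCircle.norm_coe_eq_abs_iff (1 : ℝ) one_ne_zero).2 (by simpa using h)

/-- The distance on the torus controls the difference of first coordinates of close lifts. -/
theorem abs_fst_le_dist {v w : ℝ × ℝ} (h : |v.1 - w.1| ≤ 1 / 2) :
    |v.1 - w.1| ≤ dist (proj v) (proj w) := by
  unfold proj
  rw [Prod.dist_eq]
  apply le_max_of_le_left
  rw [dist_eq_norm, ← AddCircle.coe_sub, norm_coe_of_abs_le h]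

theorem abs_snd_le_dist {v w : ℝ × ℝ} (h : |v.2 - w.2| ≤ 1 / 2) :
    |v.2 - w.2| ≤ dist (proj v) (proj w) := by
  unfold proj
  rw [Prod.dist_eq]
  apply le_max_of_le_right
  rw [dist_eq_norm, ← AddCircle.coe_sub, norm_coe_of_abs_le h]

/-- The map of the torus induced by an equivariant map of the plane. -/
noncomputable def induced (F : ℝ × ℝ → ℝ × ℝ) (q : T2) : T2 :=
  proj (F (Function.surjInv proj_surjective q))

theorem induced_proj {F : ℝ × ℝ → ℝ × ℝ}
    (hF : ∀ v w, proj v = proj w → proj (F v) = proj (F w)) (v : ℝ × ℝ) :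
    induced F (proj v) = proj (F v) :=
  hF _ _ (Function.surjInv_eq proj_surjective (proj v))

theorem continuous_induced {F : ℝ × ℝ → ℝ × ℝ} (hc : Continuous F)
    (hF : ∀ v w, proj v = proj w → proj (F v) = proj (F w)) : Continuous (induced F) := by
  rw [isQuotientMap_proj.continuous_iff]
  have : induced F ∘ proj = proj ∘ F := by
    funext v; exact induced_proj hF v
  rw [this]
  exact continuous_proj.comp hc

/-- The homeomorphism of the torus induced by an equivariant homeomorphism of the plane. -/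
noncomputable def inducedHomeo (F F' : ℝ × ℝ → ℝ × ℝ) (hc : Continuous F) (hc' : Continuous F')
    (hF : ∀ v w, proj v = proj w → proj (F v) = proj (F w))
    (hF' : ∀ v w, proj v = proj w → proj (F' v) = proj (F' w))
    (hl : ∀ v, F' (F v) = v) (hr : ∀ v, F (F' v) = v) : T2 ≃ₜ T2 where
  toFun := induced F
  invFun := induced F'
  left_inv q := by
    obtain ⟨v, rfl⟩ := proj_surjective q
    rw [induced_proj hF, induced_proj hF', hl]
  right_inv q := by
    obtain ⟨v, rfl⟩ := proj_surjective q
    rw [induced_proj hF', induced_proj hF, hr]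
  continuous_toFun := continuous_induced hc hF
  continuous_invFun := continuous_induced hc' hF'

namespace Sys

variable {r : ℝ} (S : Sys r)

theorem L_pos : 0 < S.L := by linarith [S.hL]

theorem continuous_d : Continuous S.DD.d := S.DD.hol.1.continuous

theorem psi_int (x : ℝ) (m : ℤ) : S.psi (x + m) = S.psi x := by
  unfold psi; rw [Int.fract_add_intCast]

theorem psi_of_mem {x : ℝ} (h0 : 0 ≤ x) (h1 : x < 1) : S.psi x = S.DD.d x - 1 / 2 := by
  unfold psi; rw [Int.fract_eq_self.2 ⟨h0, h1⟩]

theorem continuous_psi : Continuous S.psi := by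
  have hd := S.continuous_d
  have h : Continuous (S.DD.d ∘ Int.fract) := by
    apply ContinuousOn.comp_fract'' hd.continuousOn
    rw [S.DD.left 0 (by norm_num), S.DD.right 1 (by norm_num)]
  exact h.sub continuous_const

theorem G_int (x : ℝ) (m : ℤ) : S.GD.G (x + m) = S.GD.G x + m := by
  induction m using Int.induction_on with
  | zero => simp
  | succ i ih =>
    have := S.GD.deg (x + i)
    push_cast at *
    rw [← add_assoc, this, ih]; ring
  | pred i ih =>
    have := S.GD.deg (x + (-(i : ℝ) - 1))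
    push_cast at *
    have h2 : x + (-(i : ℝ) - 1) + 1 = x + -(i : ℝ) := by ring
    rw [h2, ih] at this
    linarith

theorem Gi_int (x : ℝ) (m : ℤ) : S.GD.Gi (x + m) = S.GD.Gi x + m := by
  apply S.GD.mono.injective
  rw [S.GD.G_Gi, G_int, S.GD.G_Gi]

theorem Gi_odd (x : ℝ) : S.GD.Gi (-x) = -S.GD.Gi x := by
  apply S.GD.mono.injective
  rw [S.GD.G_Gi, S.GD.odd, S.GD.G_Gi]

theorem continuous_G : Continuous S.GD.G := (S.GD.G_smooth 0).continuous

theorem continuous_Gi : Continuous S.GD.Gi := (S.GD.Gi_smooth 0).continuous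

theorem continuous_FF : Continuous S.FF := by
  unfold FF
  exact (S.continuous_G.comp (continuous_snd.add (S.continuous_psi.comp continuous_fst))).prodMk
    (S.continuous_G.comp continuous_fst).neg

theorem continuous_FF' : Continuous S.FF' := by
  unfold FF'
  exact ((S.continuous_Gi.comp continuous_snd).neg).prodMk
    ((S.continuous_Gi.comp continuous_fst).sub
      (S.continuous_psi.comp (S.continuous_Gi.comp continuous_snd).neg))

theorem FF'_FF (v : ℝ × ℝ) : S.FF' (S.FF v) = v := by
  unfold FF FF'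
  simp only [S.Gi_odd, S.GD.Gi_G, neg_neg]
  ext <;> simp

theorem FF_FF' (v : ℝ × ℝ) : S.FF (S.FF' v) = v := by
  unfold FF FF'
  simp only [sub_add_cancel, S.GD.G_Gi, S.GD.odd, neg_neg]

theorem FF_proj (v w : ℝ × ℝ) (h : proj v = proj w) : proj (S.FF v) = proj (S.FF w) := by
  obtain ⟨m, n, h1, h2⟩ := (proj_eq_iff v w).1 h
  rw [proj_eq_iff]
  refine ⟨n, -m, ?_, ?_⟩
  · unfold FF
    simp only
    rw [h1, h2, psi_int, ← S.G_int]
    congr 1; ring
  · unfold FF
    simp only
    rw [h1, G_int]; push_cast; ring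

theorem FF'_proj (v w : ℝ × ℝ) (h : proj v = proj w) : proj (S.FF' v) = proj (S.FF' w) := by
  obtain ⟨m, n, h1, h2⟩ := (proj_eq_iff v w).1 h
  rw [proj_eq_iff]
  refine ⟨-n, m, ?_, ?_⟩
  · unfold FF'
    simp only
    rw [h2, Gi_int]; push_cast; ring
  · unfold FF'
    simp only
    rw [h1, h2, Gi_int, Gi_int]
    have : -(S.GD.Gi v.2 + (n : ℝ)) = -S.GD.Gi v.2 + ((-n : ℤ) : ℝ) := by push_cast; ring
    rw [this, psi_int]; ring

/-- The homeomorphism of the torus. -/
noncomputable def f : T2 ≃ₜ T2 :=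
  inducedHomeo S.FF S.FF' S.continuous_FF S.continuous_FF' S.FF_proj S.FF'_proj S.FF'_FF S.FF_FF'

theorem f_proj (v : ℝ × ℝ) : S.f (proj v) = proj (S.FF v) := induced_proj S.FF_proj v

theorem f_symm_proj (v : ℝ × ℝ) : S.f.symm (proj v) = proj (S.FF' v) := induced_proj S.FF'_proj v

end Sys

end Pool.Agent.helper15.SD
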